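import Mathlib

namespace Pool.Agent.Helper832.Blk

open Finset

/-- the standard additive character -/
noncomputable def ps (p : ℕ) [Fact p.Prime] : AddChar (ZMod p) ℂ := ZMod.stdAddChar

section sums

variable {p : ℕ} [Fact p.Prime]

lemma ps_norm (x : ZMod p) : ‖ps p x‖ = 1 := AddChar.norm_apply _ _

lemma ps_conj (x : ZMod p) : (starRingEnd ℂ) (ps p x) = ps p (-x) :=
  (AddChar.map_neg_eq_conj (ps p) x).symm

lemma ps_sum (b : ZMod p) : ∑ x, ps p (x * b) = if b = 0 then (p : ℂ) else 0 := by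
  have h := AddChar.sum_mulShift (ψ := ps p) b (ZMod.isPrimitive_stdAddChar p)
  rw [h]
  split_ifs <;> simp [ZMod.card]

/-- Weyl differencing -/
lemma weyl (f : ZMod p → ZMod p) :
    ((‖∑ x, ps p (f x)‖ ^ 2 : ℝ) : ℂ) = ∑ h, ∑ x, ps p (f (x + h) - f x) := by
  have h1 : ((‖∑ x, ps p (f x)‖ ^ 2 : ℝ) : ℂ)
      = (∑ x, ps p (f x)) * (starRingEnd ℂ) (∑ x, ps p (f x)) := by
    rw [Complex.mul_conj, Complex.normSq_eq_norm_sq]
  rw [h1, map_sum, Finset.sum_mul_sum, Finset.sum_comm]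
  rw [Finset.sum_comm (s := univ) (t := univ) (f := fun h x => ps p (f (x + h) - f x))]
  refine Finset.sum_congr rfl fun x _ => ?_
  rw [← Equiv.sum_comp (Equiv.addLeft x)]
  refine Finset.sum_congr rfl fun h _ => ?_
  rw [ps_conj, ← AddChar.map_add_eq_mul, Equiv.coe_addLeft, sub_eq_add_neg]

lemma quad (h2 : (2 : ZMod p) ≠ 0) (b c d : ZMod p) (hb : b ≠ 0) :
    ‖∑ x, ps p (b * x ^ 2 + c * x + d)‖ ^ 2 = p := by
  have h1 := weyl (p := p) (fun x => b * x ^ 2 + c * x + d)
  have h3 : ∀ h : ZMod p, ∑ x, ps p ((b * (x + h) ^ 2 + c * (x + h) + d) - (b * x ^ 2 + c * x + d))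
      = if h = 0 then (p : ℂ) else 0 := by
    intro h
    have h4 : ∀ x : ZMod p, ps p ((b * (x + h) ^ 2 + c * (x + h) + d) - (b * x ^ 2 + c * x + d))
        = ps p (b * h ^ 2 + c * h) * ps p (x * (2 * b * h)) := by
      intro x
      rw [← AddChar.map_add_eq_mul]
      congr 1
      ring
    simp only [h4]
    rw [← Finset.mul_sum, ps_sum]
    by_cases hh : h = 0
    · subst hh; simp
    · have : 2 * b * h ≠ 0 := mul_ne_zero (mul_ne_zero h2 hb) hh
      simp [this, hh]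
  simp only [h3] at h1
  simp only [Finset.sum_ite_eq', Finset.mem_univ, if_true] at h1
  exact_mod_cast h1

lemma quad_norm (h2 : (2 : ZMod p) ≠ 0) (b c d : ZMod p) (hb : b ≠ 0) :
    ‖∑ x, ps p (b * x ^ 2 + c * x + d)‖ = Real.sqrt p := by
  rw [← quad h2 b c d hb, Real.sqrt_sq (norm_nonneg _)]

lemma cubic (h2 : (2 : ZMod p) ≠ 0) (h3 : (3 : ZMod p) ≠ 0) (a b c d : ZMod p) (ha : a ≠ 0) :
    ‖∑ x, ps p (a * x ^ 3 + b * x ^ 2 + c * x + d)‖ ^ 2 ≤ p + p * Real.sqrt p := by
  have h1 := weyl (p := p) (fun x => a * x ^ 3 + b * x ^ 2 + c * x + d)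
  have h4 : ∀ h : ZMod p, ‖∑ x, ps p ((a * (x + h) ^ 3 + b * (x + h) ^ 2 + c * (x + h) + d)
      - (a * x ^ 3 + b * x ^ 2 + c * x + d))‖ ≤ (if h = 0 then (p : ℝ) else 0) + Real.sqrt p := by
    intro h
    by_cases hh : h = 0
    · subst hh
      simp [ZMod.card]
    · have h5 : ∀ x : ZMod p, (a * (x + h) ^ 3 + b * (x + h) ^ 2 + c * (x + h) + d)
          - (a * x ^ 3 + b * x ^ 2 + c * x + d)
          = (3 * a * h) * x ^ 2 + (3 * a * h ^ 2 + 2 * b * h) * x
            + (a * h ^ 3 + b * h ^ 2 + c * h) := by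
        intro x; ring
      simp only [h5]
      rw [quad_norm h2 _ _ _ (mul_ne_zero (mul_ne_zero h3 ha) hh)]
      simp [hh]
  have h6 : ‖((‖∑ x, ps p (a * x ^ 3 + b * x ^ 2 + c * x + d)‖ ^ 2 : ℝ) : ℂ)‖
      ≤ p + p * Real.sqrt p := by
    rw [h1]
    refine (norm_sum_le _ _).trans ?_
    refine (Finset.sum_le_sum fun h _ => h4 h).trans ?_
    rw [Finset.sum_add_distrib]
    simp [ZMod.card]
  rwa [Complex.norm_real, Real.norm_of_nonneg (sq_nonneg _)] at h6

end sums

section group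

/-- the Heisenberg group over the integers modulo p -/
@[ext] structure Heis (p : ℕ) where
  c : ZMod p
  a : ZMod p
  b : ZMod p

variable {p : ℕ}

instance : Mul (Heis p) := ⟨fun g h => ⟨g.c + h.c - g.a * h.b, g.a + h.a, g.b + h.b⟩⟩
instance : One (Heis p) := ⟨⟨0, 0, 0⟩⟩
instance : Inv (Heis p) := ⟨fun g => ⟨-g.c - g.a * g.b, -g.a, -g.b⟩⟩

lemma mul_c (g h : Heis p) : (g * h).c = g.c + h.c - g.a * h.b := rfl
lemma mul_a (g h : Heis p) : (g * h).a = g.a + h.a := rfl
lemma mul_b (g h : Heis p) : (g * h).b = g.b + h.b := rfl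
lemma one_c : (1 : Heis p).c = 0 := rfl
lemma one_a : (1 : Heis p).a = 0 := rfl
lemma one_b : (1 : Heis p).b = 0 := rfl
lemma inv_c (g : Heis p) : (g⁻¹).c = -g.c - g.a * g.b := rfl
lemma inv_a (g : Heis p) : (g⁻¹).a = -g.a := rfl
lemma inv_b (g : Heis p) : (g⁻¹).b = -g.b := rfl

instance : Group (Heis p) :=
  Group.ofLeftAxioms
    (by
      intro x y z
      ext
      · simp only [mul_c, mul_a, mul_b]; ring
      · simp only [mul_a]; ring
      · simp only [mul_b]; ring)
    (by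
      intro x
      ext
      · simp only [mul_c, one_c, one_a]; ring
      · simp only [mul_a, one_a]; ring
      · simp only [mul_b, one_b]; ring)
    (by
      intro x
      ext
      · simp only [mul_c, inv_c, inv_a, one_c]; ring
      · simp only [mul_a, inv_a, one_a]; ring
      · simp only [mul_b, inv_b, one_b]; ring)

/-- the underlying set is a product -/
def heisEquiv (p : ℕ) : Heis p ≃ ZMod p × ZMod p × ZMod p where
  toFun g := (g.c, g.a, g.b)
  invFun t := ⟨t.1, t.2.1, t.2.2⟩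
  left_inv _ := rfl
  right_inv _ := rfl

instance [NeZero p] : Fintype (Heis p) := Fintype.ofEquiv _ (heisEquiv p).symm

lemma sum_heis [NeZero p] {M : Type*} [AddCommMonoid M] (F : Heis p → M) :
    ∑ g, F g = ∑ c : ZMod p, ∑ a : ZMod p, ∑ b : ZMod p, F ⟨c, a, b⟩ := by
  rw [← Equiv.sum_comp (heisEquiv p).symm, Fintype.sum_prod_type]
  refine Finset.sum_congr rfl fun c _ => ?_
  rw [Fintype.sum_prod_type]
  rfl

end group

section rep

variable (p : ℕ) [Fact p.Prime]

/-- the action of one element on functions -/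
noncomputable def act (g : Heis p) : (ZMod p → ℂ) →ₗ[ℂ] (ZMod p → ℂ) where
  toFun f := fun x => ps p (g.c + g.b * x) * f (x - g.a)
  map_add' f h := by
    funext x
    simp only [Pi.add_apply]
    ring
  map_smul' t f := by
    funext x
    simp only [Pi.smul_apply, smul_eq_mul, RingHom.id_apply]
    ring

lemma act_apply (g : Heis p) (f : ZMod p → ℂ) (x : ZMod p) :
    act p g f x = ps p (g.c + g.b * x) * f (x - g.a) := rfl

/-- the representation of the Heisenberg group -/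
noncomputable def rho : Heis p →* ((ZMod p → ℂ) →ₗ[ℂ] (ZMod p → ℂ)) where
  toFun g := act p g
  map_one' := by
    ext f x
    simp [act_apply, one_c, one_a, one_b, LinearMap.comp_apply]
  map_mul' g h := by
    apply LinearMap.ext
    intro f
    funext x
    rw [Module.End.mul_apply, act_apply, act_apply, act_apply, ← mul_assoc,
      ← AddChar.map_add_eq_mul]
    congr 2
    · simp only [mul_c, mul_b]; ring
    · simp only [mul_a]; ring

lemma rho_apply (g : Heis p) (f : ZMod p → ℂ) (x : ZMod p) :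
    rho p g f x = ps p (g.c + g.b * x) * f (x - g.a) := rfl

/-- the vectors -/
noncomputable def vec (k : ZMod p) : ZMod p → ℂ :=
  fun x => ((Real.sqrt p : ℝ) : ℂ)⁻¹ * ps p (k * x ^ 3)

/-- the functionals -/
noncomputable def fnl (l : ZMod p) : (ZMod p → ℂ) →ₗ[ℂ] ℂ where
  toFun f := ∑ x, f x * (((Real.sqrt p : ℝ) : ℂ)⁻¹ * ps p (-(l * x ^ 3)))
  map_add' f h := by
    simp only [Pi.add_apply, add_mul, Finset.sum_add_distrib]
  map_smul' t f := by
    simp only [Pi.smul_apply, smul_eq_mul, RingHom.id_apply, Finset.mul_sum, mul_assoc]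

lemma fnl_apply (l : ZMod p) (f : ZMod p → ℂ) :
    fnl p l f = ∑ x, f x * (((Real.sqrt p : ℝ) : ℂ)⁻¹ * ps p (-(l * x ^ 3))) := rfl

omit [Fact p.Prime] in
lemma sqrt_inv_sq : (((Real.sqrt p : ℝ) : ℂ)⁻¹) * (((Real.sqrt p : ℝ) : ℂ)⁻¹) = (p : ℂ)⁻¹ := by
  rw [← mul_inv, ← Complex.ofReal_mul, Real.mul_self_sqrt (Nat.cast_nonneg p)]
  simp

lemma fnl_act (l k : ZMod p) (g : Heis p) :
    fnl p l (rho p g (vec p k)) = (p : ℂ)⁻¹ * ∑ x, ps p ((k - l) * x ^ 3
      + (-3 * k * g.a) * x ^ 2 + (3 * k * g.a ^ 2 + g.b) * x + (g.c - k * g.a ^ 3)) := by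
  rw [fnl_apply, Finset.mul_sum]
  refine Finset.sum_congr rfl fun x _ => ?_
  rw [rho_apply, vec, ← sqrt_inv_sq]
  have : ps p ((k - l) * x ^ 3
      + (-3 * k * g.a) * x ^ 2 + (3 * k * g.a ^ 2 + g.b) * x + (g.c - k * g.a ^ 3))
      = ps p (g.c + g.b * x) * ps p (k * (x - g.a) ^ 3) * ps p (-(l * x ^ 3)) := by
    rw [← AddChar.map_add_eq_mul, ← AddChar.map_add_eq_mul]
    congr 1
    ring
  rw [this]
  ring

lemma fnl_vec (hcube : Function.Bijective (fun x : ZMod p => x ^ 3)) (l k : ZMod p) :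
    fnl p l (vec p k) = if l = k then 1 else 0 := by
  have h1 := fnl_act p l k 1
  rw [map_one, Module.End.one_apply] at h1
  rw [h1]
  simp only [one_a, one_b, one_c]
  have h2 : ∀ x : ZMod p, ps p ((k - l) * x ^ 3 + (-3 * k * 0) * x ^ 2 + (3 * k * 0 ^ 2 + 0) * x
      + (0 - k * 0 ^ 3)) = ps p (x ^ 3 * (k - l)) := by
    intro x
    congr 1
    ring
  simp only [h2]
  have h3 : ∑ x : ZMod p, ps p (x ^ 3 * (k - l)) = ∑ x : ZMod p, ps p (x * (k - l)) :=
    Function.Bijective.sum_comp hcube (fun y => ps p (y * (k - l)))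
  rw [h3, ps_sum]
  have hp : (p : ℂ) ≠ 0 := Nat.cast_ne_zero.mpr (Fact.out : p.Prime).ne_zero
  by_cases hlk : l = k
  · simp [hlk, hp]
  · have : k - l ≠ 0 := sub_ne_zero.mpr (Ne.symm hlk)
    simp [hlk, this]

/-- the scalars -/
noncomputable def lam (g : Heis p) : ℂ := if g.a = 0 ∧ g.b = 0 then ps p g.c else 0

lemma lam_norm (g : Heis p) : ‖lam p g‖ ≤ 1 := by
  unfold lam
  split_ifs
  · rw [ps_norm]
  · simp

lemma fnl_bound (h2 : (2 : ZMod p) ≠ 0) (h3 : (3 : ZMod p) ≠ 0) (l k : ZMod p) (hk : k ≠ 0)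
    (g : Heis p) (eps : ℝ) (heps : 0 < eps) (hp : (p : ℝ) + p * Real.sqrt p ≤ (eps * p) ^ 2) :
    ‖fnl p l (rho p g (vec p k)) - lam p g * (if l = k then 1 else 0)‖ ≤ eps := by
  have hp0 : (0 : ℝ) < p := Nat.cast_pos.mpr (Fact.out : p.Prime).pos
  have hpc : (p : ℂ) ≠ 0 := Nat.cast_ne_zero.mpr (Fact.out : p.Prime).ne_zero
  have key : ∀ S : ℂ, ‖S‖ ^ 2 ≤ p + p * Real.sqrt p → ‖(p : ℂ)⁻¹ * S‖ ≤ eps := by
    intro S hS
    have h4 : ‖S‖ ≤ eps * p := by
      have h40 : 0 ≤ eps * p := by positivity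
      exact (sq_le_sq₀ (norm_nonneg _) h40).mp (hS.trans hp)
    rw [norm_mul, norm_inv, Complex.norm_natCast, inv_mul_le_iff₀ hp0]
    linarith
  rw [fnl_act]
  by_cases hlk : l = k
  · subst hlk
    by_cases ha : g.a = 0
    · have h5 : ∀ x : ZMod p, ps p ((l - l) * x ^ 3
          + (-3 * l * g.a) * x ^ 2 + (3 * l * g.a ^ 2 + g.b) * x + (g.c - l * g.a ^ 3))
          = ps p g.c * ps p (x * g.b) := by
        intro x
        rw [← AddChar.map_add_eq_mul, ha]
        congr 1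
        ring
      simp only [h5]
      rw [← Finset.mul_sum, ps_sum]
      by_cases hb : g.b = 0
      · have : lam p g = ps p g.c := by simp [lam, ha, hb]
        rw [this]
        have h6 : (p : ℂ)⁻¹ * (ps p g.c * (p : ℂ)) - ps p g.c * 1 = 0 := by
          field_simp
          ring
        rw [if_pos hb, if_pos trivial, h6, norm_zero]
        exact heps.le
      · have : lam p g = 0 := by simp [lam, ha, hb]
        rw [this]
        simp [hb, heps.le]
    · have : lam p g = 0 := by simp [lam, ha]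
      rw [this, zero_mul, sub_zero]
      apply key
      have h5 : ∀ x : ZMod p, ((l - l) * x ^ 3
          + (-3 * l * g.a) * x ^ 2 + (3 * l * g.a ^ 2 + g.b) * x + (g.c - l * g.a ^ 3))
          = (-3 * l * g.a) * x ^ 2 + (3 * l * g.a ^ 2 + g.b) * x + (g.c - l * g.a ^ 3) := by
        intro x
        ring
      simp only [h5]
      rw [quad h2 _ _ _ (mul_ne_zero (mul_ne_zero (neg_ne_zero.mpr h3) hk) ha)]
      have : 0 ≤ (p : ℝ) * Real.sqrt p := by positivity
      linarith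
  · rw [if_neg hlk, mul_zero, sub_zero]
    apply key
    exact cubic h2 h3 _ _ _ _ (sub_ne_zero.mpr (Ne.symm hlk))

/-- coefficients of the rank one operators -/
noncomputable def coef (k : ZMod p) (g : Heis p) : ℂ :=
  if g.c = 0 then (p : ℂ)⁻¹ * vec p k g.a * ps p (-(g.a * g.b)) else 0

lemma coef_sum (k : ZMod p) (f : ZMod p → ℂ) :
    ∑ g, coef p k g • rho p g f = f 0 • vec p k := by
  have hpc : (p : ℂ) ≠ 0 := Nat.cast_ne_zero.mpr (Fact.out : p.Prime).ne_zero
  funext y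
  rw [Finset.sum_apply]
  rw [sum_heis (fun g => (coef p k g • rho p g f) y)]
  simp only [Pi.smul_apply, smul_eq_mul, rho_apply]
  rw [Finset.sum_eq_single (0 : ZMod p)]
  · have h1 : ∀ a : ZMod p, ∑ b : ZMod p, coef p k ⟨0, a, b⟩ * (ps p (0 + b * y) * f (y - a))
        = (p : ℂ)⁻¹ * vec p k a * f (y - a) * ∑ b : ZMod p, ps p (b * (y - a)) := by
      intro a
      rw [Finset.mul_sum]
      refine Finset.sum_congr rfl fun b _ => ?_
      have : ps p (b * (y - a)) = ps p (-(a * b)) * ps p (0 + b * y) := by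
        rw [← AddChar.map_add_eq_mul]
        congr 1
        ring
      rw [this, coef, if_pos rfl]
      ring
    simp only [h1, ps_sum]
    rw [Finset.sum_eq_single y]
    · simp only [sub_self, if_true]
      field_simp
    · intro a _ hay
      have : y - a ≠ 0 := sub_ne_zero.mpr (Ne.symm hay)
      simp [this]
    · intro h; exact absurd (Finset.mem_univ _) h
  · intro c _ hc
    refine Finset.sum_eq_zero fun a _ => Finset.sum_eq_zero fun b _ => ?_
    rw [coef, if_neg hc, zero_mul]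
  · intro h; exact absurd (Finset.mem_univ _) h

end rep

lemma cube_bij (p : ℕ) [Fact p.Prime] (h : p % 3 = 2) :
    Function.Bijective (fun x : ZMod p => x ^ 3) := by
  rw [← Finite.injective_iff_bijective]
  have hp := (Fact.out : p.Prime)
  obtain ⟨m, hm⟩ : ∃ m, 3 * m = 2 * (p - 1) + 1 := by
    refine ⟨(2 * (p - 1) + 1) / 3, ?_⟩
    have h1 : 1 ≤ p := hp.one_lt.le
    omega
  intro x y hxy
  have hxy' : x ^ 3 = y ^ 3 := hxy
  have key : ∀ z : ZMod p, z = (z ^ 3) ^ m := by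
    intro z
    rw [← pow_mul, hm]
    by_cases hz : z = 0
    · subst hz; simp
    · rw [pow_succ, mul_comm 2, pow_mul, ZMod.pow_card_sub_one_eq_one hz, one_pow, one_mul]
  rw [key x, key y, hxy']

theorem exists_block (n : ℕ) (eps : ℝ) (h : 0 < eps) :
    ∃ (G : Type) (_ : Group G) (_ : Fintype G) (Z : Type) (_ : AddCommGroup Z) (_ : Module ℂ Z)
      (rho : G →* (Z →ₗ[ℂ] Z)) (z : Fin (n + 1) → Z) (q : Fin (n + 1) → (Z →ₗ[ℂ] ℂ))
      (lam : G → ℂ) (r : Fin (n + 1) → G → ℂ) (zeta : Z) (Phi : Z →ₗ[ℂ] ℂ),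
      (∀ l k, q l (z k) = if l = k then 1 else 0) ∧ (∀ g, ‖lam g‖ ≤ 1) ∧
      (∀ g l k, ‖q l (rho g (z k)) - lam g * (if l = k then 1 else 0)‖ ≤ eps) ∧
      (∀ k x, ∑ g, r k g • rho g x = Phi x • z k) ∧ Phi zeta = 1 := by
  obtain ⟨M, hM⟩ := exists_nat_gt ((2 / eps ^ 2) ^ 2 + 1)
  obtain ⟨p, hpn, hpp, hp3⟩ := Nat.forall_exists_prime_gt_and_eq_mod (q := 3) (a := 2)
    (by decide) (max (n + 4) M)
  have : Fact p.Prime := ⟨hpp⟩
  have hpn1 : n + 4 < p := lt_of_le_of_lt (le_max_left _ _) hpn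
  have hpM : M < p := lt_of_le_of_lt (le_max_right _ _) hpn
  have hmod : p % 3 = 2 := by
    have h1 : (p : ZMod 3) = ((2 : ℕ) : ZMod 3) := by rw [hp3]; rfl
    have h2 := (ZMod.natCast_eq_natCast_iff' p 2 3).mp h1
    simpa using h2
  have hcast : ∀ m : ℕ, 0 < m → m < p → ((m : ℕ) : ZMod p) ≠ 0 := by
    intro m hm hmp h0
    rw [ZMod.natCast_eq_zero_iff] at h0
    exact absurd (Nat.le_of_dvd hm h0) (not_le.mpr hmp)
  have h2 : (2 : ZMod p) ≠ 0 := by
    have := hcast 2 (by norm_num) (by omega)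
    simpa using this
  have h3 : (3 : ZMod p) ≠ 0 := by
    have := hcast 3 (by norm_num) (by omega)
    simpa using this
  have hbound : (p : ℝ) + p * Real.sqrt p ≤ (eps * p) ^ 2 := by
    have hpR : ((2 / eps ^ 2) ^ 2 + 1 : ℝ) < p := hM.trans (by exact_mod_cast hpM)
    have hs0 : 0 ≤ Real.sqrt p := Real.sqrt_nonneg _
    have hs1 : 2 / eps ^ 2 ≤ Real.sqrt p := by
      apply Real.le_sqrt_of_sq_le
      linarith
    have hs2 : 1 ≤ Real.sqrt p := by
      apply Real.le_sqrt_of_sq_le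
      have : 0 ≤ (2 / eps ^ 2) ^ 2 := sq_nonneg _
      linarith
    have hpp2 : Real.sqrt p * Real.sqrt p = p := Real.mul_self_sqrt (Nat.cast_nonneg p)
    have he2 : 0 < eps ^ 2 := by positivity
    have hs3 : 2 ≤ eps ^ 2 * Real.sqrt p := by
      rw [div_le_iff₀ he2] at hs1
      linarith
    have hp0 : (0 : ℝ) < p := Nat.cast_pos.mpr hpp.pos
    have h5 : (p : ℝ) + p * Real.sqrt p ≤ 2 * (p * Real.sqrt p) := by nlinarith
    have h6 : (eps * p) ^ 2 = (eps ^ 2 * Real.sqrt p) * (p * Real.sqrt p) := by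
      have : (eps * p) ^ 2 = eps ^ 2 * p * p := by ring
      rw [this]
      nth_rewrite 2 [← hpp2]
      ring
    rw [h6]
    have h7 : 0 ≤ (p : ℝ) * Real.sqrt p := by positivity
    nlinarith
  let kk : Fin (n + 1) → ZMod p := fun k => ((k.val + 1 : ℕ) : ZMod p)
  have hkk0 : ∀ k, kk k ≠ 0 := fun k => hcast _ (Nat.succ_pos _) (by have := k.isLt; omega)
  have hkki : ∀ l k, kk l = kk k ↔ l = k := by
    intro l k
    constructor
    · intro hlk
      have h5 : (l.val + 1) % p = (k.val + 1) % p := (ZMod.natCast_eq_natCast_iff' _ _ _).mp hlk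
      have hl := l.isLt
      have hk := k.isLt
      rw [Nat.mod_eq_of_lt (by omega), Nat.mod_eq_of_lt (by omega)] at h5
      exact Fin.ext (by omega)
    · rintro rfl; rfl
  have hite : ∀ l k, (if kk l = kk k then (1 : ℂ) else 0) = if l = k then 1 else 0 := by
    intro l k
    by_cases hlk : l = k
    · simp [hlk]
    · rw [if_neg hlk, if_neg (fun hh => hlk ((hkki l k).mp hh))]
  refine ⟨Heis p, inferInstance, inferInstance, ZMod p → ℂ, inferInstance, inferInstance,
    rho p, fun k => vec p (kk k), fun l => fnl p (kk l), lam p, fun k g => coef p (kk k) g,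
    Pi.single 0 1, LinearMap.proj 0, ?_, lam_norm p, ?_, ?_, ?_⟩
  · intro l k
    show fnl p (kk l) (vec p (kk k)) = _
    rw [fnl_vec p (cube_bij p hmod), hite]
  · intro g l k
    have := fnl_bound p h2 h3 (kk l) (kk k) (hkk0 k) g eps h hbound
    rwa [hite] at this
  · intro k x
    exact coef_sum p (kk k) x
  · simp

end Pool.Agent.Helper832.Blk
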