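import Mathlib

/-!
Banach modules, relative injectivity, flatness and amenability of Banach algebras.
-/

set_option autoImplicit false

namespace Pool.Agent.Helper832.FL

universe u

section Defs

variable (A : Type u) [NonUnitalNormedRing A] [NormedSpace ℂ A]

/-- A left Banach module structure over the Banach algebra `A` on the Banach space `X`: a jointly
continuous bilinear action with `(a b) x = a (b x)`. -/
structure LeftModule (X : Type u) [NormedAddCommGroup X] [NormedSpace ℂ X] where
  act : A →L[ℂ] X →L[ℂ] X
  mul_act : ∀ a b x, act (a * b) x = act a (act b x)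

/-- A right Banach module structure over `A` on the Banach space `Y`; `act a y` is `y a`, and
`y (a b) = (y a) b`. -/
structure RightModule (Y : Type u) [NormedAddCommGroup Y] [NormedSpace ℂ Y] where
  act : A →L[ℂ] Y →L[ℂ] Y
  act_mul : ∀ a b y, act (a * b) y = act b (act a y)

/-- A Banach bimodule structure: commuting left and right actions. -/
structure Bimodule (V : Type u) [NormedAddCommGroup V] [NormedSpace ℂ V] where
  left : LeftModule A V
  right : RightModule A V
  comm : ∀ a b v, right.act b (left.act a v) = left.act a (right.act b v)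

end Defs

section Notions

variable {A : Type u} [NonUnitalNormedRing A] [NormedSpace ℂ A]

/-- The dual of a left module is the right module with `(f a)(x) = f (a x)`. -/
noncomputable def LeftModule.dual {X : Type u} [NormedAddCommGroup X] [NormedSpace ℂ X]
    (M : LeftModule A X) : RightModule A (X →L[ℂ] ℂ) where
  act := (ContinuousLinearMap.compL ℂ X X ℂ).flip.comp M.act
  act_mul a b f := by
    ext x
    simp [M.mul_act]

@[simp] lemma LeftModule.dual_act {X : Type u} [NormedAddCommGroup X] [NormedSpace ℂ X]
    (M : LeftModule A X) (a : A) (f : X →L[ℂ] ℂ) (x : X) :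
    M.dual.act a f x = f (M.act a x) := rfl

/-- Morphisms of right modules. -/
def IsRightMap {Y Z : Type u} [NormedAddCommGroup Y] [NormedSpace ℂ Y] [NormedAddCommGroup Z]
    [NormedSpace ℂ Z] (MY : RightModule A Y) (MZ : RightModule A Z) (f : Y →L[ℂ] Z) : Prop :=
  ∀ a y, f (MY.act a y) = MZ.act a (f y)

/-- Injective right Banach modules (relative homology): every morphism from a submodule, complemented
as a Banach space (an admissible monomorphism), extends to the whole module. -/
def RightModule.IsInjective {Z : Type u} [NormedAddCommGroup Z] [NormedSpace ℂ Z]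
    (M : RightModule A Z) : Prop :=
  ∀ (Y' Y : Type u) [NormedAddCommGroup Y'] [NormedSpace ℂ Y'] [CompleteSpace Y']
    [NormedAddCommGroup Y] [NormedSpace ℂ Y] [CompleteSpace Y]
    (MY' : RightModule A Y') (MY : RightModule A Y) (i : Y' →L[ℂ] Y) (p : Y →L[ℂ] Y'),
    IsRightMap MY' MY i → (∀ y, p (i y) = y) →
    ∀ f : Y' →L[ℂ] Z, IsRightMap MY' M f →
      ∃ g : Y →L[ℂ] Z, IsRightMap MY M g ∧ ∀ y, g (i y) = f y

/-- A left Banach module is flat when its dual is an injective right Banach module. -/
def LeftModule.IsFlat {X : Type u} [NormedAddCommGroup X] [NormedSpace ℂ X]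
    (M : LeftModule A X) : Prop := M.dual.IsInjective

variable (A)

/-- Every left Banach module over `A` is flat. -/
def AllLeftModulesFlat : Prop :=
  ∀ (X : Type u) [NormedAddCommGroup X] [NormedSpace ℂ X] [CompleteSpace X]
    (M : LeftModule A X), M.IsFlat

/-- Amenability in the sense of Johnson: every bounded derivation `D` from `A` into the dual of a
Banach bimodule `V` is inner. Here `(a f)(v) = f (v a)` and `(f a)(v) = f (a v)` for `f` in the
dual, so the derivation identity is `D (a b) = a (D b) + (D a) b`. -/
def Amenable : Prop :=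
  ∀ (V : Type u) [NormedAddCommGroup V] [NormedSpace ℂ V] [CompleteSpace V]
    (M : Bimodule A V) (D : A →L[ℂ] (V →L[ℂ] ℂ)),
    (∀ a b v, D (a * b) v = D b (M.right.act a v) + D a (M.left.act b v)) →
    ∃ φ : V →L[ℂ] ℂ, ∀ a v, D a v = φ (M.right.act a v) - φ (M.left.act a v)

end Notions

end Pool.Agent.Helper832.FL
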