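import Mathlib

/-!
Pairings of l^1 with l^infty, quotients by closed submodules.
-/

set_option autoImplicit false
set_option linter.unusedSectionVars false

namespace Pool.Agent.Helper832.FL

open scoped ENNReal

universe u v w

section Quot

/-- `π : E → Q` is a metric quotient map. -/
structure IsQuo {E Q : Type u} [NormedAddCommGroup E] [NormedSpace ℂ E] [NormedAddCommGroup Q]
    [NormedSpace ℂ Q] (π : E →L[ℂ] Q) : Prop where
  approx : ∀ q, ∀ ε : ℝ, 0 < ε → ∃ x, π x = q ∧ ‖x‖ < ‖q‖ + ε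

variable {E Q : Type u} [NormedAddCommGroup E] [NormedSpace ℂ E] [NormedAddCommGroup Q]
    [NormedSpace ℂ Q] {π : E →L[ℂ] Q}
  {H : Type v} [NormedAddCommGroup H] [NormedSpace ℂ H]

lemma IsQuo.surj (hπ : IsQuo π) : Function.Surjective π := fun q => by
  obtain ⟨x, hx, _⟩ := hπ.approx q 1 one_pos
  exact ⟨x, hx⟩

lemma IsQuo.inv (hπ : IsQuo π) (q : Q) : π (Function.surjInv hπ.surj q) = q :=
  Function.surjInv_eq hπ.surj q

/-- Lift of a continuous linear map to the quotient. -/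
noncomputable def IsQuo.lift (hπ : IsQuo π) (f : E →L[ℂ] H) (h : ∀ x, π x = 0 → f x = 0) :
    Q →L[ℂ] H :=
  LinearMap.mkContinuous
    { toFun := fun q => f (Function.surjInv hπ.surj q)
      map_add' := by
        intro p q
        rw [← sub_eq_zero, ← map_add, ← map_sub]
        apply h
        rw [map_sub, map_add, hπ.inv, hπ.inv, hπ.inv, sub_self]
      map_smul' := by
        intro c q
        rw [← sub_eq_zero, RingHom.id_apply, ← map_smul, ← map_sub]
        apply h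
        rw [map_sub, map_smul, hπ.inv, hπ.inv, sub_self] } ‖f‖ (by
    intro q
    apply le_of_forall_pos_le_add
    intro ε hε
    obtain ⟨m, hm, hlt⟩ := hπ.approx q (ε / (‖f‖ + 1)) (div_pos hε (by positivity))
    have h1 : f (Function.surjInv hπ.surj q) = f m := by
      rw [← sub_eq_zero, ← map_sub]
      apply h
      rw [map_sub, hπ.inv, hm, sub_self]
    show ‖f (Function.surjInv hπ.surj q)‖ ≤ _
    rw [h1]
    calc ‖f m‖ ≤ ‖f‖ * ‖m‖ := f.le_opNorm m
      _ ≤ ‖f‖ * (‖q‖ + ε / (‖f‖ + 1)) := by gcongr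
      _ = ‖f‖ * ‖q‖ + ‖f‖ * (ε / (‖f‖ + 1)) := by ring
      _ ≤ ‖f‖ * ‖q‖ + ε := by
          have : ‖f‖ * (ε / (‖f‖ + 1)) ≤ ε := by
            rw [mul_div_assoc', div_le_iff₀ (by positivity)]
            nlinarith [norm_nonneg f]
          linarith)

@[simp] lemma IsQuo.lift_mk (hπ : IsQuo π) (f : E →L[ℂ] H) (h : ∀ x, π x = 0 → f x = 0) (x : E) :
    hπ.lift f h (π x) = f x := by
  show f (Function.surjInv hπ.surj (π x)) = f x
  rw [← sub_eq_zero, ← map_sub]
  apply h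
  rw [map_sub, hπ.inv, sub_self]

lemma IsQuo.lift_norm_le (hπ : IsQuo π) (f : E →L[ℂ] H) (h : ∀ x, π x = 0 → f x = 0) :
    ‖hπ.lift f h‖ ≤ ‖f‖ :=
  LinearMap.mkContinuous_norm_le _ (norm_nonneg _) _

/-- Lift of a bilinear map. -/
noncomputable def IsQuo.lift₂ {F : Type w} [NormedAddCommGroup F] [NormedSpace ℂ F]
    (hπ : IsQuo π) (f : F →L[ℂ] E →L[ℂ] H) (h : ∀ a, ∀ x, π x = 0 → f a x = 0) :
    F →L[ℂ] Q →L[ℂ] H :=
  LinearMap.mkContinuous
    { toFun := fun a => hπ.lift (f a) (h a)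
      map_add' := by
        intro a b
        ext q
        obtain ⟨x, rfl⟩ := hπ.surj q
        simp
      map_smul' := by
        intro c a
        ext q
        obtain ⟨x, rfl⟩ := hπ.surj q
        simp } ‖f‖ (fun a => (hπ.lift_norm_le (f a) (h a)).trans (f.le_opNorm a))

@[simp] lemma IsQuo.lift₂_mk {F : Type w} [NormedAddCommGroup F] [NormedSpace ℂ F]
    (hπ : IsQuo π) (f : F →L[ℂ] E →L[ℂ] H) (h : ∀ a, ∀ x, π x = 0 → f a x = 0) (a : F) (x : E) :
    hπ.lift₂ f h a (π x) = f a x := hπ.lift_mk (f a) (h a) x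

/-- Existence of the quotient by a closed subspace. -/
theorem exists_quo {E : Type u} [NormedAddCommGroup E] [NormedSpace ℂ E] [CompleteSpace E]
    (N : Submodule ℂ E) (hN : IsClosed (N : Set E)) :
    ∃ (Q : Type u) (_ : NormedAddCommGroup Q) (_ : NormedSpace ℂ Q) (_ : CompleteSpace Q)
      (π : E →L[ℂ] Q), IsQuo π ∧ ∀ x, π x = 0 ↔ x ∈ N := by
  haveI := hN
  refine ⟨E ⧸ N, inferInstance, inferInstance, inferInstance,
    (N.mkQ).mkContinuous 1 (fun x => by
      rw [one_mul]; exact Submodule.Quotient.norm_mk_le N x), ⟨?_⟩, ?_⟩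
  · intro q ε hε
    exact Submodule.Quotient.norm_mk_lt q hε
  · intro x
    exact Submodule.Quotient.mk_eq_zero N

end Quot

section Emb

/-- `j : Z → E` is an isometric embedding with range `Y`. -/
structure IsEmb {E Z : Type u} [NormedAddCommGroup E] [NormedSpace ℂ E] [NormedAddCommGroup Z]
    [NormedSpace ℂ Z] (j : Z →L[ℂ] E) (Y : Submodule ℂ E) : Prop where
  norm_eq : ∀ z, ‖j z‖ = ‖z‖
  mem : ∀ z, j z ∈ Y
  surj : ∀ y ∈ Y, ∃ z, j z = y

variable {E Z : Type u} [NormedAddCommGroup E] [NormedSpace ℂ E] [NormedAddCommGroup Z]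
    [NormedSpace ℂ Z] {j : Z →L[ℂ] E} {Y : Submodule ℂ E}

lemma IsEmb.inj (hj : IsEmb j Y) {z z' : Z} (h : j z = j z') : z = z' := by
  rw [← sub_eq_zero, ← norm_eq_zero, ← hj.norm_eq, map_sub, h, sub_self, norm_zero]

/-- Corestriction. -/
theorem IsEmb.exists_lift (hj : IsEmb j Y) {F : Type u} [NormedAddCommGroup F] [NormedSpace ℂ F]
    (f : F →L[ℂ] Z →L[ℂ] E) (hf : ∀ a z, f a z ∈ Y) :
    ∃ g : F →L[ℂ] Z →L[ℂ] Z, ∀ a z, j (g a z) = f a z := by
  choose g hg using fun (a : F) (z : Z) => hj.surj (f a z) (hf a z)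
  refine ⟨LinearMap.mkContinuous₂ (LinearMap.mk₂ ℂ g ?_ ?_ ?_ ?_) ‖f‖ ?_, ?_⟩
  · intro a a' z
    apply hj.inj
    rw [map_add, hg, hg, hg, map_add, ContinuousLinearMap.add_apply]
  · intro c a z
    apply hj.inj
    rw [map_smul, hg, hg, map_smul, ContinuousLinearMap.smul_apply]
  · intro a z z'
    apply hj.inj
    rw [map_add, hg, hg, hg, map_add]
  · intro c a z
    apply hj.inj
    rw [map_smul, hg, hg, map_smul]
  · intro a z
    show ‖g a z‖ ≤ _
    rw [← hj.norm_eq, hg]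
    exact f.le_opNorm₂ a z
  · intro a z
    exact hg a z

/-- Existence of an abstract copy of a closed subspace. -/
theorem exists_emb {E : Type u} [NormedAddCommGroup E] [NormedSpace ℂ E] [CompleteSpace E]
    (Y : Submodule ℂ E) (hY : IsClosed (Y : Set E)) :
    ∃ (Z : Type u) (_ : NormedAddCommGroup Z) (_ : NormedSpace ℂ Z) (_ : CompleteSpace Z)
      (j : Z →L[ℂ] E), IsEmb j Y :=
  ⟨Y, inferInstance, inferInstance, hY.completeSpace_coe, Y.subtypeL,
    ⟨fun _ => rfl, fun z => z.2, fun y hy => ⟨⟨y, hy⟩, rfl⟩⟩⟩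

end Emb

section Pairing

variable {Γ : Type u} {E F H : Type u} [NormedAddCommGroup E] [NormedSpace ℂ E]
  [NormedAddCommGroup F] [NormedSpace ℂ F] [NormedAddCommGroup H] [NormedSpace ℂ H]
  [CompleteSpace H]

lemma lp1_summable (x : lp (fun _ : Γ => E) 1) : Summable (fun γ => ‖x γ‖) := by
  have := (lp.memℓp x).summable (by norm_num)
  simpa using this

lemma lp1_norm (x : lp (fun _ : Γ => E) 1) : ‖x‖ = ∑' γ, ‖x γ‖ := by
  rw [lp.norm_eq_tsum_rpow (by norm_num)]
  simp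

lemma pair_bound (β : E →L[ℂ] F →L[ℂ] H) (x : lp (fun _ : Γ => E) 1)
    (y : lp (fun _ : Γ => F) ∞) (γ : Γ) : ‖β (x γ) (y γ)‖ ≤ ‖β‖ * ‖y‖ * ‖x γ‖ := by
  calc ‖β (x γ) (y γ)‖ ≤ ‖β‖ * ‖x γ‖ * ‖y γ‖ := β.le_opNorm₂ _ _
    _ ≤ ‖β‖ * ‖x γ‖ * ‖y‖ := by
        gcongr
        exact lp.norm_apply_le_norm (by norm_num) y γ
    _ = _ := by ring

lemma pair_summable (β : E →L[ℂ] F →L[ℂ] H) (x : lp (fun _ : Γ => E) 1)
    (y : lp (fun _ : Γ => F) ∞) : Summable (fun γ => β (x γ) (y γ)) :=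
  Summable.of_norm_bounded ((lp1_summable x).mul_left (‖β‖ * ‖y‖)) (pair_bound β x y)

/-- The pairing of `l^1(Γ, E)` with `l^∞(Γ, F)` given by a bilinear map. -/
noncomputable def pairing (β : E →L[ℂ] F →L[ℂ] H) :
    lp (fun _ : Γ => E) 1 →L[ℂ] lp (fun _ : Γ => F) ∞ →L[ℂ] H :=
  LinearMap.mkContinuous₂
    (LinearMap.mk₂ ℂ (fun x y => ∑' γ, β (x γ) (y γ))
      (by
        intro x x' y
        rw [← (pair_summable β x y).tsum_add (pair_summable β x' y)]
        congr 1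
        ext γ
        simp)
      (by
        intro c x y
        rw [← (pair_summable β x y).tsum_const_smul c]
        congr 1
        ext γ
        simp)
      (by
        intro x y y'
        rw [← (pair_summable β x y).tsum_add (pair_summable β x y')]
        congr 1
        ext γ
        simp)
      (by
        intro c x y
        rw [← (pair_summable β x y).tsum_const_smul c]
        congr 1
        ext γ
        simp)) ‖β‖
    (by
      intro x y
      show ‖∑' γ, β (x γ) (y γ)‖ ≤ ‖β‖ * ‖x‖ * ‖y‖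
      calc ‖∑' γ, β (x γ) (y γ)‖ ≤ ∑' γ, ‖β‖ * ‖y‖ * ‖x γ‖ :=
            tsum_of_norm_bounded ((lp1_summable x).mul_left (‖β‖ * ‖y‖)).hasSum (pair_bound β x y)
        _ = ‖β‖ * ‖y‖ * ∑' γ, ‖x γ‖ := tsum_mul_left
        _ = ‖β‖ * ‖x‖ * ‖y‖ := by rw [lp1_norm]; ring)

lemma pairing_apply (β : E →L[ℂ] F →L[ℂ] H) (x : lp (fun _ : Γ => E) 1)
    (y : lp (fun _ : Γ => F) ∞) : pairing β x y = ∑' γ, β (x γ) (y γ) := rfl

lemma pairing_norm_le (β : E →L[ℂ] F →L[ℂ] H) (x : lp (fun _ : Γ => E) 1)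
    (y : lp (fun _ : Γ => F) ∞) : ‖pairing β x y‖ ≤ ‖β‖ * ‖x‖ * ‖y‖ := by
  refine ((pairing β).le_opNorm₂ x y).trans ?_
  gcongr
  exact LinearMap.mkContinuous₂_norm_le _ (norm_nonneg β) _

/-- Coordinatewise application of a bounded family of operators on `l^1`. -/
noncomputable def map1 {A : Type u} [NormedAddCommGroup A] [NormedSpace ℂ A]
    (β : A →L[ℂ] E →L[ℂ] F) :
    A →L[ℂ] lp (fun _ : Γ => E) 1 →L[ℂ] lp (fun _ : Γ => F) 1 :=
  LinearMap.mkContinuous₂
    (LinearMap.mk₂ ℂ (fun a x => (⟨fun γ => β a (x γ), by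
        have h : Summable fun γ => ‖β a (x γ)‖ :=
          Summable.of_nonneg_of_le (fun _ => norm_nonneg _) (fun γ => (β a).le_opNorm (x γ))
            ((lp1_summable x).mul_left ‖β a‖)
        apply memℓp_gen
        simpa using h⟩ : lp (fun _ : Γ => F) 1))
      (by intro a a' x; ext γ; simp)
      (by intro c a x; ext γ; simp)
      (by intro a x x'; ext γ; simp)
      (by intro c a x; ext γ; simp)) ‖β‖
    (by
      intro a x
      rw [lp1_norm, lp1_norm]
      show ∑' γ, ‖β a (x γ)‖ ≤ ‖β‖ * ‖a‖ * ∑' γ, ‖x γ‖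
      have h : Summable fun γ => ‖β a (x γ)‖ :=
          Summable.of_nonneg_of_le (fun _ => norm_nonneg _) (fun γ => (β a).le_opNorm (x γ))
            ((lp1_summable x).mul_left ‖β a‖)
      rw [← tsum_mul_left]
      exact h.tsum_le_tsum (fun γ => β.le_opNorm₂ a (x γ)) ((lp1_summable x).mul_left _))

@[simp] lemma map1_apply {A : Type u} [NormedAddCommGroup A] [NormedSpace ℂ A]
    (β : A →L[ℂ] E →L[ℂ] F) (a : A) (x : lp (fun _ : Γ => E) 1) (γ : Γ) :
    map1 β a x γ = β a (x γ) := rfl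

/-- Coordinatewise application of a bounded family of operators on `l^∞`. -/
noncomputable def mapI {A : Type u} [NormedAddCommGroup A] [NormedSpace ℂ A]
    (β : A →L[ℂ] E →L[ℂ] F) :
    A →L[ℂ] lp (fun _ : Γ => E) ∞ →L[ℂ] lp (fun _ : Γ => F) ∞ :=
  LinearMap.mkContinuous₂
    (LinearMap.mk₂ ℂ (fun a x => (⟨fun γ => β a (x γ), by
        apply memℓp_infty
        refine ⟨‖β a‖ * ‖x‖, ?_⟩
        rintro _ ⟨γ, rfl⟩
        exact ((β a).le_opNorm (x γ)).trans (by
          gcongr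
          exact lp.norm_apply_le_norm (by norm_num) x γ)⟩ : lp (fun _ : Γ => F) ∞))
      (by intro a a' x; ext γ; simp)
      (by intro c a x; ext γ; simp)
      (by intro a x x'; ext γ; simp)
      (by intro c a x; ext γ; simp)) ‖β‖
    (by
      intro a x
      apply lp.norm_le_of_forall_le (by positivity)
      intro γ
      show ‖β a (x γ)‖ ≤ ‖β‖ * ‖a‖ * ‖x‖
      exact (β.le_opNorm₂ a (x γ)).trans (by
          gcongr
          exact lp.norm_apply_le_norm (by norm_num) x γ))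

@[simp] lemma mapI_apply {A : Type u} [NormedAddCommGroup A] [NormedSpace ℂ A]
    (β : A →L[ℂ] E →L[ℂ] F) (a : A) (x : lp (fun _ : Γ => E) ∞) (γ : Γ) :
    mapI β a x γ = β a (x γ) := rfl

end Pairing

end Pool.Agent.Helper832.FL
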