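import Mathlib
import Pool.Agent.Helper832.FLa
import Pool.Agent.Helper832.FLb

/-!
The module `P = l^1(Γ, B) / N`, the module `Y` and the twisted extension.
-/

set_option autoImplicit false
set_option linter.unusedSectionVars false

namespace Pool.Agent.Helper832.FL

open scoped ENNReal

universe u

/-- All the data of the construction: the Banach algebra `A` inside a unital Banach algebra `B`,
a bimodule `V` whose left action extends to `B`, a derivation, and test functions. -/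
structure Setup (A B V : Type u) [NonUnitalNormedRing A] [NormedSpace ℂ A]
    [NormedRing B] [NormedAlgebra ℂ B] [NormedAddCommGroup V] [NormedSpace ℂ V]
    (Γ ι : Type u) where
  emb : A →L[ℂ] B
  emb_mul : ∀ a b, emb (a * b) = emb a * emb b
  bim : Bimodule A V
  LB : B →L[ℂ] V →L[ℂ] V
  LB_one : ∀ v, LB 1 v = v
  LB_mul : ∀ b c v, LB (b * c) v = LB b (LB c v)
  LB_emb : ∀ a v, LB (emb a) v = bim.left.act a v
  LB_right : ∀ b a v, bim.right.act a (LB b v) = LB b (bim.right.act a v)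
  D : A →L[ℂ] V →L[ℂ] ℂ
  D_mul : ∀ a b v, D (a * b) v = D b (bim.right.act a v) + D a (bim.left.act b v)
  w : ι → lp (fun _ : Γ => B) ∞

namespace Setup

variable {A B V : Type u} [NonUnitalNormedRing A] [NormedSpace ℂ A]
    [NormedRing B] [NormedAlgebra ℂ B] [CompleteSpace B] [NormedAddCommGroup V] [NormedSpace ℂ V]
    [CompleteSpace V] {Γ ι : Type u} (S : Setup A B V Γ ι)

/-- The product pairing. -/
noncomputable def mp (B : Type u) [NormedRing B] [NormedAlgebra ℂ B] [CompleteSpace B]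
    {Γ : Type u} :
    lp (fun _ : Γ => B) 1 →L[ℂ] lp (fun _ : Γ => B) ∞ →L[ℂ] B :=
  pairing (ContinuousLinearMap.mul ℂ B)

lemma mp_apply (u : lp (fun _ : Γ => B) 1) (y : lp (fun _ : Γ => B) ∞) :
    mp B u y = ∑' γ, u γ * y γ := rfl

lemma mp_summable (u : lp (fun _ : Γ => B) 1) (y : lp (fun _ : Γ => B) ∞) :
    Summable (fun γ => u γ * y γ) := pair_summable (ContinuousLinearMap.mul ℂ B) u y

/-- The null space. -/
noncomputable def N : Submodule ℂ (lp (fun _ : Γ => B) 1) where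
  carrier := {u | ∀ t, mp B u (S.w t) = 0}
  add_mem' := by
    intro a b ha hb t
    rw [map_add, ContinuousLinearMap.add_apply, ha t, hb t, add_zero]
  zero_mem' := by
    intro t
    simp
  smul_mem' := by
    intro c a ha t
    rw [map_smul, ContinuousLinearMap.smul_apply, ha t, smul_zero]

lemma isClosed_N : IsClosed (S.N : Set (lp (fun _ : Γ => B) 1)) := by
  have : (S.N : Set (lp (fun _ : Γ => B) 1)) =
      ⋂ t, (fun u => mp B u (S.w t)) ⁻¹' {0} := by
    ext u
    simp [N]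
  rw [this]
  apply isClosed_iInter
  intro t
  apply IsClosed.preimage _ isClosed_singleton
  exact ((mp B).flip (S.w t)).continuous

/-- Left multiplication by elements of `A` on `l^1(Γ, B)`. -/
noncomputable def lm : A →L[ℂ] lp (fun _ : Γ => B) 1 →L[ℂ] lp (fun _ : Γ => B) 1 :=
  map1 ((ContinuousLinearMap.mul ℂ B).comp S.emb)

@[simp] lemma lm_apply (a : A) (u : lp (fun _ : Γ => B) 1) (γ : Γ) :
    S.lm a u γ = S.emb a * u γ := rfl

lemma lm_pair (a : A) (u : lp (fun _ : Γ => B) 1) (y : lp (fun _ : Γ => B) ∞) :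
    mp B (S.lm a u) y = S.emb a * mp B u y := by
  rw [mp_apply, mp_apply, ← (mp_summable u y).tsum_mul_left (S.emb a)]
  apply tsum_congr
  intro γ
  rw [lm_apply, mul_assoc]

lemma lm_mem (a : A) (u : lp (fun _ : Γ => B) 1) (hu : u ∈ S.N) : S.lm a u ∈ S.N := by
  intro t
  rw [lm_pair, hu t, mul_zero]

/-- The right module `Y`. -/
noncomputable def Y : Submodule ℂ (lp (fun _ : Γ => V) ∞) where
  carrier := {y | ∀ u ∈ S.N, pairing S.LB u y = 0}
  add_mem' := by
    intro a b ha hb u hu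
    rw [map_add, ha u hu, hb u hu, add_zero]
  zero_mem' := by
    intro u hu
    simp
  smul_mem' := by
    intro c a ha u hu
    rw [map_smul, ha u hu, smul_zero]

lemma isClosed_Y : IsClosed (S.Y : Set (lp (fun _ : Γ => V) ∞)) := by
  have : (S.Y : Set (lp (fun _ : Γ => V) ∞)) =
      ⋂ u ∈ S.N, (fun y => pairing S.LB u y) ⁻¹' {0} := by
    ext y
    simp [Y]
  rw [this]
  apply isClosed_biInter
  intro u _
  exact IsClosed.preimage (pairing S.LB u).continuous isClosed_singleton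

/-- Right multiplication on `l^∞(Γ, V)`. -/
noncomputable def rm : A →L[ℂ] lp (fun _ : Γ => V) ∞ →L[ℂ] lp (fun _ : Γ => V) ∞ :=
  mapI S.bim.right.act

@[simp] lemma rm_apply (a : A) (y : lp (fun _ : Γ => V) ∞) (γ : Γ) :
    S.rm a y γ = S.bim.right.act a (y γ) := rfl

lemma rm_pair (a : A) (u : lp (fun _ : Γ => B) 1) (y : lp (fun _ : Γ => V) ∞) :
    pairing S.LB u (S.rm a y) = S.bim.right.act a (pairing S.LB u y) := by
  rw [pairing_apply, pairing_apply, ContinuousLinearMap.map_tsum _ (pair_summable _ u y)]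
  apply tsum_congr
  intro γ
  rw [rm_apply, S.LB_right]

lemma rm_mem (a : A) (y : lp (fun _ : Γ => V) ∞) (hy : y ∈ S.Y) : S.rm a y ∈ S.Y := by
  intro u hu
  rw [rm_pair, hy u hu, map_zero]

section WithQ

variable {Q : Type u} [NormedAddCommGroup Q] [NormedSpace ℂ Q]
  {π : lp (fun _ : Γ => B) 1 →L[ℂ] Q} (hπ : IsQuo π) (hN : ∀ x, π x = 0 ↔ x ∈ S.N)

/-- The left module structure on `P`. -/
noncomputable def PM : LeftModule A Q where
  act := hπ.lift₂ ((ContinuousLinearMap.compL ℂ _ _ _ π).comp S.lm) (by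
    intro a x hx
    show π (S.lm a x) = 0
    rw [hN]
    exact S.lm_mem a x ((hN x).1 hx))
  mul_act a b x := by
    obtain ⟨x, rfl⟩ := hπ.surj x
    rw [IsQuo.lift₂_mk, IsQuo.lift₂_mk]
    show π (S.lm (a * b) x) = hπ.lift₂ _ _ a (π (S.lm b x))
    rw [IsQuo.lift₂_mk]
    show π (S.lm (a * b) x) = π (S.lm a (S.lm b x))
    congr 1
    ext γ
    simp [S.emb_mul, mul_assoc]

lemma PM_mk (a : A) (x : lp (fun _ : Γ => B) 1) :
    (S.PM hπ hN).act a (π x) = π (S.lm a x) := by
  show hπ.lift₂ _ _ a (π x) = _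
  rw [IsQuo.lift₂_mk]
  rfl

variable {Z : Type u} [NormedAddCommGroup Z] [NormedSpace ℂ Z]
  {j : Z →L[ℂ] lp (fun _ : Γ => V) ∞} (hj : IsEmb j S.Y)

/-- The right module structure on `Y`. -/
noncomputable def YM : RightModule A Z where
  act := Classical.choose (hj.exists_lift
    (((ContinuousLinearMap.compL ℂ Z _ _).flip j).comp S.rm) (fun a z => S.rm_mem a (j z) (hj.mem z)))
  act_mul a b z := by
    have h := Classical.choose_spec (hj.exists_lift
      (((ContinuousLinearMap.compL ℂ Z _ _).flip j).comp S.rm)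
      (fun a z => S.rm_mem a (j z) (hj.mem z)))
    apply hj.inj
    rw [h, h]
    show S.rm (a * b) (j z) = S.rm b (j _)
    rw [h]
    show S.rm (a * b) (j z) = S.rm b (S.rm a (j z))
    ext γ
    simp [S.bim.right.act_mul]

lemma YM_coe (a : A) (z : Z) : j ((S.YM hj).act a z) = S.rm a (j z) :=
  Classical.choose_spec (hj.exists_lift
      (((ContinuousLinearMap.compL ℂ Z _ _).flip j).comp S.rm)
      (fun a z => S.rm_mem a (j z) (hj.mem z))) a z

/-- The pairing `κ : Y × P → V`. -/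
noncomputable def kap : Z →L[ℂ] Q →L[ℂ] V :=
  hπ.lift₂ ((pairing S.LB).flip.comp j) (by
    intro y x hx
    exact (hj.mem y) x ((hN x).1 hx))

lemma kap_mk (y : Z) (x : lp (fun _ : Γ => B) 1) :
    S.kap hπ hN hj y (π x) = pairing S.LB x (j y) := by
  show hπ.lift₂ _ _ y (π x) = _
  rw [IsQuo.lift₂_mk]
  rfl

lemma kap_right (a : A) (y : Z) (x : Q) :
    S.kap hπ hN hj ((S.YM hj).act a y) x = S.bim.right.act a (S.kap hπ hN hj y x) := by
  obtain ⟨x, rfl⟩ := hπ.surj x
  rw [kap_mk, kap_mk, YM_coe, rm_pair]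

lemma kap_left (a : A) (y : Z) (x : Q) :
    S.kap hπ hN hj y ((S.PM hπ hN).act a x) = S.bim.left.act a (S.kap hπ hN hj y x) := by
  obtain ⟨x, rfl⟩ := hπ.surj x
  rw [PM_mk, kap_mk, kap_mk, ← S.LB_emb]
  rw [pairing_apply, pairing_apply, ContinuousLinearMap.map_tsum _ (pair_summable _ x _)]
  apply tsum_congr
  intro γ
  rw [lm_apply, S.LB_mul]

/-- The cocycle `δ : A × Y → P*`. -/
noncomputable def del : A →L[ℂ] Z →L[ℂ] (Q →L[ℂ] ℂ) :=
  LinearMap.mkContinuous₂
    (LinearMap.mk₂ ℂ (fun a y => (S.D a).comp (S.kap hπ hN hj y))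
      (by intro a a' y; ext x; simp)
      (by intro c a y; ext x; simp)
      (by intro a y y'; ext x; simp)
      (by intro c a y; ext x; simp)) (‖S.D‖ * ‖S.kap hπ hN hj‖)
    (by
      intro a y
      show ‖(S.D a).comp (S.kap hπ hN hj y)‖ ≤ _
      calc ‖(S.D a).comp (S.kap hπ hN hj y)‖ ≤ ‖S.D a‖ * ‖S.kap hπ hN hj y‖ :=
            ContinuousLinearMap.opNorm_comp_le _ _
        _ ≤ (‖S.D‖ * ‖a‖) * (‖S.kap hπ hN hj‖ * ‖y‖) := by
            gcongr
            · exact S.D.le_opNorm a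
            · exact (S.kap hπ hN hj).le_opNorm y
        _ = _ := by ring)

lemma del_apply (a : A) (y : Z) (x : Q) :
    S.del hπ hN hj a y x = S.D a (S.kap hπ hN hj y x) := rfl

lemma del_mul (a b : A) (y : Z) :
    S.del hπ hN hj (a * b) y = (S.PM hπ hN).dual.act b (S.del hπ hN hj a y) +
      S.del hπ hN hj b ((S.YM hj).act a y) := by
  ext x
  rw [del_apply, S.D_mul, ContinuousLinearMap.add_apply, LeftModule.dual_act, del_apply, del_apply,
    kap_right, kap_left, add_comm]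

end WithQ

end Setup

section Twist

variable {A : Type u} [NonUnitalNormedRing A] [NormedSpace ℂ A]
  {X Z : Type u} [NormedAddCommGroup X] [NormedSpace ℂ X] [NormedAddCommGroup Z] [NormedSpace ℂ Z]

/-- The twisted right module `X × Z` given by a cocycle. -/
noncomputable def twist (MX : RightModule A X) (MZ : RightModule A Z) (del : A →L[ℂ] Z →L[ℂ] X)
    (hdel : ∀ a b z, del (a * b) z = MX.act b (del a z) + del b (MZ.act a z)) :
    RightModule A (X × Z) where
  act := LinearMap.mkContinuous₂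
    (LinearMap.mk₂ ℂ (fun a (p : X × Z) => (MX.act a p.1 + del a p.2, MZ.act a p.2))
      (by intro a a' p; ext1 <;> simp; abel)
      (by intro c a p; ext1 <;> simp)
      (by intro a p p'; ext1 <;> simp; abel)
      (by intro c a p; ext1 <;> simp))
      (‖MX.act‖ + ‖del‖ + ‖MZ.act‖)
    (by
      rintro a ⟨f, y⟩
      show ‖(MX.act a f + del a y, MZ.act a y)‖ ≤ _
      have h1 : ‖f‖ ≤ ‖((f, y) : X × Z)‖ := by rw [Prod.norm_mk]; exact le_max_left _ _
      have h2 : ‖y‖ ≤ ‖((f, y) : X × Z)‖ := by rw [Prod.norm_mk]; exact le_max_right _ _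
      set n := ‖((f, y) : X × Z)‖
      have e1 : ‖MX.act a f‖ ≤ ‖MX.act‖ * ‖a‖ * n :=
        (MX.act.le_opNorm₂ a f).trans (by gcongr)
      have e2 : ‖del a y‖ ≤ ‖del‖ * ‖a‖ * n :=
        (del.le_opNorm₂ a y).trans (by gcongr)
      have e3 : ‖MZ.act a y‖ ≤ ‖MZ.act‖ * ‖a‖ * n :=
        (MZ.act.le_opNorm₂ a y).trans (by gcongr)
      have p1 : 0 ≤ ‖MX.act‖ * ‖a‖ * n := by positivity
      have p2 : 0 ≤ ‖del‖ * ‖a‖ * n := by positivity
      have p3 : 0 ≤ ‖MZ.act‖ * ‖a‖ * n := by positivity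
      rw [Prod.norm_mk]
      apply max_le
      · refine (norm_add_le _ _).trans ?_
        calc _ ≤ ‖MX.act‖ * ‖a‖ * n + ‖del‖ * ‖a‖ * n := add_le_add e1 e2
          _ ≤ _ := by nlinarith
      · refine e3.trans ?_
        nlinarith)
  act_mul a b p := by
    obtain ⟨f, y⟩ := p
    show (MX.act (a * b) f + del (a * b) y, MZ.act (a * b) y) =
      (MX.act b (MX.act a f + del a y) + del b (MZ.act a y), MZ.act b (MZ.act a y))
    rw [MX.act_mul, hdel, MZ.act_mul, map_add, add_assoc]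

/-- An injective module splits every twisted extension. -/
theorem exists_split [CompleteSpace X] [CompleteSpace Z]
    (MX : RightModule A X) (MZ : RightModule A Z) (del : A →L[ℂ] Z →L[ℂ] X)
    (hdel : ∀ a b z, del (a * b) z = MX.act b (del a z) + del b (MZ.act a z))
    (hinj : MX.IsInjective) :
    ∃ T : Z →L[ℂ] X, ∀ a z, T (MZ.act a z) - MX.act a (T z) = del a z := by
  obtain ⟨g, hg1, hg2⟩ := hinj X (X × Z) MX (twist MX MZ del hdel)
    (ContinuousLinearMap.inl ℂ _ _) (ContinuousLinearMap.fst ℂ _ _)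
    (by
      intro a f
      show ((MX.act a f, 0) : X × Z) = (MX.act a f + del a 0, MZ.act a 0)
      rw [map_zero, map_zero, add_zero])
    (by intro y; rfl)
    (ContinuousLinearMap.id ℂ _) (by intro a y; rfl)
  refine ⟨-(g.comp (ContinuousLinearMap.inr ℂ _ _)), ?_⟩
  intro a y
  have h1 : g ((twist MX MZ del hdel).act a (0, y)) = MX.act a (g (0, y)) := hg1 a (0, y)
  have h2 : (twist MX MZ del hdel).act a (0, y) = (del a y, 0) + (0, MZ.act a y) := by
    show ((MX.act a 0 + del a y, MZ.act a y) : X × Z) = _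
    rw [map_zero, zero_add]
    simp
  have h3 : g (del a y, 0) = del a y := hg2 _
  rw [h2, map_add, h3] at h1
  show -(g (0, MZ.act a y)) - MX.act a (-(g (0, y))) = del a y
  rw [map_neg, ← h1]
  abel

end Twist

namespace Setup

variable {A B V : Type u} [NonUnitalNormedRing A] [NormedSpace ℂ A]
    [NormedRing B] [NormedAlgebra ℂ B] [CompleteSpace B] [NormedAddCommGroup V] [NormedSpace ℂ V]
    [CompleteSpace V] {Γ ι : Type u} (S : Setup A B V Γ ι)

/-- The form obtained from flatness of all left modules. -/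
theorem exists_form (hflat : AllLeftModulesFlat A) :
    ∃ (K : ℝ) (β : lp (fun _ : Γ => B) 1 →ₗ[ℂ] S.Y →ₗ[ℂ] ℂ), 0 ≤ K ∧
      (∀ u y, ‖β u y‖ ≤ K * ‖u‖ * ‖(y : lp (fun _ : Γ => V) ∞)‖) ∧
      (∀ u ∈ S.N, ∀ y, β u y = 0) ∧
      (∀ a u (y : S.Y), β u ⟨S.rm a y, S.rm_mem a y y.2⟩ - β (S.lm a u) y =
        S.D a (pairing S.LB u y)) := by
  obtain ⟨Q, _, _, _, π, hπ, hN⟩ := exists_quo S.N S.isClosed_N
  obtain ⟨Z, _, _, _, j, hj⟩ := exists_emb S.Y S.isClosed_Y
  obtain ⟨T, hT⟩ := exists_split (S.PM hπ hN).dual (S.YM hj) (S.del hπ hN hj)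
    (S.del_mul hπ hN hj) (hflat Q (S.PM hπ hN))
  choose c hc using fun y : S.Y => hj.surj y y.2
  refine ⟨‖T‖ * ‖π‖, LinearMap.mk₂ ℂ (fun u y => T (c y) (π u)) ?_ ?_ ?_ ?_, by positivity, ?_, ?_, ?_⟩
  · intro u u' y
    rw [map_add, map_add]
  · intro k u y
    rw [map_smul, map_smul]
  · intro u y y'
    have : c (y + y') = c y + c y' := by
      apply hj.inj
      rw [map_add, hc, hc, hc]
      rfl
    rw [this, map_add, ContinuousLinearMap.add_apply]
  · intro k u y
    have : c (k • y) = k • c y := by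
      apply hj.inj
      rw [map_smul, hc, hc]
      rfl
    rw [this, map_smul, ContinuousLinearMap.smul_apply]
  · intro u y
    show ‖T (c y) (π u)‖ ≤ _
    have h1 : ‖c y‖ = ‖(y : lp (fun _ : Γ => V) ∞)‖ := by rw [← hj.norm_eq, hc]
    calc ‖T (c y) (π u)‖ ≤ ‖T‖ * ‖c y‖ * ‖π u‖ := T.le_opNorm₂ _ _
      _ ≤ ‖T‖ * ‖c y‖ * (‖π‖ * ‖u‖) := by gcongr; exact π.le_opNorm u
      _ = _ := by rw [h1]; ring
  · intro u hu y
    show T (c y) (π u) = 0
    rw [(hN u).2 hu, map_zero]
  · intro a u y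
    show T (c ⟨S.rm a y, S.rm_mem a y y.2⟩) (π u) - T (c y) (π (S.lm a u)) = _
    have h1 : c ⟨S.rm a y, S.rm_mem a y y.2⟩ = (S.YM hj).act a (c y) := by
      apply hj.inj
      rw [hc, YM_coe, hc]
    rw [h1, ← S.PM_mk hπ hN]
    have h2 := congrArg (fun f => f (π u)) (hT a (c y))
    simp only [ContinuousLinearMap.sub_apply, LeftModule.dual_act, del_apply, kap_mk, hc] at h2
    exact h2

end Setup

end Pool.Agent.Helper832.FL
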