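import Mathlib

/-!
The algebraic computation in one block.
-/

set_option autoImplicit false
set_option linter.unusedSectionVars false

namespace Pool.Agent.Helper832.FL

section Block

variable {G : Type} [Group G] [Fintype G] {Z : Type} [AddCommGroup Z] [Module ℂ Z]
  (rho : G →* (Z →ₗ[ℂ] Z)) {n : ℕ} (z : Fin (n + 1) → Z) (q : Fin (n + 1) → (Z →ₗ[ℂ] ℂ))
  (lam : G → ℂ) (r : Fin (n + 1) → G → ℂ) (zeta : Z) (Phi : Z →ₗ[ℂ] ℂ)
  {B : Type*} [Ring B] [Algebra ℂ B] (f : Fin (n + 1) → B)

/-- The map `p`. -/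
noncomputable def pm : Z →ₗ[ℂ] B := ∑ l, (q l).smulRight (f l)

lemma pm_apply (x : Z) : pm q f x = ∑ l, q l x • f l := by
  simp [pm]

lemma pm_z (hq : ∀ l k, q l (z k) = if l = k then 1 else 0) (k : Fin (n + 1)) :
    pm q f (z k) = f k := by
  rw [pm_apply]
  simp [hq]

/-- The error terms. -/
noncomputable def er (l k : Fin (n + 1)) (g : G) : ℂ :=
  q l (rho g (z k)) - lam g * (if l = k then 1 else 0)

lemma pm_err (h0 : f 0 = 1) (g : G) (k : Fin (n + 1)) :
    pm q f (rho g (z k)) - pm q f (rho g (z 0)) * f k =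
      ∑ l, (er rho z q lam l k g • f l - er rho z q lam l 0 g • (f l * f k)) := by
  rw [pm_apply, pm_apply, Finset.sum_sub_distrib, Finset.sum_mul]
  have h1 : ∀ k, ∑ l, q l (rho g (z k)) • f l =
      ∑ l, er rho z q lam l k g • f l + lam g • f k := by
    intro k
    have : ∀ l, q l (rho g (z k)) • f l =
        er rho z q lam l k g • f l + (lam g * (if l = k then 1 else 0)) • f l := by
      intro l
      rw [← add_smul]
      congr 1
      simp [er]
    simp_rw [this]
    rw [Finset.sum_add_distrib]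
    congr 1
    simp
  have h2 : ∑ l, (q l (rho g (z 0)) • f l) * f k =
      ∑ l, er rho z q lam l 0 g • (f l * f k) + lam g • f k := by
    have := congrArg (fun b => b * f k) (h1 0)
    simp only [Finset.sum_mul, add_mul, h0, smul_mul_assoc, one_mul] at this
    simpa using this
  rw [h1, h2]
  abel

lemma null_rel (h0 : f 0 = 1) (hq : ∀ l k, q l (z k) = if l = k then 1 else 0)
    (hr : ∀ k x, ∑ g, r k g • rho g x = Phi x • z k) (k : Fin (n + 1)) (h : G) (x : Z) :
    ∑ g, r 0 g • (f k * pm q f (rho (g * h) x)) = ∑ g, r k g • pm q f (rho (g * h) x) := by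
  have e1 : ∀ j, ∑ g, r j g • pm q f (rho (g * h) x) = Phi (rho h x) • f j := by
    intro j
    have := congrArg (pm q f) (hr j (rho h x))
    rw [map_sum, map_smul, pm_z z q f hq] at this
    rw [← this]
    apply Finset.sum_congr rfl
    intro g _
    rw [map_smul, map_mul]
    rfl
  rw [e1 k]
  have e2 : ∑ g, r 0 g • (f k * pm q f (rho (g * h) x)) =
      f k * ∑ g, r 0 g • pm q f (rho (g * h) x) := by
    rw [Finset.mul_sum]
    apply Finset.sum_congr rfl
    intro g _
    rw [mul_smul_comm]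
  rw [e2, e1 0, h0, mul_smul_comm, mul_one]

variable {F : Type*} [AddCommGroup F] [Module ℂ F]

/-- Averaged form. -/
noncomputable def bt (b : G → B → (Z →ₗ[ℂ] F)) (e : B) (x : Z) : F :=
  (Fintype.card G : ℂ)⁻¹ • ∑ h, b h⁻¹ e (rho h x)

lemma bt_key (hr : ∀ k x, ∑ g, r k g • rho g x = Phi x • z k) (hz : Phi zeta = 1)
    (b : G → B → (Z →ₗ[ℂ] F)) (k : Fin (n + 1))
    (hb : ∀ h x, ∑ g, r 0 g • b (g * h) (f k) x = ∑ g, r k g • b (g * h) 1 x) :
    bt rho b (f k) (z 0) = bt rho b 1 (z k) := by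
  have h1 : ∀ j, z j = ∑ g, r j g • rho g zeta := by
    intro j
    rw [hr, hz, one_smul]
  have h2 : ∀ (j : Fin (n + 1)) (e : B), bt rho b e (z j) =
      (Fintype.card G : ℂ)⁻¹ • ∑ m, ∑ g, r j g • b (g * m⁻¹) e (rho m zeta) := by
    intro j e
    unfold bt
    congr 1
    have e1 : ∀ h, b h⁻¹ e (rho h (z j)) = ∑ g, r j g • b h⁻¹ e (rho (h * g) zeta) := by
      intro h
      conv_lhs => rw [h1 j]
      rw [map_sum, map_sum]
      apply Finset.sum_congr rfl
      intro g _
      rw [map_smul, map_smul, map_mul]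
      rfl
    simp_rw [e1]
    rw [Finset.sum_comm, Finset.sum_comm (s := Finset.univ) (t := Finset.univ)
      (f := fun m g => r j g • b (g * m⁻¹) e (rho m zeta))]
    apply Finset.sum_congr rfl
    intro g _
    apply Fintype.sum_equiv (Equiv.mulRight g)
    intro h
    simp [mul_assoc]
  rw [h2, h2]
  congr 1
  apply Finset.sum_congr rfl
  intro m _
  exact hb m⁻¹ (rho m zeta)

lemma card_inv_smul_sum (c : F) : (Fintype.card G : ℂ)⁻¹ • ∑ _h : G, c = c := by
  rw [Finset.sum_const, Finset.card_univ, ← Nat.cast_smul_eq_nsmul ℂ, smul_smul, inv_mul_cancel₀,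
    one_smul]
  exact Nat.cast_ne_zero.2 Fintype.card_ne_zero

/-- Averaging the derivation relation. -/
lemma bt_der (b b' : G → B → (Z →ₗ[ℂ] F)) (e : B) (d : Z → F)
    (hb : ∀ g x, b' g 1 x - b g e x = d (rho g x)) (x : Z) :
    bt rho b' 1 x - bt rho b e x = d x := by
  unfold bt
  rw [← smul_sub, ← Finset.sum_sub_distrib]
  have : ∀ h : G, b' h⁻¹ 1 (rho h x) - b h⁻¹ e (rho h x) = d x := by
    intro h
    rw [hb]
    congr 1
    have : rho h⁻¹ (rho h x) = (rho h⁻¹ * rho h) x := rfl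
    rw [this, ← map_mul, inv_mul_cancel, map_one]
    rfl
  simp_rw [this]
  exact card_inv_smul_sum (G := G) (d x)

end Block

section NormEst

variable {G : Type} [Group G] [Fintype G] {F : Type*} [NormedAddCommGroup F] [NormedSpace ℂ F]

lemma norm_avg_le (c : G → F) (C : ℝ) (hc : ∀ h, ‖c h‖ ≤ C) :
    ‖(Fintype.card G : ℂ)⁻¹ • ∑ h, c h‖ ≤ C := by
  have hcard : (0 : ℝ) < Fintype.card G := by exact_mod_cast Fintype.card_pos
  rw [norm_smul, norm_inv, Complex.norm_natCast]
  calc (Fintype.card G : ℝ)⁻¹ * ‖∑ h, c h‖ ≤ (Fintype.card G : ℝ)⁻¹ * ∑ h : G, C := by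
        gcongr
        exact (norm_sum_le _ _).trans (Finset.sum_le_sum fun h _ => hc h)
    _ = C := by
        rw [Finset.sum_const, Finset.card_univ, nsmul_eq_mul, ← mul_assoc,
          inv_mul_cancel₀ hcard.ne', one_mul]

end NormEst

end Pool.Agent.Helper832.FL
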