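import Mathlib
import Pool.Agent.Helper832.FLc
import Pool.Agent.Helper832.FLd
import Pool.Agent.Helper832.Blk

/-!
Elements of `Y`, limits, and the proof that flatness of all left modules implies amenability.
-/

set_option autoImplicit false
set_option linter.unusedSectionVars false

namespace Pool.Agent.Helper832.FL

open scoped ENNReal
open Filter Topology

universe u

section Singles

variable {Γ : Type u} {E F H : Type u} [NormedAddCommGroup E] [NormedSpace ℂ E]
  [NormedAddCommGroup F] [NormedSpace ℂ F] [NormedAddCommGroup H] [NormedSpace ℂ H]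
  [CompleteSpace H]

lemma pairing_single [DecidableEq Γ] (β : E →L[ℂ] F →L[ℂ] H) (γ : Γ) (e : E) (y : lp (fun _ : Γ => F) ∞) :
    pairing β (lp.single 1 γ e) y = β e (y γ) := by
  rw [pairing_apply, tsum_eq_single γ]
  · simp
  · intro γ' h
    simp [Pi.single_eq_of_ne h]

end Singles

namespace Setup

variable {A B V : Type u} [NonUnitalNormedRing A] [NormedSpace ℂ A]
    [NormedRing B] [NormedAlgebra ℂ B] [CompleteSpace B] [NormedAddCommGroup V] [NormedSpace ℂ V]
    [CompleteSpace V] {Γ ι : Type u} (S : Setup A B V Γ ι)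

lemma mp_single [DecidableEq Γ] (γ : Γ) (e : B) (y : lp (fun _ : Γ => B) ∞) :
    mp B (lp.single 1 γ e) y = e * y γ := pairing_single _ γ e y

/-- The element of `Y` attached to a test function and a vector. -/
noncomputable def yt (t : ι) (v : V) : lp (fun _ : Γ => V) ∞ :=
  ⟨fun γ => S.LB (S.w t γ) v, by
    apply memℓp_infty
    refine ⟨‖S.LB‖ * ‖S.w t‖ * ‖v‖, ?_⟩
    rintro _ ⟨γ, rfl⟩
    refine (S.LB.le_opNorm₂ _ _).trans ?_
    gcongr
    exact lp.norm_apply_le_norm (by norm_num) _ γ⟩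

@[simp] lemma yt_apply (t : ι) (v : V) (γ : Γ) : S.yt t v γ = S.LB (S.w t γ) v := rfl

lemma yt_mem (t : ι) (v : V) : S.yt t v ∈ S.Y := by
  intro u hu
  have h := hu t
  rw [mp_apply] at h
  rw [pairing_apply]
  have h1 : ∀ γ, S.LB (u γ) (S.yt t v γ) =
      (S.LB.flip v) (u γ * S.w t γ) := by
    intro γ
    rw [yt_apply, ContinuousLinearMap.flip_apply, S.LB_mul]
  simp_rw [h1]
  rw [← ContinuousLinearMap.map_tsum _ (mp_summable u (S.w t)), h, map_zero]

lemma rm_yt (a : A) (t : ι) (v : V) : S.rm a (S.yt t v) = S.yt t (S.bim.right.act a v) := by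
  ext γ
  simp [S.LB_right]

lemma yt_add (t : ι) (v v' : V) : S.yt t (v + v') = S.yt t v + S.yt t v' := by
  ext γ
  simp

lemma yt_smul (t : ι) (c : ℂ) (v : V) : S.yt t (c • v) = c • S.yt t v := by
  ext γ
  simp

lemma yt_w_add {t t' t'' : ι} (h : S.w t'' = S.w t + S.w t') (v : V) :
    S.yt t'' v = S.yt t v + S.yt t' v := by
  ext γ
  simp [h]

lemma yt_w_smul {t t' : ι} (c : ℂ) (h : S.w t' = c • S.w t) (v : V) :
    S.yt t' v = c • S.yt t v := by
  ext γ
  simp [h]

end Setup

section Limit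

variable {V : Type u} [NormedAddCommGroup V] [NormedSpace ℂ V]

theorem exists_limit {I : Type u} [Preorder I] [IsDirectedOrder I] [Nonempty I]
    (φ : I → V → ℂ) (C : ℝ) (hadd : ∀ i v v', φ i (v + v') = φ i v + φ i v')
    (hsmul : ∀ i (c : ℂ) v, φ i (c • v) = c * φ i v) (hb : ∀ i v, ‖φ i v‖ ≤ C * ‖v‖) :
    ∃ (ψ : V →L[ℂ] ℂ) (U : Ultrafilter I), (U : Filter I) ≤ atTop ∧
      ∀ v, Tendsto (fun i => φ i v) U (𝓝 (ψ v)) := by
  let U : Ultrafilter I := Ultrafilter.of atTop
  have hU : (U : Filter I) ≤ atTop := Ultrafilter.of_le atTop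
  have h1 : ∀ v, ∃ c, Tendsto (fun i => φ i v) U (𝓝 c) := by
    intro v
    have hc : IsCompact (Metric.closedBall (0 : ℂ) (C * ‖v‖)) := isCompact_closedBall _ _
    obtain ⟨c, _, hc2⟩ := hc.ultrafilter_le_nhds (U.map (fun i => φ i v)) (by
      rw [Filter.le_principal_iff, Ultrafilter.coe_map, Filter.mem_map]
      apply Filter.univ_mem'
      intro i
      simpa using hb i v)
    exact ⟨c, hc2⟩
  choose ψ hψ using h1
  refine ⟨LinearMap.mkContinuous
    { toFun := ψ
      map_add' := by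
        intro v v'
        refine tendsto_nhds_unique (hψ (v + v')) ?_
        simp_rw [hadd]
        exact (hψ v).add (hψ v')
      map_smul' := by
        intro c v
        refine tendsto_nhds_unique (hψ (c • v)) ?_
        simp_rw [hsmul]
        exact (hψ v).const_mul c } C ?_, U, hU, hψ⟩
  intro v
  exact le_of_tendsto (hψ v).norm (Filter.Eventually.of_forall fun i => hb i v)

end Limit

/-- The core: under flatness of all left modules every derivation is inner. -/
theorem inner_of_flat {A B V : Type u} [NonUnitalNormedRing A] [NormedSpace ℂ A]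
    [NormedRing B] [NormedAlgebra ℂ B] [CompleteSpace B] [NormedAddCommGroup V] [NormedSpace ℂ V]
    [CompleteSpace V] (hflat : AllLeftModulesFlat A)
    (emb : A →L[ℂ] B) (emb_mul : ∀ a b, emb (a * b) = emb a * emb b) (bim : Bimodule A V)
    (LB : B →L[ℂ] V →L[ℂ] V) (LB_one : ∀ v, LB 1 v = v)
    (LB_mul : ∀ b c v, LB (b * c) v = LB b (LB c v))
    (LB_emb : ∀ a v, LB (emb a) v = bim.left.act a v)
    (LB_right : ∀ b a v, bim.right.act a (LB b v) = LB b (bim.right.act a v))
    (D : A →L[ℂ] V →L[ℂ] ℂ)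
    (D_mul : ∀ a b v, D (a * b) v = D b (bim.right.act a v) + D a (bim.left.act b v)) :
    ∃ φ : V →L[ℂ] ℂ, ∀ a v, D a v = φ (bim.right.act a v) - φ (bim.left.act a v) := by
  classical
  -- index set and finite families
  let I : Type u := Finset A × ℕ
  let n : I → ℕ := fun i => i.1.card
  let a : ∀ i : I, Fin (n i) → A := fun i k => (i.1.equivFin.symm k : A)
  let f : ∀ i : I, Fin (n i + 1) → B := fun i => Fin.cons 1 (fun k => emb (a i k))
  have f0 : ∀ i, f i 0 = 1 := fun i => rfl
  have fs : ∀ i (k : Fin (n i)), f i k.succ = emb (a i k) := fun i k => rfl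
  let s : I → ℝ := fun i => ∑ l, ‖f i l‖
  have hs0 : ∀ i, 0 ≤ s i := fun i => Finset.sum_nonneg fun l _ => norm_nonneg _
  have hsle : ∀ i l, ‖f i l‖ ≤ s i := fun i l =>
    Finset.single_le_sum (f := fun l => ‖f i l‖) (fun l _ => norm_nonneg _) (Finset.mem_univ l)
  let eps : I → ℝ := fun i => 1 / (((i.2 : ℝ) + 1) * (1 + s i) ^ 2)
  have heps : ∀ i, 0 < eps i := fun i => by
    have := hs0 i
    positivity
  choose G hG1 hG2 Z hZ1 hZ2 rho z q lam r zeta Phi H1 H2 H3 H4 H5 using
    fun i => Blk.exists_block (n i) (eps i) (heps i)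
  let Γ : Type u := Σ i : I, G i
  let ι : Type u := Σ i : I, Z i
  let p : ∀ i : I, Z i →ₗ[ℂ] B := fun i => pm (q i) (f i)
  -- test functions
  have hinj : ∀ i : I, Function.Injective (Sigma.mk i : G i → Γ) := fun i => sigma_mk_injective
  let wf : ι → Γ → B := fun t => Function.extend (Sigma.mk t.1) (fun g => p t.1 (rho t.1 g t.2)) 0
  have wf_self : ∀ i x g, wf ⟨i, x⟩ ⟨i, g⟩ = p i (rho i g x) := fun i x g =>
    (hinj i).extend_apply _ _ g
  have wf_other : ∀ i x i' g, i' ≠ i → wf ⟨i, x⟩ ⟨i', g⟩ = 0 := by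
    intro i x i' g h
    apply Function.extend_apply'
    rintro ⟨g', hg'⟩
    exact h (congrArg Sigma.fst hg').symm
  have wf_mem : ∀ t, Memℓp (wf t) ∞ := by
    rintro ⟨i, x⟩
    apply memℓp_infty
    refine ⟨∑ g, ‖p i (rho i g x)‖, ?_⟩
    rintro _ ⟨⟨i', g⟩, rfl⟩
    by_cases h : i' = i
    · subst h
      show ‖wf ⟨i', x⟩ ⟨i', g⟩‖ ≤ _
      rw [wf_self]
      exact Finset.single_le_sum (f := fun g => ‖p i' (rho i' g x)‖)
        (fun _ _ => norm_nonneg _) (Finset.mem_univ g)
    · show ‖wf ⟨i, x⟩ ⟨i', g⟩‖ ≤ _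
      rw [wf_other i x i' g h, norm_zero]
      exact Finset.sum_nonneg fun _ _ => norm_nonneg _
  let S : Setup A B V Γ ι :=
    { emb := emb
      emb_mul := emb_mul
      bim := bim
      LB := LB
      LB_one := LB_one
      LB_mul := LB_mul
      LB_emb := LB_emb
      LB_right := LB_right
      D := D
      D_mul := D_mul
      w := fun t => ⟨wf t, wf_mem t⟩ }
  have w_self : ∀ i x g, S.w ⟨i, x⟩ ⟨i, g⟩ = p i (rho i g x) := wf_self
  have w_other : ∀ i x i' g, i' ≠ i → S.w ⟨i, x⟩ ⟨i', g⟩ = 0 := wf_other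
  have w_add : ∀ i x x', S.w ⟨i, x + x'⟩ = S.w ⟨i, x⟩ + S.w ⟨i, x'⟩ := by
    intro i x x'
    ext ⟨i', g⟩
    by_cases h : i' = i
    · subst h
      rw [lp.coeFn_add, Pi.add_apply, w_self, w_self, w_self, map_add, map_add]
    · rw [lp.coeFn_add, Pi.add_apply, w_other _ _ _ _ h, w_other _ _ _ _ h, w_other _ _ _ _ h,
        add_zero]
  have w_smul : ∀ i (c : ℂ) x, S.w ⟨i, c • x⟩ = c • S.w ⟨i, x⟩ := by
    intro i c x
    ext ⟨i', g⟩
    by_cases h : i' = i
    · subst h
      rw [lp.coeFn_smul, Pi.smul_apply, w_self, w_self, map_smul, map_smul]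
    · rw [lp.coeFn_smul, Pi.smul_apply, w_other _ _ _ _ h, w_other _ _ _ _ h, smul_zero]
  obtain ⟨K, β, hK, hβb, hβN, hβD⟩ := S.exists_form hflat
  -- the forms in one block
  let b : ∀ i : I, V → G i → B → (Z i →ₗ[ℂ] ℂ) := fun i v g e =>
    { toFun := fun x => β (lp.single 1 (⟨i, g⟩ : Γ) e) ⟨S.yt ⟨i, x⟩ v, S.yt_mem _ _⟩
      map_add' := by
        intro x x'
        rw [← map_add]
        congr 1
        ext1
        exact S.yt_w_add (w_add i x x') v
      map_smul' := by
        intro c x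
        rw [← map_smul]
        congr 1
        ext1
        exact S.yt_w_smul c (w_smul i c x) v }
  have b_apply : ∀ i v g e x, b i v g e x =
      β (lp.single 1 (⟨i, g⟩ : Γ) e) ⟨S.yt ⟨i, x⟩ v, S.yt_mem _ _⟩ := fun _ _ _ _ _ => rfl
  -- the null relation
  have hnull : ∀ i (k : Fin (n i + 1)) v (h : G i) x,
      ∑ g, r i 0 g • b i v (g * h) (f i k) x = ∑ g, r i k g • b i v (g * h) 1 x := by
    intro i k v h x
    have hmem : (∑ g, r i 0 g • lp.single 1 (⟨i, g * h⟩ : Γ) (f i k)
        - ∑ g, r i k g • lp.single 1 (⟨i, g * h⟩ : Γ) (1 : B)) ∈ S.N := by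
      rintro ⟨i', x'⟩
      rw [map_sub, map_sum, map_sum, ContinuousLinearMap.sub_apply, ContinuousLinearMap.sum_apply,
        ContinuousLinearMap.sum_apply]
      simp only [map_smul, ContinuousLinearMap.smul_apply, Setup.mp_single]
      by_cases hi : i = i'
      · subst hi
        simp only [w_self, one_mul]
        rw [sub_eq_zero]
        exact null_rel (rho i) (z i) (q i) (r i) (Phi i) (f i) (f0 i) (H1 i) (H4 i) k h x'
      · simp only [w_other _ _ _ _ hi, mul_zero, smul_zero, Finset.sum_const_zero, sub_zero]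
    have := hβN _ hmem ⟨S.yt ⟨i, x⟩ v, S.yt_mem _ _⟩
    rw [map_sub, map_sum, map_sum, LinearMap.sub_apply, LinearMap.sum_apply,
      LinearMap.sum_apply, sub_eq_zero] at this
    simp only [map_smul, LinearMap.smul_apply] at this
    exact this
  -- the derivation relation
  have hder : ∀ i a' v g x, b i (bim.right.act a' v) g 1 x - b i v g (emb a') x =
      D a' (LB (p i (rho i g x)) v) := by
    intro i a' v g x
    have := hβD a' (lp.single 1 (⟨i, g⟩ : Γ) 1) ⟨S.yt ⟨i, x⟩ v, S.yt_mem _ _⟩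
    have e1 : S.lm a' (lp.single 1 (⟨i, g⟩ : Γ) 1) = lp.single 1 (⟨i, g⟩ : Γ) (emb a') := by
      ext γ
      rw [Setup.lm_apply]
      by_cases hγ : γ = ⟨i, g⟩
      · subst hγ
        rw [lp.single_apply_self, lp.single_apply_self, mul_one]
      · rw [lp.single_apply_ne _ _ _ hγ, lp.single_apply_ne _ _ _ hγ, mul_zero]
    have e2 : pairing S.LB (lp.single 1 (⟨i, g⟩ : Γ) 1) (S.yt ⟨i, x⟩ v) =
        LB (p i (rho i g x)) v := by
      rw [pairing_single, Setup.yt_apply, w_self]
      exact LB_one _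
    rw [e1, e2] at this
    rw [b_apply, b_apply, ← this]
    congr 2
    ext1
    exact (S.rm_yt a' ⟨i, x⟩ v).symm
  -- difference estimate
  have hdiff : ∀ i v v' g x x' (C : ℝ), 0 ≤ C →
      (∀ g', ‖LB (p i (rho i g' x)) v - LB (p i (rho i g' x')) v'‖ ≤ C) →
      ‖b i v g 1 x - b i v' g 1 x'‖ ≤ K * ‖(1 : B)‖ * C := by
    intro i v v' g x x' C hC hC2
    rw [b_apply, b_apply, ← map_sub]
    refine (hβb _ _).trans ?_
    rw [lp.norm_single (by norm_num)]
    gcongr
    apply lp.norm_le_of_forall_le hC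
    rintro ⟨i', g'⟩
    have e : ((⟨S.yt ⟨i, x⟩ v, S.yt_mem _ _⟩ - ⟨S.yt ⟨i, x'⟩ v', S.yt_mem _ _⟩ : S.Y) :
        lp (fun _ : Γ => V) ∞) ⟨i', g'⟩ = S.yt ⟨i, x⟩ v ⟨i', g'⟩ - S.yt ⟨i, x'⟩ v' ⟨i', g'⟩ := rfl
    rw [e, Setup.yt_apply, Setup.yt_apply]
    by_cases h : i' = i
    · subst h
      rw [w_self, w_self]
      exact hC2 g'
    · rw [w_other _ _ _ _ h, w_other _ _ _ _ h, map_zero, ContinuousLinearMap.zero_apply,
        ContinuousLinearMap.zero_apply, sub_zero, norm_zero]
      exact hC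
  -- the functionals
  let φ : I → V → ℂ := fun i v => bt (rho i) (b i v) 1 (z i 0)
  have hbadd : ∀ i v v' g e x, b i (v + v') g e x = b i v g e x + b i v' g e x := by
    intro i v v' g e x
    rw [b_apply, b_apply, b_apply, ← map_add]
    congr 1
    ext1
    exact S.yt_add _ v v'
  have hbsmul : ∀ i (c : ℂ) v g e x, b i (c • v) g e x = c * b i v g e x := by
    intro i c v g e x
    rw [b_apply, b_apply, ← smul_eq_mul, ← map_smul]
    congr 1
    ext1
    exact S.yt_smul _ c v
  have hφadd : ∀ i v v', φ i (v + v') = φ i v + φ i v' := by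
    intro i v v'
    show bt (rho i) (b i (v + v')) 1 (z i 0) = bt (rho i) (b i v) 1 (z i 0) +
      bt (rho i) (b i v') 1 (z i 0)
    unfold bt
    rw [← smul_add, ← Finset.sum_add_distrib]
    simp_rw [hbadd]
  have hφsmul : ∀ i (c : ℂ) v, φ i (c • v) = c * φ i v := by
    intro i c v
    show bt (rho i) (b i (c • v)) 1 (z i 0) = c * bt (rho i) (b i v) 1 (z i 0)
    unfold bt
    simp_rw [hbsmul, ← Finset.mul_sum, smul_eq_mul]
    ring
  -- norm of p (g z_0)
  have hp0 : ∀ i g, ‖p i (rho i g (z i 0))‖ ≤ ‖(1 : B)‖ + 1 := by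
    intro i g
    have e1 : p i (rho i g (z i 0)) = lam i g • (1 : B) + ∑ l, er (rho i) (z i) (q i) (lam i) l 0 g • f i l := by
      show pm (q i) (f i) _ = _
      rw [pm_apply]
      have : ∀ l, q i l (rho i g (z i 0)) • f i l =
          (lam i g * (if l = 0 then 1 else 0)) • f i l +
            er (rho i) (z i) (q i) (lam i) l 0 g • f i l := by
        intro l
        rw [← add_smul]
        congr 1
        simp [er]
      simp_rw [this]
      rw [Finset.sum_add_distrib]
      congr 1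
      simp [f0]
    rw [e1]
    refine (norm_add_le _ _).trans (add_le_add ?_ ?_)
    · rw [norm_smul]
      exact mul_le_of_le_one_left (norm_nonneg _) (H2 i g)
    · calc ‖∑ l, er (rho i) (z i) (q i) (lam i) l 0 g • f i l‖
          ≤ ∑ l, eps i * ‖f i l‖ := by
            refine (norm_sum_le _ _).trans (Finset.sum_le_sum fun l _ => ?_)
            rw [norm_smul]
            gcongr
            exact H3 i g l 0
        _ = eps i * s i := by rw [← Finset.mul_sum]
        _ ≤ 1 := by
            show 1 / (((i.2 : ℝ) + 1) * (1 + s i) ^ 2) * s i ≤ 1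
            rw [one_div, inv_mul_le_iff₀ (by have := hs0 i; positivity), mul_one]
            have := hs0 i
            have h2 : (0 : ℝ) ≤ i.2 := Nat.cast_nonneg _
            nlinarith [mul_nonneg h2 this, mul_nonneg h2 (mul_nonneg this this), mul_nonneg this this]
  have hφb : ∀ i v, ‖φ i v‖ ≤ (K * ‖(1 : B)‖ * (‖LB‖ * (‖(1 : B)‖ + 1))) * ‖v‖ := by
    intro i v
    have : ∀ h : G i, ‖b i v h⁻¹ 1 (rho i h (z i 0))‖ ≤
        K * ‖(1 : B)‖ * (‖LB‖ * (‖(1 : B)‖ + 1) * ‖v‖) := by
      intro h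
      have h0 := hdiff i v 0 h⁻¹ (rho i h (z i 0)) (rho i h (z i 0))
        (‖LB‖ * (‖(1 : B)‖ + 1) * ‖v‖) (by positivity) (by
          intro g'
          rw [map_zero, sub_zero]
          refine (LB.le_opNorm₂ _ _).trans ?_
          gcongr
          have : rho i g' (rho i h (z i 0)) = rho i (g' * h) (z i 0) := by
            rw [map_mul]; rfl
          rw [this]
          exact hp0 i _)
      have h1 : b i 0 h⁻¹ 1 (rho i h (z i 0)) = 0 := by
        have := hbsmul i 0 0 h⁻¹ 1 (rho i h (z i 0))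
        rwa [zero_smul, zero_mul] at this
      rwa [h1, sub_zero] at h0
    refine (norm_avg_le _ _ this).trans (le_of_eq ?_)
    ring
  have herr : ∀ i a' v, a' ∈ i.1 →
      ‖φ i (bim.right.act a' v) - φ i (bim.left.act a' v) - D a' v‖ ≤
        (K * ‖(1 : B)‖ * ‖LB‖ * ‖v‖) * (1 / ((i.2 : ℝ) + 1)) := by
    intro i a' v ha'
    obtain ⟨k, hk⟩ : ∃ k : Fin (n i), a i k = a' := by
      refine ⟨i.1.equivFin ⟨a', ha'⟩, ?_⟩
      show ((i.1.equivFin.symm (i.1.equivFin ⟨a', ha'⟩) : i.1) : A) = a'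
      rw [Equiv.symm_apply_apply]
    have hfk : f i k.succ = emb a' := by rw [fs, hk]
    have e1 : bt (rho i) (b i (bim.right.act a' v)) 1 (z i 0) -
        bt (rho i) (b i v) (emb a') (z i 0) = D a' (LB (p i (z i 0)) v) :=
      bt_der (rho i) (b i v) (b i (bim.right.act a' v)) (emb a')
        (fun x => D a' (LB (p i x) v)) (fun g x => hder i a' v g x) (z i 0)
    have e2 : p i (z i 0) = 1 := by
      show pm (q i) (f i) _ = 1
      rw [pm_z (z i) (q i) (f i) (H1 i), f0]
    rw [e2, LB_one] at e1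
    have e3 : bt (rho i) (b i v) (emb a') (z i 0) = bt (rho i) (b i v) 1 (z i k.succ) := by
      rw [← hfk]
      exact bt_key (rho i) (z i) (r i) (zeta i) (Phi i) (f i) (H4 i) (H5 i) (b i v) k.succ
        (fun h x => hnull i k.succ v h x)
    have e4 : φ i (bim.right.act a' v) - φ i (bim.left.act a' v) - D a' v =
        bt (rho i) (b i v) 1 (z i k.succ) - bt (rho i) (b i (bim.left.act a' v)) 1 (z i 0) := by
      show bt (rho i) (b i (bim.right.act a' v)) 1 (z i 0) -
        bt (rho i) (b i (bim.left.act a' v)) 1 (z i 0) - D a' v = _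
      rw [← e1, e3]
      ring
    rw [e4]
    unfold bt
    rw [← smul_sub, ← Finset.sum_sub_distrib]
    apply norm_avg_le
    intro h
    refine (hdiff i v (bim.left.act a' v) h⁻¹ (rho i h (z i k.succ)) (rho i h (z i 0))
      (‖LB‖ * (1 / ((i.2 : ℝ) + 1)) * ‖v‖) (by positivity) ?_).trans (le_of_eq (by ring))
    intro g'
    have c1 : rho i g' (rho i h (z i k.succ)) = rho i (g' * h) (z i k.succ) := by
      rw [map_mul]; rfl
    have c2 : rho i g' (rho i h (z i 0)) = rho i (g' * h) (z i 0) := by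
      rw [map_mul]; rfl
    rw [c1, c2, ← LB_emb, ← LB_mul, ← hfk, ← ContinuousLinearMap.sub_apply, ← map_sub]
    refine (LB.le_opNorm₂ _ _).trans ?_
    gcongr
    show ‖pm (q i) (f i) _ - pm (q i) (f i) _ * f i k.succ‖ ≤ _
    rw [pm_err (rho i) (z i) (q i) (lam i) (f i) (f0 i)]
    calc ‖∑ l, (er (rho i) (z i) (q i) (lam i) l k.succ (g' * h) • f i l -
            er (rho i) (z i) (q i) (lam i) l 0 (g' * h) • (f i l * f i k.succ))‖
        ≤ ∑ l, (eps i * ‖f i l‖ + eps i * (‖f i l‖ * s i)) := by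
          refine (norm_sum_le _ _).trans (Finset.sum_le_sum fun l _ => ?_)
          refine (norm_sub_le _ _).trans (add_le_add ?_ ?_)
          · rw [norm_smul]
            gcongr
            exact H3 i _ l k.succ
          · rw [norm_smul]
            gcongr
            · exact H3 i _ l 0
            · exact (norm_mul_le _ _).trans (by gcongr; exact hsle i _)
      _ = eps i * (s i + s i * s i) := by
          rw [Finset.sum_add_distrib, ← Finset.mul_sum, ← Finset.mul_sum, ← Finset.sum_mul]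
          ring
      _ ≤ 1 / ((i.2 : ℝ) + 1) := by
          show 1 / (((i.2 : ℝ) + 1) * (1 + s i) ^ 2) * (s i + s i * s i) ≤ _
          have h0 := hs0 i
          have h2 : (0 : ℝ) < (i.2 : ℝ) + 1 := by positivity
          rw [one_div, one_div, mul_inv, mul_assoc]
          apply mul_le_of_le_one_right (by positivity)
          rw [inv_mul_le_iff₀ (by positivity), mul_one]
          nlinarith
  -- the limit
  obtain ⟨ψ, U, hU, hψ⟩ := exists_limit φ _ hφadd hφsmul hφb
  refine ⟨ψ, fun a' v => ?_⟩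
  have h1 : Tendsto (fun i => φ i (bim.right.act a' v) - φ i (bim.left.act a' v) - D a' v) U
      (𝓝 (ψ (bim.right.act a' v) - ψ (bim.left.act a' v) - D a' v)) :=
    ((hψ _).sub (hψ _)).sub_const _
  have h2 : Tendsto (fun i => φ i (bim.right.act a' v) - φ i (bim.left.act a' v) - D a' v) U
      (𝓝 0) := by
    have hN : Tendsto (fun i : I => (i.2 : ℝ)) atTop atTop :=
      tendsto_natCast_atTop_atTop.comp (by
        rw [← prod_atTop_atTop_eq]
        exact tendsto_snd)
    have hlim : Tendsto (fun i : I => (K * ‖(1 : B)‖ * ‖LB‖ * ‖v‖) * (1 / ((i.2 : ℝ) + 1))) U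
        (𝓝 0) := by
      have : Tendsto (fun i : I => (1 / ((i.2 : ℝ) + 1))) atTop (𝓝 0) := by
        simp_rw [one_div]
        exact tendsto_inv_atTop_zero.comp (tendsto_atTop_add_const_right _ _ hN)
      have := (this.const_mul (K * ‖(1 : B)‖ * ‖LB‖ * ‖v‖)).mono_left hU
      simpa using this
    apply squeeze_zero_norm' _ hlim
    have hev : ∀ᶠ i : I in atTop, a' ∈ i.1 := by
      filter_upwards [Filter.eventually_ge_atTop (({a'}, 0) : I)] with i hi
      exact hi.1 (Finset.mem_singleton_self a')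
    exact hU (hev.mono fun i hi => herr i a' v hi)
  have := tendsto_nhds_unique h1 h2
  rw [sub_eq_zero] at this
  exact this.symm

end Pool.Agent.Helper832.FL
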