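import Mathlib
import Pool.Agent.Helper832.FLe

/-!
Banach algebras all of whose left Banach modules are flat are amenable.
-/

set_option autoImplicit false
set_option linter.unusedSectionVars false

namespace Pool.Agent.Helper832.FL

open WithLp

universe u

section

variable {A : Type u} [NonUnitalNormedRing A] [NormedSpace ℂ A] [IsScalarTower ℂ A A]
  [SMulCommClass ℂ A A] [CompleteSpace A]

/-- The embedding of `A` into its unitization. -/
noncomputable def uemb : A →L[ℂ] WithLp 1 (Unitization ℂ A) :=
  LinearMap.mkContinuous
    { toFun := fun a => toLp 1 (a : Unitization ℂ A)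
      map_add' := by
        intro a b
        rw [Unitization.inr_add]
        rfl
      map_smul' := by
        intro c a
        rw [Unitization.inr_smul]
        rfl } 1 (by
    intro a
    rw [one_mul]
    exact (unitization_norm_inr a).le)

lemma uemb_mul (a b : A) : uemb (a * b) = uemb a * uemb b := by
  show toLp 1 ((a * b : A) : Unitization ℂ A) = _
  rw [Unitization.inr_mul]
  rfl

variable {V : Type u} [NormedAddCommGroup V] [NormedSpace ℂ V]

/-- The extension of the left action to the unitization. -/
noncomputable def uL (M : LeftModule A V) : WithLp 1 (Unitization ℂ A) →L[ℂ] V →L[ℂ] V :=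
  LinearMap.mkContinuous₂
    (LinearMap.mk₂ ℂ (fun b v => (ofLp b).fst • v + M.act (ofLp b).snd v)
      (by
        intro b b' v
        rw [ofLp_add, Unitization.fst_add, Unitization.snd_add, add_smul, map_add]
        show _ + (M.act (ofLp b).snd v + M.act (ofLp b').snd v) = _
        abel)
      (by
        intro c b v
        rw [ofLp_smul, Unitization.fst_smul, Unitization.snd_smul, map_smul, smul_add,
          smul_assoc]
        rfl)
      (by
        intro b v v'
        rw [smul_add, map_add]
        abel)
      (by
        intro c b v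
        rw [map_smul, smul_add, smul_comm])) (1 + ‖M.act‖)
    (by
      intro b v
      show ‖(ofLp b).fst • v + M.act (ofLp b).snd v‖ ≤ _
      have h1 : ‖(ofLp b).fst‖ ≤ ‖b‖ := by
        rw [unitization_norm_def]; linarith [norm_nonneg (ofLp b).snd]
      have h2 : ‖(ofLp b).snd‖ ≤ ‖b‖ := by
        rw [unitization_norm_def]; linarith [norm_nonneg (ofLp b).fst]
      calc ‖(ofLp b).fst • v + M.act (ofLp b).snd v‖
          ≤ ‖(ofLp b).fst‖ * ‖v‖ + ‖M.act‖ * ‖(ofLp b).snd‖ * ‖v‖ :=
            (norm_add_le _ _).trans (add_le_add (norm_smul_le _ _) (M.act.le_opNorm₂ _ _))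
        _ ≤ ‖b‖ * ‖v‖ + ‖M.act‖ * ‖b‖ * ‖v‖ := by gcongr
        _ = _ := by ring)

lemma uL_apply (M : LeftModule A V) (b : WithLp 1 (Unitization ℂ A)) (v : V) :
    uL M b v = (ofLp b).fst • v + M.act (ofLp b).snd v := rfl

theorem amenable_of_allFlat (hflat : AllLeftModulesFlat A) : Amenable A := by
  intro V _ _ _ M D hD
  refine inner_of_flat hflat uemb uemb_mul M (uL M.left) ?_ ?_ ?_ ?_ D hD
  · intro v
    rw [uL_apply]
    show (1 : Unitization ℂ A).fst • v + M.left.act (1 : Unitization ℂ A).snd v = v
    simp
  · intro b c v
    rw [uL_apply, uL_apply, uL_apply]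
    show (ofLp b * ofLp c).fst • v + M.left.act (ofLp b * ofLp c).snd v = _
    rw [Unitization.fst_mul, Unitization.snd_mul]
    simp only [map_add, map_smul, ContinuousLinearMap.add_apply, ContinuousLinearMap.smul_apply,
      M.left.mul_act, smul_add, smul_smul]
    abel
  · intro a v
    rw [uL_apply]
    show (a : Unitization ℂ A).fst • v + M.left.act (a : Unitization ℂ A).snd v = _
    simp
  · intro b a v
    rw [uL_apply, uL_apply, map_add, map_smul, M.comm]

end

/-- Every Banach algebra all of whose left Banach modules are flat is amenable. -/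
theorem banach_result (A : Type u) [NonUnitalNormedRing A] [NormedSpace ℂ A]
    [IsScalarTower ℂ A A] [SMulCommClass ℂ A A] [CompleteSpace A] :
    AllLeftModulesFlat A → Amenable A := amenable_of_allFlat

end Pool.Agent.Helper832.FL
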