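import Mathlib

/-!
Polynormed spaces (complete Hausdorff locally convex spaces over the complex numbers) and
jointly continuous bilinear maps.
-/

namespace Pool.Agent.Helper832.PN

universe u v w

/-- A polynormed space: a complete Hausdorff locally convex space over `ℂ` (the topology is
given by the continuous seminorms). -/
class IsPolynormed (X : Type u) [AddCommGroup X] [Module ℂ X] [UniformSpace X] : Prop where
  uniformAddGroup : IsUniformAddGroup X
  continuousSMul : ContinuousSMul ℂ X
  polynormable : PolynormableSpace ℂ X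
  t2 : T2Space X
  complete : CompleteSpace X

attribute [instance] IsPolynormed.uniformAddGroup IsPolynormed.continuousSMul
  IsPolynormed.polynormable IsPolynormed.t2 IsPolynormed.complete

/-- A jointly continuous bilinear map. -/
structure IsContBilin {X : Type u} {Y : Type v} {Z : Type w}
    [AddCommGroup X] [Module ℂ X] [TopologicalSpace X]
    [AddCommGroup Y] [Module ℂ Y] [TopologicalSpace Y]
    [AddCommGroup Z] [Module ℂ Z] [TopologicalSpace Z] (β : X → Y → Z) : Prop where
  add_left : ∀ x x' y, β (x + x') y = β x y + β x' y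
  smul_left : ∀ (c : ℂ) x y, β (c • x) y = c • β x y
  add_right : ∀ x y y', β x (y + y') = β x y + β x y'
  smul_right : ∀ (c : ℂ) x y, β x (c • y) = c • β x y
  cont : Continuous fun p : X × Y => β p.1 p.2

/-- A continuous linear map. -/
structure IsContLin {X : Type u} {Z : Type w}
    [AddCommGroup X] [Module ℂ X] [TopologicalSpace X]
    [AddCommGroup Z] [Module ℂ Z] [TopologicalSpace Z] (φ : X → Z) : Prop where
  add : ∀ x x', φ (x + x') = φ x + φ x'
  smul : ∀ (c : ℂ) x, φ (c • x) = c • φ x
  cont : Continuous φ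

/-- The polynormed space `T` with the jointly continuous bilinear map `t : X × Y → T` is the
completed projective tensor product `X ⊗̂ Y`: every jointly continuous bilinear map from
`X × Y` to a polynormed space factors through `t` by a unique continuous linear map. -/
def IsProjTensor {X Y T : Type u}
    [AddCommGroup X] [Module ℂ X] [TopologicalSpace X]
    [AddCommGroup Y] [Module ℂ Y] [TopologicalSpace Y]
    [AddCommGroup T] [Module ℂ T] [TopologicalSpace T] (t : X → Y → T) : Prop :=
  IsContBilin t ∧ ∀ (Z : Type u) [AddCommGroup Z] [Module ℂ Z] [UniformSpace Z]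
    [IsPolynormed Z] (β : X → Y → Z), IsContBilin β →
      ∃! φ : T → Z, IsContLin φ ∧ ∀ x y, φ (t x y) = β x y

section Basic

variable {X : Type u} {Y : Type v} {Z : Type w}
  [AddCommGroup X] [Module ℂ X] [TopologicalSpace X]
  [AddCommGroup Y] [Module ℂ Y] [TopologicalSpace Y]
  [AddCommGroup Z] [Module ℂ Z] [TopologicalSpace Z]

/-- Bundled continuous linear map. -/
def IsContLin.toCLM {φ : X → Z} (h : IsContLin φ) : X →L[ℂ] Z where
  toFun := φ
  map_add' := h.add
  map_smul' := h.smul
  cont := h.cont

@[simp] lemma IsContLin.toCLM_apply {φ : X → Z} (h : IsContLin φ) (x : X) : h.toCLM x = φ x := rfl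

lemma isContLin_clm (f : X →L[ℂ] Z) : IsContLin (fun x => f x) :=
  ⟨f.map_add, f.map_smul, f.continuous⟩

/-- Bundled bilinear map. -/
def IsContBilin.toLin {β : X → Y → Z} (h : IsContBilin β) : X →ₗ[ℂ] Y →ₗ[ℂ] Z :=
  LinearMap.mk₂ ℂ β h.add_left h.smul_left h.add_right h.smul_right

@[simp] lemma IsContBilin.toLin_apply {β : X → Y → Z} (h : IsContBilin β) (x : X) (y : Y) :
    h.toLin x y = β x y := rfl

lemma IsContBilin.zero_left {β : X → Y → Z} (h : IsContBilin β) (y : Y) : β 0 y = 0 := by
  simpa using h.smul_left 0 0 y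

lemma IsContBilin.zero_right {β : X → Y → Z} (h : IsContBilin β) (x : X) : β x 0 = 0 := by
  simpa using h.smul_right 0 x 0

lemma IsContBilin.neg_left {β : X → Y → Z} (h : IsContBilin β) (x : X) (y : Y) :
    β (-x) y = - β x y := by
  simpa using h.smul_left (-1) x y

lemma IsContBilin.neg_right {β : X → Y → Z} (h : IsContBilin β) (x : X) (y : Y) :
    β x (-y) = - β x y := by
  simpa using h.smul_right (-1) x y

lemma IsContBilin.sub_left {β : X → Y → Z} (h : IsContBilin β) (x x' : X) (y : Y) :
    β (x - x') y = β x y - β x' y := by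
  rw [sub_eq_add_neg, h.add_left, h.neg_left, sub_eq_add_neg]

lemma IsContBilin.sub_right {β : X → Y → Z} (h : IsContBilin β) (x : X) (y y' : Y) :
    β x (y - y') = β x y - β x y' := by
  rw [sub_eq_add_neg, h.add_right, h.neg_right, sub_eq_add_neg]

lemma IsContBilin.cont_left {β : X → Y → Z} (h : IsContBilin β) (y : Y) :
    Continuous (fun x => β x y) := h.cont.comp (by fun_prop : Continuous fun x : X => (x, y))

lemma IsContBilin.cont_right {β : X → Y → Z} (h : IsContBilin β) (x : X) :
    Continuous (fun y => β x y) := h.cont.comp (by fun_prop : Continuous fun y : Y => (x, y))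

lemma IsContBilin.isContLin_left {β : X → Y → Z} (h : IsContBilin β) (y : Y) :
    IsContLin (fun x => β x y) :=
  ⟨fun x x' => h.add_left x x' y, fun c x => h.smul_left c x y, h.cont_left y⟩

lemma IsContBilin.isContLin_right {β : X → Y → Z} (h : IsContBilin β) (x : X) :
    IsContLin (fun y => β x y) :=
  ⟨fun y y' => h.add_right x y y', fun c y => h.smul_right c x y, h.cont_right x⟩

end Basic

section Seminorms

variable {X : Type u} {Y : Type v} {Z : Type w}
  [AddCommGroup X] [Module ℂ X] [TopologicalSpace X] [PolynormableSpace ℂ X]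
  [AddCommGroup Y] [Module ℂ Y] [TopologicalSpace Y] [PolynormableSpace ℂ Y]
  [AddCommGroup Z] [Module ℂ Z] [TopologicalSpace Z] [PolynormableSpace ℂ Z]

/-- Neighbourhoods of zero contain balls of continuous seminorms. -/
lemma exists_seminorm_of_mem_nhds {U : Set X} (hU : U ∈ nhds (0 : X)) :
    ∃ p : Seminorm ℂ X, Continuous p ∧ ∀ x, p x < 1 → x ∈ U := by
  have hw := PolynormableSpace.withSeminorms ℂ X
  have := hw.topologicalAddGroup
  rw [hw.mem_nhds_iff] at hU
  obtain ⟨s, r, hr, hs⟩ := hU
  let P : Seminorm ℂ X := s.sup (fun p : {p : Seminorm ℂ X // Continuous p} => (p : Seminorm ℂ X))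
  have h1 : Continuous P := Seminorm.continuous_finsetSup (fun i _ => i.2)
  refine ⟨(Real.toNNReal r⁻¹) • P, Continuous.const_smul h1 _, ?_⟩
  intro x hx
  apply hs
  rw [Seminorm.mem_ball_zero]
  have h2 : r⁻¹ * P x < 1 := by
    have : ((Real.toNNReal r⁻¹) • P) x = r⁻¹ * P x := by
      rw [smul_apply, NNReal.smul_def, Real.coe_toNNReal _ (inv_pos.2 hr).le]
      rfl
    rw [← this]; exact hx
  rw [inv_mul_lt_iff₀ hr, mul_one] at h2
  exact h2

lemma tendsto_of_seminorms {α : Type*} {l : Filter α} {f : α → X} {x : X}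
    (h : ∀ p : Seminorm ℂ X, Continuous p → Filter.Tendsto (fun a => p (f a - x)) l (nhds 0)) :
    Filter.Tendsto f l (nhds x) := by
  have hw := PolynormableSpace.withSeminorms ℂ X
  rw [hw.tendsto_nhds]
  intro i ε hε
  have := h i.1 i.2
  exact this.eventually (gt_mem_nhds hε)

/-- A jointly continuous bilinear map satisfies product seminorm estimates. -/
lemma IsContBilin.exists_bound {β : X → Y → Z} (h : IsContBilin β) (r : Seminorm ℂ Z)
    (hr : Continuous r) : ∃ (p : Seminorm ℂ X) (q : Seminorm ℂ Y), Continuous p ∧ Continuous q ∧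
      ∀ x y, r (β x y) ≤ p x * q y := by
  have h0 : {z : Z | r z < 1} ∈ nhds (β 0 0) := by
    rw [h.zero_left]
    have : {z : Z | r z < 1} = r ⁻¹' (Set.Iio 1) := rfl
    rw [this]
    exact hr.continuousAt.preimage_mem_nhds (by rw [map_zero]; exact Iio_mem_nhds one_pos)
  have h1 := h.cont.continuousAt (x := ((0 : X), (0 : Y))) |>.preimage_mem_nhds h0
  rw [nhds_prod_eq, Filter.mem_prod_iff] at h1
  obtain ⟨U, hU, V, hV, hUV⟩ := h1
  obtain ⟨p, hp, hpU⟩ := exists_seminorm_of_mem_nhds hU
  obtain ⟨q, hq, hqV⟩ := exists_seminorm_of_mem_nhds hV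
  refine ⟨p, q, hp, hq, fun x y => ?_⟩
  -- scaling argument
  have key : ∀ a b : ℝ, p x < a → q y < b → r (β x y) ≤ a * b := by
    intro a b ha hb
    have ha0 : 0 < a := (apply_nonneg p x).trans_lt ha
    have hb0 : 0 < b := (apply_nonneg q y).trans_lt hb
    have hx : ((a : ℂ)⁻¹ • x) ∈ U := by
      apply hpU
      rw [map_smul_eq_mul, norm_inv, Complex.norm_real, Real.norm_of_nonneg ha0.le,
        inv_mul_lt_iff₀ ha0, mul_one]
      exact ha
    have hy : ((b : ℂ)⁻¹ • y) ∈ V := by
      apply hqV
      rw [map_smul_eq_mul, norm_inv, Complex.norm_real, Real.norm_of_nonneg hb0.le,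
        inv_mul_lt_iff₀ hb0, mul_one]
      exact hb
    have := hUV (Set.mk_mem_prod hx hy)
    simp only [Set.mem_preimage, Set.mem_ofPred_eq] at this
    rw [h.smul_left, h.smul_right, map_smul_eq_mul, map_smul_eq_mul, norm_inv, norm_inv,
      Complex.norm_real, Complex.norm_real, Real.norm_of_nonneg ha0.le,
      Real.norm_of_nonneg hb0.le, inv_mul_lt_iff₀ ha0, inv_mul_lt_iff₀ hb0] at this
    nlinarith
  -- let a, b decrease
  have hlim : Filter.Tendsto (fun ε : ℝ => (p x + ε) * (q y + ε))
      (nhdsWithin 0 (Set.Ioi 0)) (nhds (p x * q y)) := by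
    have : Filter.Tendsto (fun ε : ℝ => (p x + ε) * (q y + ε)) (nhds 0)
        (nhds ((p x + 0) * (q y + 0))) := by
      apply Continuous.tendsto
      fun_prop
    rw [add_zero, add_zero] at this
    exact this.mono_left nhdsWithin_le_nhds
  apply ge_of_tendsto hlim
  filter_upwards [self_mem_nhdsWithin] with ε hε
  have hε' : 0 < ε := hε
  exact key _ _ (by linarith) (by linarith)

/-- Product seminorm estimates imply joint continuity of a bilinear map. -/
lemma continuous_of_bound {β : X → Y → Z}
    (add_left : ∀ x x' y, β (x + x') y = β x y + β x' y)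
    (add_right : ∀ x y y', β x (y + y') = β x y + β x y')
    (hb : ∀ r : Seminorm ℂ Z, Continuous r →
      ∃ (p : Seminorm ℂ X) (q : Seminorm ℂ Y), Continuous p ∧ Continuous q ∧
        ∀ x y, r (β x y) ≤ p x * q y) : Continuous fun p : X × Y => β p.1 p.2 := by
  rw [continuous_iff_continuousAt]
  rintro ⟨x0, y0⟩
  apply tendsto_of_seminorms
  intro r hr
  obtain ⟨p, q, hp, hq, hpq⟩ := hb r hr
  have e : ∀ x y, β x y - β x0 y0 = β (x - x0) (y - y0) + β (x - x0) y0 + β x0 (y - y0) := by
    intro x y
    have h1 : β x y = β (x - x0) y + β x0 y := by rw [← add_left]; simp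
    have h2 : ∀ z, β z y = β z (y - y0) + β z y0 := by intro z; rw [← add_right]; simp
    rw [h1, h2 (x - x0), h2 x0]
    abel
  have hlim : Filter.Tendsto (fun z : X × Y => p (z.1 - x0) * q (z.2 - y0) + p (z.1 - x0) * q y0
      + p x0 * q (z.2 - y0)) (nhds (x0, y0)) (nhds 0) := by
    have hc : Continuous (fun z : X × Y => p (z.1 - x0) * q (z.2 - y0) + p (z.1 - x0) * q y0
      + p x0 * q (z.2 - y0)) := by
      have := (PolynormableSpace.withSeminorms ℂ X).topologicalAddGroup
      have := (PolynormableSpace.withSeminorms ℂ Y).topologicalAddGroup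
      fun_prop
    have := hc.tendsto (x0, y0)
    simpa using this
  refine squeeze_zero (fun z => apply_nonneg r _) (fun z => ?_) hlim
  rw [e]
  refine (map_add_le_add r _ _).trans (add_le_add ((map_add_le_add r _ _).trans
    (add_le_add (hpq _ _) (hpq _ _))) (hpq _ _))

/-- The sum of two continuous seminorms. -/
lemma exists_seminorm_ge (p p' : Seminorm ℂ X) (hp : Continuous p) (hp' : Continuous p') :
    ∃ P : Seminorm ℂ X, Continuous P ∧ p ≤ P ∧ p' ≤ P := by
  refine ⟨p + p', by simpa using hp.add hp', ?_, ?_⟩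
  · intro x
    simp
  · intro x
    simp

/-- A linear map dominated by continuous seminorms is continuous. -/
lemma continuous_lin_of_bound {φ : X → Z} (add : ∀ x x', φ (x + x') = φ x + φ x')
    (hb : ∀ r : Seminorm ℂ Z, Continuous r →
      ∃ p : Seminorm ℂ X, Continuous p ∧ ∀ x, r (φ x) ≤ p x) : Continuous φ := by
  have := (PolynormableSpace.withSeminorms ℂ X).topologicalAddGroup
  rw [continuous_iff_continuousAt]
  intro x0
  apply tendsto_of_seminorms
  intro r hr
  obtain ⟨p, hp, hpr⟩ := hb r hr
  have e : ∀ x, φ x - φ x0 = φ (x - x0) := by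
    intro x
    have : φ x = φ (x - x0) + φ x0 := by rw [← add]; simp
    rw [this]; abel
  have hlim : Filter.Tendsto (fun x : X => p (x - x0)) (nhds x0) (nhds 0) := by
    have hc : Continuous (fun x : X => p (x - x0)) := by fun_prop
    simpa using hc.tendsto x0
  refine squeeze_zero (fun z => apply_nonneg r _) (fun z => ?_) hlim
  rw [e]
  exact hpr _

end Seminorms

end Pool.Agent.Helper832.PN
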