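import Mathlib
import Pool.Agent.Helper832.PNa

/-!
Polynormed algebras, modules, bimodules, completed projective tensor products over an algebra,
flatness and amenability.
-/

set_option autoImplicit false

namespace Pool.Agent.Helper832.PN

open Topology

universe u

/-- A polynormed algebra: a complete Hausdorff locally convex algebra over `ℂ`, not necessarily
unital, with jointly continuous multiplication. -/
class IsPolyAlg (A : Type u) [NonUnitalRing A] [Module ℂ A] [UniformSpace A] : Prop
    extends IsPolynormed A where
  mul_bilin : IsContBilin (fun a b : A => a * b)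

section

variable {A : Type u} [NonUnitalRing A] [Module ℂ A] [UniformSpace A]

/-- `X` with the action `l a x = a x` is a left `A`-module with jointly continuous action. -/
structure IsLeftMod {X : Type u} [AddCommGroup X] [Module ℂ X] [UniformSpace X]
    (l : A → X → X) : Prop where
  bilin : IsContBilin l
  mul : ∀ a b x, l (a * b) x = l a (l b x)

/-- `Y` with the action `r y a = y a` is a right `A`-module with jointly continuous action. -/
structure IsRightMod {Y : Type u} [AddCommGroup Y] [Module ℂ Y] [UniformSpace Y]
    (r : Y → A → Y) : Prop where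
  bilin : IsContBilin r
  mul : ∀ y a b, r y (a * b) = r (r y a) b

/-- `V` with left action `l` and right action `r` is an `A`-bimodule with jointly continuous
actions. -/
structure IsBimod {V : Type u} [AddCommGroup V] [Module ℂ V] [UniformSpace V]
    (l : A → V → V) (r : V → A → V) : Prop where
  left : IsLeftMod l
  right : IsRightMod r
  comm : ∀ a v b, r (l a v) b = l a (r v b)

/-- `0 → Y' → Y → Y'' → 0` (maps `i`, `j`) splits as a sequence of locally convex spaces: `p` is
a continuous linear left inverse of `i` and `s` a continuous linear right inverse of `j`. -/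
structure IsAdmissible {Y' Y Y'' : Type u} [AddCommGroup Y'] [Module ℂ Y'] [UniformSpace Y']
    [AddCommGroup Y] [Module ℂ Y] [UniformSpace Y] [AddCommGroup Y''] [Module ℂ Y'']
    [UniformSpace Y''] (i : Y' → Y) (j : Y → Y'') : Prop where
  lin_i : IsContLin i
  lin_j : IsContLin j
  split : ∃ (p : Y → Y') (s : Y'' → Y), IsContLin p ∧ IsContLin s ∧ (∀ y, p (i y) = y) ∧
    (∀ y, j (s y) = y) ∧ (∀ y, j (i y) = 0) ∧ ∀ y, y = i (p y) + s (j y)

/-- `t : Y × X → T` is the completed projective tensor product `Y ⊗̂_A X` of the right module `Y`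
and the left module `X`: it is universal among the balanced jointly continuous bilinear maps into
polynormed spaces. -/
structure IsTensorOver {Y X T : Type u} [AddCommGroup Y] [Module ℂ Y] [UniformSpace Y]
    [AddCommGroup X] [Module ℂ X] [UniformSpace X] [AddCommGroup T] [Module ℂ T] [UniformSpace T]
    (r : Y → A → Y) (l : A → X → X) (t : Y → X → T) : Prop where
  bilin : IsContBilin t
  bal : ∀ y a x, t (r y a) x = t y (l a x)
  univ : ∀ (Z : Type u) [AddCommGroup Z] [Module ℂ Z] [UniformSpace Z] [IsPolynormed Z]
    (β : Y → X → Z), IsContBilin β → (∀ y a x, β (r y a) x = β y (l a x)) →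
      ∃! φ : T → Z, IsContLin φ ∧ ∀ y x, φ (t y x) = β y x

/-- The multiplication of the unitization `A₊ = ℂ × A`. -/
def plusMul (x y : ℂ × A) : ℂ × A :=
  (x.1 * y.1, x.1 • y.2 + y.1 • x.2 + x.2 * y.2)

/-- `t : V × A₊ → T` is the completed projective tensor product over `A`-`A` of the bimodule `V`
and the bimodule `A₊`: it is universal among the jointly continuous bilinear maps `t` into
polynormed spaces with `t (v a, c) = t (v, a c)` and `t (a v, c) = t (v, c a)`. -/
structure IsBiTensor {V T : Type u} [AddCommGroup V] [Module ℂ V] [UniformSpace V]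
    [AddCommGroup T] [Module ℂ T] [UniformSpace T]
    (l : A → V → V) (r : V → A → V) (t : V → ℂ × A → T) : Prop where
  bilin : IsContBilin t
  bal_right : ∀ v a c, t (r v a) c = t v (plusMul (0, a) c)
  bal_left : ∀ v a c, t (l a v) c = t v (plusMul c (0, a))
  univ : ∀ (Z : Type u) [AddCommGroup Z] [Module ℂ Z] [UniformSpace Z] [IsPolynormed Z]
    (β : V → ℂ × A → Z), IsContBilin β → (∀ v a c, β (r v a) c = β v (plusMul (0, a) c)) →
      (∀ v a c, β (l a v) c = β v (plusMul c (0, a))) →
      ∃! φ : T → Z, IsContLin φ ∧ ∀ v c, φ (t v c) = β v c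

/-- Topological exactness of `0 → T' → T → T'' → 0` for completed tensor products: the first map
is a topological embedding onto a closed subspace, this subspace is the kernel of the second map,
and the second map identifies `T''` with the completion of the quotient of `T` by it: it has dense
range and every continuous seminorm on `T` which vanishes on the kernel is dominated by a
continuous seminorm on `T''`. -/
structure IsTopExact {T' T T'' : Type u} [AddCommGroup T'] [Module ℂ T'] [UniformSpace T']
    [AddCommGroup T] [Module ℂ T] [UniformSpace T] [AddCommGroup T''] [Module ℂ T'']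
    [UniformSpace T''] (φ : T' → T) (ψ : T → T'') : Prop where
  closedEmbedding : IsClosedEmbedding φ
  exact_mid : Set.range φ = {t | ψ t = 0}
  dense : DenseRange ψ
  strict : ∀ q : Seminorm ℂ T, Continuous q → (∀ t, ψ t = 0 → q t = 0) →
    ∃ q'' : Seminorm ℂ T'', Continuous q'' ∧ ∀ t, q t ≤ q'' (ψ t)

end

/-- The left module `X` (action `l`) over the polynormed algebra `A` is flat: the functor
`Y ↦ Y ⊗̂_A X` sends admissible short exact sequences of right modules to topologically exact
sequences. -/
def FlatLeft {A : Type u} [NonUnitalRing A] [Module ℂ A] [UniformSpace A] [IsPolyAlg A]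
    {X : Type u} [AddCommGroup X] [Module ℂ X] [UniformSpace X] [IsPolynormed X]
    (l : A → X → X) : Prop :=
  ∀ (Y' Y Y'' : Type u)
    [AddCommGroup Y'] [Module ℂ Y'] [UniformSpace Y'] [IsPolynormed Y']
    [AddCommGroup Y] [Module ℂ Y] [UniformSpace Y] [IsPolynormed Y]
    [AddCommGroup Y''] [Module ℂ Y''] [UniformSpace Y''] [IsPolynormed Y'']
    (r' : Y' → A → Y') (r : Y → A → Y) (r'' : Y'' → A → Y'') (i : Y' → Y) (j : Y → Y''),
    IsRightMod r' → IsRightMod r → IsRightMod r'' → IsAdmissible i j →
    (∀ y a, i (r' y a) = r (i y) a) → (∀ y a, j (r y a) = r'' (j y) a) →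
    ∀ (T' T T'' : Type u)
      [AddCommGroup T'] [Module ℂ T'] [UniformSpace T'] [IsPolynormed T']
      [AddCommGroup T] [Module ℂ T] [UniformSpace T] [IsPolynormed T]
      [AddCommGroup T''] [Module ℂ T''] [UniformSpace T''] [IsPolynormed T'']
      (t' : Y' → X → T') (t : Y → X → T) (t'' : Y'' → X → T''),
      IsTensorOver r' l t' → IsTensorOver r l t → IsTensorOver r'' l t'' →
      ∀ (φ : T' → T) (ψ : T → T''), IsContLin φ → IsContLin ψ →
        (∀ y x, φ (t' y x) = t (i y) x) → (∀ y x, ψ (t y x) = t'' (j y) x) → IsTopExact φ ψ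

/-- The polynormed algebra `A` is amenable: the bimodule `A₊` is flat, i.e. the functor
`V ↦ V ⊗̂_{A-A} A₊` sends admissible short exact sequences of bimodules to topologically exact
sequences. -/
def AmenableP (A : Type u) [NonUnitalRing A] [Module ℂ A] [UniformSpace A] [IsPolyAlg A] : Prop :=
  ∀ (V' V V'' : Type u)
    [AddCommGroup V'] [Module ℂ V'] [UniformSpace V'] [IsPolynormed V']
    [AddCommGroup V] [Module ℂ V] [UniformSpace V] [IsPolynormed V]
    [AddCommGroup V''] [Module ℂ V''] [UniformSpace V''] [IsPolynormed V'']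
    (l' : A → V' → V') (r' : V' → A → V') (l : A → V → V) (r : V → A → V)
    (l'' : A → V'' → V'') (r'' : V'' → A → V'') (i : V' → V) (j : V → V''),
    IsBimod l' r' → IsBimod l r → IsBimod l'' r'' → IsAdmissible i j →
    (∀ v a, i (r' v a) = r (i v) a) → (∀ a v, i (l' a v) = l a (i v)) →
    (∀ v a, j (r v a) = r'' (j v) a) → (∀ a v, j (l a v) = l'' a (j v)) →
    ∀ (T' T T'' : Type u)
      [AddCommGroup T'] [Module ℂ T'] [UniformSpace T'] [IsPolynormed T']
      [AddCommGroup T] [Module ℂ T] [UniformSpace T] [IsPolynormed T]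
      [AddCommGroup T''] [Module ℂ T''] [UniformSpace T''] [IsPolynormed T'']
      (t' : V' → ℂ × A → T') (t : V → ℂ × A → T) (t'' : V'' → ℂ × A → T''),
      IsBiTensor l' r' t' → IsBiTensor l r t → IsBiTensor l'' r'' t'' →
      ∀ (φ : T' → T) (ψ : T → T''), IsContLin φ → IsContLin ψ →
        (∀ v c, φ (t' v c) = t (i v) c) → (∀ v c, ψ (t v c) = t'' (j v) c) → IsTopExact φ ψ

end Pool.Agent.Helper832.PN
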