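import Mathlib
import Pool.Agent.Helper832.PNa
import Pool.Agent.Helper832.PNd

/-!
Flatness and amenability for Banach algebras.
-/

set_option autoImplicit false

namespace Pool.Agent.Helper832.PN

universe u

/-- The left Banach module `X` (action `l`) over the Banach algebra `A` is flat: its dual `X*`,
with the right action `(f a)(x) = f (a x)`, is an injective right Banach module, i.e. every
bounded morphism `f : Y' → X*` of right modules extends along every admissible monomorphism
`i : Y' → Y` (one with a bounded linear left inverse `p`). -/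
def FlatBanach {A : Type u} [NonUnitalNormedRing A] [NormedSpace ℂ A]
    {X : Type u} [NormedAddCommGroup X] [NormedSpace ℂ X] (l : A → X → X) : Prop :=
  ∀ (Y' Y : Type u) [NormedAddCommGroup Y'] [NormedSpace ℂ Y'] [CompleteSpace Y']
    [NormedAddCommGroup Y] [NormedSpace ℂ Y] [CompleteSpace Y]
    (r' : Y' → A → Y') (r : Y → A → Y) (i : Y' → Y) (p : Y → Y'),
    IsRightMod r' → IsRightMod r → IsContLin i → IsContLin p →
    (∀ y a, i (r' y a) = r (i y) a) → (∀ y, p (i y) = y) →
    ∀ f : Y' → (X →L[ℂ] ℂ), IsContLin f → (∀ y a x, f (r' y a) x = f y (l a x)) →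
      ∃ g : Y → (X →L[ℂ] ℂ), IsContLin g ∧ (∀ y a x, g (r y a) x = g y (l a x)) ∧
        ∀ y, g (i y) = f y

/-- Every left Banach module over the Banach algebra `A` is flat. -/
def AllFlatBanach (A : Type u) [NonUnitalNormedRing A] [NormedSpace ℂ A] : Prop :=
  ∀ (X : Type u) [NormedAddCommGroup X] [NormedSpace ℂ X] [CompleteSpace X] (l : A → X → X),
    IsLeftMod l → FlatBanach l

/-- The Banach algebra `A` is amenable (Johnson): for every Banach bimodule `V` every bounded
derivation `D : A → V*` is inner. The actions on `V*` are `(a f)(v) = f (v a)` and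
`(f a)(v) = f (a v)`. -/
def AmenableBanach (A : Type u) [NonUnitalNormedRing A] [NormedSpace ℂ A] : Prop :=
  ∀ (V : Type u) [NormedAddCommGroup V] [NormedSpace ℂ V] [CompleteSpace V]
    (l : A → V → V) (r : V → A → V), IsBimod l r →
    ∀ D : A → (V →L[ℂ] ℂ), IsContLin D →
      (∀ a b v, D (a * b) v = D b (r v a) + D a (l b v)) →
      ∃ φ : V →L[ℂ] ℂ, ∀ a v, D a v = φ (r v a) - φ (l a v)

end Pool.Agent.Helper832.PN
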