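import Mathlib
import Pool.Agent.Helper832.FLf
import Pool.Agent.Helper832.PNa
import Pool.Agent.Helper832.PNd
import Pool.Agent.Helper832.PNe

/-!
Bridge between bundled and unbundled Banach modules.
-/

set_option autoImplicit false
set_option linter.unusedSectionVars false

namespace Pool.Agent.Helper832.FL

open Pool.Agent.Helper832.PN

universe u

section

variable {X Y Z : Type u} [NormedAddCommGroup X] [NormedSpace ℂ X] [NormedAddCommGroup Y]
  [NormedSpace ℂ Y] [NormedAddCommGroup Z] [NormedSpace ℂ Z]

/-- Bundle a jointly continuous bilinear map. -/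
lemma exists_bilinCLM {β : X → Y → Z} (h : IsContBilin β) :
    ∃ T : X →L[ℂ] Y →L[ℂ] Z, ∀ x y, T x y = β x y := by
  obtain ⟨p, q, hp, hq, hb⟩ := h.exists_bound (normSeminorm ℂ Z) continuous_norm
  obtain ⟨C, hC, hpC⟩ := Seminorm.bound_of_continuous_normedSpace p hp
  obtain ⟨C', hC', hqC⟩ := Seminorm.bound_of_continuous_normedSpace q hq
  refine ⟨LinearMap.mkContinuous₂ h.toLin (C * C') ?_, fun x y => rfl⟩
  intro x y
  have h1 : ‖h.toLin x y‖ ≤ p x * q y := hb x y
  have h2 := hpC x
  have h3 := hqC y
  calc ‖h.toLin x y‖ ≤ p x * q y := h1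
    _ ≤ (C * ‖x‖) * (C' * ‖y‖) := by
        apply mul_le_mul h2 h3 (apply_nonneg q y)
        positivity
    _ = C * C' * ‖x‖ * ‖y‖ := by ring

lemma isContBilin_clm (T : X →L[ℂ] Y →L[ℂ] Z) : IsContBilin (fun x y => T x y) where
  add_left x x' y := by simp
  smul_left c x y := by simp
  add_right x y y' := by simp
  smul_right c x y := by simp
  cont := T.continuous₂

lemma isContBilin_flip {β : X → Y → Z} (h : IsContBilin β) :
    IsContBilin (fun y x => β x y) where
  add_left x x' y := h.add_right _ _ _
  smul_left c x y := h.smul_right _ _ _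
  add_right x y y' := h.add_left _ _ _
  smul_right c x y := h.smul_left _ _ _
  cont := h.cont.comp continuous_swap

end

section

variable {A : Type u} [NonUnitalNormedRing A] [NormedSpace ℂ A]

lemma allFlat_of_allFlatBanach (h : AllFlatBanach A) : AllLeftModulesFlat A := by
  intro X _ _ _ M Y' Y _ _ _ _ _ _ MY' MY i p hi hp f hf
  have hl : IsLeftMod (fun a x => M.act a x) :=
    ⟨isContBilin_clm M.act, fun a b x => M.mul_act a b x⟩
  obtain ⟨g, hg1, hg2, hg3⟩ := h X (fun a x => M.act a x) hl Y' Y
    (fun y a => MY'.act a y) (fun y a => MY.act a y) i p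
    ⟨isContBilin_flip (isContBilin_clm MY'.act), fun y a b => MY'.act_mul a b y⟩
    ⟨isContBilin_flip (isContBilin_clm MY.act), fun y a b => MY.act_mul a b y⟩
    (isContLin_clm i) (isContLin_clm p) (fun y a => hi a y) hp f (isContLin_clm f) (by
      intro y a x
      have := hf a y
      have h2 := congrArg (fun φ : X →L[ℂ] ℂ => φ x) this
      exact h2)
  refine ⟨hg1.toCLM, ?_, hg3⟩
  intro a y
  ext x
  exact hg2 y a x

lemma amenableBanach_of_amenable (h : Amenable A) : AmenableBanach A := by
  intro V _ _ _ l r hb D hD hder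
  obtain ⟨L, hL⟩ := exists_bilinCLM hb.left.bilin
  obtain ⟨R, hR⟩ := exists_bilinCLM (isContBilin_flip hb.right.bilin)
  let M : Bimodule A V :=
    { left := ⟨L, by
        intro a b x
        rw [hL, hL, hL]
        exact hb.left.mul a b x⟩
      right := ⟨R, by
        intro a b x
        rw [hR, hR, hR]
        exact hb.right.mul x a b⟩
      comm := by
        intro a b v
        show R b (L a v) = L a (R b v)
        rw [hL, hL, hR, hR]
        exact hb.comm a v b }
  obtain ⟨φ, hφ⟩ := h V M hD.toCLM (by
    intro a b v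
    show D (a * b) v = D b (R a v) + D a (L b v)
    rw [hL, hR]
    exact hder a b v)
  refine ⟨φ, fun a v => ?_⟩
  have := hφ a v
  rw [← hL a v, ← hR a v]
  exact this

end

/-- Every Banach algebra all of whose left Banach modules are flat is amenable. -/
theorem banach_result' (A : Type u) [NonUnitalNormedRing A] [NormedSpace ℂ A]
    [IsScalarTower ℂ A A] [SMulCommClass ℂ A A] [CompleteSpace A] (h : AllFlatBanach A) :
    AmenableBanach A :=
  amenableBanach_of_amenable (banach_result A (allFlat_of_allFlatBanach h))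

end Pool.Agent.Helper832.FL
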