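import Mathlib

/-!
Projective tensor products. Vendored from helper53 (HomA.lean).
-/


set_option autoImplicit false
set_option maxSynthPendingDepth 3
set_option linter.unusedSectionVars false

namespace Pool.Agent.Helper832.GD

open ContinuousLinearMap

section Tensor

/-- dual of the space of bounded bilinear forms -/
abbrev BD (P Q : Type) [NormedAddCommGroup P] [NormedSpace ℂ P]
    [NormedAddCommGroup Q] [NormedSpace ℂ Q] : Type := (P →L[ℂ] Q →L[ℂ] ℂ) →L[ℂ] ℂ

variable {P Q Z : Type} [NormedAddCommGroup P] [NormedSpace ℂ P]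
  [NormedAddCommGroup Q] [NormedSpace ℂ Q] [NormedAddCommGroup Z] [NormedSpace ℂ Z]

/-- elementary tensor, as a functional on bilinear forms -/
noncomputable def tm (p : P) (q : Q) : BD P Q :=
  (ContinuousLinearMap.apply ℂ ℂ q).comp (ContinuousLinearMap.apply ℂ (Q →L[ℂ] ℂ) p)

@[simp] lemma tm_apply (p : P) (q : Q) (β : P →L[ℂ] Q →L[ℂ] ℂ) : tm p q β = β p q := rfl

/-- the span of the elementary tensors -/
noncomputable def spanTm (P Q : Type) [NormedAddCommGroup P] [NormedSpace ℂ P]
    [NormedAddCommGroup Q] [NormedSpace ℂ Q] : Submodule ℂ (BD P Q) :=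
  Submodule.span ℂ (Set.range (fun pq : P × Q => tm pq.1 pq.2))

/-- closed span of the elementary tensors -/
noncomputable def tensSub (P Q : Type) [NormedAddCommGroup P] [NormedSpace ℂ P]
    [NormedAddCommGroup Q] [NormedSpace ℂ Q] : Submodule ℂ (BD P Q) :=
  (spanTm P Q).topologicalClosure

/-- the projective tensor product -/
def Tens (P Q : Type) [NormedAddCommGroup P] [NormedSpace ℂ P]
    [NormedAddCommGroup Q] [NormedSpace ℂ Q] : Type := tensSub P Q

noncomputable instance : NormedAddCommGroup (Tens P Q) :=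
  inferInstanceAs (NormedAddCommGroup (tensSub P Q))

noncomputable instance : NormedSpace ℂ (Tens P Q) :=
  inferInstanceAs (NormedSpace ℂ (tensSub P Q))

instance : CompleteSpace (Tens P Q) := by
  show CompleteSpace (tensSub P Q)
  unfold tensSub; infer_instance

/-- the inclusion -/
noncomputable def tensVal : Tens P Q →L[ℂ] BD P Q := (tensSub P Q).subtypeL

lemma tensVal_injective : Function.Injective (tensVal : Tens P Q → BD P Q) :=
  Subtype.val_injective

lemma tm_mem (p : P) (q : Q) : tm p q ∈ tensSub P Q :=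
  Submodule.le_topologicalClosure _ (Submodule.subset_span ⟨(p, q), rfl⟩)

/-- elementary tensor as a bounded bilinear map -/
noncomputable def tens : P →L[ℂ] Q →L[ℂ] Tens P Q :=
  LinearMap.mkContinuous₂
    (LinearMap.mk₂ ℂ (fun (p : P) (q : Q) => (⟨tm p q, tm_mem p q⟩ : Tens P Q))
      (fun a b y => tensVal_injective (by
        rw [map_add]; show tm (a + b) y = tm a y + tm b y; ext; simp))
      (fun c a y => tensVal_injective (by
        rw [map_smul]; show tm (c • a) y = c • tm a y; ext; simp))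
      (fun a y z => tensVal_injective (by
        rw [map_add]; show tm a (y + z) = tm a y + tm a z; ext; simp))
      (fun c a y => tensVal_injective (by
        rw [map_smul]; show tm a (c • y) = c • tm a y; ext; simp)))
    1 (fun p q => by
      refine ContinuousLinearMap.opNorm_le_bound _ (by positivity) (fun β => ?_)
      have := β.le_opNorm₂ p q
      calc ‖β p q‖ ≤ ‖β‖ * ‖p‖ * ‖q‖ := this
        _ = 1 * ‖p‖ * ‖q‖ * ‖β‖ := by ring)

lemma tensVal_tens (p : P) (q : Q) : tensVal (tens p q : Tens P Q) = tm p q := rfl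

/-- an element of the closed span as an element of the tensor product -/
def mkT (x : BD P Q) (hx : x ∈ tensSub P Q) : Tens P Q := ⟨x, hx⟩

lemma mkT_add (x y : BD P Q) (hx : x ∈ tensSub P Q) (hy : y ∈ tensSub P Q)
    (hxy : x + y ∈ tensSub P Q) : mkT (x + y) hxy = mkT x hx + mkT y hy := rfl

lemma mkT_smul (c : ℂ) (x : BD P Q) (hx : x ∈ tensSub P Q)
    (hcx : c • x ∈ tensSub P Q) : mkT (c • x) hcx = c • mkT x hx := rfl

/-- operators on the tensor product are determined by their values on elementary tensors -/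
lemma tens_ext {f g : Tens P Q →L[ℂ] Z} (h : ∀ p q, f (tens p q) = g (tens p q)) : f = g := by
  have hle : (spanTm P Q : Set (BD P Q)) ⊆ (tensSub P Q : Set (BD P Q)) :=
    Submodule.le_topologicalClosure _
  have hd : DenseRange (Set.inclusion hle) := by
    rw [denseRange_inclusion_iff]
    exact le_of_eq rfl
  have hx : ∀ x (hx : x ∈ spanTm P Q), f (mkT x (hle hx)) = g (mkT x (hle hx)) := by
    intro x hx
    have hx' : x ∈ Submodule.span ℂ (Set.range (fun pq : P × Q => tm pq.1 pq.2)) := hx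
    induction hx' using Submodule.span_induction with
    | mem y hy =>
      obtain ⟨⟨p, q⟩, rfl⟩ := hy
      exact h p q
    | zero =>
      have : mkT (0 : BD P Q) (hle hx) = 0 := rfl
      rw [this, map_zero, map_zero]
    | add y z hy hz h1 h2 =>
      rw [mkT_add y z (hle hy) (hle hz), map_add, map_add, h1 hy, h2 hz]
    | smul c y hy h1 =>
      rw [mkT_smul c y (hle hy), map_smul, map_smul, h1 hy]
  have key : (f : Tens P Q → Z) = g := by
    refine hd.equalizer f.continuous g.continuous ?_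
    funext x
    exact hx x.1 x.2
  exact ContinuousLinearMap.ext (fun x => congrFun key x)

/-- composition of a functional with a bilinear map -/
noncomputable def compBil (m : P →L[ℂ] Q →L[ℂ] Z) (φ : Z →L[ℂ] ℂ) : P →L[ℂ] Q →L[ℂ] ℂ :=
  (compL ℂ Q Z ℂ φ).comp m

@[simp] lemma compBil_apply (m : P →L[ℂ] Q →L[ℂ] Z) (φ : Z →L[ℂ] ℂ) (p : P) (q : Q) :
    compBil m φ p q = φ (m p q) := rfl

lemma norm_compBil_le (m : P →L[ℂ] Q →L[ℂ] Z) (φ : Z →L[ℂ] ℂ) :
    ‖compBil m φ‖ ≤ ‖φ‖ * ‖m‖ := by
  refine ContinuousLinearMap.opNorm_le_bound _ (by positivity) (fun p => ?_)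
  refine ContinuousLinearMap.opNorm_le_bound _ (by positivity) (fun q => ?_)
  rw [compBil_apply]
  calc ‖φ (m p q)‖ ≤ ‖φ‖ * (‖m‖ * ‖p‖ * ‖q‖) :=
        (φ.le_opNorm _).trans (mul_le_mul_of_nonneg_left (m.le_opNorm₂ p q) (norm_nonneg _))
    _ = _ := by ring

lemma exists_lift [CompleteSpace Z] (m : P →L[ℂ] Q →L[ℂ] Z) (t : Tens P Q) :
    ∃ z : Z, ∀ φ : Z →L[ℂ] ℂ, φ z = tensVal t (compBil m φ) := by
  -- the functional `φ ↦ t (φ ∘ m)` lies in the closed range of `Z` in its bidual
  let J : Z →ₗᵢ[ℂ] StrongDual ℂ (StrongDual ℂ Z) := NormedSpace.inclusionInDoubleDualLi ℂ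
  let c : (Z →L[ℂ] ℂ) →L[ℂ] (P →L[ℂ] Q →L[ℂ] ℂ) :=
    ((compL ℂ P (Q →L[ℂ] Z) (Q →L[ℂ] ℂ)).comp (compL ℂ Q Z ℂ)).flip m
  have hc : ∀ φ, c φ = compBil m φ := fun φ => rfl
  let M : BD P Q →L[ℂ] StrongDual ℂ (StrongDual ℂ Z) :=
    (compL ℂ (Z →L[ℂ] ℂ) (P →L[ℂ] Q →L[ℂ] ℂ) ℂ).flip c
  have hM : ∀ y φ, M y φ = y (compBil m φ) := fun y φ => rfl
  have hcl : IsClosed (J.range : Set (StrongDual ℂ (StrongDual ℂ Z))) := by
    have : IsClosed (Set.range J) := J.isometry.isClosedEmbedding.isClosed_range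
    exact this
  have hle : tensSub P Q ≤ (J.range).comap M.toLinearMap := by
    refine Submodule.topologicalClosure_minimal _ ?_ ?_
    · unfold spanTm
      rw [Submodule.span_le]
      rintro _ ⟨⟨p, q⟩, rfl⟩
      refine ⟨m p q, ?_⟩
      ext φ
      rfl
    · exact hcl.preimage M.continuous
  obtain ⟨z, hz⟩ := hle t.2
  exact ⟨z, fun φ => by
    have := congrArg (fun F : StrongDual ℂ (StrongDual ℂ Z) => F φ) hz
    exact this⟩

/-- the underlying function of the linearisation -/
noncomputable def lift0 [CompleteSpace Z] (m : P →L[ℂ] Q →L[ℂ] Z) (t : Tens P Q) : Z :=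
  (exists_lift m t).choose

lemma lift0_spec [CompleteSpace Z] (m : P →L[ℂ] Q →L[ℂ] Z) (t : Tens P Q) (φ : Z →L[ℂ] ℂ) :
    φ (lift0 m t) = tensVal t (compBil m φ) := (exists_lift m t).choose_spec φ

lemma eq_of_dual {x y : Z} (h : ∀ φ : Z →L[ℂ] ℂ, φ x = φ y) : x = y := by
  have hJ := (NormedSpace.inclusionInDoubleDualLi (𝕜 := ℂ) (E := Z)).injective
  apply hJ
  ext φ
  exact h φ

lemma norm_lift0_le [CompleteSpace Z] (m : P →L[ℂ] Q →L[ℂ] Z) (t : Tens P Q) :
    ‖lift0 m t‖ ≤ 1 * ‖m‖ * ‖t‖ := by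
  have h := (NormedSpace.inclusionInDoubleDualLi (𝕜 := ℂ) (E := Z)).norm_map (lift0 m t)
  rw [← h]
  refine ContinuousLinearMap.opNorm_le_bound _ (by positivity) (fun φ => ?_)
  show ‖φ (lift0 m t)‖ ≤ _
  rw [lift0_spec]
  calc ‖tensVal t (compBil m φ)‖ ≤ ‖t‖ * (‖φ‖ * ‖m‖) :=
        ((tensVal t).le_opNorm _).trans
          (mul_le_mul_of_nonneg_left (norm_compBil_le m φ) (norm_nonneg _))
    _ = _ := by ring

/-- the operator on the tensor product defined by a bounded bilinear map -/
noncomputable def lift [CompleteSpace Z] : (P →L[ℂ] Q →L[ℂ] Z) →L[ℂ] (Tens P Q →L[ℂ] Z) :=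
  LinearMap.mkContinuous₂
    (LinearMap.mk₂ ℂ (fun (m : P →L[ℂ] Q →L[ℂ] Z) (t : Tens P Q) => lift0 m t)
      (fun m m' t => eq_of_dual (fun φ => by
        rw [map_add, lift0_spec, lift0_spec, lift0_spec, ← map_add]
        congr 1
        ext p q
        simp))
      (fun c m t => eq_of_dual (fun φ => by
        rw [map_smul, lift0_spec, lift0_spec, ← map_smul]
        congr 1
        ext p q
        simp))
      (fun m t t' => eq_of_dual (fun φ => by
        rw [map_add, lift0_spec, lift0_spec, lift0_spec]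
        rfl))
      (fun c m t => eq_of_dual (fun φ => by
        rw [map_smul, lift0_spec, lift0_spec]
        rfl)))
    1 (fun m t => norm_lift0_le m t)

@[simp] lemma lift_tens [CompleteSpace Z] (m : P →L[ℂ] Q →L[ℂ] Z) (p : P) (q : Q) :
    lift m (tens p q) = m p q :=
  eq_of_dual (fun φ => by
    show φ (lift0 m (tens p q)) = _
    rw [lift0_spec, tensVal_tens]
    rfl)

/-- an operator on a tensor product as a bilinear map -/
noncomputable def unlift : (Tens P Q →L[ℂ] Z) →L[ℂ] (P →L[ℂ] Q →L[ℂ] Z) :=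
  ((compL ℂ P (Q →L[ℂ] Tens P Q) (Q →L[ℂ] Z)).flip tens).comp (compL ℂ Q (Tens P Q) Z)

@[simp] lemma unlift_apply (f : Tens P Q →L[ℂ] Z) (p : P) (q : Q) :
    unlift f p q = f (tens p q) := rfl

end Tensor

end Pool.Agent.Helper832.GD
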