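import Mathlib
import Pool.Agent.Helper832.GDDefs
import Pool.Agent.Helper832.GDA

/-!
The kernel module and the free module. Vendored from helper53 (HomB.lean).
-/

set_option autoImplicit false
set_option maxSynthPendingDepth 3
set_option linter.unusedSectionVars false

namespace Pool.Agent.Helper832.GD

open ContinuousLinearMap

variable {A B : Type} [NonUnitalNormedRing A] [NormedSpace ℂ A] [IsScalarTower ℂ A A]
  [SMulCommClass ℂ A A] [NonUnitalNormedRing B] [NormedSpace ℂ B]

namespace Bim

section Constructions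

variable (X : Bim A B)

/-- `a (b ⊗ x) = a b ⊗ x` -/
noncomputable def fLeft : A →L[ℂ] Tens A X.carrier →L[ℂ] Tens A X.carrier :=
  lift.comp ((compL ℂ A A (X.carrier →L[ℂ] Tens A X.carrier) tens).comp
    (ContinuousLinearMap.mul ℂ A))

@[simp] lemma fLeft_tens (a b : A) (x : X.carrier) :
    X.fLeft a (tens b x) = tens (a * b) x := by
  show lift _ (tens b x) = _
  rw [lift_tens]
  rfl

/-- `a (b ⊗ x) = a ⊗ b x` -/
noncomputable def gLeft : A →L[ℂ] Tens A X.carrier →L[ℂ] Tens A X.carrier :=
  lift.comp (((compL ℂ A (X.carrier →L[ℂ] X.carrier)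
      (X.carrier →L[ℂ] Tens A X.carrier)).flip X.left).comp
    ((compL ℂ X.carrier X.carrier (Tens A X.carrier)).comp tens))

@[simp] lemma gLeft_tens (a b : A) (x : X.carrier) :
    X.gLeft a (tens b x) = tens a (X.left b x) := by
  show lift _ (tens b x) = _
  rw [lift_tens]
  rfl

/-- `(b ⊗ x) r = b ⊗ x r` -/
noncomputable def tRight : B →L[ℂ] Tens A X.carrier →L[ℂ] Tens A X.carrier :=
  lift.comp (((compL ℂ A (X.carrier →L[ℂ] Tens A X.carrier)
      (X.carrier →L[ℂ] Tens A X.carrier)).flip tens).comp
    ((compL ℂ X.carrier X.carrier (Tens A X.carrier)).flip.comp X.right))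

@[simp] lemma tRight_tens (r : B) (b : A) (x : X.carrier) :
    X.tRight r (tens b x) = tens b (X.right r x) := by
  show lift _ (tens b x) = _
  rw [lift_tens]
  rfl

lemma tRight_mul (r s : B) (t : Tens A X.carrier) :
    X.tRight (r * s) t = X.tRight s (X.tRight r t) := by
  have : X.tRight (r * s) = (X.tRight s).comp (X.tRight r) := tens_ext (fun p q => by
    rw [comp_apply, tRight_tens, tRight_tens, tRight_tens, X.right_mul])
  rw [this]; rfl

lemma fLeft_mul (a b : A) (t : Tens A X.carrier) :
    X.fLeft (a * b) t = X.fLeft a (X.fLeft b t) := by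
  have : X.fLeft (a * b) = (X.fLeft a).comp (X.fLeft b) := tens_ext (fun p q => by
    rw [comp_apply, fLeft_tens, fLeft_tens, fLeft_tens, mul_assoc])
  rw [this]; rfl

lemma fLeft_tRight (a : A) (r : B) (t : Tens A X.carrier) :
    X.fLeft a (X.tRight r t) = X.tRight r (X.fLeft a t) := by
  have : (X.fLeft a).comp (X.tRight r) = (X.tRight r).comp (X.fLeft a) :=
    tens_ext (fun p q => by
      rw [comp_apply, comp_apply, tRight_tens, fLeft_tens, fLeft_tens, tRight_tens])
  exact congrArg (fun f : Tens A X.carrier →L[ℂ] Tens A X.carrier => f t) this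

/-- the kernel module: `a (b ⊗ x) = a b ⊗ x - a ⊗ b x` -/
noncomputable def K : Bim A B where
  carrier := Tens A X.carrier
  left := X.fLeft - X.gLeft
  right := X.tRight
  left_mul := fun a b t => by
    have : (X.fLeft - X.gLeft) (a * b)
        = ((X.fLeft - X.gLeft) a).comp ((X.fLeft - X.gLeft) b) := tens_ext (fun p q => by
      simp only [comp_apply, sub_apply, fLeft_tens, gLeft_tens, map_sub, mul_assoc, X.left_mul]
      abel)
    rw [this]; rfl
  right_mul := X.tRight_mul
  left_right := fun a r t => by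
    have : ((X.fLeft - X.gLeft) a).comp (X.tRight r)
        = (X.tRight r).comp ((X.fLeft - X.gLeft) a) := tens_ext (fun p q => by
      simp only [comp_apply, sub_apply, fLeft_tens, gLeft_tens, map_sub, tRight_tens,
        X.left_right])
    exact congrArg (fun f : Tens A X.carrier →L[ℂ] Tens A X.carrier => f t) this

lemma K_left_tens (a b : A) (x : X.carrier) :
    X.K.left a (tens b x) = (tens (a * b) x - tens a (X.left b x) : Tens A X.carrier) := by
  show X.fLeft a (tens b x) - X.gLeft a (tens b x) = _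
  rw [fLeft_tens, gLeft_tens]

lemma K_right_tens (r : B) (b : A) (x : X.carrier) :
    X.K.right r (tens b x) = (tens b (X.right r x) : Tens A X.carrier) :=
  X.tRight_tens r b x

/-- the action map on the tensor product -/
noncomputable def mu : Tens A X.carrier →L[ℂ] X.carrier := lift X.left

@[simp] lemma mu_tens (b : A) (x : X.carrier) : X.mu (tens b x) = X.left b x :=
  lift_tens _ _ _

/-- the free module on `X`: pairs `(x, t)`, standing for `1 ⊗ x + t` -/
noncomputable def Free : Bim A B where
  carrier := X.carrier × Tens A X.carrier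
  left := (compL ℂ (X.carrier × Tens A X.carrier) (Tens A X.carrier)
      (X.carrier × Tens A X.carrier) (inr ℂ X.carrier (Tens A X.carrier))).comp
    (((compL ℂ (X.carrier × Tens A X.carrier) X.carrier (Tens A X.carrier)).flip
        (fst ℂ X.carrier (Tens A X.carrier))).comp tens
      + ((compL ℂ (X.carrier × Tens A X.carrier) (Tens A X.carrier) (Tens A X.carrier)).flip
        (snd ℂ X.carrier (Tens A X.carrier))).comp X.fLeft)
  right := (prodMapL ℂ X.carrier X.carrier (Tens A X.carrier) (Tens A X.carrier)).comp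
    (X.right.prod X.tRight)
  left_mul := fun a b t => by
    show ((0 : X.carrier), tens (a * b) t.1 + X.fLeft (a * b) t.2)
      = (0, tens a (0 : X.carrier) + X.fLeft a (tens b t.1 + X.fLeft b t.2))
    rw [map_zero, map_add, fLeft_tens, fLeft_mul, zero_add]
  right_mul := fun r s t => by
    show (X.right (r * s) t.1, X.tRight (r * s) t.2)
      = (X.right s (X.right r t.1), X.tRight s (X.tRight r t.2))
    rw [X.right_mul, X.tRight_mul]
  left_right := fun a r t => by
    show ((0 : X.carrier), tens a (X.right r t.1) + X.fLeft a (X.tRight r t.2))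
      = (X.right r 0, X.tRight r (tens a t.1 + X.fLeft a t.2))
    rw [map_zero, map_add, tRight_tens, fLeft_tRight]

lemma Free_left (a : A) (t : X.carrier × Tens A X.carrier) :
    X.Free.left a t = ((0 : X.carrier), tens a t.1 + X.fLeft a t.2) := rfl

lemma Free_right (r : B) (t : X.carrier × Tens A X.carrier) :
    X.Free.right r t = (X.right r t.1, X.tRight r t.2) := rfl

end Constructions

/-- right-linearity of a bounded operator -/
def IsRight {X Y : Bim A B} (f : X.carrier →L[ℂ] Y.carrier) : Prop :=
  ∀ r x, f (X.right r x) = Y.right r (f x)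

/-- lifting of right-linear operators along admissible epimorphisms of bimodules -/
def RProj (P : Bim A B) : Prop :=
  ∀ (Y Z : Bim A B) (σ : Op Y Z) (φ : Op P Z), IsHom σ → IsAdmissibleEpi σ →
    IsRight (X := P) (Y := Z) φ →
    ∃ ψ : Op P Y, IsRight (X := P) (Y := Y) ψ ∧ ∀ p, σ (ψ p) = φ p

/-- the free module is projective -/
lemma Free_projective {X : Bim A B} (hX : X.RProj) : X.Free.Projective := by
  intro Y Z σ φ hσ hσ' hφ
  obtain ⟨ψ0, hψ0, hσψ⟩ := hX Y Z σ (φ.comp (inl ℂ X.carrier (Tens A X.carrier))) hσ hσ'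
    (fun r x => by
      have := hφ.2 r (x, 0)
      rw [Free_right] at this
      simp only [map_zero] at this
      exact this)
  let m : A →L[ℂ] X.carrier →L[ℂ] Y.carrier :=
    ((compL ℂ X.carrier Y.carrier Y.carrier).flip ψ0).comp Y.left
  have hm : ∀ a x, m a x = Y.left a (ψ0 x) := fun a x => rfl
  have h1 : ∀ a (t : Tens A X.carrier), lift m (X.fLeft a t) = Y.left a (lift m t) := by
    intro a t
    have : (lift m).comp (X.fLeft a) = (Y.left a).comp (lift m) := tens_ext (fun p q => by
      simp only [comp_apply, fLeft_tens, lift_tens, hm, Y.left_mul])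
    exact congrArg (fun f : Tens A X.carrier →L[ℂ] Y.carrier => f t) this
  have h2 : ∀ r (t : Tens A X.carrier), lift m (X.tRight r t) = Y.right r (lift m t) := by
    intro r t
    have : (lift m).comp (X.tRight r) = (Y.right r).comp (lift m) := tens_ext (fun p q => by
      simp only [comp_apply, tRight_tens, lift_tens, hm]
      rw [hψ0 r q, Y.left_right])
    exact congrArg (fun f : Tens A X.carrier →L[ℂ] Y.carrier => f t) this
  refine ⟨ψ0.comp (fst ℂ X.carrier (Tens A X.carrier))
    + (lift m).comp (snd ℂ X.carrier (Tens A X.carrier)), ⟨?_, ?_⟩, ?_⟩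
  · intro a t
    show ψ0 0 + lift m (tens a t.1 + X.fLeft a t.2) = Y.left a (ψ0 t.1 + lift m t.2)
    rw [map_zero, zero_add, map_add, map_add, lift_tens, h1]
    rfl
  · intro r t
    show ψ0 (X.right r t.1) + lift m (X.tRight r t.2) = Y.right r (ψ0 t.1 + lift m t.2)
    rw [map_add, h2]
    congr 1
    exact hψ0 r t.1
  · intro t
    show σ (ψ0 t.1 + lift m t.2) = φ t
    have h3 : ∀ t : Tens A X.carrier, σ (lift m t) = φ ((0 : X.carrier), t) := by
      intro t
      have : (σ.comp (lift m)) = φ.comp (inr ℂ X.carrier (Tens A X.carrier)) :=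
        tens_ext (fun p q => by
          simp only [comp_apply, lift_tens, hm]
          rw [hσ.1 p (ψ0 q), hσψ q]
          have := hφ.1 p (q, 0)
          rw [Free_left] at this
          simp only [map_zero, add_zero] at this
          exact this.symm)
      exact congrArg (fun f : Tens A X.carrier →L[ℂ] Z.carrier => f t) this
    rw [map_add, hσψ, h3]
    show φ (t.1, 0) + φ (0, t.2) = φ t
    rw [← map_add]
    congr 1
    exact Prod.ext (add_zero _) (zero_add _)

section LA

variable (Z : Bim A B)

/-- the bimodule of operators from `A`: `(a F)(c) = F (c a)`, `(F r)(c) = F (c) r` -/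
noncomputable def LA : Bim A B where
  carrier := A →L[ℂ] Z.carrier
  left := (compL ℂ A A Z.carrier).flip.comp (ContinuousLinearMap.mul ℂ A).flip
  right := (compL ℂ A Z.carrier Z.carrier).comp Z.right
  left_mul := fun a b F => by
    ext c
    show F (c * (a * b)) = F (c * a * b)
    rw [mul_assoc]
  right_mul := fun r s F => by
    ext c
    exact Z.right_mul r s (F c)
  left_right := fun a r F => rfl

variable {Z}

lemma LA_ext {F G : A →L[ℂ] Z.carrier} (h : ∀ c, F c = G c) :
    @Eq Z.LA.carrier F G := ContinuousLinearMap.ext h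

end LA

lemma RProj.K {X : Bim A B} (hX : X.RProj) : X.K.RProj := by
  intro Y Z σ φ hσ hσ' hφ
  obtain ⟨g, hg⟩ := hσ'
  have e1 : IsHom (X := Y.LA) (Y := Z.LA) ((compL ℂ A Y.carrier Z.carrier) σ) := by
    refine ⟨fun a F => ?_, fun r F => ?_⟩
    · exact LA_ext (fun c => rfl)
    · exact LA_ext (fun c => hσ.2 r _)
  have e2 : IsAdmissibleEpi (X := Y.LA) (Y := Z.LA) ((compL ℂ A Y.carrier Z.carrier) σ) :=
    ⟨(compL ℂ A Z.carrier Y.carrier) g, fun F => LA_ext (fun c => hg _)⟩
  have e3 : IsRight (X := X) (Y := Z.LA)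
      ((unlift (φ : Tens A X.carrier →L[ℂ] Z.carrier)).flip) := by
    intro r x
    refine LA_ext (fun c => ?_)
    show φ (tens c (X.right r x)) = Z.right r (φ (tens c x))
    rw [← K_right_tens]
    exact hφ r (tens c x)
  obtain ⟨ψ, h1, h2⟩ := hX Y.LA Z.LA ((compL ℂ A Y.carrier Z.carrier) σ)
    ((unlift (φ : Tens A X.carrier →L[ℂ] Z.carrier)).flip) e1 e2 e3
  refine ⟨lift ((ψ : X.carrier →L[ℂ] A →L[ℂ] Y.carrier).flip), ?_, ?_⟩
  · intro r t
    have : (lift ((ψ : X.carrier →L[ℂ] A →L[ℂ] Y.carrier).flip)).comp (X.tRight r)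
        = (Y.right r).comp (lift ((ψ : X.carrier →L[ℂ] A →L[ℂ] Y.carrier).flip)) :=
      tens_ext (fun p q => by
        simp only [comp_apply, tRight_tens, lift_tens]
        have := congrArg (fun f : A →L[ℂ] Y.carrier => f p) (h1 r q)
        exact this)
    exact congrArg (fun f : Tens A X.carrier →L[ℂ] Y.carrier => f t) this
  · intro t
    have : σ.comp (lift ((ψ : X.carrier →L[ℂ] A →L[ℂ] Y.carrier).flip)) = φ :=
      tens_ext (fun p q => by
        simp only [comp_apply, lift_tens]
        have := congrArg (fun f : A →L[ℂ] Z.carrier => f p) (h2 q)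
        exact this)
    exact congrArg (fun f : Tens A X.carrier →L[ℂ] Z.carrier => f t) this

/-- the zero bimodule -/
noncomputable def zeroBim : Bim A B where
  carrier := PUnit
  left := 0
  right := 0
  left_mul := fun _ _ _ => rfl
  right_mul := fun _ _ _ => rfl
  left_right := fun _ _ _ => rfl

lemma zeroBim_projective : (zeroBim : Bim A B).Projective := by
  intro Y Z σ φ _ _ _
  refine ⟨0, ⟨fun a x => ?_, fun a x => ?_⟩, fun p => ?_⟩
  · show (0 : Y.carrier) = Y.left a 0
    rw [map_zero]
  · show (0 : Y.carrier) = Y.right a 0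
    rw [map_zero]
  · show σ 0 = φ p
    have : p = 0 := rfl
    rw [this, map_zero, map_zero]

/-- putting a module in front of a sequence -/
noncomputable def consMod (P : Bim A B) (Q : ℕ → Bim A B) : ℕ → Bim A B
  | 0 => P
  | i + 1 => Q i

/-- putting an operator in front of a sequence -/
noncomputable def consD {P : Bim A B} {Q : ℕ → Bim A B} (d0 : Op (Q 0) P)
    (d : ∀ i, Op (Q (i + 1)) (Q i)) : ∀ i, Op (consMod P Q (i + 1)) (consMod P Q i)
  | 0 => d0
  | i + 1 => d i

/-- putting an operator in front of a sequence -/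
noncomputable def consS {P : Bim A B} {Q : ℕ → Bim A B} (s0 : Op P (Q 0))
    (s : ∀ i, Op (Q i) (Q (i + 1))) : ∀ i, Op (consMod P Q i) (consMod P Q (i + 1))
  | 0 => s0
  | i + 1 => s i

/-- a projective module has a resolution of length 0 -/
lemma Projective.hasResolution {X : Bim A B} (hX : X.Projective) : X.HasResolution 0 := by
  refine ⟨{ P := consMod X (fun _ => zeroBim), ε := (ContinuousLinearMap.id ℂ X.carrier : Op X X),
            d := consD (0 : Op zeroBim X) (fun _ => (0 : Op zeroBim zeroBim)),
            s' := (ContinuousLinearMap.id ℂ X.carrier : Op X X),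
            s := consS (0 : Op X zeroBim) (fun _ => (0 : Op zeroBim zeroBim)) }, ⟨?_, ?_, ?_, ?_, ?_⟩,
            ⟨?_, ?_, ?_⟩, ?_⟩
  · intro i
    cases i with
    | zero => exact hX
    | succ i => exact zeroBim_projective
  · exact ⟨fun a x => rfl, fun a x => rfl⟩
  · intro i
    cases i with
    | zero =>
      refine ⟨fun a x => ?_, fun a x => ?_⟩
      · exact (X.left a).map_zero.symm
      · exact (X.right a).map_zero.symm
    | succ i => exact ⟨fun a x => rfl, fun a x => rfl⟩
  · intro x; rfl
  · intro i x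
    cases i with
    | zero => rfl
    | succ i => rfl
  · intro x; rfl
  · intro x
    exact add_zero (M := X.carrier) x
  · intro i x
    rfl
  · intro i hi
    cases i with
    | zero => exact absurd hi (lt_irrefl 0)
    | succ i => exact inferInstanceAs (Subsingleton PUnit)

/-- splicing -/
lemma HasResolution.splice {X P K : Bim A B} {n : ℕ} (hP : P.Projective)
    (π : Op P X) (j : Op K P) (s : Op X P) (q : Op P K) (hπ : IsHom π) (hj : IsHom j)
    (h1 : ∀ x, π (s x) = x) (h2 : ∀ k, q (j k) = k) (h3 : ∀ k, π (j k) = 0)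
    (h4 : ∀ p, s (π p) + j (q p) = p) (hK : K.HasResolution n) : X.HasResolution (n + 1) := by
  obtain ⟨R, hR, hR', hn⟩ := hK
  refine ⟨{ P := consMod P R.P, ε := π, d := consD (j.comp R.ε : Op (R.P 0) P) R.d, s' := s,
            s := consS (R.s'.comp q : Op P (R.P 0)) R.s }, ⟨?_, hπ, ?_, ?_, ?_⟩,
            ⟨h1, ?_, ?_⟩, ?_⟩
  · intro i
    cases i with
    | zero => exact hP
    | succ i => exact hR.projective i
  · intro i
    cases i with
    | zero =>
      refine ⟨fun a x => ?_, fun a x => ?_⟩
      · exact (congrArg j (hR.ε_hom.1 a x)).trans (hj.1 a (R.ε x))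
      · exact (congrArg j (hR.ε_hom.2 a x)).trans (hj.2 a (R.ε x))
    | succ i => exact hR.d_hom i
  · intro x
    exact h3 _
  · intro i x
    cases i with
    | zero => exact (congrArg j (hR.ε_d x)).trans (map_zero j)
    | succ i => exact hR.d_d i x
  · intro x
    exact (congrArg (fun y => s (π x) + j y) (hR'.ε_s (q x))).trans (h4 x)
  · intro i x
    cases i with
    | zero =>
      exact (congrArg (fun y => R.s' y + R.d 0 (R.s 0 x)) (h2 (R.ε x))).trans (hR'.h_zero x)
    | succ i => exact hR'.h_succ i x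
  · intro i hi
    cases i with
    | zero => exact absurd hi (by omega)
    | succ i => exact hn i (by omega)

lemma HasResolution.mono {X : Bim A B} {n m : ℕ} (h : X.HasResolution n) (hnm : n ≤ m) :
    X.HasResolution m := by
  obtain ⟨R, hR, hR', hn⟩ := h
  exact ⟨R, hR, hR', fun i hi => hn i (by omega)⟩

/-- one step of the canonical resolution -/
lemma HasResolution.step {X : Bim A B} {n : ℕ} (hX : X.RProj) (h : X.K.HasResolution n) :
    X.HasResolution (n + 1) := by
  have hmu1 : ∀ a (t : Tens A X.carrier), X.mu (X.fLeft a t) = X.left a (X.mu t) := by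
    intro a t
    have : X.mu.comp (X.fLeft a) = (X.left a).comp X.mu := tens_ext (fun p q => by
      simp only [comp_apply, fLeft_tens, mu_tens, X.left_mul])
    exact congrArg (fun f : Tens A X.carrier →L[ℂ] X.carrier => f t) this
  have hmu2 : ∀ r (t : Tens A X.carrier), X.mu (X.tRight r t) = X.right r (X.mu t) := by
    intro r t
    have : X.mu.comp (X.tRight r) = (X.right r).comp X.mu := tens_ext (fun p q => by
      simp only [comp_apply, tRight_tens, mu_tens, X.left_right])
    exact congrArg (fun f : Tens A X.carrier →L[ℂ] X.carrier => f t) this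
  have hmu3 : ∀ a (t : Tens A X.carrier), X.gLeft a t = tens a (X.mu t) := by
    intro a t
    have : X.gLeft a = (tens a).comp X.mu := tens_ext (fun p q => by
      simp only [comp_apply, gLeft_tens, mu_tens])
    exact congrArg (fun f : Tens A X.carrier →L[ℂ] Tens A X.carrier => f t) this
  refine HasResolution.splice (P := X.Free) (K := X.K) (Free_projective hX)
    (fst ℂ X.carrier (Tens A X.carrier) + X.mu.comp (snd ℂ X.carrier (Tens A X.carrier)))
    ((-X.mu).prod (ContinuousLinearMap.id ℂ (Tens A X.carrier)))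
    (inl ℂ X.carrier (Tens A X.carrier)) (snd ℂ X.carrier (Tens A X.carrier))
    ⟨?_, ?_⟩ ⟨?_, ?_⟩ ?_ ?_ ?_ ?_ h
  · intro a t
    show (0 : X.carrier) + X.mu (tens a t.1 + X.fLeft a t.2) = X.left a (t.1 + X.mu t.2)
    rw [map_add, map_add, mu_tens, hmu1, zero_add]
  · intro r t
    show X.right r t.1 + X.mu (X.tRight r t.2) = X.right r (t.1 + X.mu t.2)
    rw [map_add, hmu2]
  · intro a t
    show (-X.mu (X.fLeft a t - X.gLeft a t), X.fLeft a t - X.gLeft a t)
      = ((0 : X.carrier), tens a (-X.mu t) + X.fLeft a t)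
    refine Prod.ext ?_ ?_
    · show -X.mu (X.fLeft a t - X.gLeft a t) = 0
      rw [map_sub, hmu1, hmu3, mu_tens, sub_self, neg_zero]
    · show X.fLeft a t - X.gLeft a t = tens a (-X.mu t) + X.fLeft a t
      rw [hmu3, map_neg]
      abel
  · intro r t
    show (-X.mu (X.tRight r t), X.tRight r t) = (X.right r (-X.mu t), X.tRight r t)
    rw [hmu2, map_neg]
  · intro x
    show x + X.mu 0 = x
    rw [map_zero, add_zero]
  · intro t; rfl
  · intro t
    show -X.mu t + X.mu t = 0
    rw [neg_add_cancel]
  · intro t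
    show (t.1 + X.mu t.2, (0 : Tens A X.carrier)) + (-X.mu t.2, t.2) = t
    refine Prod.ext ?_ ?_
    · show t.1 + X.mu t.2 + -X.mu t.2 = t.1
      abel
    · show 0 + t.2 = t.2
      rw [zero_add]

/-- a submodule of a bimodule -/
noncomputable def sub (Y : Bim A B) (N : Submodule ℂ Y.carrier) (hN : IsClosed (N : Set Y.carrier))
    (h1 : ∀ a, ∀ y ∈ N, Y.left a y ∈ N) (h2 : ∀ r, ∀ y ∈ N, Y.right r y ∈ N) : Bim A B :=
  haveI : CompleteSpace N := hN.completeSpace_coe
  { carrier := N
    left := LinearMap.mkContinuous₂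
      (LinearMap.mk₂ ℂ (fun (a : A) (y : N) => (⟨Y.left a y, h1 a y y.2⟩ : N))
        (fun a b y => by ext; simp) (fun c a y => by ext; simp)
        (fun a y z => by ext; simp) (fun c a y => by ext; simp))
      ‖Y.left‖ (fun a y => Y.left.le_opNorm₂ a (y : Y.carrier))
    right := LinearMap.mkContinuous₂
      (LinearMap.mk₂ ℂ (fun (r : B) (y : N) => (⟨Y.right r y, h2 r y y.2⟩ : N))
        (fun a b y => by ext; simp) (fun c a y => by ext; simp)
        (fun a y z => by ext; simp) (fun c a y => by ext; simp))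
      ‖Y.right‖ (fun a y => Y.right.le_opNorm₂ a (y : Y.carrier))
    left_mul := fun a b y => Subtype.ext (Y.left_mul a b y)
    right_mul := fun a b y => Subtype.ext (Y.right_mul a b y)
    left_right := fun a b y => Subtype.ext (Y.left_right a b y) }

/-- the kernel of a morphism -/
noncomputable def ker {Y Z : Bim A B} (σ : Op Y Z) (hσ : IsHom σ) : Bim A B :=
  sub Y (LinearMap.ker σ.toLinearMap) (ContinuousLinearMap.isClosed_ker σ)
    (fun a y hy => by
      have hy' : σ y = 0 := hy
      show σ (Y.left a y) = 0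
      rw [hσ.1, hy', map_zero])
    (fun a y hy => by
      have hy' : σ y = 0 := hy
      show σ (Y.right a y) = 0
      rw [hσ.2, hy', map_zero])

section Ker

variable {Y Z : Bim A B} (σ : Op Y Z) (hσ : IsHom σ)

/-- the inclusion of the kernel -/
noncomputable def kerVal : Op (ker σ hσ) Y := (LinearMap.ker σ.toLinearMap).subtypeL

lemma kerVal_inj {x y : (ker σ hσ).carrier} (h : kerVal σ hσ x = kerVal σ hσ y) : x = y :=
  Subtype.ext h

lemma kerVal_left (a : A) (y : (ker σ hσ).carrier) :
    kerVal σ hσ ((ker σ hσ).left a y) = Y.left a (kerVal σ hσ y) := rfl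

lemma kerVal_right (r : B) (y : (ker σ hσ).carrier) :
    kerVal σ hσ ((ker σ hσ).right r y) = Y.right r (kerVal σ hσ y) := rfl

lemma map_kerVal (y : (ker σ hσ).carrier) : σ (kerVal σ hσ y) = 0 := y.2

/-- an operator into the kernel -/
noncomputable def kerCod {E : Type} [NormedAddCommGroup E] [NormedSpace ℂ E]
    (f : E →L[ℂ] Y.carrier) (hf : ∀ x, σ (f x) = 0) : E →L[ℂ] (ker σ hσ).carrier :=
  f.codRestrict (LinearMap.ker σ.toLinearMap) hf

@[simp] lemma kerVal_kerCod {E : Type} [NormedAddCommGroup E] [NormedSpace ℂ E]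
    (f : E →L[ℂ] Y.carrier) (hf : ∀ x, σ (f x) = 0) (x : E) :
    kerVal σ hσ (kerCod σ hσ f hf x) = f x := rfl

/-- a bilinear map into the kernel -/
noncomputable def kerCod2 {E E' : Type} [NormedAddCommGroup E] [NormedSpace ℂ E]
    [NormedAddCommGroup E'] [NormedSpace ℂ E']
    (f : E →L[ℂ] E' →L[ℂ] Y.carrier) (hf : ∀ x y, σ (f x y) = 0) :
    E →L[ℂ] E' →L[ℂ] (ker σ hσ).carrier :=
  LinearMap.mkContinuous₂
    (LinearMap.mk₂ ℂ (fun (x : E) (y : E') =>
        kerCod σ hσ (f x) (hf x) y)
      (fun a b y => kerVal_inj σ hσ (by simp [map_add]))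
      (fun c a y => kerVal_inj σ hσ (by simp [map_smul]))
      (fun a y z => map_add _ _ _) (fun c a y => map_smul _ _ _))
    ‖f‖ (fun x y => f.le_opNorm₂ x y)

@[simp] lemma kerVal_kerCod2 {E E' : Type} [NormedAddCommGroup E] [NormedSpace ℂ E]
    [NormedAddCommGroup E'] [NormedSpace ℂ E']
    (f : E →L[ℂ] E' →L[ℂ] Y.carrier) (hf : ∀ x y, σ (f x y) = 0) (x : E) (y : E') :
    kerVal σ hσ (kerCod2 σ hσ f hf x y) = f x y := rfl

end Ker

section Tn

variable (X : Bim A B)

/-- elementary tensors in the kernel module -/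
noncomputable def tn : A →L[ℂ] X.carrier →L[ℂ] X.K.carrier := tens

lemma tn_left (a b : A) (x : X.carrier) :
    X.K.left a (X.tn b x) = X.tn (a * b) x - X.tn a (X.left b x) := X.K_left_tens a b x

lemma tn_right (r : B) (b : A) (x : X.carrier) :
    X.K.right r (X.tn b x) = X.tn b (X.right r x) := X.K_right_tens r b x

variable {X}

lemma tn_ext {E : Type} [NormedAddCommGroup E] [NormedSpace ℂ E]
    {f g : X.K.carrier →L[ℂ] E} (h : ∀ b x, f (X.tn b x) = g (X.tn b x)) : f = g :=
  tens_ext h

variable (X)

/-- an operator on the kernel module as a bilinear map -/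
noncomputable def un (E : Type) [NormedAddCommGroup E] [NormedSpace ℂ E] :
    (X.K.carrier →L[ℂ] E) →L[ℂ] (A →L[ℂ] X.carrier →L[ℂ] E) := unlift

@[simp] lemma un_apply {E : Type} [NormedAddCommGroup E] [NormedSpace ℂ E]
    (f : X.K.carrier →L[ℂ] E) (b : A) (x : X.carrier) : X.un E f b x = f (X.tn b x) := rfl

/-- a bilinear map as an operator on the kernel module -/
noncomputable def li (E : Type) [NormedAddCommGroup E] [NormedSpace ℂ E] [CompleteSpace E] :
    (A →L[ℂ] X.carrier →L[ℂ] E) →L[ℂ] (X.K.carrier →L[ℂ] E) := lift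

@[simp] lemma li_apply {E : Type} [NormedAddCommGroup E] [NormedSpace ℂ E] [CompleteSpace E]
    (m : A →L[ℂ] X.carrier →L[ℂ] E) (b : A) (x : X.carrier) :
    X.li E m (X.tn b x) = m b x := lift_tens m b x

end Tn

end Bim

end Pool.Agent.Helper832.GD
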