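import Mathlib
import Pool.Agent.Helper832.GDB

/-!
Criteria for projectivity, cosyzygies, the unitization and the passage between left modules and
bimodules. Vendored from helper53 (HomC.lean, HomE.lean, HomF.lean).
-/

set_option autoImplicit false
set_option maxSynthPendingDepth 3
set_option linter.unusedSectionVars false

namespace Pool.Agent.Helper832.GD

open ContinuousLinearMap

namespace Bim

variable {A B : Type} [NonUnitalNormedRing A] [NormedSpace ℂ A] [IsScalarTower ℂ A A]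
  [SMulCommClass ℂ A A] [NonUnitalNormedRing B] [NormedSpace ℂ B]

section Co

variable (Z : Bim A B)

/-- the coinduced module: `a (z, F) = (F a, c ↦ F (c a))` -/
noncomputable def Co : Bim A B where
  carrier := Z.carrier × (A →L[ℂ] Z.carrier)
  left := (compL ℂ (Z.carrier × (A →L[ℂ] Z.carrier)) Z.carrier
      (Z.carrier × (A →L[ℂ] Z.carrier)) (inl ℂ Z.carrier (A →L[ℂ] Z.carrier))).comp
        (snd ℂ Z.carrier (A →L[ℂ] Z.carrier)).flip
    + (compL ℂ (Z.carrier × (A →L[ℂ] Z.carrier)) (A →L[ℂ] Z.carrier)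
      (Z.carrier × (A →L[ℂ] Z.carrier)) (inr ℂ Z.carrier (A →L[ℂ] Z.carrier))).comp
        (((compL ℂ (Z.carrier × (A →L[ℂ] Z.carrier)) (A →L[ℂ] Z.carrier)
          (A →L[ℂ] Z.carrier)).flip (snd ℂ Z.carrier (A →L[ℂ] Z.carrier))).comp
          ((compL ℂ A A Z.carrier).flip.comp (ContinuousLinearMap.mul ℂ A).flip))
  right := (prodMapL ℂ Z.carrier Z.carrier (A →L[ℂ] Z.carrier) (A →L[ℂ] Z.carrier)).comp
    (Z.right.prod ((compL ℂ A Z.carrier Z.carrier).comp Z.right))
  left_mul := fun a b t => by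
    refine Prod.ext ?_ (ContinuousLinearMap.ext (fun c => ?_))
    · show t.2 (a * b) + 0 = (0 + t.2 (a * b)) + 0
      rw [zero_add]
    · show (0 : Z.carrier) + t.2 (c * (a * b)) = 0 + (0 + t.2 (c * a * b))
      rw [mul_assoc]
      abel
  right_mul := fun r s t => by
    refine Prod.ext ?_ (ContinuousLinearMap.ext (fun c => ?_))
    · exact Z.right_mul r s t.1
    · exact Z.right_mul r s (t.2 c)
  left_right := fun a r t => by
    refine Prod.ext ?_ (ContinuousLinearMap.ext (fun c => ?_))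
    · show Z.right r (t.2 a) + 0 = Z.right r (t.2 a + 0)
      rw [add_zero, add_zero]
    · show (0 : Z.carrier) + Z.right r (t.2 (c * a)) = Z.right r (0 + t.2 (c * a))
      rw [zero_add, zero_add]

lemma Co_left (a : A) (t : Z.carrier × (A →L[ℂ] Z.carrier)) :
    Z.Co.left a t = (t.2 a, t.2.comp ((ContinuousLinearMap.mul ℂ A).flip a)) := by
  refine Prod.ext ?_ (ContinuousLinearMap.ext (fun c => ?_))
  · show t.2 a + 0 = t.2 a
    rw [add_zero]
  · show (0 : Z.carrier) + t.2 (c * a) = t.2 (c * a)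
    rw [zero_add]

end Co

/-- a projective module has the lifting property for right-linear operators -/
lemma Projective.rproj {P : Bim A B} (hP : P.Projective) : P.RProj := by
  intro Y Z σ φ hσ hσ' hφ
  obtain ⟨g, hg⟩ := hσ'
  have e1 : IsHom (X := Y.Co) (Y := Z.Co)
      (prodMap σ ((compL ℂ A Y.carrier Z.carrier) σ)) := by
    refine ⟨fun a t => ?_, fun r t => ?_⟩
    · rw [Co_left, Co_left]
      rfl
    · refine Prod.ext ?_ (ContinuousLinearMap.ext (fun c => ?_))
      · exact hσ.2 r t.1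
      · exact hσ.2 r (t.2 c)
  have e2 : IsAdmissibleEpi (X := Y.Co) (Y := Z.Co)
      (prodMap σ ((compL ℂ A Y.carrier Z.carrier) σ)) :=
    ⟨prodMap g ((compL ℂ A Z.carrier Y.carrier) g), fun t =>
      Prod.ext (hg t.1) (ContinuousLinearMap.ext (fun c => hg (t.2 c)))⟩
  have e3 : IsHom (X := P) (Y := Z.Co)
      (φ.prod ((compL ℂ A P.carrier Z.carrier φ).comp P.left.flip)) := by
    refine ⟨fun a p => ?_, fun r p => ?_⟩
    · rw [Co_left]
      refine Prod.ext ?_ (ContinuousLinearMap.ext (fun c => ?_))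
      · rfl
      · show φ (P.left c (P.left a p)) = φ (P.left (c * a) p)
        rw [P.left_mul]
    · refine Prod.ext ?_ (ContinuousLinearMap.ext (fun c => ?_))
      · exact hφ r p
      · show φ (P.left c (P.right r p)) = Z.right r (φ (P.left c p))
        rw [P.left_right]
        exact hφ r _
  obtain ⟨ψ, h1, h2⟩ := hP Y.Co Z.Co _ _ e1 e2 e3
  refine ⟨(fst ℂ Y.carrier (A →L[ℂ] Y.carrier)).comp ψ, fun r p => ?_, fun p => ?_⟩
  · exact congrArg Prod.fst (h1.2 r p)
  · exact congrArg Prod.fst (h2 p)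

section N

variable (Z : Bim A B)

/-- the first cosyzygy: `(a ψ)(c) = ψ (c a) - c (ψ a)` -/
noncomputable def N : Bim A B where
  carrier := A →L[ℂ] Z.carrier
  left := (compL ℂ A A Z.carrier).flip.comp (ContinuousLinearMap.mul ℂ A).flip
    - (compL ℂ A Z.carrier (A →L[ℂ] Z.carrier) Z.left.flip).flip
  right := (compL ℂ A Z.carrier Z.carrier).comp Z.right
  left_mul := fun a b ψ => by
    refine ContinuousLinearMap.ext (fun c => ?_)
    show ψ (c * (a * b)) - Z.left c (ψ (a * b))
      = (ψ (c * a * b) - Z.left (c * a) (ψ b)) - Z.left c (ψ (a * b) - Z.left a (ψ b))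
    rw [mul_assoc, Z.left_mul, map_sub]
    abel
  right_mul := fun r s ψ => ContinuousLinearMap.ext (fun c => Z.right_mul r s (ψ c))
  left_right := fun a r ψ => by
    refine ContinuousLinearMap.ext (fun c => ?_)
    show Z.right r (ψ (c * a)) - Z.left c (Z.right r (ψ a))
      = Z.right r (ψ (c * a) - Z.left c (ψ a))
    rw [map_sub, Z.left_right]

/-- evaluation of elements of the cosyzygy -/
noncomputable def ev (c : A) : Z.N.carrier →L[ℂ] Z.carrier := ContinuousLinearMap.apply ℂ Z.carrier c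

lemma N_ext {Z : Bim A B} {x y : Z.N.carrier} (h : ∀ c, Z.ev c x = Z.ev c y) : x = y :=
  ContinuousLinearMap.ext h

lemma ev_left (a c : A) (ψ : Z.N.carrier) :
    Z.ev c (Z.N.left a ψ) = Z.ev (c * a) ψ - Z.left c (Z.ev a ψ) := rfl

lemma ev_right (r : B) (c : A) (ψ : Z.N.carrier) :
    Z.ev c (Z.N.right r ψ) = Z.right r (Z.ev c ψ) := rfl

/-- the coboundary of an operator -/
noncomputable def delta (P Z : Bim A B) (g : P.carrier →L[ℂ] Z.carrier) :
    P.carrier →L[ℂ] Z.N.carrier :=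
  (Z.left.flip.comp g : P.carrier →L[ℂ] A →L[ℂ] Z.carrier)
    - ((compL ℂ A P.carrier Z.carrier g).comp P.left.flip : P.carrier →L[ℂ] A →L[ℂ] Z.carrier)

lemma ev_delta {P Z : Bim A B} (g : P.carrier →L[ℂ] Z.carrier) (c : A) (p : P.carrier) :
    Z.ev c (delta P Z g p) = Z.left c (g p) - g (P.left c p) := rfl

lemma delta_hom {P Z : Bim A B} {g : P.carrier →L[ℂ] Z.carrier}
    (hg : IsRight (X := P) (Y := Z) g) : IsHom (X := P) (Y := Z.N) (delta P Z g) := by
  refine ⟨fun a p => N_ext (fun c => ?_), fun r p => N_ext (fun c => ?_)⟩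
  · rw [ev_left, ev_delta, ev_delta, ev_delta, P.left_mul, Z.left_mul, map_sub]
    abel
  · rw [ev_right, ev_delta, ev_delta, hg, Z.left_right, P.left_right, hg, map_sub]

lemma delta_eq_zero_iff {P Z : Bim A B} {g : P.carrier →L[ℂ] Z.carrier} {p : P.carrier} :
    delta P Z g p = 0 ↔ ∀ c, g (P.left c p) = Z.left c (g p) := by
  constructor
  · intro h c
    have := congrArg (Z.ev c) h
    rw [ev_delta, map_zero, sub_eq_zero] at this
    exact this.symm
  · intro h
    refine N_ext (fun c => ?_)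
    rw [ev_delta, map_zero, h c, sub_self]

/-- the extension module of a morphism into the cosyzygy -/
noncomputable def extMod (P Z : Bim A B) (f : P.carrier →L[ℂ] Z.N.carrier)
    (hf : IsHom (X := P) (Y := Z.N) f) : Bim A B where
  carrier := Z.carrier × P.carrier
  left := (prodMapL ℂ Z.carrier Z.carrier P.carrier P.carrier).comp (Z.left.prod P.left)
    + (compL ℂ (Z.carrier × P.carrier) Z.carrier (Z.carrier × P.carrier)
        (inl ℂ Z.carrier P.carrier)).comp
      (((compL ℂ (Z.carrier × P.carrier) P.carrier Z.carrier).flip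
        (snd ℂ Z.carrier P.carrier)).comp (ContinuousLinearMap.flip (show P.carrier →L[ℂ] A →L[ℂ] Z.carrier from f)))
  right := (prodMapL ℂ Z.carrier Z.carrier P.carrier P.carrier).comp (Z.right.prod P.right)
  left_mul := fun a b t => by
    have h1 : Z.ev a (f (P.left b t.2)) = Z.ev (a * b) (f t.2) - Z.left a (Z.ev b (f t.2)) := by
      rw [hf.1, ev_left]
    refine Prod.ext ?_ ?_
    · show Z.left (a * b) t.1 + Z.ev (a * b) (f t.2)
        = Z.left a (Z.left b t.1 + Z.ev b (f t.2)) + Z.ev a (f (P.left b t.2 + 0))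
      rw [add_zero, h1, Z.left_mul, map_add]
      abel
    · show P.left (a * b) t.2 + 0 = P.left a (P.left b t.2 + 0) + 0
      rw [add_zero, add_zero, add_zero, P.left_mul]
  right_mul := fun r s t => Prod.ext (Z.right_mul r s t.1) (P.right_mul r s t.2)
  left_right := fun a r t => by
    have h1 : Z.ev a (f (P.right r t.2)) = Z.right r (Z.ev a (f t.2)) := by
      rw [hf.2, ev_right]
    refine Prod.ext ?_ ?_
    · show Z.left a (Z.right r t.1) + Z.ev a (f (P.right r t.2))
        = Z.right r (Z.left a t.1 + Z.ev a (f t.2))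
      rw [h1, Z.left_right, map_add]
    · show P.left a (P.right r t.2) + 0 = P.right r (P.left a t.2 + 0)
      rw [add_zero, add_zero, P.left_right]

/-- morphisms from a projective module into the cosyzygy are coboundaries -/
lemma Projective.exists_delta {P Z : Bim A B} (hP : P.Projective)
    {f : P.carrier →L[ℂ] Z.N.carrier} (hf : IsHom (X := P) (Y := Z.N) f) :
    ∃ g : P.carrier →L[ℂ] Z.carrier, IsRight (X := P) (Y := Z) g ∧
      ∀ p, delta P Z g p = f p := by
  have e1 : IsHom (X := extMod P Z f hf) (Y := P) (snd ℂ Z.carrier P.carrier) := by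
    refine ⟨fun a t => ?_, fun r t => rfl⟩
    show P.left a t.2 + 0 = P.left a t.2
    rw [add_zero]
  have e2 : IsAdmissibleEpi (X := extMod P Z f hf) (Y := P) (snd ℂ Z.carrier P.carrier) :=
    ⟨inr ℂ Z.carrier P.carrier, fun y => rfl⟩
  have e3 : IsHom (X := P) (Y := P) (ContinuousLinearMap.id ℂ P.carrier) :=
    ⟨fun _ _ => rfl, fun _ _ => rfl⟩
  obtain ⟨ψ, h1, h2⟩ := hP (extMod P Z f hf) P _ _ e1 e2 e3
  let ψ' : P.carrier →L[ℂ] Z.carrier × P.carrier := ψ
  have h2' : ∀ p, (ψ' p).2 = p := h2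
  refine ⟨-((fst ℂ Z.carrier P.carrier).comp ψ'), fun r p => ?_, fun p => N_ext (fun c => ?_)⟩
  · have h3 : (ψ' (P.right r p)).1 = Z.right r (ψ' p).1 := congrArg Prod.fst (h1.2 r p)
    show -(ψ' (P.right r p)).1 = Z.right r (-(ψ' p).1)
    rw [h3, map_neg]
  · have h3 : (ψ' (P.left c p)).1 = Z.left c (ψ' p).1 + Z.ev c (f (ψ' p).2) :=
      congrArg Prod.fst (h1.1 c p)
    rw [h2'] at h3
    rw [ev_delta]
    show Z.left c (-(ψ' p).1) - -(ψ' (P.left c p)).1 = Z.ev c (f p)
    rw [h3, map_neg]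
    abel

end N


end Bim

namespace Bim

section Criterion

variable {A B : Type} [NonUnitalNormedRing A] [NormedSpace ℂ A] [IsScalarTower ℂ A A]
  [SMulCommClass ℂ A A] [NonUnitalNormedRing B] [NormedSpace ℂ B]

/-- a criterion for projectivity -/
lemma Projective.of_derivation {K : Bim A B} (hK : K.RProj)
    (h : ∀ (Z : Bim A B) (D : A →L[ℂ] K.carrier →L[ℂ] Z.carrier),
      (∀ a, IsRight (X := K) (Y := Z) (D a)) →
      (∀ a b k, D (a * b) k = Z.left a (D b k) + D a (K.left b k)) →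
      ∃ g : K.carrier →L[ℂ] Z.carrier, IsRight (X := K) (Y := Z) g ∧
        ∀ a k, D a k = Z.left a (g k) - g (K.left a k)) : K.Projective := by
  intro Y Z σ φ hσ hσ' hφ
  obtain ⟨ψ0, h0, h0'⟩ := hK Y Z σ φ hσ hσ' hφ.2
  let D0 : A →L[ℂ] K.carrier →L[ℂ] Y.carrier :=
    ((compL ℂ K.carrier Y.carrier Y.carrier).flip ψ0).comp Y.left
      - (compL ℂ K.carrier K.carrier Y.carrier ψ0).comp K.left
  have hD0 : ∀ a k, D0 a k = Y.left a (ψ0 k) - ψ0 (K.left a k) := fun a k => rfl
  have hmem : ∀ a k, σ (D0 a k) = 0 := by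
    intro a k
    rw [hD0, map_sub, hσ.1, h0', h0', hφ.1, sub_self]
  obtain ⟨g, hg, hg'⟩ := h (ker σ hσ) (kerCod2 σ hσ D0 hmem) (by
      intro a r k
      apply kerVal_inj
      rw [kerVal_right, kerVal_kerCod2, kerVal_kerCod2]
      rw [hD0, hD0, map_sub, h0, K.left_right, Y.left_right, h0]) (by
      intro a b k
      apply kerVal_inj
      rw [map_add, kerVal_left, kerVal_kerCod2, kerVal_kerCod2, kerVal_kerCod2]
      rw [hD0, hD0, hD0, map_sub, K.left_mul, Y.left_mul]
      abel)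
  refine ⟨ψ0 - (kerVal σ hσ).comp g, ⟨?_, ?_⟩, ?_⟩
  · intro a k
    have h2 := congrArg (kerVal σ hσ) (hg' a k)
    rw [map_sub, kerVal_left, kerVal_kerCod2, hD0] at h2
    rw [sub_apply, sub_apply, comp_apply, comp_apply, map_sub]
    linear_combination (norm := abel) -h2
  · intro r k
    have h2 := congrArg (kerVal σ hσ) (hg r k)
    rw [kerVal_right] at h2
    rw [sub_apply, sub_apply, comp_apply, comp_apply, map_sub, h2, h0]
  · intro k
    rw [sub_apply, comp_apply, map_sub, h0', map_kerVal, sub_zero]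

end Criterion

section Plus

variable {A : Type} [NonUnitalNormedRing A] [NormedSpace ℂ A] [IsScalarTower ℂ A A]
  [SMulCommClass ℂ A A] [CompleteSpace A]

/-- the unit of the unitization -/
noncomputable def pone (A : Type) [NonUnitalNormedRing A] [NormedSpace ℂ A] : Plus A :=
  WithLp.toLp 1 ((1 : ℂ), (0 : A))

/-- first coordinate -/
noncomputable def pfst (A : Type) [NonUnitalNormedRing A] [NormedSpace ℂ A] : Plus A →L[ℂ] ℂ :=
  WithLp.fstL 1 ℂ ℂ A

/-- second coordinate -/
noncomputable def psnd (A : Type) [NonUnitalNormedRing A] [NormedSpace ℂ A] : Plus A →L[ℂ] A :=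
  WithLp.sndL 1 ℂ ℂ A

lemma pfst_apply (x : Plus A) : pfst A x = x.fst := rfl
lemma psnd_apply (x : Plus A) : psnd A x = x.snd := rfl

/-- the right-linear operator from the unitization with value `z` at the unit -/
noncomputable def Lam (Z : Bim A A) : Z.carrier →L[ℂ] (Plus A →L[ℂ] Z.carrier) :=
  smulRightL ℂ (Plus A) Z.carrier (pfst A)
    + ((compL ℂ (Plus A) A Z.carrier).flip (psnd A)).comp Z.right.flip

lemma Lam_apply (Z : Bim A A) (z : Z.carrier) (x : Plus A) :
    Z.Lam z x = x.fst • z + Z.right x.snd z := rfl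

lemma Lam_one (Z : Bim A A) (z : Z.carrier) : Z.Lam z (pone A) = z := by
  rw [Lam_apply]
  show (1 : ℂ) • z + Z.right (0 : A) z = z
  rw [one_smul, map_zero, zero_apply, add_zero]

lemma Lam_right (Z : Bim A A) (z : Z.carrier) (r : A) (x : Plus A) :
    Z.Lam z (plusRight r x) = Z.right r (Z.Lam z x) := by
  rw [Lam_apply, Lam_apply, plusRight_apply]
  show (0 : ℂ) • z + Z.right (x.fst • r + x.snd * r) z = _
  rw [zero_smul, zero_add, map_add, map_smul, add_apply, smul_apply, Z.right_mul, map_add,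
    map_smul]

lemma Lam_left (Z : Bim A A) (z : Z.carrier) (a : A) (x : Plus A) :
    Z.Lam z (plusLeft a x) = Z.Lam (Z.right a z) x := by
  rw [Lam_apply, Lam_apply, plusLeft_apply]
  show (0 : ℂ) • z + Z.right (x.fst • a + a * x.snd) z = _
  rw [zero_smul, zero_add, map_add, map_smul, add_apply, smul_apply, Z.right_mul]

lemma left_Lam (Z : Bim A A) (z : Z.carrier) (a : A) (x : Plus A) :
    Z.left a (Z.Lam z x) = Z.Lam (Z.left a z) x := by
  rw [Lam_apply, Lam_apply, map_add, map_smul, Z.left_right]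

lemma eq_smul_pone_add (x : Plus A) : x = x.fst • pone A + plusRight x.snd (pone A) := by
  rw [plusRight_apply]
  refine plus_ext ?_ ?_
  · show x.fst = x.fst * 1 + 0
    ring
  · show x.snd = x.fst • (0 : A) + ((1 : ℂ) • x.snd + (0 : A) * x.snd)
    rw [smul_zero, one_smul, zero_mul, add_zero, zero_add]

lemma plusBim_rproj : (plusBim A).RProj := by
  intro Y Z σ φ hσ hσ' hφ
  obtain ⟨g, hg⟩ := hσ'
  refine ⟨Y.Lam (g (φ (pone A))), fun r x => Y.Lam_right _ r x, fun x => ?_⟩
  show σ (Y.Lam (g (φ (pone A))) x) = φ x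
  rw [Lam_apply, map_add, map_smul, hσ.2, hg]
  have h1 : φ x = φ (x.fst • pone A + plusRight x.snd (pone A)) :=
    congrArg φ (eq_smul_pone_add x)
  have h2 : φ (plusRight x.snd (pone A)) = Z.right x.snd (φ (pone A)) := hφ x.snd (pone A)
  rw [h1]
  refine Eq.trans ?_ (map_add φ _ _).symm
  refine congrArg₂ (· + ·) ?_ h2.symm
  exact (map_smul φ x.fst (pone A)).symm

end Plus

end Bim

section Transfer

variable {A : Type} [NonUnitalNormedRing A] [NormedSpace ℂ A]

/-- a left module as a bimodule over `A` and the zero algebra -/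
noncomputable def LMod.toBim (X : LMod A) : Bim A PUnit where
  carrier := X.carrier
  left := X.act
  right := 0
  left_mul := X.act_mul
  right_mul := fun _ _ _ => rfl
  left_right := fun a _ x => by
    show X.act a 0 = 0
    rw [map_zero]

/-- forgetting the right action -/
noncomputable def Bim.toLMod {B : Type} [NonUnitalNormedRing B] [NormedSpace ℂ B]
    (X : Bim A B) : LMod A where
  carrier := X.carrier
  act := X.left
  act_mul := X.left_mul

lemma Bim.right_punit (X : Bim A PUnit) (r : PUnit) (x : X.carrier) : X.right r x = 0 := by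
  have : r = 0 := rfl
  rw [this, map_zero]
  rfl

lemma Bim.isHom_iff {X Y : Bim A PUnit} (f : Bim.Op X Y) :
    Bim.IsHom f ↔ LMod.IsHom (X := X.toLMod) (Y := Y.toLMod) f := by
  constructor
  · exact fun h => h.1
  · intro h
    exact ⟨h, fun r x => by rw [Bim.right_punit, Bim.right_punit, map_zero]⟩

lemma Bim.Projective.toLMod {P : Bim A PUnit} (hP : P.Projective) : P.toLMod.Projective := by
  intro Y Z σ φ hσ hσ' hφ
  obtain ⟨ψ, h1, h2⟩ := hP Y.toBim Z.toBim σ φ ((Bim.isHom_iff (X := Y.toBim) (Y := Z.toBim) σ).2 hσ)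
    hσ' ((Bim.isHom_iff (X := P) (Y := Z.toBim) φ).2 hφ)
  exact ⟨ψ, h1.1, h2⟩

lemma LMod.Projective.toBim {P : LMod A} (hP : P.Projective) : P.toBim.Projective := by
  intro Y Z σ φ hσ hσ' hφ
  obtain ⟨ψ, h1, h2⟩ := hP Y.toLMod Z.toLMod σ φ hσ.1 hσ' hφ.1
  exact ⟨ψ, (Bim.isHom_iff (X := P.toBim) (Y := Y) ψ).2 h1, h2⟩

lemma LMod.hasResolution_of_toBim {X : LMod A} {n : ℕ} (h : X.toBim.HasResolution n) :
    X.HasResolution n := by
  obtain ⟨R, hR, hR', hn⟩ := h
  exact ⟨{ P := fun i => (R.P i).toLMod, ε := R.ε, d := R.d, s' := R.s', s := R.s },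
    ⟨fun i => (hR.projective i).toLMod, hR.ε_hom.1, fun i => (hR.d_hom i).1, hR.ε_d, hR.d_d⟩,
    ⟨hR'.ε_s, hR'.h_zero, hR'.h_succ⟩, hn⟩

lemma LMod.toBim_hasResolution {X : LMod A} {n : ℕ} (h : X.HasResolution n) :
    X.toBim.HasResolution n := by
  obtain ⟨R, hR, hR', hn⟩ := h
  exact ⟨{ P := fun i => (R.P i).toBim, ε := R.ε, d := R.d, s' := R.s', s := R.s },
    ⟨fun i => (hR.projective i).toBim,
      (Bim.isHom_iff (X := (R.P 0).toBim) (Y := X.toBim) R.ε).2 hR.ε_hom,
      fun i => (Bim.isHom_iff (X := (R.P (i + 1)).toBim) (Y := (R.P i).toBim) (R.d i)).2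
        (hR.d_hom i), hR.ε_d, hR.d_d⟩,
    ⟨hR'.ε_s, hR'.h_zero, hR'.h_succ⟩, hn⟩

lemma LMod.toBim_rproj (X : LMod A) : X.toBim.RProj := by
  intro Y Z σ φ hσ hσ' hφ
  obtain ⟨g, hg⟩ := hσ'
  refine ⟨g.comp φ, fun r x => ?_, fun x => hg _⟩
  have h1 : X.toBim.right r x = 0 := rfl
  rw [h1, map_zero, Bim.right_punit]

lemma LMod.dh_le {X : LMod A} {n : ℕ} (h : X.HasResolution n) : X.dh ≤ n := iInf₂_le n h

lemma LMod.le_dh {X : LMod A} {n : ℕ} (h : ¬ X.HasResolution n) : ((n + 1 : ℕ) : ℕ∞) ≤ X.dh := by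
  refine le_iInf₂ (fun m hm => ?_)
  rw [Nat.cast_le]
  by_contra hc
  push Not at hc
  apply h
  obtain ⟨R, hR, hR', hn⟩ := hm
  exact ⟨R, hR, hR', fun i hi => hn i (by omega)⟩

lemma Bim.dh_le {B : Type} [NonUnitalNormedRing B] [NormedSpace ℂ B] {X : Bim A B} {n : ℕ}
    (h : X.HasResolution n) : X.dh ≤ n := iInf₂_le n h

lemma Bim.le_dh {B : Type} [NonUnitalNormedRing B] [NormedSpace ℂ B] {X : Bim A B} {n : ℕ}
    (h : ¬ X.HasResolution n) : ((n + 1 : ℕ) : ℕ∞) ≤ X.dh := by
  refine le_iInf₂ (fun m hm => ?_)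
  rw [Nat.cast_le]
  by_contra hc
  push Not at hc
  apply h
  obtain ⟨R, hR, hR', hn⟩ := hm
  exact ⟨R, hR, hR', fun i hi => hn i (by omega)⟩

end Transfer

end Pool.Agent.Helper832.GD
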