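import Mathlib
import Pool.Agent.Helper832.GDD

/-!
Functoriality of the kernel modules in the underlying operators.
-/

set_option autoImplicit false
set_option maxSynthPendingDepth 3
set_option linter.unusedSectionVars false

namespace Pool.Agent.Helper832.GD

open ContinuousLinearMap

namespace Bim

variable {A B C D : Type} [NonUnitalNormedRing A] [NormedSpace ℂ A] [IsScalarTower ℂ A A]
  [SMulCommClass ℂ A A] [NonUnitalNormedRing B] [NormedSpace ℂ B]
  [NonUnitalNormedRing C] [NormedSpace ℂ C] [NonUnitalNormedRing D] [NormedSpace ℂ D]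

lemma norm_tens_apply_le {P Q : Type} [NormedAddCommGroup P] [NormedSpace ℂ P]
    [NormedAddCommGroup Q] [NormedSpace ℂ Q] (p : P) (q : Q) :
    ‖(tens p q : Tens P Q)‖ ≤ ‖p‖ * ‖q‖ := by
  refine ContinuousLinearMap.opNorm_le_bound _ (by positivity) (fun β => ?_)
  calc ‖β p q‖ ≤ ‖β‖ * ‖p‖ * ‖q‖ := β.le_opNorm₂ p q
    _ = ‖p‖ * ‖q‖ * ‖β‖ := by ring

lemma norm_tn_le (X : Bim A B) (b : A) (x : X.carrier) : ‖X.tn b x‖ ≤ ‖b‖ * ‖x‖ :=
  norm_tens_apply_le b x

lemma norm_li_apply_le {X : Bim A B} {E : Type} [NormedAddCommGroup E] [NormedSpace ℂ E]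
    [CompleteSpace E] (m : A →L[ℂ] X.carrier →L[ℂ] E) (t : X.K.carrier) :
    ‖X.li E m t‖ ≤ ‖m‖ * ‖t‖ := by
  have := norm_lift0_le m t
  rwa [one_mul] at this

/-- The bilinear map `b, x ↦ b ⊗ f x`. -/
noncomputable def K1m (X : Bim A B) (Y : Bim A C) (f : X.carrier →L[ℂ] Y.carrier) :
    A →L[ℂ] X.carrier →L[ℂ] Y.K.carrier :=
  ((compL ℂ X.carrier Y.carrier Y.K.carrier).flip f).comp Y.tn

lemma K1m_apply (X : Bim A B) (Y : Bim A C) (f : X.carrier →L[ℂ] Y.carrier) (b : A)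
    (x : X.carrier) : K1m X Y f b x = Y.tn b (f x) := rfl

lemma norm_K1m_le (X : Bim A B) (Y : Bim A C) (f : X.carrier →L[ℂ] Y.carrier) :
    ‖K1m X Y f‖ ≤ ‖f‖ := by
  refine ContinuousLinearMap.opNorm_le_bound _ (norm_nonneg _) (fun b => ?_)
  refine ContinuousLinearMap.opNorm_le_bound _ (by positivity) (fun x => ?_)
  rw [K1m_apply]
  calc ‖Y.tn b (f x)‖ ≤ ‖b‖ * ‖f x‖ := norm_tn_le Y b (f x)
    _ ≤ ‖b‖ * (‖f‖ * ‖x‖) := by gcongr; exact f.le_opNorm x
    _ = ‖f‖ * ‖b‖ * ‖x‖ := by ring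

/-- The operator `b ⊗ x ↦ b ⊗ f x`. -/
noncomputable def K1 (X : Bim A B) (Y : Bim A C) :
    (X.carrier →L[ℂ] Y.carrier) →L[ℂ] (X.K.carrier →L[ℂ] Y.K.carrier) :=
  LinearMap.mkContinuous
    { toFun := fun f => X.li Y.K.carrier (K1m X Y f)
      map_add' := fun f g => tn_ext (fun b x => by
        rw [add_apply, li_apply, li_apply, li_apply, K1m_apply, K1m_apply, K1m_apply, add_apply,
          map_add])
      map_smul' := fun c f => tn_ext (fun b x => by
        rw [smul_apply, li_apply, li_apply, K1m_apply, K1m_apply, smul_apply, map_smul]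
        rfl) } 1 (fun f => by
      rw [one_mul]
      refine ContinuousLinearMap.opNorm_le_bound _ (norm_nonneg _) (fun t => ?_)
      refine (norm_li_apply_le (K1m X Y f) t).trans ?_
      exact mul_le_mul_of_nonneg_right (norm_K1m_le X Y f) (norm_nonneg _))

lemma K1_tn (X : Bim A B) (Y : Bim A C) (f : X.carrier →L[ℂ] Y.carrier) (b : A)
    (x : X.carrier) : K1 X Y f (X.tn b x) = Y.tn b (f x) :=
  li_apply X (K1m X Y f) b x

lemma norm_K1_le (X : Bim A B) (Y : Bim A C) (f : X.carrier →L[ℂ] Y.carrier) :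
    ‖K1 X Y f‖ ≤ ‖f‖ := by
  refine ContinuousLinearMap.opNorm_le_bound _ (norm_nonneg _) (fun t => ?_)
  refine (norm_li_apply_le (K1m X Y f) t).trans ?_
  exact mul_le_mul_of_nonneg_right (norm_K1m_le X Y f) (norm_nonneg _)

lemma K1_id (X : Bim A B) :
    K1 X X (ContinuousLinearMap.id ℂ X.carrier) = ContinuousLinearMap.id ℂ X.K.carrier :=
  tn_ext (fun b x => by rw [K1_tn]; rfl)

lemma K1_comp (X : Bim A B) (Y : Bim A C) (Z : Bim A D)
    (g : Y.carrier →L[ℂ] Z.carrier) (f : X.carrier →L[ℂ] Y.carrier) :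
    K1 X Z (g.comp f) = (K1 Y Z g).comp (K1 X Y f) :=
  tn_ext (fun b x => by rw [K1_tn, comp_apply, comp_apply, K1_tn, K1_tn])

lemma K1_left {X : Bim A B} {Y : Bim A C} {f : X.carrier →L[ℂ] Y.carrier}
    (hf : ∀ a x, f (X.left a x) = Y.left a (f x)) (a : A) (t : X.K.carrier) :
    K1 X Y f (X.K.left a t) = Y.K.left a (K1 X Y f t) := by
  have : (K1 X Y f).comp (X.K.left a) = (Y.K.left a).comp (K1 X Y f) :=
    tn_ext (fun b x => by
      rw [comp_apply, comp_apply, tn_left, map_sub, K1_tn, K1_tn, K1_tn, tn_left, hf])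
  exact congrArg (fun φ : X.K.carrier →L[ℂ] Y.K.carrier => φ t) this

lemma K1_right_eq (X : Bim A B) (b : B) : K1 X X (X.right b) = X.K.right b :=
  tn_ext (fun c x => by rw [K1_tn, tn_right])

/-- Iterated functoriality. -/
noncomputable def KL (X : Bim A B) (Y : Bim A C) : ∀ n : ℕ,
    (X.carrier →L[ℂ] Y.carrier) →L[ℂ] ((Kp n X).carrier →L[ℂ] (Kp n Y).carrier)
  | 0 => ContinuousLinearMap.id ℂ _
  | n + 1 => (K1 (Kp n X) (Kp n Y)).comp (KL X Y n)

lemma KL_succ (X : Bim A B) (Y : Bim A C) (n : ℕ) (f : X.carrier →L[ℂ] Y.carrier) :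
    KL X Y (n + 1) f = K1 (Kp n X) (Kp n Y) (KL X Y n f) := rfl

lemma norm_KL_le (X : Bim A B) (Y : Bim A C) (n : ℕ) (f : X.carrier →L[ℂ] Y.carrier) :
    ‖KL X Y n f‖ ≤ ‖f‖ := by
  induction n with
  | zero => exact le_refl _
  | succ n ih =>
    rw [KL_succ]
    exact (norm_K1_le _ _ _).trans ih

lemma KL_id (X : Bim A B) (n : ℕ) :
    KL X X n (ContinuousLinearMap.id ℂ X.carrier) = ContinuousLinearMap.id ℂ (Kp n X).carrier := by
  induction n with
  | zero => rfl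
  | succ n ih =>
    rw [KL_succ, ih]
    exact K1_id (Kp n X)

lemma KL_comp (X : Bim A B) (Y : Bim A C) (Z : Bim A D) (n : ℕ)
    (g : Y.carrier →L[ℂ] Z.carrier) (f : X.carrier →L[ℂ] Y.carrier) :
    KL X Z n (g.comp f) = (KL Y Z n g).comp (KL X Y n f) := by
  induction n with
  | zero => rfl
  | succ n ih =>
    rw [KL_succ, KL_succ, KL_succ, ih]
    exact K1_comp (Kp n X) (Kp n Y) (Kp n Z) _ _

lemma KL_left {X : Bim A B} {Y : Bim A C} {f : X.carrier →L[ℂ] Y.carrier}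
    (hf : ∀ a x, f (X.left a x) = Y.left a (f x)) : ∀ (n : ℕ) (a : A) (x : (Kp n X).carrier),
    KL X Y n f ((Kp n X).left a x) = (Kp n Y).left a (KL X Y n f x)
  | 0 => hf
  | n + 1 => K1_left (X := Kp n X) (Y := Kp n Y) (KL_left hf n)

lemma KL_right_eq (X : Bim A B) (b : B) : ∀ n : ℕ, KL X X n (X.right b) = (Kp n X).right b
  | 0 => rfl
  | n + 1 => by
    rw [KL_succ, KL_right_eq X b n]
    exact K1_right_eq (Kp n X) b

lemma KL_isRight {X Y : Bim A B} (n : ℕ) {f : X.carrier →L[ℂ] Y.carrier}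
    (hf : IsRight (X := X) (Y := Y) f) :
    IsRight (X := Kp n X) (Y := Kp n Y) (KL X Y n f) := by
  intro b x
  have e1 : (KL X Y n f).comp (KL X X n (X.right b)) = (KL Y Y n (Y.right b)).comp (KL X Y n f) := by
    rw [← KL_comp, ← KL_comp]
    congr 1
    ext y
    exact hf b y
  rw [KL_right_eq, KL_right_eq] at e1
  exact congrArg (fun φ : (Kp n X).carrier →L[ℂ] (Kp n Y).carrier => φ x) e1

end Bim

end Pool.Agent.Helper832.GD
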