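import Mathlib
import Pool.Agent.Helper832.GDE
import Pool.Agent.Helper832.FLb
import Pool.Agent.Helper832.FLc
import Pool.Agent.Helper832.FLe

/-!
The block module over a Banach algebra, in the language of `LMod`.
-/

set_option autoImplicit false
set_option maxSynthPendingDepth 3
set_option linter.unusedSectionVars false

namespace Pool.Agent.Helper832.GD

open ContinuousLinearMap
open scoped ENNReal
open Pool.Agent.Helper832.FL (IsQuo exists_quo map1 map1_apply mapI mapI_apply pairing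
  pairing_apply lp1_norm lp1_summable pair_summable)
open Pool.Agent.Helper832.FL.Setup (mp mp_apply mp_summable mp_single)

section Mod

variable {A B : Type} [NonUnitalNormedRing A] [NormedSpace ℂ A]
  [NormedRing B] [NormedAlgebra ℂ B] [CompleteSpace B] {Γ ι : Type}

/-- The unital algebra `B` containing `A` as a bimodule over `A`. -/
noncomputable def BB (emb : A →L[ℂ] B) (emb_mul : ∀ a b, emb (a * b) = emb a * emb b) :
    Bim A A where
  carrier := B
  left := (ContinuousLinearMap.mul ℂ B).comp emb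
  right := (ContinuousLinearMap.mul ℂ B).flip.comp emb
  left_mul := fun a b x => by
    show emb (a * b) * x = emb a * (emb b * x)
    rw [emb_mul, mul_assoc]
  right_mul := fun a b x => by
    show x * emb (a * b) = x * emb a * emb b
    rw [emb_mul, mul_assoc]
  left_right := fun a b x => by
    show emb a * (x * emb b) = emb a * x * emb b
    rw [mul_assoc]

/-- Right multiplication on `B`. -/
noncomputable def rmB (e : B) : B →L[ℂ] B := (ContinuousLinearMap.mul ℂ B).flip e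

@[simp] lemma rmB_apply (e u : B) : rmB e u = u * e := rfl

/-- The null space. -/
noncomputable def Nw (w : ι → lp (fun _ : Γ => B) ∞) : Submodule ℂ (lp (fun _ : Γ => B) 1) where
  carrier := {u | ∀ t, mp B u (w t) = 0}
  add_mem' := by
    intro a b ha hb t
    rw [map_add, ContinuousLinearMap.add_apply, ha t, hb t, add_zero]
  zero_mem' := by
    intro t
    simp
  smul_mem' := by
    intro c a ha t
    rw [map_smul, ContinuousLinearMap.smul_apply, ha t, smul_zero]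

lemma isClosed_Nw (w : ι → lp (fun _ : Γ => B) ∞) :
    IsClosed (Nw w : Set (lp (fun _ : Γ => B) 1)) := by
  have : (Nw w : Set (lp (fun _ : Γ => B) 1)) = ⋂ t, (fun u => mp B u (w t)) ⁻¹' {0} := by
    ext u
    simp [Nw]
  rw [this]
  apply isClosed_iInter
  intro t
  apply IsClosed.preimage _ isClosed_singleton
  exact ((mp B).flip (w t)).continuous

/-- Left multiplication by elements of `A` on `l^1(Γ, B)`. -/
noncomputable def lmB (emb : A →L[ℂ] B) :
    A →L[ℂ] lp (fun _ : Γ => B) 1 →L[ℂ] lp (fun _ : Γ => B) 1 :=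
  map1 ((ContinuousLinearMap.mul ℂ B).comp emb)

lemma lmB_apply (emb : A →L[ℂ] B) (a : A) (u : lp (fun _ : Γ => B) 1) (γ : Γ) :
    lmB emb a u γ = emb a * u γ := rfl

lemma lmB_pair (emb : A →L[ℂ] B) (a : A) (u : lp (fun _ : Γ => B) 1)
    (y : lp (fun _ : Γ => B) ∞) : mp B (lmB emb a u) y = emb a * mp B u y := by
  rw [mp_apply, mp_apply, ← (mp_summable u y).tsum_mul_left (emb a)]
  apply tsum_congr
  intro γ
  rw [lmB_apply, mul_assoc]

theorem exists_module (emb : A →L[ℂ] B) (emb_mul : ∀ a b, emb (a * b) = emb a * emb b)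
    (w : ι → lp (fun _ : Γ => B) ∞) :
    ∃ (P : LMod A) (π : lp (fun _ : Γ => B) 1 →L[ℂ] P.carrier), IsQuo π ∧
      (∀ x, π x = 0 ↔ x ∈ Nw w) ∧ ∀ a u, P.act a (π u) = π (lmB emb a u) := by
  obtain ⟨Q, i1, i2, i3, π, hπ, hN⟩ := exists_quo (Nw w) (isClosed_Nw w)
  have hker : ∀ a, ∀ x, π x = 0 →
      ((ContinuousLinearMap.compL ℂ _ _ _ π).comp (lmB emb)) a x = 0 := by
    intro a x hx
    show π (lmB emb a x) = 0
    rw [hN] at hx ⊢
    intro t
    rw [lmB_pair, hx t, mul_zero]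
  refine ⟨{ carrier := Q
            act := hπ.lift₂ ((ContinuousLinearMap.compL ℂ _ _ _ π).comp (lmB emb)) hker
            act_mul := ?_ }, π, hπ, hN, ?_⟩
  · intro a b x
    obtain ⟨x, rfl⟩ := hπ.surj x
    rw [IsQuo.lift₂_mk, IsQuo.lift₂_mk]
    show π (lmB emb (a * b) x) = hπ.lift₂ _ _ a (π (lmB emb b x))
    rw [IsQuo.lift₂_mk]
    show π (lmB emb (a * b) x) = π (lmB emb a (lmB emb b x))
    congr 1
    ext γ
    simp [lmB_apply, emb_mul, mul_assoc]
  · intro a u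
    show hπ.lift₂ _ _ a (π u) = _
    rw [IsQuo.lift₂_mk]
    rfl

end Mod

section Maps

variable {A B : Type} [NonUnitalNormedRing A] [NormedSpace ℂ A]
  [NormedRing B] [NormedAlgebra ℂ B] [CompleteSpace B] {Γ ι : Type}
  {w : ι → lp (fun _ : Γ => B) ∞} {P : LMod A} {π : lp (fun _ : Γ => B) 1 →L[ℂ] P.carrier}

/-- The coordinate maps into the module. -/
noncomputable def iotaB (π : lp (fun _ : Γ => B) 1 →L[ℂ] P.carrier) (γ : Γ) :
    B →L[ℂ] P.carrier :=
  letI := Classical.decEq Γ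
  π.comp (lp.singleContinuousLinearMap ℂ (fun _ : Γ => B) 1 γ)

lemma iotaB_apply [DecidableEq Γ] (π : lp (fun _ : Γ => B) 1 →L[ℂ] P.carrier) (γ : Γ) (u : B) :
    iotaB π γ u = π (lp.single 1 γ u) := by
  have e : (Classical.decEq Γ) = (inferInstance : DecidableEq Γ) := Subsingleton.elim _ _
  unfold iotaB
  rw [e, comp_apply, lp.singleContinuousLinearMap_apply]

lemma norm_iotaB_le (π : lp (fun _ : Γ => B) 1 →L[ℂ] P.carrier) (γ : Γ) :
    ‖iotaB π γ‖ ≤ ‖π‖ := by
  classical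
  refine ContinuousLinearMap.opNorm_le_bound _ (norm_nonneg _) (fun u => ?_)
  rw [iotaB_apply]
  refine (π.le_opNorm _).trans ?_
  rw [lp.norm_single (by norm_num)]

lemma iotaB_left {emb : A →L[ℂ] B} (hact : ∀ a u, P.act a (π u) = π (lmB emb a u)) (γ : Γ)
    (a : A) (u : B) : iotaB π γ (emb a * u) = P.act a (iotaB π γ u) := by
  classical
  rw [iotaB_apply, iotaB_apply, hact]
  congr 1
  ext γ'
  rw [lmB_apply]
  by_cases h : γ' = γ
  · subst h
    rw [lp.single_apply_self, lp.single_apply_self]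
  · rw [lp.single_apply_ne _ _ _ h, lp.single_apply_ne _ _ _ h, mul_zero]

lemma iotaB_sum_eq_zero (hN : ∀ x, π x = 0 ↔ x ∈ Nw w) {κ : Type} (s : Finset κ) (γ : κ → Γ)
    (u : κ → B) (h : ∀ t, ∑ k ∈ s, u k * w t (γ k) = 0) :
    ∑ k ∈ s, iotaB π (γ k) (u k) = 0 := by
  classical
  simp_rw [iotaB_apply]
  rw [← map_sum, hN]
  intro t
  rw [map_sum, ContinuousLinearMap.sum_apply]
  simp_rw [mp_single]
  exact h t

/-- The evaluations on the module. -/
noncomputable def evB (hπ : IsQuo π) (hN : ∀ x, π x = 0 ↔ x ∈ Nw w) (t : ι) :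
    P.carrier →L[ℂ] B :=
  hπ.lift ((mp B).flip (w t)) (fun x hx => ((hN x).1 hx) t)

lemma evB_mk (hπ : IsQuo π) (hN : ∀ x, π x = 0 ↔ x ∈ Nw w) (t : ι)
    (u : lp (fun _ : Γ => B) 1) : evB hπ hN t (π u) = mp B u (w t) :=
  hπ.lift_mk _ _ _

lemma evB_left (hπ : IsQuo π) (hN : ∀ x, π x = 0 ↔ x ∈ Nw w) {emb : A →L[ℂ] B}
    (hact : ∀ a u, P.act a (π u) = π (lmB emb a u)) (t : ι) (a : A) (q : P.carrier) :
    evB hπ hN t (P.act a q) = emb a * evB hπ hN t q := by
  obtain ⟨u, rfl⟩ := hπ.surj q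
  rw [hact, evB_mk, evB_mk, lmB_pair]

lemma evB_iotaB (hπ : IsQuo π) (hN : ∀ x, π x = 0 ↔ x ∈ Nw w) (t : ι) (γ : Γ) (u : B) :
    evB hπ hN t (iotaB π γ u) = u * w t γ := by
  classical
  rw [iotaB_apply, evB_mk, mp_single]

lemma evB_add (hπ : IsQuo π) (hN : ∀ x, π x = 0 ↔ x ∈ Nw w) {t t' t'' : ι}
    (h : w t'' = w t + w t') : evB hπ hN t'' = evB hπ hN t + evB hπ hN t' := by
  ext q
  obtain ⟨u, rfl⟩ := hπ.surj q
  rw [add_apply, evB_mk, evB_mk, evB_mk, h, map_add]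

lemma evB_smul (hπ : IsQuo π) (hN : ∀ x, π x = 0 ↔ x ∈ Nw w) {t t' : ι} (c : ℂ)
    (h : w t' = c • w t) : evB hπ hN t' = c • evB hπ hN t := by
  ext q
  obtain ⟨u, rfl⟩ := hπ.surj q
  rw [smul_apply, evB_mk, evB_mk, h, map_smul]

lemma norm_mp_apply_le (u : lp (fun _ : Γ => B) 1) (y : lp (fun _ : Γ => B) ∞) :
    ‖mp B u y‖ ≤ ‖u‖ * ‖y‖ := by
  rw [mp_apply]
  have h1 : ∀ γ, ‖u γ * y γ‖ ≤ ‖y‖ * ‖u γ‖ := by
    intro γ
    refine (norm_mul_le _ _).trans ?_
    rw [mul_comm]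
    gcongr
    exact lp.norm_apply_le_norm (by norm_num) y γ
  have h2 := tsum_of_norm_bounded ((lp1_summable u).mul_left ‖y‖).hasSum h1
  rw [tsum_mul_left, ← lp1_norm, mul_comm] at h2
  exact h2

lemma norm_evB_sub_le (hπ : IsQuo π) (hN : ∀ x, π x = 0 ↔ x ∈ Nw w) (t t' : ι) (e : B)
    (C : ℝ) (hC : 0 ≤ C) (h : ∀ γ, ‖w t γ - w t' γ * e‖ ≤ C) :
    ‖evB hπ hN t - (rmB e).comp (evB hπ hN t')‖ ≤ C := by
  refine ContinuousLinearMap.opNorm_le_bound _ hC (fun q => ?_)
  apply le_of_forall_pos_le_add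
  intro ε hε
  obtain ⟨u, hu, hlt⟩ := hπ.approx q (ε / (C + 1)) (div_pos hε (by positivity))
  subst hu
  have e1 : (evB hπ hN t - (rmB e).comp (evB hπ hN t')) (π u)
      = mp B u (w t - mapI (ContinuousLinearMap.mul ℂ B).flip e (w t')) := by
    rw [sub_apply, comp_apply, evB_mk, evB_mk, rmB_apply, map_sub]
    congr 1
    rw [mp_apply, mp_apply, ← (mp_summable u (w t')).tsum_mul_right e]
    apply tsum_congr
    intro γ
    rw [mul_assoc]
    rfl
  have e2 : ‖w t - mapI (ContinuousLinearMap.mul ℂ B).flip e (w t')‖ ≤ C := by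
    apply lp.norm_le_of_forall_le hC
    exact h
  rw [e1]
  calc ‖mp B u (w t - mapI (ContinuousLinearMap.mul ℂ B).flip e (w t'))‖
      ≤ ‖u‖ * ‖w t - mapI (ContinuousLinearMap.mul ℂ B).flip e (w t')‖ := norm_mp_apply_le _ _
    _ ≤ (‖π u‖ + ε / (C + 1)) * C := by gcongr
    _ = C * ‖π u‖ + ε * (C / (C + 1)) := by ring
    _ ≤ C * ‖π u‖ + ε := by
        have : C / (C + 1) ≤ 1 := by
          rw [div_le_one (by positivity)]
          linarith
        nlinarith

lemma norm_evB_le (hπ : IsQuo π) (hN : ∀ x, π x = 0 ↔ x ∈ Nw w) (t : ι)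
    (C : ℝ) (hC : 0 ≤ C) (h : ∀ γ, ‖w t γ‖ ≤ C) : ‖evB hπ hN t‖ ≤ C := by
  have := norm_evB_sub_le hπ hN t t 0 C hC (fun γ => by rw [mul_zero, sub_zero]; exact h γ)
  have e : (rmB (0 : B)).comp (evB hπ hN t) = 0 := by
    ext q
    rw [comp_apply, rmB_apply, mul_zero]
    rfl
  rwa [e, sub_zero] at this

end Maps

end Pool.Agent.Helper832.GD
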