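import Mathlib
import Pool.Agent.Helper832.GDF
import Pool.Agent.Helper832.FLd
import Pool.Agent.Helper832.Blk

/-!
If every left module has a resolution of length `n`, there is a bounded net of operators
`K^n(A_+) → K^(n+1)(A_+)` with the exact splitting relation which are approximately right linear.
-/

set_option autoImplicit false
set_option maxSynthPendingDepth 3
set_option linter.unusedSectionVars false

namespace Pool.Agent.Helper832.GD

open ContinuousLinearMap
open scoped ENNReal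
open Pool.Agent.Helper832.FL (IsQuo pm pm_apply pm_z er pm_err null_rel bt bt_key norm_avg_le)

section Key

variable {G : Type} [Group G] [Fintype G] {Z : Type} [AddCommGroup Z] [Module ℂ Z]
  (rho : G →* (Z →ₗ[ℂ] Z)) {n : ℕ} (z : Fin (n + 1) → Z)
  (r : Fin (n + 1) → G → ℂ) (zeta : Z) (Phi : Z →ₗ[ℂ] ℂ)
  {B : Type} [Ring B] [Algebra ℂ B] (f : Fin (n + 1) → B)
  {W W' X X' : Type} [NormedAddCommGroup W] [NormedSpace ℂ W]
  [NormedAddCommGroup W'] [NormedSpace ℂ W'] [NormedAddCommGroup X] [NormedSpace ℂ X]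
  [NormedAddCommGroup X'] [NormedSpace ℂ X']

/-- The averaged operator. -/
noncomputable def avg (E : Z →ₗ[ℂ] (X' →L[ℂ] W')) (T : X →L[ℂ] X') (J : G → (W →L[ℂ] X)) (x : Z) :
    W →L[ℂ] W' :=
  (Fintype.card G : ℂ)⁻¹ • ∑ h, (E (rho h x)).comp (T.comp (J h⁻¹))

lemma avg_key (hr : ∀ k x, ∑ g, r k g • rho g x = Phi x • z k) (hz : Phi zeta = 1)
    (E : Z →ₗ[ℂ] (X' →L[ℂ] W')) (T : X →L[ℂ] X') (J : G → (W →L[ℂ] X))
    (RR : B → (W →L[ℂ] W)) (hR1 : RR 1 = ContinuousLinearMap.id ℂ W) (k : Fin (n + 1))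
    (hnull : ∀ h, ∑ g, r 0 g • (J (g * h)).comp (RR (f k)) = ∑ g, r k g • J (g * h)) :
    (avg rho E T J (z 0)).comp (RR (f k)) = avg rho E T J (z k) := by
  let b : G → B → (Z →ₗ[ℂ] (W →L[ℂ] W')) := fun g e =>
    { toFun := fun x => (E x).comp (T.comp ((J g).comp (RR e)))
      map_add' := fun x y => by rw [map_add]; rfl
      map_smul' := fun c x => by rw [map_smul]; rfl }
  have hb : ∀ g e x, b g e x = (E x).comp (T.comp ((J g).comp (RR e))) := fun _ _ _ => rfl
  have key := bt_key rho z r zeta Phi f hr hz b k (fun h x => by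
    have h1 := congrArg (fun S : W →L[ℂ] X => (E x).comp (T.comp S)) (hnull h)
    simp only [hb, hR1]
    have e1 : ∀ (c : G → ℂ) (S : G → (W →L[ℂ] X)),
        (E x).comp (T.comp (∑ g, c g • S g)) = ∑ g, c g • (E x).comp (T.comp (S g)) := by
      intro c S
      ext v
      simp only [comp_apply, sum_apply, smul_apply, map_sum, map_smul]
    rw [e1, e1] at h1
    exact h1)
  unfold bt at key
  simp only [hb, hR1] at key
  unfold avg
  have e2 : ∀ h, (E (rho h (z k))).comp (T.comp (J h⁻¹))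
      = (E (rho h (z k))).comp (T.comp ((J h⁻¹).comp (ContinuousLinearMap.id ℂ W))) := by
    intro h
    rw [comp_id]
  simp_rw [e2]
  rw [← key]
  ext v
  simp only [comp_apply, smul_apply, sum_apply]

lemma norm_avg_le' (E : Z →ₗ[ℂ] (X' →L[ℂ] W')) (T : X →L[ℂ] X') (J : G → (W →L[ℂ] X)) (x : Z)
    (C1 C2 : ℝ) (hE : ∀ h, ‖E (rho h x)‖ ≤ C1) (hJ : ∀ h, ‖J h‖ ≤ C2) (h1 : 0 ≤ C1) :
    ‖avg rho E T J x‖ ≤ C1 * (‖T‖ * C2) := by
  unfold avg
  apply norm_avg_le
  intro h
  refine (opNorm_comp_le _ _).trans ?_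
  gcongr
  · exact hE h
  · refine (opNorm_comp_le _ _).trans ?_
    gcongr
    exact hJ _

end Key

section Theta

variable {A B : Type} [NonUnitalNormedRing A] [NormedSpace ℂ A] [IsScalarTower ℂ A A]
  [SMulCommClass ℂ A A] [NormedRing B] [NormedAlgebra ℂ B] [CompleteSpace B]

open Bim

/-- the main construction -/
theorem exists_theta (emb : A →L[ℂ] B) (emb_mul : ∀ a b, emb (a * b) = emb a * emb b) (n : ℕ)
    (hn : ∀ P : LMod A, P.HasResolution n) :
    ∃ (C : ℝ) (Θ : Finset A × ℕ → ((Kp n (BB emb emb_mul)).carrier →L[ℂ]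
        (Kp n (BB emb emb_mul)).K.carrier)),
      0 ≤ C ∧ (∀ i, ‖Θ i‖ ≤ C) ∧
      (∀ i a η, (Kp n (BB emb emb_mul)).tn a η =
        (Kp n (BB emb emb_mul)).K.left a (Θ i η) - Θ i ((Kp n (BB emb emb_mul)).left a η)) ∧
      (∀ i, ∀ a ∈ i.1, ‖(Θ i).comp ((Kp n (BB emb emb_mul)).right a)
        - ((Kp n (BB emb emb_mul)).K.right a).comp (Θ i)‖ ≤ C * (1 / ((i.2 : ℝ) + 1))) := by
  classical
  let I : Type := Finset A × ℕ
  let m : I → ℕ := fun i => i.1.card
  let a : ∀ i : I, Fin (m i) → A := fun i k => (i.1.equivFin.symm k : A)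
  let f : ∀ i : I, Fin (m i + 1) → B := fun i => Fin.cons 1 (fun k => emb (a i k))
  have f0 : ∀ i, f i 0 = 1 := fun i => rfl
  have fs : ∀ i (k : Fin (m i)), f i k.succ = emb (a i k) := fun i k => rfl
  let s : I → ℝ := fun i => ∑ l, ‖f i l‖
  have hs0 : ∀ i, 0 ≤ s i := fun i => Finset.sum_nonneg fun l _ => norm_nonneg _
  have hsle : ∀ i l, ‖f i l‖ ≤ s i := fun i l =>
    Finset.single_le_sum (f := fun l => ‖f i l‖) (fun l _ => norm_nonneg _) (Finset.mem_univ l)
  let eps : I → ℝ := fun i => 1 / (((i.2 : ℝ) + 1) * (1 + s i) ^ 2)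
  have heps : ∀ i, 0 < eps i := fun i => by
    have := hs0 i
    positivity
  choose G hG1 hG2 Z hZ1 hZ2 rho z q lam r zeta Phi H1 H2 H3 H4 H5 using
    fun i => Blk.exists_block (m i) (eps i) (heps i)
  let Γ : Type := Σ i : I, G i
  let ι : Type := Σ i : I, Z i
  let p : ∀ i : I, Z i →ₗ[ℂ] B := fun i => pm (q i) (f i)
  have hinj : ∀ i : I, Function.Injective (Sigma.mk i : G i → Γ) := fun i => sigma_mk_injective
  let wf : ι → Γ → B := fun t => Function.extend (Sigma.mk t.1) (fun g => p t.1 (rho t.1 g t.2)) 0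
  have wf_self : ∀ i x g, wf ⟨i, x⟩ ⟨i, g⟩ = p i (rho i g x) := fun i x g =>
    (hinj i).extend_apply _ _ g
  have wf_other : ∀ i x i' g, i' ≠ i → wf ⟨i, x⟩ ⟨i', g⟩ = 0 := by
    intro i x i' g h
    apply Function.extend_apply'
    rintro ⟨g', hg'⟩
    exact h (congrArg Sigma.fst hg').symm
  have wf_mem : ∀ t, Memℓp (wf t) ∞ := by
    rintro ⟨i, x⟩
    apply memℓp_infty
    refine ⟨∑ g, ‖p i (rho i g x)‖, ?_⟩
    rintro _ ⟨⟨i', g⟩, rfl⟩
    by_cases h : i' = i
    · subst h
      show ‖wf ⟨i', x⟩ ⟨i', g⟩‖ ≤ _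
      rw [wf_self]
      exact Finset.single_le_sum (f := fun g => ‖p i' (rho i' g x)‖)
        (fun _ _ => norm_nonneg _) (Finset.mem_univ g)
    · show ‖wf ⟨i, x⟩ ⟨i', g⟩‖ ≤ _
      rw [wf_other i x i' g h, norm_zero]
      exact Finset.sum_nonneg fun _ _ => norm_nonneg _
  let w : ι → lp (fun _ : Γ => B) ∞ := fun t => ⟨wf t, wf_mem t⟩
  have w_self : ∀ i x g, w ⟨i, x⟩ ⟨i, g⟩ = p i (rho i g x) := wf_self
  have w_other : ∀ i x i' g, i' ≠ i → w ⟨i, x⟩ ⟨i', g⟩ = 0 := wf_other
  have w_add : ∀ i x x', w ⟨i, x + x'⟩ = w ⟨i, x⟩ + w ⟨i, x'⟩ := by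
    intro i x x'
    ext ⟨i', g⟩
    by_cases h : i' = i
    · subst h
      rw [lp.coeFn_add, Pi.add_apply, w_self, w_self, w_self, map_add, map_add]
    · rw [lp.coeFn_add, Pi.add_apply, w_other _ _ _ _ h, w_other _ _ _ _ h, w_other _ _ _ _ h,
        add_zero]
  have w_smul : ∀ i (c : ℂ) x, w ⟨i, c • x⟩ = c • w ⟨i, x⟩ := by
    intro i c x
    ext ⟨i', g⟩
    by_cases h : i' = i
    · subst h
      rw [lp.coeFn_smul, Pi.smul_apply, w_self, w_self, map_smul, map_smul]
    · rw [lp.coeFn_smul, Pi.smul_apply, w_other _ _ _ _ h, w_other _ _ _ _ h, smul_zero]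
  -- norm of p (g z_0)
  have hp0 : ∀ i g, ‖p i (rho i g (z i 0))‖ ≤ ‖(1 : B)‖ + 1 := by
    intro i g
    have e1 : p i (rho i g (z i 0)) = lam i g • (1 : B) +
        ∑ l, er (rho i) (z i) (q i) (lam i) l 0 g • f i l := by
      show pm (q i) (f i) _ = _
      rw [pm_apply]
      have : ∀ l, q i l (rho i g (z i 0)) • f i l =
          (lam i g * (if l = 0 then 1 else 0)) • f i l +
            er (rho i) (z i) (q i) (lam i) l 0 g • f i l := by
        intro l
        rw [← add_smul]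
        congr 1
        simp [er]
      simp_rw [this]
      rw [Finset.sum_add_distrib]
      congr 1
      simp [f0]
    rw [e1]
    refine (norm_add_le _ _).trans (add_le_add ?_ ?_)
    · rw [norm_smul]
      exact mul_le_of_le_one_left (norm_nonneg _) (H2 i g)
    · calc ‖∑ l, er (rho i) (z i) (q i) (lam i) l 0 g • f i l‖
          ≤ ∑ l, eps i * ‖f i l‖ := by
            refine (norm_sum_le _ _).trans (Finset.sum_le_sum fun l _ => ?_)
            rw [norm_smul]
            gcongr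
            exact H3 i g l 0
        _ = eps i * s i := by rw [← Finset.mul_sum]
        _ ≤ 1 := by
            show 1 / (((i.2 : ℝ) + 1) * (1 + s i) ^ 2) * s i ≤ 1
            rw [one_div, inv_mul_le_iff₀ (by have := hs0 i; positivity), mul_one]
            have := hs0 i
            have h2 : (0 : ℝ) ≤ i.2 := Nat.cast_nonneg _
            nlinarith [mul_nonneg h2 this, mul_nonneg h2 (mul_nonneg this this),
              mul_nonneg this this]
  have hpk : ∀ i (k : Fin (m i + 1)) g,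
      ‖p i (rho i g (z i k)) - p i (rho i g (z i 0)) * f i k‖ ≤ 1 / ((i.2 : ℝ) + 1) := by
    intro i k g
    show ‖pm (q i) (f i) _ - pm (q i) (f i) _ * f i k‖ ≤ _
    rw [pm_err (rho i) (z i) (q i) (lam i) (f i) (f0 i)]
    calc ‖∑ l, (er (rho i) (z i) (q i) (lam i) l k g • f i l -
            er (rho i) (z i) (q i) (lam i) l 0 g • (f i l * f i k))‖
        ≤ ∑ l, (eps i * ‖f i l‖ + eps i * (‖f i l‖ * s i)) := by
          refine (norm_sum_le _ _).trans (Finset.sum_le_sum fun l _ => ?_)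
          refine (norm_sub_le _ _).trans (add_le_add ?_ ?_)
          · rw [norm_smul]
            gcongr
            exact H3 i _ l k
          · rw [norm_smul]
            gcongr
            · exact H3 i _ l 0
            · exact (norm_mul_le _ _).trans (by gcongr; exact hsle i _)
      _ = eps i * (s i + s i * s i) := by
          rw [Finset.sum_add_distrib, ← Finset.mul_sum, ← Finset.mul_sum, ← Finset.sum_mul]
          ring
      _ ≤ 1 / ((i.2 : ℝ) + 1) := by
          show 1 / (((i.2 : ℝ) + 1) * (1 + s i) ^ 2) * (s i + s i * s i) ≤ _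
          have h0 := hs0 i
          have h2 : (0 : ℝ) < (i.2 : ℝ) + 1 := by positivity
          rw [one_div, one_div, mul_inv, mul_assoc]
          apply mul_le_of_le_one_right (by positivity)
          rw [inv_mul_le_iff₀ (by positivity), mul_one]
          nlinarith
  -- the module
  obtain ⟨P, π, hπ, hN, hact⟩ := exists_module emb emb_mul w
  obtain ⟨T, -, hT⟩ := (Kp_projective P.toBim_rproj
    (LMod.toBim_hasResolution (hn P))).exists_T
  let BB' := BB emb emb_mul
  let KE : (P.carrier →L[ℂ] B) →L[ℂ] ((Kp n P.toBim).K.carrier →L[ℂ] (Kp n BB').K.carrier) :=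
    (K1 (Kp n P.toBim) (Kp n BB')).comp (KL P.toBim BB' n)
  have KE_norm : ∀ g, ‖KE g‖ ≤ ‖g‖ := fun g =>
    (norm_K1_le _ _ _).trans (norm_KL_le P.toBim BB' n g)
  let KJ : (B →L[ℂ] P.carrier) →L[ℂ] ((Kp n BB').carrier →L[ℂ] (Kp n P.toBim).carrier) :=
    KL BB' P.toBim n
  have KJ_norm : ∀ g, ‖KJ g‖ ≤ ‖g‖ := fun g => norm_KL_le BB' P.toBim n g
  let E : ∀ i : I, Z i →ₗ[ℂ] ((Kp n P.toBim).K.carrier →L[ℂ] (Kp n BB').K.carrier) := fun i =>
    { toFun := fun x => KE (evB hπ hN ⟨i, x⟩)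
      map_add' := fun x y => by rw [evB_add hπ hN (w_add i x y), map_add]
      map_smul' := fun c x => by rw [evB_smul hπ hN c (w_smul i c x), map_smul]; rfl }
  have hE : ∀ i x, E i x = KE (evB hπ hN ⟨i, x⟩) := fun _ _ => rfl
  let J : ∀ i : I, G i → ((Kp n BB').carrier →L[ℂ] (Kp n P.toBim).carrier) := fun i g =>
    KJ (iotaB π ⟨i, g⟩)
  have hEnorm : ∀ i h, ‖E i (rho i h (z i 0))‖ ≤ ‖(1 : B)‖ + 1 := by
    intro i h
    refine (KE_norm _).trans (norm_evB_le hπ hN _ _ (by positivity) ?_)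
    rintro ⟨i', g⟩
    by_cases hi : i' = i
    · subst hi
      have : rho i' g (rho i' h (z i' 0)) = rho i' (g * h) (z i' 0) := by
        rw [map_mul]; rfl
      rw [w_self, this]
      exact hp0 i' _
    · rw [w_other _ _ _ _ hi, norm_zero]
      positivity
  have hJnorm : ∀ i h, ‖J i h‖ ≤ ‖π‖ := fun i h => (KJ_norm _).trans (norm_iotaB_le π _)
  let Θ : I → ((Kp n BB').carrier →L[ℂ] (Kp n BB').K.carrier) := fun i =>
    avg (rho i) (E i) T (J i) (z i 0)
  have hΘnorm : ∀ i, ‖Θ i‖ ≤ (‖(1 : B)‖ + 1) * (‖T‖ * ‖π‖) := fun i =>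
    norm_avg_le' (rho i) (E i) T (J i) (z i 0) _ _ (hEnorm i) (hJnorm i) (by positivity)
  have hLeft : ∀ x : ι, ∀ a (t : (Kp n P.toBim).K.carrier),
      KE (evB hπ hN x) ((Kp n P.toBim).K.left a t)
        = (Kp n BB').K.left a (KE (evB hπ hN x) t) := by
    intro x a t
    exact K1_left (X := Kp n P.toBim) (Y := Kp n BB')
      (KL_left (X := P.toBim) (Y := BB') (f := evB (B := B) hπ hN x)
        (fun a q => evB_left hπ hN hact x a q) n) a t
  have hLeftJ : ∀ γ : Γ, ∀ a (η : (Kp n BB').carrier),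
      KJ (iotaB π γ) ((Kp n BB').left a η) = (Kp n P.toBim).left a (KJ (iotaB π γ) η) := by
    intro γ a η
    exact KL_left (X := BB') (Y := P.toBim) (f := iotaB (B := B) π γ)
      (fun a u => iotaB_left hact γ a u) n a η
  have hTn : ∀ (x : ι) a (ξ : (Kp n P.toBim).carrier),
      KE (evB hπ hN x) ((Kp n P.toBim).tn a ξ)
        = (Kp n BB').tn a (KL P.toBim BB' n (evB (B := B) hπ hN x) ξ) := by
    intro x a ξ
    exact K1_tn (Kp n P.toBim) (Kp n BB') _ a ξ
  have hEJ : ∀ i (h : G i) (η : (Kp n BB').carrier),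
      KL P.toBim BB' n (evB (B := B) hπ hN ⟨i, rho i h (z i 0)⟩) (J i h⁻¹ η) = η := by
    intro i h η
    have e1 : (KL P.toBim BB' n (evB (B := B) hπ hN ⟨i, rho i h (z i 0)⟩)).comp (J i h⁻¹)
        = ContinuousLinearMap.id ℂ (Kp n BB').carrier := by
      have e2 : (KL P.toBim BB' n (evB (B := B) hπ hN ⟨i, rho i h (z i 0)⟩)).comp (J i h⁻¹)
          = KL BB' BB' n ((evB (B := B) hπ hN ⟨i, rho i h (z i 0)⟩).comp (iotaB (B := B) π ⟨i, h⁻¹⟩)) :=
        (KL_comp BB' P.toBim BB' n _ _).symm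
      rw [e2, ← KL_id BB' n]
      congr 1
      ext u
      show evB (B := B) hπ hN ⟨i, rho i h (z i 0)⟩ (iotaB (B := B) π ⟨i, h⁻¹⟩ u) = u
      have e3 : rho i h⁻¹ (rho i h (z i 0)) = z i 0 := by
        have : rho i h⁻¹ (rho i h (z i 0)) = (rho i h⁻¹ * rho i h) (z i 0) := rfl
        rw [this, ← map_mul, inv_mul_cancel, map_one]
        rfl
      have e4 : p i (z i 0) = 1 := by
        show pm (q i) (f i) _ = 1
        rw [pm_z (z i) (q i) (f i) (H1 i), f0]
      rw [evB_iotaB, w_self, e3, e4, mul_one]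
    exact congrArg (fun S : (Kp n BB').carrier →L[ℂ] (Kp n BB').carrier => S η) e1
  have hΘrel : ∀ i a η, (Kp n BB').tn a η
      = (Kp n BB').K.left a (Θ i η) - Θ i ((Kp n BB').left a η) := by
    intro i a η
    have e1 : ∀ η, Θ i η = (Fintype.card (G i) : ℂ)⁻¹ •
        ∑ h, KE (evB (B := B) hπ hN ⟨i, rho i h (z i 0)⟩) (T (J i h⁻¹ η)) := by
      intro η
      show ((Fintype.card (G i) : ℂ)⁻¹ •
        ∑ h, (E i (rho i h (z i 0))).comp (T.comp (J i h⁻¹))) η = _
      rw [smul_apply, sum_apply]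
      rfl
    rw [e1, e1, map_smul, map_sum, ← smul_sub, ← Finset.sum_sub_distrib]
    have e2 : ∀ h : G i, (Kp n BB').K.left a (KE (evB (B := B) hπ hN ⟨i, rho i h (z i 0)⟩) (T (J i h⁻¹ η)))
        - KE (evB (B := B) hπ hN ⟨i, rho i h (z i 0)⟩) (T (J i h⁻¹ ((Kp n BB').left a η)))
        = (Kp n BB').tn a η := by
      intro h
      have e3 : J i h⁻¹ ((Kp n BB').left a η) = (Kp n P.toBim).left a (J i h⁻¹ η) :=
        hLeftJ _ a η
      rw [e3, ← hLeft, ← map_sub, ← hT, hTn, hEJ]
    simp_rw [e2]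
    exact (FL.card_inv_smul_sum (G := G i) _).symm
  have hΘright : ∀ i, ∀ a' ∈ i.1, ‖(Θ i).comp ((Kp n BB').right a')
      - ((Kp n BB').K.right a').comp (Θ i)‖ ≤ (1 / ((i.2 : ℝ) + 1)) * (‖T‖ * ‖π‖) := by
    intro i a' ha'
    obtain ⟨k, hk⟩ : ∃ k : Fin (m i), a i k = a' := by
      refine ⟨i.1.equivFin ⟨a', ha'⟩, ?_⟩
      show ((i.1.equivFin.symm (i.1.equivFin ⟨a', ha'⟩) : i.1) : A) = a'
      rw [Equiv.symm_apply_apply]
    have hfk : f i k.succ = emb a' := by rw [fs, hk]
    let RR : B → ((Kp n BB').carrier →L[ℂ] (Kp n BB').carrier) := fun e =>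
      KL BB' BB' n (rmB (B := B) e)
    have hRR : RR (f i k.succ) = (Kp n BB').right a' := by
      show KL BB' BB' n (rmB (B := B) (f i k.succ)) = _
      rw [hfk]
      exact KL_right_eq BB' a' n
    have e1 : (Θ i).comp ((Kp n BB').right a') = avg (rho i) (E i) T (J i) (z i k.succ) := by
      rw [← hRR]
      refine avg_key (rho i) (z i) (r i) (zeta i) (Phi i) (f i) (H4 i) (H5 i) (E i) T (J i) RR ?_
        k.succ ?_
      · show KL BB' BB' n (rmB (B := B) (1 : B)) = _
        rw [← KL_id BB' n]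
        congr 1
        ext u
        exact mul_one u
      · intro h
        have e2 : ∑ g, r i 0 g • (iotaB (B := B) π ⟨i, g * h⟩).comp (rmB (B := B) (f i k.succ))
            = ∑ g, r i k.succ g • iotaB (B := B) π ⟨i, g * h⟩ := by
          ext u
          rw [sum_apply, sum_apply, ← sub_eq_zero, ← Finset.sum_sub_distrib]
          have e5 : ∀ g : G i, (r i 0 g • (iotaB (B := B) π ⟨i, g * h⟩).comp (rmB (B := B) (f i k.succ))) u
              - (r i k.succ g • iotaB (B := B) π ⟨i, g * h⟩) u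
              = iotaB (B := B) π ⟨i, g * h⟩ (r i 0 g • (u * f i k.succ) - r i k.succ g • u) := by
            intro g
            rw [smul_apply, smul_apply, comp_apply, rmB_apply, map_sub, map_smul, map_smul]
          simp_rw [e5]
          refine iotaB_sum_eq_zero hN Finset.univ (fun g : G i => (⟨i, g * h⟩ : Γ)) _ ?_
          rintro ⟨i', x'⟩
          by_cases hi : i = i'
          · subst hi
            simp only [w_self]
            have := congrArg (fun b => u * b) (null_rel (rho i) (z i) (q i) (r i) (Phi i) (f i)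
              (f0 i) (H1 i) (H4 i) k.succ h x')
            simp only [Finset.mul_sum] at this
            rw [← sub_eq_zero, ← Finset.sum_sub_distrib] at this
            rw [← this]
            apply Finset.sum_congr rfl
            intro g _
            rw [sub_mul, smul_mul_assoc, smul_mul_assoc, mul_smul_comm, mul_smul_comm, mul_assoc]
          · simp only [w_other _ _ _ _ hi, mul_zero, Finset.sum_const_zero]
        have e3 := congrArg KJ e2
        rw [map_sum, map_sum] at e3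
        have e4 : ∀ g : G i, KJ (r i 0 g • (iotaB (B := B) π ⟨i, g * h⟩).comp (rmB (B := B) (f i k.succ)))
            = r i 0 g • (J i (g * h)).comp (RR (f i k.succ)) := by
          intro g
          rw [map_smul]
          congr 1
          exact KL_comp BB' BB' P.toBim n _ _
        simp_rw [e4, map_smul] at e3
        exact e3
    have e6 : ((Kp n BB').K.right a').comp (Θ i) = (Fintype.card (G i) : ℂ)⁻¹ •
        ∑ h, (KE ((rmB (B := B) (f i k.succ)).comp (evB (B := B) hπ hN ⟨i, rho i h (z i 0)⟩))).comp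
          (T.comp (J i h⁻¹)) := by
      have e7 : ∀ g : P.carrier →L[ℂ] B, KE ((rmB (B := B) (f i k.succ)).comp g)
          = ((Kp n BB').K.right a').comp (KE g) := by
        intro g
        have e8 : KL P.toBim BB' n ((rmB (B := B) (f i k.succ)).comp g)
            = ((Kp n BB').right a').comp (KL P.toBim BB' n g) := by
          rw [← hRR]
          exact KL_comp P.toBim BB' BB' n _ _
        show K1 (Kp n P.toBim) (Kp n BB') (KL P.toBim BB' n ((rmB (B := B) (f i k.succ)).comp g)) = _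
        rw [e8, K1_comp (Kp n P.toBim) (Kp n BB') (Kp n BB'), K1_right_eq]
        rfl
      simp_rw [e7]
      ext v
      rw [comp_apply]
      show (Kp n BB').K.right a' (((Fintype.card (G i) : ℂ)⁻¹ •
        ∑ h, (E i (rho i h (z i 0))).comp (T.comp (J i h⁻¹))) v) = _
      rw [smul_apply, sum_apply, smul_apply, sum_apply, map_smul, map_sum]
      rfl
    rw [e1, e6]
    unfold avg
    rw [← smul_sub, ← Finset.sum_sub_distrib]
    apply norm_avg_le
    intro h
    rw [← sub_comp]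
    refine (opNorm_comp_le _ _).trans ?_
    gcongr
    · rw [hE, ← map_sub]
      refine (KE_norm _).trans (norm_evB_sub_le hπ hN _ _ _ _ (by positivity) ?_)
      rintro ⟨i', g⟩
      by_cases hi : i' = i
      · subst hi
        have c1 : ∀ k, rho i' g (rho i' h (z i' k)) = rho i' (g * h) (z i' k) := by
          intro k
          rw [map_mul]; rfl
        rw [w_self, w_self, c1, c1]
        exact hpk i' k.succ _
      · rw [w_other _ _ _ _ hi, w_other _ _ _ _ hi, zero_mul, sub_zero, norm_zero]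
        positivity
    · refine (opNorm_comp_le _ _).trans ?_
      gcongr
      exact hJnorm i _
  refine ⟨(‖(1 : B)‖ + 1) * (‖T‖ * ‖π‖), Θ, by positivity, hΘnorm, hΘrel, fun i a' ha' => ?_⟩
  refine (hΘright i a' ha').trans ?_
  rw [mul_comm]
  have h1 : (0 : ℝ) ≤ ‖(1 : B)‖ * (‖T‖ * ‖π‖) := by positivity
  refine mul_le_mul_of_nonneg_right ?_ (by positivity)
  linarith

end Theta

end Pool.Agent.Helper832.GD
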