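import Mathlib
import Pool.Agent.Helper832.GDD

/-!
If every Banach bimodule is a retract of a bimodule of operators between left modules, then the
global dimension equals the bidimension.
-/

set_option autoImplicit false
set_option maxSynthPendingDepth 3
set_option linter.unusedSectionVars false

namespace Pool.Agent.Helper832.GD

open ContinuousLinearMap

namespace Bim

variable {A B : Type} [NonUnitalNormedRing A] [NormedSpace ℂ A] [IsScalarTower ℂ A A]
  [SMulCommClass ℂ A A] [NonUnitalNormedRing B] [NormedSpace ℂ B]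

/-- `Z'` is a retract of `Z` as a bimodule. -/
def IsRetract (Z' Z : Bim A B) : Prop :=
  ∃ (κ : Z'.carrier →L[ℂ] Z.carrier) (e : Z.carrier →L[ℂ] Z'.carrier),
    IsHom (X := Z') (Y := Z) κ ∧ IsHom (X := Z) (Y := Z') e ∧ ∀ w, e (κ w) = w

/-- Functoriality of the cosyzygy. -/
noncomputable def Nmap {Z Z' : Bim A B} (f : Z.carrier →L[ℂ] Z'.carrier) :
    Z.N.carrier →L[ℂ] Z'.N.carrier := (compL ℂ A Z.carrier Z'.carrier) f

lemma ev_Nmap {Z Z' : Bim A B} (f : Z.carrier →L[ℂ] Z'.carrier) (c : A) (ψ : Z.N.carrier) :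
    Z'.ev c (Nmap f ψ) = f (Z.ev c ψ) := rfl

lemma Nmap_hom {Z Z' : Bim A B} {f : Z.carrier →L[ℂ] Z'.carrier}
    (hf : IsHom (X := Z) (Y := Z') f) : IsHom (X := Z.N) (Y := Z'.N) (Nmap f) := by
  refine ⟨fun a ψ => N_ext (fun c => ?_), fun r ψ => N_ext (fun c => ?_)⟩
  · rw [ev_left, ev_Nmap, ev_Nmap, ev_Nmap, ev_left, map_sub, hf.1]
  · rw [ev_right, ev_Nmap, ev_Nmap, ev_right, hf.2]

lemma IsRetract.N {Z' Z : Bim A B} (h : IsRetract Z' Z) : IsRetract Z'.N Z.N := by
  obtain ⟨κ, e, h1, h2, h3⟩ := h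
  refine ⟨Nmap κ, Nmap e, Nmap_hom h1, Nmap_hom h2, fun ψ => N_ext (fun c => ?_)⟩
  rw [ev_Nmap, ev_Nmap, h3]

lemma IsRetract.Np {Z' Z : Bim A B} (h : IsRetract Z' Z) : ∀ n, IsRetract (Np n Z') (Np n Z)
  | 0 => h
  | n + 1 => (IsRetract.Np h n).N

lemma VanY.retract {Z' Z W : Bim A B} (h : IsRetract Z' Z) (hZ : VanY Z W) : VanY Z' W := by
  obtain ⟨κ, e, h1, h2, h3⟩ := h
  intro f hf
  have hκ := Nmap_hom h1
  obtain ⟨g, hg, hg'⟩ := hZ ((Nmap κ).comp f)
    ⟨fun a x => by rw [comp_apply, comp_apply, hf.1, hκ.1],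
      fun a x => by rw [comp_apply, comp_apply, hf.2, hκ.2]⟩
  refine ⟨e.comp g, fun r x => by rw [comp_apply, comp_apply, hg, h2.2], fun x => ?_⟩
  refine N_ext (fun c => ?_)
  have h4 := congrArg (fun ψ => e (Z.ev c ψ)) (hg' x)
  simp only [ev_delta, comp_apply, ev_Nmap, map_sub, h2.1, h3] at h4
  rw [ev_delta, comp_apply, comp_apply]
  exact h4

lemma Np_N (n : ℕ) (Z : Bim A B) : Np n Z.N = (Np n Z).N := by
  induction n with
  | zero => rfl
  | succ n ih =>
    show (Np n Z.N).N = (Np n Z).N.N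
    rw [ih]

end Bim

section HB

variable {A : Type} [NonUnitalNormedRing A] [NormedSpace ℂ A] [IsScalarTower ℂ A A]
  [SMulCommClass ℂ A A]

open Bim

/-- The bimodule of operators between left modules. -/
noncomputable def HB (Y X : Bim A PUnit) : Bim A A where
  carrier := Y.carrier →L[ℂ] X.carrier
  left := (compL ℂ Y.carrier X.carrier X.carrier).comp X.left
  right := (compL ℂ Y.carrier Y.carrier X.carrier).flip.comp Y.left
  left_mul := fun a b T => by
    refine ContinuousLinearMap.ext (fun y => ?_)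
    exact X.left_mul a b (T y)
  right_mul := fun a b T => by
    refine ContinuousLinearMap.ext (fun y => ?_)
    exact congrArg T (Y.left_mul a b y)
  left_right := fun a b T => rfl

/-- Evaluation of an element of the operator bimodule. -/
noncomputable def HBev (Y X : Bim A PUnit) (y : Y.carrier) : (HB Y X).carrier →L[ℂ] X.carrier :=
  ContinuousLinearMap.apply ℂ X.carrier y

lemma HBev_left (Y X : Bim A PUnit) (a : A) (T : (HB Y X).carrier) (y : Y.carrier) :
    HBev Y X y ((HB Y X).left a T) = X.left a (HBev Y X y T) := rfl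

lemma HBev_right (Y X : Bim A PUnit) (a : A) (T : (HB Y X).carrier) (y : Y.carrier) :
    HBev Y X y ((HB Y X).right a T) = HBev Y X (Y.left a y) T := rfl

lemma HB_ext {Y X : Bim A PUnit} {S T : (HB Y X).carrier}
    (h : ∀ y, HBev Y X y S = HBev Y X y T) : S = T := ContinuousLinearMap.ext h

/-- The flip map. -/
noncomputable def hbFlip (Y X : Bim A PUnit) :
    (HB Y X).N.carrier →L[ℂ] (HB Y X.N).carrier :=
  (flipₗᵢ ℂ A Y.carrier X.carrier).toContinuousLinearEquiv.toContinuousLinearMap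

/-- The inverse flip map. -/
noncomputable def hbFlip' (Y X : Bim A PUnit) :
    (HB Y X.N).carrier →L[ℂ] (HB Y X).N.carrier :=
  (flipₗᵢ ℂ Y.carrier A X.carrier).toContinuousLinearEquiv.toContinuousLinearMap

lemma ev_hbFlip (Y X : Bim A PUnit) (y : Y.carrier) (c : A) (ψ : (HB Y X).N.carrier) :
    X.ev c (HBev Y X.N y (hbFlip Y X ψ)) = HBev Y X y ((HB Y X).ev c ψ) := rfl

lemma ev_hbFlip' (Y X : Bim A PUnit) (y : Y.carrier) (c : A) (ψ : (HB Y X.N).carrier) :
    HBev Y X y ((HB Y X).ev c (hbFlip' Y X ψ)) = X.ev c (HBev Y X.N y ψ) := rfl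

lemma hbFlip_hom (Y X : Bim A PUnit) :
    IsHom (X := (HB Y X).N) (Y := HB Y X.N) (hbFlip Y X) := by
  refine ⟨fun a ψ => HB_ext (fun y => N_ext (fun c => ?_)),
    fun a ψ => HB_ext (fun y => N_ext (fun c => ?_))⟩
  · rw [ev_hbFlip, HBev_left, ev_left, ev_left, ev_hbFlip, ev_hbFlip, map_sub, HBev_left]
  · rw [ev_hbFlip, HBev_right, ev_right, ev_hbFlip, HBev_right]

lemma hbFlip'_hom (Y X : Bim A PUnit) :
    IsHom (X := HB Y X.N) (Y := (HB Y X).N) (hbFlip' Y X) := by
  refine ⟨fun a ψ => N_ext (fun c => HB_ext (fun y => ?_)),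
    fun a ψ => N_ext (fun c => HB_ext (fun y => ?_))⟩
  · rw [ev_hbFlip', HBev_left, ev_left, ev_left, map_sub, HBev_left, ev_hbFlip', ev_hbFlip']
  · rw [ev_hbFlip', HBev_right, ev_right, HBev_right, ev_hbFlip']

lemma retract_flip (Y X : Bim A PUnit) : IsRetract (HB Y X).N (HB Y X.N) :=
  ⟨hbFlip Y X, hbFlip' Y X, hbFlip_hom Y X, hbFlip'_hom Y X, fun _ => rfl⟩

lemma retract_flip' (Y X : Bim A PUnit) : IsRetract (HB Y X.N) (HB Y X).N :=
  ⟨hbFlip' Y X, hbFlip Y X, hbFlip'_hom Y X, hbFlip_hom Y X, fun _ => rfl⟩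

variable [CompleteSpace A]

lemma ev_Lam (H : Bim A A) (w : H.N.carrier) (c : A) (x : Plus A) :
    H.ev c (H.N.Lam w x) = H.Lam (H.ev c w) x := by
  rw [Lam_apply, Lam_apply, map_add, map_smul, ev_right]

lemma eq_Lam {H : Bim A A} (f : (plusBim A).carrier →L[ℂ] H.carrier)
    (hf : IsRight (X := plusBim A) (Y := H) f) (x : Plus A) :
    f x = H.Lam (f (pone A)) x := by
  have h1 : f x = f (x.fst • pone A + plusRight x.snd (pone A)) :=
    congrArg f (eq_smul_pone_add x)
  have h2 : f (plusRight x.snd (pone A)) = H.right x.snd (f (pone A)) := hf x.snd (pone A)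
  rw [h1, Lam_apply]
  refine (map_add f _ _).trans ?_
  refine congrArg₂ (· + ·) ?_ h2
  exact map_smul f x.fst (pone A)

lemma plusLeft_pone (c : A) : plusLeft c (pone A) = plusRight c (pone A) := by
  rw [plusLeft_apply, plusRight_apply]
  refine plus_ext rfl ?_
  show (1 : ℂ) • c + c * (0 : A) = (1 : ℂ) • c + (0 : A) * c
  rw [mul_zero, zero_mul]

/-- Passage from left modules to the bimodule `A_+`. -/
lemma vanY_plus {Y X : Bim A PUnit} (h : VanY X Y) : VanY (HB Y X) (plusBim A) := by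
  intro f hf
  let w : (HB Y X).N.carrier := f (pone A)
  have hw : ∀ a, (HB Y X).N.left a w = (HB Y X).N.right a w := by
    intro a
    have e1 : f ((plusBim A).left a (pone A)) = (HB Y X).N.left a w := hf.1 a (pone A)
    have e2 : f ((plusBim A).right a (pone A)) = (HB Y X).N.right a w := hf.2 a (pone A)
    have e3 : (plusBim A).left a (pone A) = (plusBim A).right a (pone A) := plusLeft_pone a
    rw [← e1, ← e2, e3]
  let F : Y.carrier →L[ℂ] X.N.carrier := hbFlip Y X w
  have hF : ∀ c y, X.ev c (F y) = HBev Y X y ((HB Y X).ev c w) := fun c y => rfl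
  obtain ⟨g, -, hg'⟩ := h F ⟨fun a y => N_ext (fun c => by
      have e1 := congrArg (fun ψ => HBev Y X y ((HB Y X).ev c ψ)) (hw a)
      simp only [ev_left, ev_right, map_sub, HBev_left, HBev_right] at e1
      rw [ev_left, hF, hF, hF]
      exact e1.symm), fun r y => by
        rw [Bim.right_punit, Bim.right_punit, map_zero]⟩
  refine ⟨(HB Y X).Lam g, fun r x => Lam_right _ _ r x, fun x => N_ext (fun c => ?_)⟩
  have e0 : (HB Y X).ev c w = (HB Y X).left c g - (HB Y X).right c g := by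
    refine HB_ext (fun y => ?_)
    rw [map_sub, HBev_left, HBev_right]
    have e1 := congrArg (X.ev c) (hg' y)
    rw [ev_delta, hF] at e1
    exact e1.symm
  have e2 : f x = (HB Y X).N.Lam w x := eq_Lam f hf.2 x
  rw [e2, ev_Lam, e0]
  have e3 : (HB Y X).ev c (delta (plusBim A) (HB Y X) ((HB Y X).Lam g) x)
      = (HB Y X).left c ((HB Y X).Lam g x) - (HB Y X).Lam g (plusLeft c x) :=
    ev_delta (P := plusBim A) (Z := HB Y X) ((HB Y X).Lam g) c x
  rw [e3, left_Lam, Lam_left, map_sub]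
  rfl

/-- Passage from the bimodule `A_+` to left modules. -/
lemma vanY_of_plus {Y X : Bim A PUnit} (h : VanY (HB Y X) (plusBim A)) : VanY X Y := by
  intro F hF
  let w : (HB Y X).N.carrier := hbFlip' Y X F
  have hw : ∀ c y, HBev Y X y ((HB Y X).ev c w) = X.ev c (F y) := fun c y => rfl
  have hcen : ∀ a, (HB Y X).N.left a w = (HB Y X).N.right a w := by
    intro a
    refine N_ext (fun c => HB_ext (fun y => ?_))
    rw [ev_left, ev_right, map_sub, HBev_left, HBev_right, hw, hw, hw]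
    have e1 := congrArg (X.ev c) (hF.1 a y)
    rw [ev_left] at e1
    exact e1.symm
  have hL : IsHom (X := plusBim A) (Y := (HB Y X).N) ((HB Y X).N.Lam w) := by
    refine ⟨fun a x => ?_, fun a x => Lam_right _ _ a x⟩
    have e1 : (HB Y X).N.Lam w ((plusBim A).left a x) = (HB Y X).N.Lam ((HB Y X).N.right a w) x :=
      Lam_left _ _ a x
    refine e1.trans ?_
    rw [← hcen]
    exact (left_Lam _ _ a x).symm
  obtain ⟨g, hg, hg'⟩ := h _ hL
  have key : ∀ c, (HB Y X).left c (g (pone A)) - (HB Y X).right c (g (pone A))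
      = (HB Y X).ev c w := by
    intro c
    have e1 := congrArg ((HB Y X).ev c) (hg' (pone A))
    have e2 : (HB Y X).ev c (delta (plusBim A) (HB Y X) g (pone A))
        = (HB Y X).left c (g (pone A)) - g ((plusBim A).left c (pone A)) :=
      ev_delta (P := plusBim A) (Z := HB Y X) g c (pone A)
    have e3 : (plusBim A).left c (pone A) = (plusBim A).right c (pone A) := plusLeft_pone c
    have e4 : g ((plusBim A).right c (pone A)) = (HB Y X).right c (g (pone A)) :=
      hg c (pone A)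
    have e5 : (HB Y X).N.Lam w (pone A) = w := Lam_one _ _
    rw [e2, e3, e4] at e1
    rw [e1]
    exact congrArg ((HB Y X).ev c) e5
  refine ⟨(show Y.carrier →L[ℂ] X.carrier from g (pone A)), fun r y => ?_, fun y => ?_⟩
  · rw [Bim.right_punit, Bim.right_punit, map_zero]
  · refine N_ext (fun c => ?_)
    rw [ev_delta]
    have e1 := congrArg (HBev Y X y) (key c)
    rw [map_sub, HBev_left, HBev_right, hw] at e1
    exact e1

lemma vanY_Np_plus (Y : Bim A PUnit) : ∀ (n : ℕ) (X : Bim A PUnit),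
    VanY (Np n X) Y → VanY (Np n (HB Y X)) (plusBim A)
  | 0, _, h => vanY_plus h
  | n + 1, X, h => by
    have h1 : VanY (Np n X.N) Y := by rw [Np_N]; exact h
    have h2 := (vanY_Np_plus Y n X.N h1).retract ((retract_flip Y X).Np n)
    rw [Np_N] at h2
    exact h2

lemma vanY_Np_of_plus (Y : Bim A PUnit) : ∀ (n : ℕ) (X : Bim A PUnit),
    VanY (Np n (HB Y X)) (plusBim A) → VanY (Np n X) Y
  | 0, _, h => vanY_of_plus h
  | n + 1, X, h => by
    have h1 : VanY (Np n (HB Y X).N) (plusBim A) := by rw [Np_N]; exact h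
    have h2 := vanY_Np_of_plus Y n X.N (h1.retract ((retract_flip' Y X).Np n))
    rw [Np_N] at h2
    exact h2

/-- A bound for the bidimension bounds the homological dimension of every left module. -/
theorem hasResolution_left {n : ℕ} (h : (plusBim A).HasResolution n) (X : LMod A) :
    X.HasResolution n := by
  apply LMod.hasResolution_of_toBim
  have hv := van_of_hasResolution n plusBim_rproj h
  have h1 : Van n X.toBim := fun Z => vanY_Np_of_plus X.toBim n Z (hv (HB X.toBim Z))
  exact hasResolution_of_Kp n X.toBim_rproj (projective_of_van (X.toBim_rproj.Kp n) h1.Kp)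

/-- The converse, when every bimodule is a retract of a bimodule of operators. -/
theorem hasResolution_plus (hret : ∀ W : Bim A A, ∃ Y X : Bim A PUnit, IsRetract W (HB Y X))
    {n : ℕ} (h : ∀ X : LMod A, X.HasResolution n) : (plusBim A).HasResolution n := by
  have h1 : Van n (plusBim A) := by
    intro W
    obtain ⟨Y, X, hr⟩ := hret W
    have h2 : Y.HasResolution n := by
      have := LMod.toBim_hasResolution (h Y.toLMod)
      obtain ⟨R, hR, hR', hn⟩ := this
      refine ⟨{ P := R.P, ε := R.ε, d := R.d, s' := R.s', s := R.s },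
        ⟨hR.projective, ⟨hR.ε_hom.1, fun r x => ?_⟩, hR.d_hom, hR.ε_d, hR.d_d⟩,
        ⟨hR'.ε_s, hR'.h_zero, hR'.h_succ⟩, hn⟩
      have e1 : (R.P 0).right r x = 0 := Bim.right_punit _ _ _
      rw [e1, map_zero, Bim.right_punit]
    have hY : Y.RProj := by
      intro Z Z' σ φ hσ hσ' hφ
      obtain ⟨g, hg⟩ := hσ'
      refine ⟨g.comp φ, fun r x => ?_, fun x => hg _⟩
      rw [Bim.right_punit, Bim.right_punit, map_zero]
    have h3 := van_of_hasResolution n hY h2 X
    exact (vanY_Np_plus Y n X h3).retract (hr.Np n)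
  exact hasResolution_of_Kp n plusBim_rproj (projective_of_van (plusBim_rproj.Kp n) h1.Kp)

theorem dg_le_db : dg A ≤ db A := by
  refine iSup_le (fun X => le_iInf₂ (fun n hn => ?_))
  exact LMod.dh_le (hasResolution_left hn X)

theorem dg_eq_db_of_isRetract
    (hret : ∀ W : Bim A A, ∃ Y X : Bim A PUnit, IsRetract W (HB Y X)) : dg A = db A := by
  refine le_antisymm dg_le_db ?_
  by_cases htop : dg A = ⊤
  · rw [htop]; exact le_top
  obtain ⟨n, hn⟩ := ENat.ne_top_iff_exists.1 htop
  rw [← hn]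
  refine Bim.dh_le (hasResolution_plus hret (fun X => ?_))
  by_contra hX
  have h1 := LMod.le_dh hX
  have h2 : X.dh ≤ dg A := le_iSup (fun X : LMod A => X.dh) X
  rw [← hn] at h2
  have h3 := h1.trans h2
  rw [Nat.cast_le] at h3
  omega

/-- The criterion in the language of left modules. -/
theorem dg_eq_db_of_retract (hret : ∀ W : Bim A A, ∃ (Y X : LMod A)
    (κ : W.carrier →L[ℂ] (Y.carrier →L[ℂ] X.carrier))
    (e : (Y.carrier →L[ℂ] X.carrier) →L[ℂ] W.carrier),
    (∀ a w y, κ (W.left a w) y = X.act a (κ w y)) ∧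
    (∀ a w y, κ (W.right a w) y = κ w (Y.act a y)) ∧
    (∀ a T, e ((X.act a).comp T) = W.left a (e T)) ∧
    (∀ a T, e (T.comp (Y.act a)) = W.right a (e T)) ∧
    ∀ w, e (κ w) = w) : dg A = db A := by
  refine dg_eq_db_of_isRetract (fun W => ?_)
  obtain ⟨Y, X, κ, e, h1, h2, h3, h4, h5⟩ := hret W
  refine ⟨Y.toBim, X.toBim, κ, e, ⟨fun a w => ?_, fun a w => ?_⟩, ⟨h3, h4⟩, h5⟩
  · exact HB_ext (Y := Y.toBim) (X := X.toBim) (fun y => h1 a w y)
  · exact HB_ext (Y := Y.toBim) (X := X.toBim) (fun y => h2 a w y)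

end HB

end Pool.Agent.Helper832.GD
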