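import Mathlib
import Pool.Agent.Helper832.PNa

/-!
The completion of a locally convex space is a polynormed space.
-/

namespace Pool.Agent.Helper832.PN

open UniformSpace Filter Topology

universe u v w

section

variable {E : Type u} [AddCommGroup E] [Module ℂ E] [UniformSpace E] [IsUniformAddGroup E]
  [UniformContinuousConstSMul ℂ E]

lemma seminorm_uniformContinuous (R : Seminorm ℂ E) (hR : Continuous R) : UniformContinuous R :=
  Seminorm.uniformContinuous_of_continuousAt_zero hR.continuousAt

/-- Extension of a continuous seminorm to the completion. -/
noncomputable def extSemi (R : Seminorm ℂ E) (hR : Continuous R) : Seminorm ℂ (Completion E) where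
  toFun := Completion.extension R
  map_zero' := by
    rw [← Completion.coe_zero, Completion.extension_coe (seminorm_uniformContinuous R hR), map_zero]
  add_le' := by
    intro x y
    refine Completion.induction_on₂ x y (isClosed_le ?_ ?_) ?_
    · exact Completion.continuous_extension.comp (continuous_fst.add continuous_snd)
    · exact (Completion.continuous_extension.comp continuous_fst).add
        (Completion.continuous_extension.comp continuous_snd)
    · intro a b
      rw [← Completion.coe_add, Completion.extension_coe (seminorm_uniformContinuous R hR),
        Completion.extension_coe (seminorm_uniformContinuous R hR),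
        Completion.extension_coe (seminorm_uniformContinuous R hR)]
      exact map_add_le_add R a b
  neg' := by
    intro x
    refine Completion.induction_on x (isClosed_eq ?_ ?_) ?_
    · exact Completion.continuous_extension.comp continuous_neg
    · exact Completion.continuous_extension
    · intro a
      rw [← Completion.coe_neg, Completion.extension_coe (seminorm_uniformContinuous R hR),
        Completion.extension_coe (seminorm_uniformContinuous R hR), map_neg_eq_map]
  smul' := by
    intro c x
    refine Completion.induction_on x (isClosed_eq ?_ ?_) ?_
    · exact Completion.continuous_extension.comp (continuous_const_smul c)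
    · exact continuous_const.mul Completion.continuous_extension
    · intro a
      rw [← Completion.coe_smul, Completion.extension_coe (seminorm_uniformContinuous R hR),
        Completion.extension_coe (seminorm_uniformContinuous R hR), map_smul_eq_mul]

@[simp] lemma extSemi_coe (R : Seminorm ℂ E) (hR : Continuous R) (x : E) :
    extSemi R hR (x : Completion E) = R x :=
  Completion.extension_coe (seminorm_uniformContinuous R hR) x

lemma extSemi_continuous (R : Seminorm ℂ E) (hR : Continuous R) : Continuous (extSemi R hR) :=
  Completion.continuous_extension

/-- All extended seminorms. -/
noncomputable def extFam (E : Type u) [AddCommGroup E] [Module ℂ E] [UniformSpace E]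
    [IsUniformAddGroup E] [UniformContinuousConstSMul ℂ E] :
    SeminormFamily ℂ (Completion E) {p : Seminorm ℂ E // Continuous p} :=
  fun p => extSemi p.1 p.2

variable [PolynormableSpace ℂ E]

lemma completion_withSeminorms : WithSeminorms (extFam E) := by
  rw [SeminormFamily.withSeminorms_iff_nhds_eq_iInf]
  apply le_antisymm
  · rw [le_iInf_iff]
    intro p
    rw [← tendsto_iff_comap]
    have := (extSemi_continuous p.1 p.2).tendsto 0
    rwa [map_zero] at this
  · intro U hU
    obtain ⟨V, hV, hVc, hVU⟩ := exists_mem_nhds_isClosed_subset hU
    have h1 : ((↑) : E → Completion E) ⁻¹' V ∈ 𝓝 (0 : E) := by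
      apply (Completion.continuous_coe E).continuousAt.preimage_mem_nhds
      rwa [Completion.coe_zero]
    obtain ⟨p, hp, hpV⟩ := exists_seminorm_of_mem_nhds h1
    have h2 : {z : Completion E | extSemi p hp z < 1} ⊆ V := by
      have hO : IsOpen {z : Completion E | extSemi p hp z < 1} :=
        isOpen_lt (extSemi_continuous p hp) continuous_const
      intro z hz
      have hd := (Completion.denseRange_coe (α := E)).open_subset_closure_inter hO hz
      apply (closure_minimal _ hVc) hd
      rintro _ ⟨hx, x, rfl⟩
      apply hpV
      simpa using hx
    apply Filter.mem_of_superset _ (h2.trans hVU)
    apply Filter.mem_iInf_of_mem ⟨p, hp⟩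
    refine ⟨Set.Iio 1, Iio_mem_nhds one_pos, ?_⟩
    intro z hz
    exact hz

lemma isPolynormed_completion : IsPolynormed (Completion E) where
  uniformAddGroup := inferInstance
  continuousSMul := completion_withSeminorms.continuousSMul
  polynormable := completion_withSeminorms.toPolynormableSpace
  t2 := inferInstance
  complete := inferInstance

end

end Pool.Agent.Helper832.PN
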