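import Mathlib
import Pool.Agent.Helper832.PNa
import Pool.Agent.Helper832.PNb

/-!
Completions of vector spaces with a family of seminorms, and extension of bilinear maps.
-/

set_option autoImplicit false
set_option linter.unusedSectionVars false
set_option linter.unusedVariables false

namespace Pool.Agent.Helper832.PN

open Filter Topology

universe u v

section Extend

variable {E E' F F' Z : Type u} [AddCommGroup E] [Module ℂ E] [TopologicalSpace E]
  [AddCommGroup E'] [Module ℂ E'] [TopologicalSpace E'] [IsTopologicalAddGroup E']
  [ContinuousSMul ℂ E']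
  [AddCommGroup F] [Module ℂ F] [TopologicalSpace F]
  [AddCommGroup F'] [Module ℂ F'] [TopologicalSpace F'] [IsTopologicalAddGroup F']
  [ContinuousSMul ℂ F']
  [AddCommGroup Z] [Module ℂ Z] [UniformSpace Z] [IsPolynormed Z]

/-- Extension of a jointly continuous bilinear map from dense subspaces. -/
theorem exists_ext_bilin (e : E →ₗ[ℂ] E') (he : IsDenseInducing e) (f : F →ₗ[ℂ] F')
    (hf : IsDenseInducing f) (β : E → F → Z) (hβ : IsContBilin β) :
    ∃ β' : E' → F' → Z, IsContBilin β' ∧ ∀ x y, β' (e x) (f y) = β x y := by
  let φ : E →+ F →+ Z := AddMonoidHom.mk' (fun x => AddMonoidHom.mk' (fun y => β x y)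
    (fun y y' => hβ.add_right x y y')) (by
      intro x x'
      ext y
      exact hβ.add_left x x' y)
  have hφ : Continuous (fun p : E × F => φ p.1 p.2) := hβ.cont
  have he' : IsDenseInducing (e.toAddMonoidHom : E →+ E') := he
  have hf' : IsDenseInducing (f.toAddMonoidHom : F →+ F') := hf
  have hc := IsDenseInducing.extend_Z_bilin he' hf' hφ
  let g : E' × F' → Z := (he'.prodMap hf').extend (fun p : E × F => φ p.1 p.2)
  have hg : Continuous g := hc
  have hge : ∀ x y, g (e x, f y) = β x y := by
    intro x y
    exact (he'.prodMap hf').extend_eq hφ (x, y)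
  have hde : DenseRange e := he.dense
  have hdf : DenseRange f := hf.dense
  refine ⟨fun x y => g (x, y), ⟨?_, ?_, ?_, ?_, hg⟩, hge⟩
  · intro x x' y
    refine hde.induction_on₂ (p := fun x x' => g (x + x', y) = g (x, y) + g (x', y)) ?_ ?_ x x'
    · exact isClosed_eq (by fun_prop) (by fun_prop)
    · intro a a'
      refine hdf.induction_on (p := fun y => g (e a + e a', y) = g (e a, y) + g (e a', y)) y ?_ ?_
      · exact isClosed_eq (by fun_prop) (by fun_prop)
      · intro b
        rw [← map_add, hge, hge, hge, hβ.add_left]
  · intro c x y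
    refine hde.induction_on (p := fun x => g (c • x, y) = c • g (x, y)) x ?_ ?_
    · exact isClosed_eq (by fun_prop) (by fun_prop)
    · intro a
      refine hdf.induction_on (p := fun y => g (c • e a, y) = c • g (e a, y)) y ?_ ?_
      · exact isClosed_eq (by fun_prop) (by fun_prop)
      · intro b
        rw [← map_smul, hge, hge, hβ.smul_left]
  · intro x y y'
    refine hdf.induction_on₂ (p := fun y y' => g (x, y + y') = g (x, y) + g (x, y')) ?_ ?_ y y'
    · exact isClosed_eq (by fun_prop) (by fun_prop)
    · intro b b'
      refine hde.induction_on (p := fun x => g (x, f b + f b') = g (x, f b) + g (x, f b')) x ?_ ?_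
      · exact isClosed_eq (by fun_prop) (by fun_prop)
      · intro a
        rw [← map_add, hge, hge, hge, hβ.add_right]
  · intro c x y
    refine hde.induction_on (p := fun x => g (x, c • y) = c • g (x, y)) x ?_ ?_
    · exact isClosed_eq (by fun_prop) (by fun_prop)
    · intro a
      refine hdf.induction_on (p := fun y => g (e a, c • y) = c • g (e a, y)) y ?_ ?_
      · exact isClosed_eq (by fun_prop) (by fun_prop)
      · intro b
        rw [← map_smul, hge, hge, hβ.smul_right]

end Extend

noncomputable section

/-- A vector space with the topology given by a family of seminorms. -/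
def WF {E : Type u} [AddCommGroup E] [Module ℂ E] {κ : Type v}
    (_fam : SeminormFamily ℂ E κ) : Type u := E

section

variable {E : Type u} [AddCommGroup E] [Module ℂ E] {κ : Type v} [Nonempty κ]
  (fam : SeminormFamily ℂ E κ)

instance : AddCommGroup (WF fam) := inferInstanceAs (AddCommGroup E)

instance : Module ℂ (WF fam) := inferInstanceAs (Module ℂ E)

/-- The family on the synonym. -/
def wfFam : SeminormFamily ℂ (WF fam) κ := fam

instance : TopologicalSpace (WF fam) := (wfFam fam).moduleFilterBasis.topology

lemma wf_withSeminorms : WithSeminorms (wfFam fam) := ⟨rfl⟩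

instance : IsTopologicalAddGroup (WF fam) := (wf_withSeminorms fam).topologicalAddGroup

instance : ContinuousSMul ℂ (WF fam) := (wf_withSeminorms fam).continuousSMul

instance : PolynormableSpace ℂ (WF fam) := (wf_withSeminorms fam).toPolynormableSpace

instance : UniformSpace (WF fam) := IsTopologicalAddGroup.rightUniformSpace (WF fam)

instance : IsUniformAddGroup (WF fam) := isUniformAddGroup_of_addCommGroup

instance : UniformContinuousConstSMul ℂ (WF fam) :=
  uniformContinuousConstSMul_of_continuousConstSMul ℂ (WF fam)

/-- The completion. -/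
def CP : Type u := UniformSpace.Completion (WF fam)

instance : AddCommGroup (CP fam) :=
  inferInstanceAs (AddCommGroup (UniformSpace.Completion (WF fam)))

instance : Module ℂ (CP fam) :=
  inferInstanceAs (Module ℂ (UniformSpace.Completion (WF fam)))

instance : UniformSpace (CP fam) :=
  inferInstanceAs (UniformSpace (UniformSpace.Completion (WF fam)))

instance : IsPolynormed (CP fam) := isPolynormed_completion (E := WF fam)

/-- The canonical map. -/
def cpi : WF fam →ₗ[ℂ] CP fam where
  toFun x := UniformSpace.Completion.coe' x
  map_add' x y := UniformSpace.Completion.coe_add x y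
  map_smul' c x := UniformSpace.Completion.coe_smul c x

lemma cpi_dense : IsDenseInducing (cpi fam) :=
  (UniformSpace.Completion.isDenseInducing_coe : IsDenseInducing ((↑) : WF fam → UniformSpace.Completion (WF fam)))

lemma cp_bound (q : Seminorm ℂ (CP fam)) (hq : Continuous q) :
    ∃ (s : Finset κ) (C : NNReal), ∀ x : E, q (cpi fam (x : WF fam)) ≤ C * (s.sup fam) x := by
  have h1 : Continuous (q.comp (cpi fam)) := hq.comp (cpi_dense fam).continuous
  obtain ⟨s, C, hC, hs⟩ := Seminorm.bound_of_continuous (wf_withSeminorms fam) _ h1
  exact ⟨s, C, fun x => hs x⟩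

lemma cp_zero_of_seminorms {X : Type u} [AddCommGroup X] [Module ℂ X] [UniformSpace X]
    [IsPolynormed X] {x : X} (h : ∀ q : Seminorm ℂ X, Continuous q → q x = 0) : x = 0 := by
  by_contra hx
  have hw := PolynormableSpace.withSeminorms ℂ X
  obtain ⟨i, hi⟩ := hw.separating_of_T1 x hx
  exact hi (h i.1 i.2)

lemma cpi_eq_zero {x : WF fam} (h : ∀ i, fam i x = 0) : cpi fam x = 0 := by
  apply cp_zero_of_seminorms
  intro q hq
  obtain ⟨s, C, hs⟩ := cp_bound fam q hq
  apply le_antisymm _ (apply_nonneg q _)
  refine (hs x).trans ?_
  have : (s.sup fam) x ≤ 0 := by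
    apply Seminorm.finset_sup_apply_le le_rfl
    intro i _
    rw [h i]
  nlinarith [C.2, apply_nonneg (s.sup fam) x]

end

end

end Pool.Agent.Helper832.PN
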