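import Mathlib
import Pool.Agent.Helper832.PNa
import Pool.Agent.Helper832.PNc
import Pool.Agent.Helper832.PNd

/-!
From extension of balanced forms to twisted forms.
-/

set_option autoImplicit false
set_option linter.unusedSectionVars false
set_option linter.unusedVariables false

namespace Pool.Agent.Helper832.PN

open Filter Topology
open scoped ENNReal

universe u

instance isPolynormed_linf (Λ : Type u) : IsPolynormed (lp (fun _ : Λ => ℂ) ∞) where
  uniformAddGroup := inferInstance
  continuousSMul := inferInstance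
  polynormable := inferInstance
  t2 := inferInstance
  complete := inferInstance

instance isPolynormed_prod {X Y : Type u} [AddCommGroup X] [Module ℂ X] [UniformSpace X]
    [IsPolynormed X] [AddCommGroup Y] [Module ℂ Y] [UniformSpace Y] [IsPolynormed Y] :
    IsPolynormed (X × Y) where
  uniformAddGroup := inferInstance
  continuousSMul := inferInstance
  polynormable := inferInstance
  t2 := inferInstance
  complete := inferInstance

/-- Balanced forms with values in bounded functions extend along admissible monomorphisms. -/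
def ExtProp {A : Type u} [NonUnitalRing A] [Module ℂ A] [UniformSpace A]
    {X : Type u} [AddCommGroup X] [Module ℂ X] [UniformSpace X] (l : A → X → X)
    (Λ : Type u) : Prop :=
  ∀ (Y' Y : Type u) [AddCommGroup Y'] [Module ℂ Y'] [UniformSpace Y'] [IsPolynormed Y']
    [AddCommGroup Y] [Module ℂ Y] [UniformSpace Y] [IsPolynormed Y]
    (r' : Y' → A → Y') (r : Y → A → Y) (i : Y' → Y) (p : Y → Y'),
    IsRightMod r' → IsRightMod r → IsContLin i → IsContLin p →
    (∀ y a, i (r' y a) = r (i y) a) → (∀ y, p (i y) = y) →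
    ∀ b' : Y' → X → lp (fun _ : Λ => ℂ) ∞, IsContBilin b' →
      (∀ y a x, b' (r' y a) x = b' y (l a x)) →
      ∃ b : Y → X → lp (fun _ : Λ => ℂ) ∞, IsContBilin b ∧
        (∀ y a x, b (r y a) x = b y (l a x)) ∧ ∀ y x, b (i y) x = b' y x

section Free

variable {A : Type u} [NonUnitalRing A] [Module ℂ A] [UniformSpace A] [IsPolyAlg A]
  {Y : Type u} [AddCommGroup Y] [Module ℂ Y] [UniformSpace Y] [IsPolynormed Y]

/-- The map `y ⊗ b ↦ y ⊗ b a`. -/
lemma mulT_bilin (a : A) : IsContBilin (fun (y : Y) (b : A) => pt y (b * a)) where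
  add_left y y' b := pt_isContBilin.add_left _ _ _
  smul_left c y b := pt_isContBilin.smul_left _ _ _
  add_right y b b' := by
    rw [(IsPolyAlg.mul_bilin (A := A)).add_left, pt_isContBilin.add_right]
  smul_right c y b := by
    rw [(IsPolyAlg.mul_bilin (A := A)).smul_left, pt_isContBilin.smul_right]
  cont := by
    have h1 : Continuous (fun p : Y × A => (p.1, p.2 * a)) := by
      have h2 := (IsPolyAlg.mul_bilin (A := A)).cont_left a
      exact continuous_fst.prodMk (h2.comp continuous_snd)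
    exact pt_isContBilin.cont.comp h1

/-- Right multiplication on `Y ⊗̂ A`. -/
noncomputable def ptr (z : PT Y A) (a : A) : PT Y A := ptLift (mulT_bilin (Y := Y) a) z

@[simp] lemma ptr_pt (y : Y) (b a : A) : ptr (pt y b) a = pt y (b * a) := by
  unfold ptr
  rw [ptLift_pt]

lemma ptr_bilin : IsContBilin (ptr : PT Y A → A → PT Y A) := by
  refine triExt (V := A) (T := fun a y b => pt y (b * a)) (fun a => mulT_bilin a) ?_ ?_ ?_
  · intro a a' y b
    rw [(IsPolyAlg.mul_bilin (A := A)).add_right, pt_isContBilin.add_right]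
  · intro c a y b
    rw [(IsPolyAlg.mul_bilin (A := A)).smul_right, pt_isContBilin.smul_right]
  · intro r hr
    obtain ⟨p, q, hp, hq, h1⟩ := (pt_isContBilin (X := Y) (Y := A)).exists_bound r hr
    obtain ⟨q1, q2, hq1, hq2, h2⟩ := (IsPolyAlg.mul_bilin (A := A)).exists_bound q hq
    refine ⟨p, q1, q2, hp, hq1, hq2, fun a y b => (h1 y (b * a)).trans ?_⟩
    calc p y * q (b * a) ≤ p y * (q1 b * q2 a) := by
          gcongr
          exact h2 b a
      _ = q2 a * (p y * q1 b) := by ring

lemma ptr_mul (z : PT Y A) (a b : A) : ptr z (a * b) = ptr (ptr z a) b := by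
  have h := pt_ext (X := Y) (Y := A) (f := fun z => ptr z (a * b))
    (g := fun z => ptr (ptr z a) b) (ptr_bilin.isContLin_left _)
    (isContLin_clm ((ptr_bilin.isContLin_left b).toCLM.comp (ptr_bilin.isContLin_left a).toCLM))
    (by
      intro y c
      simp [mul_assoc])
  exact congrFun h z

lemma exists_ptr : ∃ ρ : PT Y A → A → PT Y A, IsContBilin ρ ∧
    (∀ y b a, ρ (pt y b) a = pt y (b * a)) ∧ ∀ z a b, ρ z (a * b) = ρ (ρ z a) b :=
  ⟨ptr, ptr_bilin, ptr_pt, ptr_mul⟩

lemma exists_lift {Z : Type u} [AddCommGroup Z] [Module ℂ Z] [UniformSpace Z] [IsPolynormed Z]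
    {β : Y → A → Z} (h : IsContBilin β) :
    ∃ m : PT Y A → Z, IsContLin m ∧ ∀ y b, m (pt y b) = β y b :=
  ⟨fun z => ptLift h z, isContLin_clm _, fun y b => ptLift_pt _ _ _⟩

lemma pt_ext' {Z : Type u} [AddCommGroup Z] [Module ℂ Z] [UniformSpace Z] [IsPolynormed Z]
    {f g : PT Y A → Z} (hf : IsContLin f) (hg : IsContLin g)
    (h : ∀ x y, f (pt x y) = g (pt x y)) (z : PT Y A) : f z = g z :=
  congrFun (pt_ext hf hg h) z

/-- Composition. -/
lemma IsContLin.comp' {X₁ X₂ X₃ : Type u} [AddCommGroup X₁] [Module ℂ X₁] [TopologicalSpace X₁]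
    [AddCommGroup X₂] [Module ℂ X₂] [TopologicalSpace X₂]
    [AddCommGroup X₃] [Module ℂ X₃] [TopologicalSpace X₃] {f : X₁ → X₂} {g : X₂ → X₃}
    (hf : IsContLin f) (hg : IsContLin g) : IsContLin (fun x => g (f x)) :=
  ⟨fun x x' => by rw [hf.add, hg.add], fun c x => by rw [hf.smul, hg.smul],
    hg.cont.comp hf.cont⟩

/-- Substitution of continuous linear maps into a bilinear map. -/
lemma IsContBilin.comp_lin {X₁ X₂ Y₁ Y₂ Z : Type u} [AddCommGroup X₁] [Module ℂ X₁]
    [TopologicalSpace X₁] [AddCommGroup X₂] [Module ℂ X₂] [TopologicalSpace X₂]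
    [AddCommGroup Y₁] [Module ℂ Y₁] [TopologicalSpace Y₁]
    [AddCommGroup Y₂] [Module ℂ Y₂] [TopologicalSpace Y₂]
    [AddCommGroup Z] [Module ℂ Z] [TopologicalSpace Z] {β : X₂ → Y₂ → Z} (hβ : IsContBilin β)
    {f : X₁ → X₂} {g : Y₁ → Y₂} (hf : IsContLin f) (hg : IsContLin g) :
    IsContBilin (fun x y => β (f x) (g y)) :=
  ⟨fun x x' y => by rw [hf.add, hβ.add_left], fun c x y => by rw [hf.smul, hβ.smul_left],
    fun x y y' => by rw [hg.add, hβ.add_right], fun c x y => by rw [hg.smul, hβ.smul_right],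
    hβ.cont.comp ((hf.cont.comp continuous_fst).prodMk (hg.cont.comp continuous_snd))⟩

lemma isContLin_id {X : Type u} [AddCommGroup X] [Module ℂ X] [TopologicalSpace X] :
    IsContLin (fun x : X => x) := ⟨fun _ _ => rfl, fun _ _ => rfl, continuous_id⟩

lemma isContLin_fst {X Y : Type u} [AddCommGroup X] [Module ℂ X] [TopologicalSpace X]
    [AddCommGroup Y] [Module ℂ Y] [TopologicalSpace Y] : IsContLin (fun z : X × Y => z.1) :=
  ⟨fun _ _ => rfl, fun _ _ => rfl, continuous_fst⟩

lemma isContLin_snd {X Y : Type u} [AddCommGroup X] [Module ℂ X] [TopologicalSpace X]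
    [AddCommGroup Y] [Module ℂ Y] [TopologicalSpace Y] : IsContLin (fun z : X × Y => z.2) :=
  ⟨fun _ _ => rfl, fun _ _ => rfl, continuous_snd⟩

lemma isContBilin_add {X Y Z : Type u} [AddCommGroup X] [Module ℂ X] [TopologicalSpace X]
    [AddCommGroup Y] [Module ℂ Y] [TopologicalSpace Y]
    [AddCommGroup Z] [Module ℂ Z] [TopologicalSpace Z] [ContinuousAdd Z] {β γ : X → Y → Z}
    (hβ : IsContBilin β) (hγ : IsContBilin γ) : IsContBilin (fun x y => β x y + γ x y) :=
  ⟨fun x x' y => by rw [hβ.add_left, hγ.add_left]; abel,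
    fun c x y => by rw [hβ.smul_left, hγ.smul_left, smul_add],
    fun x y y' => by rw [hβ.add_right, hγ.add_right]; abel,
    fun c x y => by rw [hβ.smul_right, hγ.smul_right, smul_add], hβ.cont.add hγ.cont⟩

lemma isContBilin_sub {X Y Z : Type u} [AddCommGroup X] [Module ℂ X] [TopologicalSpace X]
    [AddCommGroup Y] [Module ℂ Y] [TopologicalSpace Y]
    [AddCommGroup Z] [Module ℂ Z] [TopologicalSpace Z] [ContinuousSub Z] {β γ : X → Y → Z}
    (hβ : IsContBilin β) (hγ : IsContBilin γ) : IsContBilin (fun x y => β x y - γ x y) :=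
  ⟨fun x x' y => by rw [hβ.add_left, hγ.add_left]; abel,
    fun c x y => by rw [hβ.smul_left, hγ.smul_left, smul_sub],
    fun x y y' => by rw [hβ.add_right, hγ.add_right]; abel,
    fun c x y => by rw [hβ.smul_right, hγ.smul_right, smul_sub], hβ.cont.sub hγ.cont⟩

/-- Pairing of a zero first coordinate. -/
lemma isContBilin_inr {X Y Z W : Type u} [AddCommGroup X] [Module ℂ X] [TopologicalSpace X]
    [AddCommGroup Y] [Module ℂ Y] [TopologicalSpace Y] [AddCommGroup W] [Module ℂ W]
    [TopologicalSpace W]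
    [AddCommGroup Z] [Module ℂ Z] [TopologicalSpace Z] {β : X → Y → Z}
    (hβ : IsContBilin β) : IsContBilin (fun x y => ((0, β x y) : W × Z)) :=
  ⟨fun x x' y => Prod.ext (add_zero 0).symm (hβ.add_left x x' y),
    fun c x y => Prod.ext (smul_zero c).symm (hβ.smul_left c x y),
    fun x y y' => Prod.ext (add_zero 0).symm (hβ.add_right x y y'),
    fun c x y => Prod.ext (smul_zero c).symm (hβ.smul_right c x y),
    continuous_const.prodMk hβ.cont⟩

end Free

section Form

variable {A : Type u} [NonUnitalRing A] [Module ℂ A] [UniformSpace A] [IsPolyAlg A]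
  {Y : Type u} [AddCommGroup Y] [Module ℂ Y] [UniformSpace Y] [IsPolynormed Y]
  {P : Type u} [AddCommGroup P] [Module ℂ P] [UniformSpace P] [IsPolynormed P]
  {V : Type u} [AddCommGroup V] [Module ℂ V] [UniformSpace V] [IsPolynormed V]

theorem exists_form_P {Λ : Type u} {lP : A → P → P} {rY : Y → A → Y} {lV : A → V → V}
    {rV : V → A → V} (hP : IsLeftMod lP) (hY : IsRightMod rY) (hV : IsBimod lV rV)
    (hext : ExtProp lP Λ) {κ : P → Y → V} (hκ : IsContBilin κ)
    (κl : ∀ a u y, κ (lP a u) y = lV a (κ u y)) (κr : ∀ a u y, κ u (rY y a) = rV (κ u y) a)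
    {D : A → V → lp (fun _ : Λ => ℂ) ∞} (hD : IsContBilin D)
    (hDm : ∀ a b v, D (a * b) v = D b (rV v a) + D a (lV b v)) :
    ∃ β : Y → P → lp (fun _ : Λ => ℂ) ∞, IsContBilin β ∧
      ∀ a y u, β (rY y a) u - β y (lP a u) = D a (κ u y) := by
  -- the multiplication maps
  obtain ⟨ptr, ptr_b, ptr_p, ptr_m⟩ := exists_ptr (A := A) (Y := Y)
  obtain ⟨m, hm, hmpt⟩ := exists_lift hY.bilin
  have hpt : IsContBilin (pt : Y → A → PT Y A) := pt_isContBilin
  have hmr : ∀ z a, m (ptr z a) = rY (m z) a := by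
    intro z a
    exact pt_ext' (f := fun z => m (ptr z a)) (g := fun z => rY (m z) a)
      ((ptr_b.isContLin_left a).comp' hm) (hm.comp' (hY.bilin.isContLin_left a))
      (by
        intro y c
        simp only [ptr_p, hmpt, hY.mul]) z
  have hmsub : ∀ z z', m (z - z') = m z - m z' := fun z z' => map_sub hm.toCLM z z'
  -- the twisted action on `Y ⊗̂ A`
  let r' : PT Y A → A → PT Y A := fun z a => ptr z a - pt (m z) a
  have hr'b : IsContBilin r' := isContBilin_sub ptr_b (hpt.comp_lin hm isContLin_id)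
  have hmr' : ∀ z a, m (r' z a) = 0 := by
    intro z a
    show m (ptr z a - pt (m z) a) = 0
    rw [hmsub, hmr, hmpt, sub_self]
  have hr' : IsRightMod r' := by
    refine ⟨hr'b, ?_⟩
    intro z a b
    show ptr z (a * b) - pt (m z) (a * b) = ptr (ptr z a - pt (m z) a) b - pt (m (r' z a)) b
    rw [hmr', hpt.zero_left, sub_zero, ptr_b.sub_left, ptr_m, ptr_p]
  -- the free module
  let r : Y × PT Y A → A → Y × PT Y A := fun z a => (0, pt z.1 a + ptr z.2 a)
  have hr2 : ∀ z a, (r z a).2 = pt z.1 a + ptr z.2 a := fun _ _ => rfl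
  have hr1 : ∀ z a, (r z a).1 = 0 := fun _ _ => rfl
  have hr : IsRightMod r := by
    refine ⟨isContBilin_inr (isContBilin_add (hpt.comp_lin isContLin_fst isContLin_id)
      (ptr_b.comp_lin isContLin_snd isContLin_id)), ?_⟩
    intro z a b
    apply Prod.ext
    · rfl
    · rw [hr2, hr2, hr1, hr2, ptr_b.add_left, hpt.zero_left, ptr_m, ptr_p, zero_add]
  let i : PT Y A → Y × PT Y A := fun z => (-(m z), z)
  have hi1 : ∀ z, (i z).1 = -(m z) := fun _ => rfl
  have hi2 : ∀ z, (i z).2 = z := fun _ => rfl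
  have hi : IsContLin i := by
    refine ⟨?_, ?_, ?_⟩
    · intro z z'
      apply Prod.ext
      · rw [Prod.fst_add, hi1, hi1, hi1, hm.add, neg_add]
      · rw [Prod.snd_add, hi2, hi2, hi2]
    · intro c z
      apply Prod.ext
      · rw [Prod.smul_fst, hi1, hi1, hm.smul, smul_neg]
      · rw [Prod.smul_snd, hi2, hi2]
    · exact (hm.cont.neg).prodMk continuous_id
  have hir : ∀ z a, i (r' z a) = r (i z) a := by
    intro z a
    apply Prod.ext
    · rw [hi1, hr1, hmr', neg_zero]
    · rw [hi2, hr2, hi1, hi2, hpt.neg_left]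
      show ptr z a - pt (m z) a = _
      abel
  -- the form
  have hT : ∀ u : P, IsContBilin (fun (y : Y) (b : A) => D b (κ u y)) := by
    intro u
    refine ⟨?_, ?_, ?_, ?_, ?_⟩
    · intro y y' b
      rw [hκ.add_right, hD.add_right]
    · intro c y b
      rw [hκ.smul_right, hD.smul_right]
    · intro y b b'
      rw [hD.add_left]
    · intro c y b
      rw [hD.smul_left]
    · exact hD.cont.comp (continuous_snd.prodMk ((hκ.cont_right u).comp continuous_fst))
  have hB := triExt (V := P) (Z := lp (fun _ : Λ => ℂ) ∞) hT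
    (by intro u u' y b; rw [hκ.add_left, hD.add_right])
    (by intro c u y b; rw [hκ.smul_left, hD.smul_right])
    (by
      intro ρ hρ
      obtain ⟨q1, q2, hq1, hq2, h1⟩ := hD.exists_bound ρ hρ
      obtain ⟨q3, q4, hq3, hq4, h2⟩ := hκ.exists_bound q2 hq2
      refine ⟨q4, q1, q3, hq4, hq1, hq3, fun u y b => (h1 b (κ u y)).trans ?_⟩
      calc q1 b * q2 (κ u y) ≤ q1 b * (q3 u * q4 y) := by
            gcongr
            exact h2 u y
        _ = q3 u * (q4 y * q1 b) := by ring)
  obtain ⟨B', hB', hB'pt⟩ : ∃ B' : PT Y A → P → lp (fun _ : Λ => ℂ) ∞, IsContBilin B' ∧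
      ∀ y b u, B' (pt y b) u = D b (κ u y) := ⟨_, hB, fun y b u => ptLift_pt _ _ _⟩
  have hbal : ∀ z a u, B' (r' z a) u = B' z (lP a u) := by
    intro z a u
    exact pt_ext' (f := fun z => B' (r' z a) u) (g := fun z => B' z (lP a u))
      ((hr'b.isContLin_left a).comp' (hB'.isContLin_left u)) (hB'.isContLin_left _)
      (by
        intro y b
        show B' (ptr (pt y b) a - pt (m (pt y b)) a) u = B' (pt y b) (lP a u)
        rw [hB'.sub_left, ptr_p, hmpt, hB'pt, hB'pt, hB'pt, κr, κl, hDm]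
        abel) z
  obtain ⟨b, hb, hbb, hbi⟩ := hext (PT Y A) (Y × PT Y A) r' r i (fun z => z.2) hr' hr hi
    isContLin_snd hir (fun _ => rfl) B' hB' hbal
  let j : Y → Y × PT Y A := fun y => (-y, 0)
  have hj1 : ∀ y, (j y).1 = -y := fun _ => rfl
  have hj2 : ∀ y, (j y).2 = 0 := fun _ => rfl
  have hj : IsContLin j := by
    refine ⟨?_, ?_, ?_⟩
    · intro y y'
      apply Prod.ext
      · rw [Prod.fst_add, hj1, hj1, hj1, neg_add]
      · exact (add_zero 0).symm
    · intro c y
      apply Prod.ext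
      · rw [Prod.smul_fst, hj1, hj1, smul_neg]
      · exact (smul_zero c).symm
    · exact continuous_neg.prodMk continuous_const
  refine ⟨fun y u => b (j y) u, hb.comp_lin hj isContLin_id, ?_⟩
  intro a y u
  show b (j (rY y a)) u - b (j y) (lP a u) = D a (κ u y)
  rw [← hbb, ← hb.sub_left]
  have e : j (rY y a) - r (j y) a = i (pt y a) := by
    apply Prod.ext
    · rw [Prod.fst_sub, hj1, hr1, hi1, hmpt, sub_zero]
    · show 0 - (pt (-y) a + ptr 0 a) = pt y a
      rw [ptr_b.zero_left, hpt.neg_left, add_zero, zero_sub, neg_neg]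
  rw [e, hbi, hB'pt]

end Form

end Pool.Agent.Helper832.PN
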