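import Mathlib
import Pool.Agent.Helper832.PNf
import Pool.Agent.Helper832.PNg

/-!
The left module `P` and the right module `Y` in the polynormed case.
-/

set_option autoImplicit false
set_option linter.unusedSectionVars false
set_option linter.unusedVariables false

namespace Pool.Agent.Helper832.PN

open Filter Topology
open scoped ENNReal

universe u

/-- The data. -/
structure PS (A B V : Type u) [NonUnitalRing A] [Module ℂ A] [UniformSpace A] [IsPolyAlg A]
    [Ring B] [Algebra ℂ B] [UniformSpace B] [IsPolynormed B]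
    [AddCommGroup V] [Module ℂ V] [UniformSpace V] [IsPolynormed V] (Γ ι : Type u) where
  mulB : IsContBilin (fun b c : B => b * c)
  emb : A → B
  emb_lin : IsContLin emb
  emb_mul : ∀ a b, emb (a * b) = emb a * emb b
  lV : A → V → V
  rV : V → A → V
  bim : IsBimod lV rV
  LB : B → V → V
  LB_bil : IsContBilin LB
  LB_one : ∀ v, LB 1 v = v
  LB_mul : ∀ b c v, LB (b * c) v = LB b (LB c v)
  LB_emb : ∀ a v, LB (emb a) v = lV a v
  LB_right : ∀ b v a, rV (LB b v) a = LB b (rV v a)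
  w : ι → Γ → B
  w_fin : ∀ t, (Set.range (w t)).Finite

namespace PS

noncomputable section

variable {A B V : Type u} [NonUnitalRing A] [Module ℂ A] [UniformSpace A] [IsPolyAlg A]
    [Ring B] [Algebra ℂ B] [UniformSpace B] [IsPolynormed B]
    [AddCommGroup V] [Module ℂ V] [UniformSpace V] [IsPolynormed V] {Γ ι : Type u}
    (S : PS A B V Γ ι)

/-- The test maps. -/
def mt (t : ι) : (Γ →₀ B) →ₗ[ℂ] B := Finsupp.lsum ℂ (fun γ => LinearMap.mulRight ℂ (S.w t γ))

@[simp] lemma mt_single (t : ι) (γ : Γ) (b : B) : S.mt t (Finsupp.single γ b) = b * S.w t γ := by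
  simp [mt]

/-- The action of `B`, bundled. -/
def LBl : B →ₗ[ℂ] V →ₗ[ℂ] V := S.LB_bil.toLin

@[simp] lemma LBl_apply (b : B) (v : V) : S.LBl b v = S.LB b v := rfl

/-- Evaluation at `γ`. -/
def ev (γ : Γ) : (ι →₀ V) →ₗ[ℂ] V := Finsupp.lsum ℂ (fun t => S.LBl (S.w t γ))

@[simp] lemma ev_single (γ : Γ) (t : ι) (v : V) :
    S.ev γ (Finsupp.single t v) = S.LB (S.w t γ) v := by
  show (Finsupp.single t v).sum (fun i x => S.LBl (S.w i γ) x) = _
  have h : (fun (i : ι) (x : V) => S.LBl (S.w i γ) x) t 0 = 0 := map_zero (S.LBl (S.w t γ))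
  exact Finsupp.sum_single_index h

/-- The pairing. -/
def kap0 : (Γ →₀ B) →ₗ[ℂ] (ι →₀ V) →ₗ[ℂ] V :=
  Finsupp.lsum ℂ (fun γ => (LinearMap.lcomp ℂ V (S.ev γ)) ∘ₗ S.LBl)

@[simp] lemma kap0_single (γ : Γ) (b : B) (y : ι →₀ V) :
    S.kap0 (Finsupp.single γ b) y = S.LB b (S.ev γ y) := by
  simp [kap0]

lemma kap0_single_right (u : Γ →₀ B) (t : ι) (v : V) :
    S.kap0 u (Finsupp.single t v) = S.LB (S.mt t u) v := by
  induction u using Finsupp.induction_linear with
  | zero => rw [map_zero, map_zero, S.LB_bil.zero_left]; rfl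
  | add f g hf hg => rw [map_add, map_add, LinearMap.add_apply, hf, hg, S.LB_bil.add_left]
  | single γ b => rw [kap0_single, ev_single, mt_single, S.LB_mul]

/-- The null space. -/
def InN (u : Γ →₀ B) : Prop := ∀ t, S.mt t u = 0

lemma kap0_null {u : Γ →₀ B} (hu : S.InN u) (y : ι →₀ V) : S.kap0 u y = 0 := by
  induction y using Finsupp.induction_linear with
  | zero => rw [map_zero]
  | add f g hf hg => rw [map_add, hf, hg, add_zero]
  | single t v => rw [kap0_single_right, hu t, S.LB_bil.zero_left]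

/-- Admissible seminorms. -/
def domP (ν : Seminorm ℂ B) : Set (Seminorm ℂ (Γ →₀ B)) :=
  {R | (∀ γ b, R (Finsupp.single γ b) ≤ ν b) ∧ ∀ u, S.InN u → R u = 0}

lemma domP_nonempty (ν : Seminorm ℂ B) : (S.domP ν).Nonempty :=
  ⟨0, fun γ b => by simp, fun u _ => rfl⟩

lemma domP_bdd (ν : Seminorm ℂ B) : BddAbove (S.domP ν) := by
  rw [Seminorm.bddAbove_iff]
  have : ∀ u : Γ →₀ B, ∃ K : ℝ, ∀ R ∈ S.domP ν, R u ≤ K := by
    intro u
    induction u using Finsupp.induction_linear with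
    | zero => exact ⟨0, fun R _ => by simp⟩
    | add f g hf hg =>
      obtain ⟨K, hK⟩ := hf
      obtain ⟨L, hL⟩ := hg
      exact ⟨K + L, fun R hR => (map_add_le_add R f g).trans (add_le_add (hK R hR) (hL R hR))⟩
    | single γ b => exact ⟨ν b, fun R hR => hR.1 γ b⟩
  choose K hK using this
  refine ⟨K, ?_⟩
  rintro f ⟨R, hR, rfl⟩
  intro z
  exact hK z R hR

/-- The seminorm on the space of finitely supported functions. -/
def semP (ν : Seminorm ℂ B) : Seminorm ℂ (Γ →₀ B) := sSup (S.domP ν)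

lemma semP_le {ν : Seminorm ℂ B} {u : Γ →₀ B} {C : ℝ} (h : ∀ R ∈ S.domP ν, R u ≤ C) :
    S.semP ν u ≤ C := by
  rw [semP, Seminorm.sSup_apply (S.domP_bdd ν)]
  have := (S.domP_nonempty ν).to_subtype
  exact ciSup_le fun R => h R.1 R.2

lemma semP_single_le (ν : Seminorm ℂ B) (γ : Γ) (b : B) : S.semP ν (Finsupp.single γ b) ≤ ν b :=
  S.semP_le fun R hR => hR.1 γ b

lemma semP_null (ν : Seminorm ℂ B) {u : Γ →₀ B} (hu : S.InN u) : S.semP ν u = 0 :=
  le_antisymm (S.semP_le fun R hR => (hR.2 u hu).le) (apply_nonneg _ _)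

lemma le_semP {ν : Seminorm ℂ B} {R : Seminorm ℂ (Γ →₀ B)}
    (h1 : ∀ γ b, R (Finsupp.single γ b) ≤ ν b) (h2 : ∀ u, S.InN u → R u = 0) (u : Γ →₀ B) :
    R u ≤ S.semP ν u :=
  le_csSup (S.domP_bdd ν) (show R ∈ S.domP ν from ⟨h1, h2⟩) u

lemma nn_smul_apply {E : Type u} [AddCommGroup E] [Module ℂ E] (C : NNReal) (ν : Seminorm ℂ E)
    (x : E) : (C • ν) x = (C : ℝ) * ν x := rfl

lemma le_mul_semP {ν : Seminorm ℂ B} {R : Seminorm ℂ (Γ →₀ B)} {c : ℝ} (hc : 0 ≤ c)
    (h1 : ∀ γ b, R (Finsupp.single γ b) ≤ c * ν b) (h2 : ∀ u, S.InN u → R u = 0) (u : Γ →₀ B) :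
    R u ≤ c * S.semP ν u := by
  rcases hc.eq_or_lt with rfl | hc'
  · rw [zero_mul]
    induction u using Finsupp.induction_linear with
    | zero => simp
    | add f g hf hg => exact (map_add_le_add R f g).trans (by linarith)
    | single γ b => simpa using h1 γ b
  · have h3 := S.le_semP (ν := ν) (R := (Real.toNNReal c⁻¹) • R) (by
      intro γ b
      rw [nn_smul_apply, Real.coe_toNNReal _ (inv_pos.2 hc').le, inv_mul_le_iff₀ hc']
      exact h1 γ b) (by
      intro u hu
      rw [nn_smul_apply, h2 u hu, mul_zero]) u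
    rw [nn_smul_apply, Real.coe_toNNReal _ (inv_pos.2 hc').le, inv_mul_le_iff₀ hc'] at h3
    exact h3

lemma semP_mono {ν ν' : Seminorm ℂ B} (h : ν ≤ ν') (u : Γ →₀ B) : S.semP ν u ≤ S.semP ν' u :=
  S.le_semP (fun γ b => (S.semP_single_le ν γ b).trans (h b)) (fun u hu => S.semP_null ν hu) u

lemma mul_semP_le (C : NNReal) (ν : Seminorm ℂ B) (u : Γ →₀ B) :
    C * S.semP ν u ≤ S.semP (C • ν) u := by
  have := S.le_semP (ν := C • ν) (R := C • S.semP ν) (by
    intro γ b
    rw [nn_smul_apply, nn_smul_apply]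
    exact mul_le_mul_of_nonneg_left (S.semP_single_le ν γ b) C.2) (by
    intro u hu
    rw [nn_smul_apply, S.semP_null ν hu, mul_zero]) u
  exact this

lemma semY_bdd (η : Seminorm ℂ V) : BddAbove (Set.range fun γ : Γ => η.comp (S.ev γ)) := by
  rw [Seminorm.bddAbove_range_iff]
  intro y
  induction y using Finsupp.induction_linear with
  | zero =>
    refine ⟨0, ?_⟩
    rintro _ ⟨γ, rfl⟩
    simp
  | add f g hf hg =>
    obtain ⟨K, hK⟩ := hf
    obtain ⟨L, hL⟩ := hg
    refine ⟨K + L, ?_⟩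
    rintro _ ⟨γ, rfl⟩
    exact (map_add_le_add _ f g).trans (add_le_add (hK ⟨γ, rfl⟩) (hL ⟨γ, rfl⟩))
  | single t v =>
    have h1 : ((fun b : B => η (S.LB b v)) '' (Set.range (S.w t))).Finite :=
      (S.w_fin t).image _
    obtain ⟨K, hK⟩ := h1.bddAbove
    refine ⟨K, ?_⟩
    rintro _ ⟨γ, rfl⟩
    apply hK
    exact ⟨S.w t γ, ⟨γ, rfl⟩, by simp⟩

/-- The uniform seminorms. -/
def semY (η : Seminorm ℂ V) : Seminorm ℂ (ι →₀ V) := ⨆ γ : Γ, η.comp (S.ev γ)

lemma semY_apply (η : Seminorm ℂ V) (y : ι →₀ V) : S.semY η y = ⨆ γ : Γ, η (S.ev γ y) := by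
  rw [semY, Seminorm.iSup_apply (S.semY_bdd η)]
  rfl

lemma le_semY (η : Seminorm ℂ V) (γ : Γ) (y : ι →₀ V) : η (S.ev γ y) ≤ S.semY η y :=
  le_ciSup (S.semY_bdd η) γ y

lemma semY_le {η : Seminorm ℂ V} {y : ι →₀ V} {C : ℝ} (hC : 0 ≤ C)
    (h : ∀ γ : Γ, η (S.ev γ y) ≤ C) : S.semY η y ≤ C := by
  rw [semY_apply]
  exact Real.iSup_le h hC

lemma semY_mono {η η' : Seminorm ℂ V} (h : η ≤ η') (y : ι →₀ V) : S.semY η y ≤ S.semY η' y :=
  S.semY_le (apply_nonneg _ _) fun γ => (h _).trans (S.le_semY η' γ y)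

lemma mul_semY_le (C : NNReal) (η : Seminorm ℂ V) (y : ι →₀ V) :
    C * S.semY η y ≤ S.semY (C • η) y := by
  rcases eq_or_ne C 0 with rfl | hC
  · simp
  · have hC' : (0 : ℝ) < C := by
      have := NNReal.coe_pos.2 (pos_iff_ne_zero.2 hC)
      exact this
    rw [mul_comm, ← le_div_iff₀ hC']
    apply S.semY_le (by have := apply_nonneg (S.semY (C • η)) y; positivity)
    intro γ
    rw [le_div_iff₀ hC', mul_comm]
    exact S.le_semY (C • η) γ y

/-- Continuous seminorms. -/
abbrev CSm (X : Type u) [AddCommGroup X] [Module ℂ X] [TopologicalSpace X] : Type u :=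
  {p : Seminorm ℂ X // Continuous p}

instance (X : Type u) [AddCommGroup X] [Module ℂ X] [TopologicalSpace X] : Nonempty (CSm X) :=
  ⟨⟨0, show Continuous (fun _ : X => (0 : ℝ)) from continuous_const⟩⟩

/-- The families. -/
def famP : SeminormFamily ℂ (Γ →₀ B) (CSm B) := fun ν => S.semP ν.1

/-- The families. -/
def famY : SeminormFamily ℂ (ι →₀ V) (CSm V) := fun η => S.semY η.1

lemma exists_semP_ge (s : Finset (CSm B)) (C : NNReal) :
    ∃ ν : CSm B, ∀ u, C * (s.sup S.famP) u ≤ S.semP ν.1 u := by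
  let μ : Seminorm ℂ B := s.sup (fun i : CSm B => i.1)
  have hμ : Continuous μ := Seminorm.continuous_finsetSup (fun i _ => i.2)
  refine ⟨⟨C • μ, Continuous.const_smul hμ C⟩, fun u => ?_⟩
  refine le_trans ?_ (S.mul_semP_le C μ u)
  apply mul_le_mul_of_nonneg_left _ C.2
  apply Seminorm.finset_sup_apply_le (apply_nonneg _ _)
  intro i hi
  exact S.semP_mono (Finset.le_sup (f := fun i : CSm B => i.1) hi) u

lemma exists_semY_ge (s : Finset (CSm V)) (C : NNReal) :
    ∃ η : CSm V, ∀ y, C * (s.sup S.famY) y ≤ S.semY η.1 y := by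
  let μ : Seminorm ℂ V := s.sup (fun i : CSm V => i.1)
  have hμ : Continuous μ := Seminorm.continuous_finsetSup (fun i _ => i.2)
  refine ⟨⟨C • μ, Continuous.const_smul hμ C⟩, fun u => ?_⟩
  refine le_trans ?_ (S.mul_semY_le C μ u)
  apply mul_le_mul_of_nonneg_left _ C.2
  apply Seminorm.finset_sup_apply_le (apply_nonneg _ _)
  intro i hi
  exact S.semY_mono (Finset.le_sup (f := fun i : CSm V => i.1) hi) u

/-- `P` before completion. -/
abbrev P0 : Type u := WF S.famP

/-- `Y` before completion. -/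
abbrev Y0 : Type u := WF S.famY

/-- The left module `P`. -/
abbrev P : Type u := CP S.famP

/-- The right module `Y`. -/
abbrev Y : Type u := CP S.famY

/-- Elements. -/
def toP0 (u : Γ →₀ B) : S.P0 := u

/-- Elements. -/
def toY0 (y : ι →₀ V) : S.Y0 := y

lemma exists_P0_bound (r : Seminorm ℂ S.P0) (hr : Continuous r) :
    ∃ ν : CSm B, ∀ u, r (S.toP0 u) ≤ S.semP ν.1 u := by
  obtain ⟨s, C, hC, hs⟩ := Seminorm.bound_of_continuous (wf_withSeminorms S.famP) _ hr
  obtain ⟨ν, hν⟩ := S.exists_semP_ge s C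
  exact ⟨ν, fun u => (hs u).trans (hν u)⟩

lemma exists_Y0_bound (r : Seminorm ℂ S.Y0) (hr : Continuous r) :
    ∃ η : CSm V, ∀ y, r (S.toY0 y) ≤ S.semY η.1 y := by
  obtain ⟨s, C, hC, hs⟩ := Seminorm.bound_of_continuous (wf_withSeminorms S.famY) _ hr
  obtain ⟨ν, hν⟩ := S.exists_semY_ge s C
  exact ⟨ν, fun u => (hs u).trans (hν u)⟩

lemma semP_continuous (ν : CSm B) : Continuous (fun u : S.P0 => S.semP ν.1 u) :=
  (wf_withSeminorms S.famP).continuous_seminorm ν

lemma semY_continuous (η : CSm V) : Continuous (fun y : S.Y0 => S.semY η.1 y) :=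
  (wf_withSeminorms S.famY).continuous_seminorm η

/-- The left action of `A` before completion. -/
def lP0 (a : A) (u : Γ →₀ B) : Γ →₀ B :=
  Finsupp.mapRange.linearMap (LinearMap.mulLeft ℂ (S.emb a)) u

@[simp] lemma lP0_apply (a : A) (u : Γ →₀ B) (γ : Γ) : S.lP0 a u γ = S.emb a * u γ := by
  simp [lP0]

@[simp] lemma lP0_single (a : A) (γ : Γ) (b : B) :
    S.lP0 a (Finsupp.single γ b) = Finsupp.single γ (S.emb a * b) := by
  simp [lP0]

lemma lP0_add_right (a : A) (u u' : Γ →₀ B) : S.lP0 a (u + u') = S.lP0 a u + S.lP0 a u' :=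
  map_add _ _ _

lemma lP0_smul_right (a : A) (c : ℂ) (u : Γ →₀ B) : S.lP0 a (c • u) = c • S.lP0 a u :=
  map_smul _ _ _

lemma mt_lP0 (t : ι) (a : A) (u : Γ →₀ B) : S.mt t (S.lP0 a u) = S.emb a * S.mt t u := by
  induction u using Finsupp.induction_linear with
  | zero => rw [lP0, map_zero, map_zero, mul_zero]
  | add f g hf hg => rw [lP0_add_right, map_add, map_add, hf, hg, mul_add]
  | single γ b => rw [lP0_single, mt_single, mt_single, mul_assoc]

lemma InN_lP0 {u : Γ →₀ B} (hu : S.InN u) (a : A) : S.InN (S.lP0 a u) := by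
  intro t
  rw [mt_lP0, hu t, mul_zero]

lemma lP0_bilin : IsContBilin (fun (a : A) (u : S.P0) => (S.toP0 (S.lP0 a u))) where
  add_left a a' u := by
    show S.lP0 (a + a') u = S.lP0 a u + S.lP0 a' u
    ext γ
    rw [Finsupp.add_apply, lP0_apply, lP0_apply, lP0_apply, S.emb_lin.add, add_mul]
  smul_left c a u := by
    show S.lP0 (c • a) u = c • S.lP0 a u
    ext γ
    rw [Finsupp.smul_apply, lP0_apply, lP0_apply, S.emb_lin.smul, smul_mul_assoc]
  add_right a u u' := S.lP0_add_right a u u'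
  smul_right c a u := S.lP0_smul_right a c u
  cont := by
    refine continuous_of_bound (β := fun (a : A) (u : S.P0) => (S.toP0 (S.lP0 a u))) ?_ ?_ ?_
    · intro a a' u
      show S.lP0 (a + a') u = S.lP0 a u + S.lP0 a' u
      ext γ
      rw [Finsupp.add_apply, lP0_apply, lP0_apply, lP0_apply, S.emb_lin.add, add_mul]
    · intro a u u'
      exact S.lP0_add_right a u u'
    · intro r hr
      obtain ⟨ν, hν⟩ := S.exists_P0_bound r hr
      have h1 : IsContBilin (fun (a : A) (b : B) => S.emb a * b) :=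
        S.mulB.comp_lin S.emb_lin isContLin_id
      obtain ⟨q1, q2, hq1, hq2, h2⟩ := h1.exists_bound ν.1 ν.2
      refine ⟨q1, S.semP q2, hq1, S.semP_continuous ⟨q2, hq2⟩, fun a u => (hν _).trans ?_⟩
      let R : Seminorm ℂ (Γ →₀ B) :=
        (S.semP ν.1).comp (Finsupp.mapRange.linearMap (LinearMap.mulLeft ℂ (S.emb a)))
      have hR : ∀ u, R u = S.semP ν.1 (S.lP0 a u) := fun _ => rfl
      have := S.le_mul_semP (ν := q2) (R := R) (c := q1 a) (apply_nonneg _ _) (by
        intro γ b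
        rw [hR, lP0_single]
        exact (S.semP_single_le _ _ _).trans (h2 a b)) (by
        intro u hu
        rw [hR]
        exact S.semP_null _ (S.InN_lP0 hu a)) u
      exact this

/-- The right action of `A` before completion. -/
def rY0 (y : ι →₀ V) (a : A) : ι →₀ V :=
  Finsupp.mapRange.linearMap (S.bim.right.bilin.isContLin_left a).toCLM.toLinearMap y

@[simp] lemma rY0_apply (a : A) (y : ι →₀ V) (t : ι) : S.rY0 y a t = S.rV (y t) a := by
  simp [rY0]

@[simp] lemma rY0_single (a : A) (t : ι) (v : V) :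
    S.rY0 (Finsupp.single t v) a = Finsupp.single t (S.rV v a) := by
  simp [rY0]

lemma rY0_add_left (a : A) (y y' : ι →₀ V) : S.rY0 (y + y') a = S.rY0 y a + S.rY0 y' a :=
  map_add _ _ _

lemma rY0_smul_left (a : A) (c : ℂ) (y : ι →₀ V) : S.rY0 (c • y) a = c • S.rY0 y a :=
  map_smul _ _ _

lemma rV_zero (a : A) : S.rV 0 a = 0 := S.bim.right.bilin.zero_left a

lemma ev_rY0 (γ : Γ) (y : ι →₀ V) (a : A) : S.ev γ (S.rY0 y a) = S.rV (S.ev γ y) a := by
  induction y using Finsupp.induction_linear with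
  | zero => rw [rY0, map_zero, map_zero, rV_zero]
  | add f g hf hg => rw [rY0_add_left, map_add, map_add, hf, hg, S.bim.right.bilin.add_left]
  | single t v => rw [rY0_single, ev_single, ev_single, LB_right]

lemma rY0_bilin : IsContBilin (fun (y : S.Y0) (a : A) => (S.toY0 (S.rY0 y a))) where
  add_left y y' a := S.rY0_add_left a y y'
  smul_left c y a := S.rY0_smul_left a c y
  add_right y a a' := by
    show S.rY0 y (a + a') = S.rY0 y a + S.rY0 y a'
    ext t
    rw [Finsupp.add_apply, rY0_apply, rY0_apply, rY0_apply, S.bim.right.bilin.add_right]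
  smul_right c y a := by
    show S.rY0 y (c • a) = c • S.rY0 y a
    ext t
    rw [Finsupp.smul_apply, rY0_apply, rY0_apply, S.bim.right.bilin.smul_right]
  cont := by
    refine continuous_of_bound (β := fun (y : S.Y0) (a : A) => (S.toY0 (S.rY0 y a))) ?_ ?_ ?_
    · intro y y' a
      exact S.rY0_add_left a y y'
    · intro y a a'
      show S.rY0 y (a + a') = S.rY0 y a + S.rY0 y a'
      ext t
      rw [Finsupp.add_apply, rY0_apply, rY0_apply, rY0_apply, S.bim.right.bilin.add_right]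
    · intro r hr
      obtain ⟨η, hη⟩ := S.exists_Y0_bound r hr
      obtain ⟨q1, q2, hq1, hq2, h2⟩ := S.bim.right.bilin.exists_bound η.1 η.2
      refine ⟨S.semY q1, q2, S.semY_continuous ⟨q1, hq1⟩, hq2, fun y a => (hη _).trans ?_⟩
      apply S.semY_le (mul_nonneg (apply_nonneg _ _) (apply_nonneg _ _))
      intro γ
      rw [ev_rY0]
      exact (h2 _ _).trans (mul_le_mul_of_nonneg_right (S.le_semY q1 γ y) (apply_nonneg _ _))

lemma kap0_lP0 (a : A) (u : Γ →₀ B) (y : ι →₀ V) :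
    S.kap0 (S.lP0 a u) y = S.lV a (S.kap0 u y) := by
  induction u using Finsupp.induction_linear with
  | zero => rw [lP0, map_zero, map_zero, LinearMap.zero_apply, S.bim.left.bilin.zero_right]
  | add f g hf hg => rw [lP0_add_right, map_add, map_add, LinearMap.add_apply,
      LinearMap.add_apply, hf, hg, S.bim.left.bilin.add_right]
  | single γ b => rw [lP0_single, kap0_single, kap0_single, LB_mul, LB_emb]

lemma kap0_rY0 (a : A) (u : Γ →₀ B) (y : ι →₀ V) :
    S.kap0 u (S.rY0 y a) = S.rV (S.kap0 u y) a := by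
  induction u using Finsupp.induction_linear with
  | zero => rw [map_zero, LinearMap.zero_apply, LinearMap.zero_apply, rV_zero]
  | add f g hf hg => rw [map_add, LinearMap.add_apply,
      LinearMap.add_apply, hf, hg, S.bim.right.bilin.add_left]
  | single γ b => rw [kap0_single, kap0_single, ev_rY0, LB_right]

lemma kap0_bilin : IsContBilin (fun (u : S.P0) (y : S.Y0) => S.kap0 u y) where
  add_left u u' y := by
    show S.kap0 (u + u') y = _
    exact congrFun (congrArg DFunLike.coe (map_add S.kap0 u u')) y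
  smul_left c u y := congrFun (congrArg DFunLike.coe (map_smul S.kap0 c u)) y
  add_right u y y' := map_add (S.kap0 u) y y'
  smul_right c u y := map_smul (S.kap0 u) c y
  cont := by
    refine continuous_of_bound (β := fun (u : S.P0) (y : S.Y0) => S.kap0 u y) ?_ ?_ ?_
    · intro u u' y
      exact congrFun (congrArg DFunLike.coe (map_add S.kap0 u u')) y
    · intro u y y'
      exact map_add (S.kap0 u) y y'
    · intro r hr
      obtain ⟨q1, q2, hq1, hq2, h2⟩ := S.LB_bil.exists_bound r hr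
      refine ⟨S.semP q1, S.semY q2, S.semP_continuous ⟨q1, hq1⟩, S.semY_continuous ⟨q2, hq2⟩,
        fun u y => ?_⟩
      let R : Seminorm ℂ (Γ →₀ B) := r.comp (S.kap0.flip y)
      have hR : ∀ u, R u = r (S.kap0 u y) := fun _ => rfl
      have := S.le_mul_semP (ν := q1) (R := R) (c := S.semY q2 y) (apply_nonneg _ _) (by
        intro γ b
        rw [hR, kap0_single, mul_comm]
        exact (h2 _ _).trans (mul_le_mul_of_nonneg_left (S.le_semY q2 γ y) (apply_nonneg _ _))) (by
        intro u hu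
        rw [hR, S.kap0_null hu, map_zero]) u
      rw [mul_comm]
      exact this

lemma isDenseInducing_lid {X : Type u} [AddCommGroup X] [Module ℂ X] [TopologicalSpace X] :
    IsDenseInducing (LinearMap.id : X →ₗ[ℂ] X) :=
  ⟨Topology.IsInducing.id, denseRange_id⟩

lemma exists_lP : ∃ lP : A → S.P → S.P, IsLeftMod lP ∧
    ∀ a (u : S.P0), lP a (cpi S.famP u) = cpi S.famP (S.toP0 (S.lP0 a u)) := by
  have h1 : IsContBilin (fun (a : A) (u : S.P0) => cpi S.famP (S.toP0 (S.lP0 a u))) := by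
    have h2 := S.lP0_bilin
    have hc : Continuous (cpi S.famP) := (cpi_dense S.famP).continuous
    exact ⟨fun a a' u => by rw [h2.add_left, map_add], fun c a u => by rw [h2.smul_left, map_smul],
      fun a u u' => by rw [h2.add_right, map_add], fun c a u => by rw [h2.smul_right, map_smul],
      hc.comp h2.cont⟩
  obtain ⟨lP, hlP, hlP2⟩ := exists_ext_bilin (LinearMap.id : A →ₗ[ℂ] A) isDenseInducing_lid
    (cpi S.famP) (cpi_dense S.famP) _ h1
  refine ⟨lP, ⟨hlP, ?_⟩, hlP2⟩
  intro a b x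
  refine (cpi_dense S.famP).dense.induction_on
    (p := fun x => lP (a * b) x = lP a (lP b x)) x ?_ ?_
  · exact isClosed_eq (hlP.cont_right _) ((hlP.cont_right _).comp (hlP.cont_right _))
  · intro u
    have e : ∀ a u, lP a (cpi S.famP u) = cpi S.famP (S.toP0 (S.lP0 a u)) := hlP2
    rw [e, e, e]
    congr 1
    show S.lP0 (a * b) u = S.lP0 a (S.lP0 b u)
    ext γ
    simp [S.emb_mul, mul_assoc]

lemma exists_rY : ∃ rY : S.Y → A → S.Y, IsRightMod rY ∧
    ∀ (y : S.Y0) a, rY (cpi S.famY y) a = cpi S.famY (S.toY0 (S.rY0 y a)) := by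
  have h1 : IsContBilin (fun (y : S.Y0) (a : A) => cpi S.famY (S.toY0 (S.rY0 y a))) := by
    have h2 := S.rY0_bilin
    have hc : Continuous (cpi S.famY) := (cpi_dense S.famY).continuous
    exact ⟨fun a a' u => by rw [h2.add_left, map_add], fun c a u => by rw [h2.smul_left, map_smul],
      fun a u u' => by rw [h2.add_right, map_add], fun c a u => by rw [h2.smul_right, map_smul],
      hc.comp h2.cont⟩
  obtain ⟨rY, hrY, hrY2⟩ := exists_ext_bilin (cpi S.famY) (cpi_dense S.famY)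
    (LinearMap.id : A →ₗ[ℂ] A) isDenseInducing_lid _ h1
  refine ⟨rY, ⟨hrY, ?_⟩, hrY2⟩
  intro x a b
  refine (cpi_dense S.famY).dense.induction_on
    (p := fun x => rY x (a * b) = rY (rY x a) b) x ?_ ?_
  · exact isClosed_eq (hrY.cont_left _) ((hrY.cont_left _).comp (hrY.cont_left _))
  · intro u
    have e : ∀ u a, rY (cpi S.famY u) a = cpi S.famY (S.toY0 (S.rY0 u a)) := hrY2
    rw [e, e, e]
    congr 1
    show S.rY0 u (a * b) = S.rY0 (S.rY0 u a) b
    ext γ
    simp [S.bim.right.mul]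

/-- The modules and the twisted form. -/
theorem exists_form0 {Λ : Type u}
    (hflat : ∀ (X : Type u) [AddCommGroup X] [Module ℂ X] [UniformSpace X] [IsPolynormed X]
      (l : A → X → X), IsLeftMod l → ExtProp l Λ)
    {D : A → V → lp (fun _ : Λ => ℂ) ∞} (hD : IsContBilin D)
    (hDm : ∀ a b v, D (a * b) v = D b (S.rV v a) + D a (S.lV b v)) :
    ∃ (β : (ι →₀ V) →ₗ[ℂ] (Γ →₀ B) →ₗ[ℂ] lp (fun _ : Λ => ℂ) ∞) (ν : CSm B) (η : CSm V),
      (∀ y u, ‖β y u‖ ≤ S.semP ν.1 u * S.semY η.1 y) ∧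
      ∀ a y u, β (S.rY0 y a) u - β y (S.lP0 a u) = D a (S.kap0 u y) := by
  obtain ⟨lP, hlP, hlP2⟩ := S.exists_lP
  obtain ⟨rY, hrY, hrY2⟩ := S.exists_rY
  obtain ⟨κ, hκ, hκ2⟩ := exists_ext_bilin (cpi S.famP) (cpi_dense S.famP) (cpi S.famY)
    (cpi_dense S.famY) _ S.kap0_bilin
  have hκ3 : ∀ (u : S.P0) (y : S.Y0), κ (cpi S.famP u) (cpi S.famY y) = S.kap0 u y := hκ2
  have κl : ∀ a u y, κ (lP a u) y = S.lV a (κ u y) := by
    intro a u y
    refine (cpi_dense S.famP).dense.induction_on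
      (p := fun u => κ (lP a u) y = S.lV a (κ u y)) u ?_ ?_
    · exact isClosed_eq ((hκ.cont_left y).comp (hlP.bilin.cont_right a))
        ((S.bim.left.bilin.cont_right a).comp (hκ.cont_left y))
    · intro u0
      refine (cpi_dense S.famY).dense.induction_on
        (p := fun y => κ (lP a (cpi S.famP u0)) y = S.lV a (κ (cpi S.famP u0) y)) y ?_ ?_
      · exact isClosed_eq (hκ.cont_right _) ((S.bim.left.bilin.cont_right a).comp (hκ.cont_right _))
      · intro y0
        rw [hlP2, hκ3, hκ3]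
        exact S.kap0_lP0 a u0 y0
  have κr : ∀ a u y, κ u (rY y a) = S.rV (κ u y) a := by
    intro a u y
    refine (cpi_dense S.famP).dense.induction_on
      (p := fun u => κ u (rY y a) = S.rV (κ u y) a) u ?_ ?_
    · exact isClosed_eq (hκ.cont_left _)
        ((S.bim.right.bilin.cont_left a).comp (hκ.cont_left y))
    · intro u0
      refine (cpi_dense S.famY).dense.induction_on
        (p := fun y => κ (cpi S.famP u0) (rY y a) = S.rV (κ (cpi S.famP u0) y) a) y ?_ ?_
      · exact isClosed_eq ((hκ.cont_right _).comp (hrY.bilin.cont_left a))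
          ((S.bim.right.bilin.cont_left a).comp (hκ.cont_right _))
      · intro y0
        rw [hrY2, hκ3, hκ3]
        exact S.kap0_rY0 a u0 y0
  obtain ⟨β, hβ, hβ2⟩ := exists_form_P hlP hrY S.bim (hflat S.P lP hlP) hκ κl κr hD hDm
  obtain ⟨q1, q2, hq1, hq2, h2⟩ := hβ.exists_bound (normSeminorm ℂ _) continuous_norm
  obtain ⟨η, hη⟩ := S.exists_Y0_bound (q1.comp (cpi S.famY))
    (hq1.comp (cpi_dense S.famY).continuous)
  obtain ⟨ν, hν⟩ := S.exists_P0_bound (q2.comp (cpi S.famP))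
    (hq2.comp (cpi_dense S.famP).continuous)
  refine ⟨LinearMap.mk₂ ℂ (fun y u => β (cpi S.famY y) (cpi S.famP u)) ?_ ?_ ?_ ?_, ν, η, ?_, ?_⟩
  · intro y y' u
    have : cpi S.famY ((y + y' : ι →₀ V) : S.Y0) = cpi S.famY y + cpi S.famY y' :=
      map_add (cpi S.famY) y y'
    rw [this, hβ.add_left]
  · intro c y u
    have : cpi S.famY ((c • y : ι →₀ V) : S.Y0) = c • cpi S.famY y :=
      map_smul (cpi S.famY) c y
    rw [this, hβ.smul_left]
  · intro y u u'
    have : cpi S.famP ((u + u' : Γ →₀ B) : S.P0) = cpi S.famP u + cpi S.famP u' :=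
      map_add (cpi S.famP) u u'
    rw [this, hβ.add_right]
  · intro c y u
    have : cpi S.famP ((c • u : Γ →₀ B) : S.P0) = c • cpi S.famP u :=
      map_smul (cpi S.famP) c u
    rw [this, hβ.smul_right]
  · intro y u
    have h3 : ‖β (cpi S.famY y) (cpi S.famP u)‖ ≤ q1 (cpi S.famY y) * q2 (cpi S.famP u) := h2 _ _
    have h4 : q1 (cpi S.famY y) ≤ S.semY η.1 y := hη y
    have h5 : q2 (cpi S.famP u) ≤ S.semP ν.1 u := hν u
    refine h3.trans ?_
    rw [mul_comm]
    exact mul_le_mul h5 h4 (apply_nonneg _ _) (apply_nonneg _ _)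
  · intro a y u
    show β (cpi S.famY (S.rY0 y a)) (cpi S.famP u) - β (cpi S.famY y) (cpi S.famP (S.lP0 a u)) = _
    have e1 : cpi S.famY (S.rY0 y a) = rY (cpi S.famY y) a := (hrY2 y a).symm
    have e2 : cpi S.famP (S.lP0 a u) = lP a (cpi S.famP u) := (hlP2 a u).symm
    rw [e1, e2, hβ2, hκ3]

end

end PS

end Pool.Agent.Helper832.PN
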