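import Mathlib
import Pool.Agent.Helper832.PNh
import Pool.Agent.Helper832.FLd
import Pool.Agent.Helper832.Blk

/-!
The core: blocks and limits in the polynormed case.
-/

set_option autoImplicit false
set_option linter.unusedSectionVars false
set_option linter.unusedVariables false

namespace Pool.Agent.Helper832.PN

open Filter Topology
open scoped ENNReal

universe u

section Limit

variable {V : Type u} [AddCommGroup V] [Module ℂ V] [UniformSpace V] [IsPolynormed V]

theorem exists_limit_P {I Λ : Type u} (U : Ultrafilter I) (φ : I → V → lp (fun _ : Λ => ℂ) ∞)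
    (hadd : ∀ i v v', φ i (v + v') = φ i v + φ i v')
    (hsmul : ∀ i (c : ℂ) v, φ i (c • v) = c • φ i v) (K : Seminorm ℂ V) (hK : Continuous K)
    (hb : ∀ v, ∀ ε : ℝ, 0 < ε → ∀ᶠ i in (U : Filter I), ‖φ i v‖ ≤ K v + ε) :
    ∃ Φ : V → lp (fun _ : Λ => ℂ) ∞, IsContLin Φ ∧
      ∀ v (x : Λ), Tendsto (fun i => φ i v x) U (𝓝 (Φ v x)) := by
  have h1 : ∀ v (x : Λ), ∃ c, Tendsto (fun i => φ i v x) U (𝓝 c) := by
    intro v x
    have hc : IsCompact (Metric.closedBall (0 : ℂ) (K v + 1)) := isCompact_closedBall _ _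
    obtain ⟨c, _, hc2⟩ := hc.ultrafilter_le_nhds (U.map (fun i => φ i v x)) (by
      rw [Filter.le_principal_iff, Ultrafilter.coe_map, Filter.mem_map]
      filter_upwards [hb v 1 one_pos] with i hi
      have h2 : ‖φ i v x‖ ≤ ‖φ i v‖ := lp.norm_apply_le_norm (by norm_num) _ x
      simpa using h2.trans hi)
    exact ⟨c, hc2⟩
  choose ψ hψ using h1
  have hψb : ∀ v x, ‖ψ v x‖ ≤ K v := by
    intro v x
    apply le_of_forall_pos_le_add
    intro ε hε
    apply le_of_tendsto (hψ v x).norm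
    filter_upwards [hb v ε hε] with i hi
    exact (lp.norm_apply_le_norm (by norm_num) _ x).trans hi
  let Φ : V → lp (fun _ : Λ => ℂ) ∞ := fun v => ⟨ψ v, by
    apply memℓp_infty
    refine ⟨K v, ?_⟩
    rintro _ ⟨x, rfl⟩
    exact hψb v x⟩
  have hΦ : ∀ v x, Φ v x = ψ v x := fun _ _ => rfl
  have hadd' : ∀ v v', Φ (v + v') = Φ v + Φ v' := by
    intro v v'
    ext x
    rw [lp.coeFn_add, Pi.add_apply, hΦ, hΦ, hΦ]
    refine tendsto_nhds_unique (hψ (v + v') x) ?_
    simp_rw [hadd, lp.coeFn_add, Pi.add_apply]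
    exact (hψ v x).add (hψ v' x)
  have hsmul' : ∀ (c : ℂ) v, Φ (c • v) = c • Φ v := by
    intro c v
    ext x
    rw [lp.coeFn_smul, Pi.smul_apply, hΦ, hΦ]
    refine tendsto_nhds_unique (hψ (c • v) x) ?_
    simp_rw [hsmul, lp.coeFn_smul, Pi.smul_apply]
    exact (hψ v x).const_smul c
  have hnorm : ∀ v, ‖Φ v‖ ≤ K v := by
    intro v
    exact lp.norm_le_of_forall_le (apply_nonneg K v) (fun x => hψb v x)
  refine ⟨Φ, ⟨hadd', hsmul', ?_⟩, hψ⟩
  apply continuous_lin_of_bound hadd'
  intro r hr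
  obtain ⟨C, hC, hrC⟩ := Seminorm.bound_of_continuous_normedSpace r hr
  refine ⟨(Real.toNNReal C) • K, Continuous.const_smul hK _, fun v => ?_⟩
  have e : ((Real.toNNReal C) • K) v = C * K v := by
    rw [smul_apply, NNReal.smul_def, Real.coe_toNNReal _ hC.le]
    rfl
  rw [e]
  exact (hrC _).trans (mul_le_mul_of_nonneg_left (hnorm v) hC.le)

end Limit

/-- The iterated limit filter. -/
def itf (A : Type u) : Filter (Finset A × ℕ) := (atTop : Filter (Finset A)).curry atTop

instance (A : Type u) : (itf A).NeBot := by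
  classical
  constructor
  intro h
  have h1 : ∀ᶠ x in itf A, False := by
    rw [h]; trivial
  rw [itf, eventually_curry_iff] at h1
  obtain ⟨x, hx⟩ := h1.exists
  obtain ⟨y, hy⟩ := hx.exists
  exact hy

/-- The core: under the extension property for all left modules every derivation is inner. -/
theorem inner_P {A B V Λ : Type u} [NonUnitalRing A] [Module ℂ A] [UniformSpace A] [IsPolyAlg A]
    [Ring B] [Algebra ℂ B] [UniformSpace B] [IsPolynormed B]
    [AddCommGroup V] [Module ℂ V] [UniformSpace V] [IsPolynormed V]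
    (hflat : ∀ (X : Type u) [AddCommGroup X] [Module ℂ X] [UniformSpace X] [IsPolynormed X]
      (l : A → X → X), IsLeftMod l → ExtProp l Λ)
    (mulB : IsContBilin (fun b c : B => b * c)) (emb : A → B) (emb_lin : IsContLin emb)
    (emb_mul : ∀ a b, emb (a * b) = emb a * emb b) (lV : A → V → V) (rV : V → A → V)
    (bim : IsBimod lV rV) (LB : B → V → V) (LB_bil : IsContBilin LB) (LB_one : ∀ v, LB 1 v = v)
    (LB_mul : ∀ b c v, LB (b * c) v = LB b (LB c v)) (LB_emb : ∀ a v, LB (emb a) v = lV a v)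
    (LB_right : ∀ b v a, rV (LB b v) a = LB b (rV v a))
    {D : A → V → lp (fun _ : Λ => ℂ) ∞} (hD : IsContBilin D)
    (hDm : ∀ a b v, D (a * b) v = D b (rV v a) + D a (lV b v)) :
    ∃ Φ : V → lp (fun _ : Λ => ℂ) ∞, IsContLin Φ ∧
      ∀ a v, D a v = Φ (rV v a) - Φ (lV a v) := by
  classical
  -- index set and finite families
  let I : Type u := Finset A × ℕ
  let fF : ∀ F : Finset A, Fin (F.card + 1) → B :=
    fun F => Fin.cons 1 (fun k => emb (F.equivFin.symm k : A))
  let n : I → ℕ := fun i => i.1.card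
  let f : ∀ i : I, Fin (n i + 1) → B := fun i => fF i.1
  have f0 : ∀ i, f i 0 = 1 := fun i => rfl
  let eps : I → ℝ := fun i => 1 / ((i.2 : ℝ) + 1)
  have heps : ∀ i, 0 < eps i := fun i => by positivity
  choose G hG1 hG2 Z hZ1 hZ2 rho z q lam r zeta Phi H1 H2 H3 H4 H5 using
    fun i => Blk.exists_block (n i) (eps i) (heps i)
  let Γ : Type u := Σ i : I, G i
  let ι : Type u := Σ i : I, Z i
  let p : ∀ i : I, Z i →ₗ[ℂ] B := fun i => FL.pm (q i) (f i)
  -- test functions
  have hinj : ∀ i : I, Function.Injective (Sigma.mk i : G i → Γ) := fun i => sigma_mk_injective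
  let wf : ι → Γ → B := fun t => Function.extend (Sigma.mk t.1) (fun g => p t.1 (rho t.1 g t.2)) 0
  have wf_self : ∀ i x g, wf ⟨i, x⟩ ⟨i, g⟩ = p i (rho i g x) := fun i x g =>
    (hinj i).extend_apply _ _ g
  have wf_other : ∀ i x i' g, i' ≠ i → wf ⟨i, x⟩ ⟨i', g⟩ = 0 := by
    intro i x i' g h
    apply Function.extend_apply'
    rintro ⟨g', hg'⟩
    exact h (congrArg Sigma.fst hg').symm
  have wf_fin : ∀ t, (Set.range (wf t)).Finite := by
    rintro ⟨i, x⟩
    apply Set.Finite.subset ((Set.finite_range (fun g => p i (rho i g x))).union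
      (Set.finite_singleton (0 : B)))
    rintro _ ⟨⟨i', g⟩, rfl⟩
    by_cases h : i' = i
    · subst h
      left
      exact ⟨g, (wf_self i' x g).symm⟩
    · right
      exact wf_other i x i' g h
  let S : PS A B V Γ ι :=
    { mulB := mulB
      emb := emb
      emb_lin := emb_lin
      emb_mul := emb_mul
      lV := lV
      rV := rV
      bim := bim
      LB := LB
      LB_bil := LB_bil
      LB_one := LB_one
      LB_mul := LB_mul
      LB_emb := LB_emb
      LB_right := LB_right
      w := wf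
      w_fin := wf_fin }
  have w_self : ∀ i x g, S.w ⟨i, x⟩ ⟨i, g⟩ = p i (rho i g x) := wf_self
  have w_other : ∀ i x i' g, i' ≠ i → S.w ⟨i, x⟩ ⟨i', g⟩ = 0 := wf_other
  have ev_self : ∀ i x g v, S.ev ⟨i, g⟩ (Finsupp.single ⟨i, x⟩ v) = LB (p i (rho i g x)) v := by
    intro i x g v
    rw [PS.ev_single, w_self]
  have ev_other : ∀ i x i' g v, i' ≠ i → S.ev ⟨i', g⟩ (Finsupp.single ⟨i, x⟩ v) = 0 := by
    intro i x i' g v h
    rw [PS.ev_single, w_other _ _ _ _ h]
    exact LB_bil.zero_left v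
  obtain ⟨β, ν, η, hβb, hβD⟩ := S.exists_form0 hflat hD hDm
  have hβY : ∀ y u, (∀ γ, S.ev γ y = 0) → β y u = 0 := by
    intro y u hy
    have h1 : S.semY η.1 y ≤ 0 := S.semY_le le_rfl (fun γ => by rw [hy γ, map_zero])
    have h2 : S.semY η.1 y = 0 := le_antisymm h1 (apply_nonneg _ _)
    have h3 := hβb y u
    rw [h2, mul_zero] at h3
    exact norm_le_zero_iff.1 h3
  have hβN : ∀ y u, S.InN u → β y u = 0 := by
    intro y u hu
    have h3 := hβb y u
    rw [S.semP_null _ hu, zero_mul] at h3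
    exact norm_le_zero_iff.1 h3
  -- the forms in one block
  let b : ∀ i : I, V → G i → B → (Z i →ₗ[ℂ] lp (fun _ : Λ => ℂ) ∞) := fun i v g e =>
    { toFun := fun x => β (Finsupp.single (⟨i, x⟩ : ι) v) (Finsupp.single (⟨i, g⟩ : Γ) e)
      map_add' := by
        intro x x'
        rw [← sub_eq_zero, ← LinearMap.add_apply, ← map_add, ← LinearMap.sub_apply, ← map_sub]
        apply hβY
        rintro ⟨i', g'⟩
        rw [map_sub, map_add]
        by_cases h : i' = i
        · subst h
          rw [ev_self, ev_self, ev_self, map_add, map_add, LB_bil.add_left, sub_self]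
        · rw [ev_other _ _ _ _ _ h, ev_other _ _ _ _ _ h, ev_other _ _ _ _ _ h, add_zero,
            sub_zero]
      map_smul' := by
        intro c x
        rw [RingHom.id_apply, ← sub_eq_zero, ← LinearMap.smul_apply, ← map_smul,
          ← LinearMap.sub_apply, ← map_sub]
        apply hβY
        rintro ⟨i', g'⟩
        rw [map_sub, map_smul]
        by_cases h : i' = i
        · subst h
          rw [ev_self, ev_self, map_smul, map_smul, LB_bil.smul_left, sub_self]
        · rw [ev_other _ _ _ _ _ h, ev_other _ _ _ _ _ h, smul_zero, sub_zero] }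
  have b_apply : ∀ i v g e x, b i v g e x =
      β (Finsupp.single (⟨i, x⟩ : ι) v) (Finsupp.single (⟨i, g⟩ : Γ) e) := fun _ _ _ _ _ => rfl
  -- the null relation
  have hnull : ∀ i (k : Fin (n i + 1)) v (h : G i) x,
      ∑ g, r i 0 g • b i v (g * h) (f i k) x = ∑ g, r i k g • b i v (g * h) 1 x := by
    intro i k v h x
    have hmem : S.InN (∑ g, r i 0 g • Finsupp.single (⟨i, g * h⟩ : Γ) (f i k)
        - ∑ g, r i k g • Finsupp.single (⟨i, g * h⟩ : Γ) (1 : B)) := by
      rintro ⟨i', x'⟩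
      rw [map_sub, map_sum, map_sum]
      simp only [map_smul, PS.mt_single]
      by_cases hi : i = i'
      · subst hi
        simp only [w_self, one_mul]
        rw [sub_eq_zero]
        exact FL.null_rel (rho i) (z i) (q i) (r i) (Phi i) (f i) (f0 i) (H1 i) (H4 i) k h x'
      · simp only [w_other _ _ _ _ hi, mul_zero, smul_zero, Finset.sum_const_zero, sub_zero]
    have := hβN (Finsupp.single (⟨i, x⟩ : ι) v) _ hmem
    rw [map_sub, map_sum, map_sum, sub_eq_zero] at this
    simp only [map_smul] at this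
    exact this
  -- the derivation relation
  have hder : ∀ i a' v g x, b i (rV v a') g 1 x - b i v g (emb a') x =
      D a' (LB (p i (rho i g x)) v) := by
    intro i a' v g x
    have := hβD a' (Finsupp.single (⟨i, x⟩ : ι) v) (Finsupp.single (⟨i, g⟩ : Γ) 1)
    rw [PS.rY0_single, PS.lP0_single, PS.kap0_single, ev_self, mul_one] at this
    have e : S.LB 1 (LB (p i (rho i g x)) v) = LB (p i (rho i g x)) v := LB_one _
    rw [e] at this
    exact this
  -- difference estimate
  have hdiff : ∀ i v v' g x x' (C : ℝ), 0 ≤ C →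
      (∀ g', η.1 (LB (p i (rho i g' x)) v - LB (p i (rho i g' x')) v') ≤ C) →
      ‖b i v g 1 x - b i v' g 1 x'‖ ≤ ν.1 1 * C := by
    intro i v v' g x x' C hC hC2
    rw [b_apply, b_apply, ← LinearMap.sub_apply, ← map_sub]
    refine (hβb _ _).trans ?_
    refine mul_le_mul (S.semP_single_le _ _ _) ?_ (apply_nonneg _ _) (apply_nonneg _ _)
    apply S.semY_le hC
    rintro ⟨i', g'⟩
    rw [map_sub]
    by_cases h : i' = i
    · subst h
      rw [ev_self, ev_self]
      exact hC2 g'
    · rw [ev_other _ _ _ _ _ h, ev_other _ _ _ _ _ h, sub_zero, map_zero]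
      exact hC
  -- the functionals
  let φ : I → V → lp (fun _ : Λ => ℂ) ∞ := fun i v => FL.bt (rho i) (b i v) 1 (z i 0)
  have hbadd : ∀ i v v' g e x, b i (v + v') g e x = b i v g e x + b i v' g e x := by
    intro i v v' g e x
    rw [b_apply, b_apply, b_apply, Finsupp.single_add, map_add, LinearMap.add_apply]
  have hbsmul : ∀ i (c : ℂ) v g e x, b i (c • v) g e x = c • b i v g e x := by
    intro i c v g e x
    rw [b_apply, b_apply, ← Finsupp.smul_single, map_smul, LinearMap.smul_apply]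
  have hφadd : ∀ i v v', φ i (v + v') = φ i v + φ i v' := by
    intro i v v'
    show FL.bt (rho i) (b i (v + v')) 1 (z i 0) = FL.bt (rho i) (b i v) 1 (z i 0) +
      FL.bt (rho i) (b i v') 1 (z i 0)
    unfold FL.bt
    rw [← smul_add, ← Finset.sum_add_distrib]
    simp_rw [hbadd]
  have hφsmul : ∀ i (c : ℂ) v, φ i (c • v) = c • φ i v := by
    intro i c v
    show FL.bt (rho i) (b i (c • v)) 1 (z i 0) = c • FL.bt (rho i) (b i v) 1 (z i 0)
    unfold FL.bt
    simp_rw [hbsmul, ← Finset.smul_sum]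
    rw [smul_comm]
  -- estimates for `LB` of sums
  have LBsum : ∀ (m : ℕ) (c : Fin m → ℂ) (e : Fin m → B) v,
      LB (∑ l, c l • e l) v = ∑ l, c l • LB (e l) v := by
    intro m c e v
    have := map_sum (LB_bil.isContLin_left v).toCLM (fun l => c l • e l) Finset.univ
    simp only [IsContLin.toCLM_apply, LB_bil.smul_left] at this
    exact this
  have hsum : ∀ (m : ℕ) (c : Fin m → ℂ) (w : Fin m → V) (ε : ℝ), (∀ l, ‖c l‖ ≤ ε) →
      η.1 (∑ l, c l • w l) ≤ ε * ∑ l, η.1 (w l) := by
    intro m c w ε hc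
    rw [Finset.mul_sum]
    refine (Finset.le_sum_of_subadditive η.1 (map_zero _).le (map_add_le_add _) _ _).trans
      (Finset.sum_le_sum fun l _ => ?_)
    rw [map_smul_eq_mul]
    exact mul_le_mul_of_nonneg_right (hc l) (apply_nonneg _ _)
  let s : ∀ F : Finset A, V → ℝ := fun F v => ∑ l, η.1 (LB (fF F l) v)
  let s2 : ∀ F : Finset A, V → Fin (F.card + 1) → ℝ := fun F v k =>
    ∑ l, (η.1 (LB (fF F l) v) + η.1 (LB (fF F l * fF F k) v))
  have hs0 : ∀ F v, 0 ≤ s F v := fun F v => Finset.sum_nonneg fun l _ => apply_nonneg _ _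
  have hs20 : ∀ F v k, 0 ≤ s2 F v k := fun F v k =>
    Finset.sum_nonneg fun l _ => add_nonneg (apply_nonneg _ _) (apply_nonneg _ _)
  have hp0 : ∀ i g v, η.1 (LB (p i (rho i g (z i 0))) v) ≤ η.1 v + eps i * s i.1 v := by
    intro i g v
    have e1 : p i (rho i g (z i 0)) =
        lam i g • (1 : B) + ∑ l, FL.er (rho i) (z i) (q i) (lam i) l 0 g • f i l := by
      show FL.pm (q i) (f i) _ = _
      rw [FL.pm_apply]
      have : ∀ l, q i l (rho i g (z i 0)) • f i l =
          (lam i g * (if l = 0 then 1 else 0)) • f i l +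
            FL.er (rho i) (z i) (q i) (lam i) l 0 g • f i l := by
        intro l
        rw [← add_smul]
        congr 1
        simp [FL.er]
      simp_rw [this]
      rw [Finset.sum_add_distrib]
      congr 1
      simp [f0]
    rw [e1, LB_bil.add_left, LB_bil.smul_left, LB_one, LBsum]
    refine (map_add_le_add _ _ _).trans (add_le_add ?_ ?_)
    · rw [map_smul_eq_mul]
      exact mul_le_of_le_one_left (apply_nonneg _ _) (H2 i g)
    · exact hsum _ _ _ _ (fun l => H3 i g l 0)
  have hφb : ∀ i v, ‖φ i v‖ ≤ ν.1 1 * (η.1 v + eps i * s i.1 v) := by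
    intro i v
    apply FL.norm_avg_le
    intro h
    have h0 := hdiff i v 0 h⁻¹ (rho i h (z i 0)) (rho i h (z i 0)) (η.1 v + eps i * s i.1 v)
      (add_nonneg (apply_nonneg _ _) (mul_nonneg (heps i).le (hs0 _ _))) (by
        intro g'
        rw [LB_bil.zero_right, sub_zero]
        have : rho i g' (rho i h (z i 0)) = rho i (g' * h) (z i 0) := by
          rw [map_mul]; rfl
        rw [this]
        exact hp0 i _ v)
    have h1 : b i 0 h⁻¹ 1 (rho i h (z i 0)) = 0 := by
      have := hbsmul i 0 0 h⁻¹ 1 (rho i h (z i 0))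
      rwa [zero_smul, zero_smul] at this
    rwa [h1, sub_zero] at h0
  have herr : ∀ i a' v (k : Fin (n i)), emb a' = f i k.succ →
      ‖φ i (rV v a') - φ i (lV a' v) - D a' v‖ ≤ ν.1 1 * (eps i * s2 i.1 v k.succ) := by
    intro i a' v k hfk
    have e1 : FL.bt (rho i) (b i (rV v a')) 1 (z i 0) -
        FL.bt (rho i) (b i v) (emb a') (z i 0) = D a' (LB (p i (z i 0)) v) :=
      FL.bt_der (rho i) (b i v) (b i (rV v a')) (emb a')
        (fun x => D a' (LB (p i x) v)) (fun g x => hder i a' v g x) (z i 0)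
    have e2 : p i (z i 0) = 1 := by
      show FL.pm (q i) (f i) _ = 1
      rw [FL.pm_z (z i) (q i) (f i) (H1 i), f0]
    rw [e2, LB_one] at e1
    have e3 : FL.bt (rho i) (b i v) (emb a') (z i 0) = FL.bt (rho i) (b i v) 1 (z i k.succ) := by
      rw [hfk]
      exact FL.bt_key (rho i) (z i) (r i) (zeta i) (Phi i) (f i) (H4 i) (H5 i) (b i v) k.succ
        (fun h x => hnull i k.succ v h x)
    have e4 : φ i (rV v a') - φ i (lV a' v) - D a' v =
        FL.bt (rho i) (b i v) 1 (z i k.succ) - FL.bt (rho i) (b i (lV a' v)) 1 (z i 0) := by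
      show FL.bt (rho i) (b i (rV v a')) 1 (z i 0) -
        FL.bt (rho i) (b i (lV a' v)) 1 (z i 0) - D a' v = _
      rw [← e1, e3]
      abel
    rw [e4]
    unfold FL.bt
    rw [← smul_sub, ← Finset.sum_sub_distrib]
    apply FL.norm_avg_le
    intro h
    refine hdiff i v (lV a' v) h⁻¹ (rho i h (z i k.succ)) (rho i h (z i 0))
      (eps i * s2 i.1 v k.succ) (mul_nonneg (heps i).le (hs20 _ _ _)) ?_
    intro g'
    have c1 : rho i g' (rho i h (z i k.succ)) = rho i (g' * h) (z i k.succ) := by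
      rw [map_mul]; rfl
    have c2 : rho i g' (rho i h (z i 0)) = rho i (g' * h) (z i 0) := by
      rw [map_mul]; rfl
    rw [c1, c2, ← LB_emb, ← LB_mul, hfk, ← LB_bil.sub_left]
    have c3 : p i (rho i (g' * h) (z i k.succ)) - p i (rho i (g' * h) (z i 0)) * f i k.succ =
        ∑ l, (FL.er (rho i) (z i) (q i) (lam i) l k.succ (g' * h) • f i l -
            FL.er (rho i) (z i) (q i) (lam i) l 0 (g' * h) • (f i l * f i k.succ)) :=
      FL.pm_err (rho i) (z i) (q i) (lam i) (f i) (f0 i) (g' * h) k.succ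
    rw [c3, Finset.sum_sub_distrib, LB_bil.sub_left, LBsum, LBsum]
    refine (map_sub_le_add _ _ _).trans ?_
    show _ ≤ eps i * ∑ l, (η.1 (LB (fF i.1 l) v) + η.1 (LB (fF i.1 l * fF i.1 k.succ) v))
    rw [Finset.sum_add_distrib, mul_add]
    exact add_le_add (hsum _ _ _ _ (fun l => H3 i _ l k.succ)) (hsum _ _ _ _ (fun l => H3 i _ l 0))
  -- the limit
  let U : Ultrafilter I := Ultrafilter.of (itf A)
  have hU : (U : Filter I) ≤ itf A := Ultrafilter.of_le _
  have hlim : ∀ c : ℝ, Tendsto (fun N : ℕ => c * (1 / ((N : ℝ) + 1))) atTop (𝓝 0) := by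
    intro c
    have h2 : Tendsto (fun N : ℕ => 1 / ((N : ℝ) + 1)) atTop (𝓝 0) :=
      tendsto_one_div_add_atTop_nhds_zero_nat
    simpa using h2.const_mul c
  have hbd : ∀ v, ∀ ε : ℝ, 0 < ε → ∀ᶠ i in (U : Filter I),
      ‖φ i v‖ ≤ ((Real.toNNReal (ν.1 1)) • η.1) v + ε := by
    intro v ε hε
    apply hU
    show ∀ᶠ i in itf A, _
    rw [itf, eventually_curry_iff]
    filter_upwards with F
    have h1 := (hlim (ν.1 1 * s F v)).eventually (gt_mem_nhds hε)
    filter_upwards [h1] with N hN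
    refine (hφb (F, N) v).trans ?_
    have e : ((Real.toNNReal (ν.1 1)) • η.1) v = ν.1 1 * η.1 v := by
      rw [smul_apply, NNReal.smul_def, Real.coe_toNNReal _ (apply_nonneg _ _)]
      rfl
    rw [e, mul_add]
    have e2 : ν.1 1 * (eps (F, N) * s F v) = ν.1 1 * s F v * (1 / ((N : ℝ) + 1)) := by
      show ν.1 1 * (1 / ((N : ℝ) + 1) * s F v) = _
      ring
    show ν.1 1 * η.1 v + ν.1 1 * (eps (F, N) * s F v) ≤ _
    rw [e2]
    linarith
  obtain ⟨Φ, hΦ, hΦt⟩ := exists_limit_P U φ hφadd hφsmul _ (Continuous.const_smul η.2 _) hbd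
  refine ⟨Φ, hΦ, fun a' v => ?_⟩
  have herr2 : ∀ ε : ℝ, 0 < ε → ∀ᶠ i in (U : Filter I),
      ‖φ i (rV v a') - φ i (lV a' v) - D a' v‖ ≤ ε := by
    intro ε hε
    apply hU
    show ∀ᶠ i in itf A, _
    rw [itf, eventually_curry_iff]
    filter_upwards [Filter.eventually_ge_atTop ({a'} : Finset A)] with F hF
    have ha' : a' ∈ F := hF (Finset.mem_singleton_self a')
    let k : Fin F.card := F.equivFin ⟨a', ha'⟩
    have hk : emb a' = fF F k.succ := by
      show emb a' = emb ((F.equivFin.symm (F.equivFin ⟨a', ha'⟩) : F) : A)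
      rw [Equiv.symm_apply_apply]
    have h1 := (hlim (ν.1 1 * s2 F v k.succ)).eventually (gt_mem_nhds hε)
    filter_upwards [h1] with N hN
    refine (herr (F, N) a' v k hk).trans ?_
    have e2 : ν.1 1 * (eps (F, N) * s2 F v k.succ) =
        ν.1 1 * s2 F v k.succ * (1 / ((N : ℝ) + 1)) := by
      show ν.1 1 * (1 / ((N : ℝ) + 1) * s2 F v k.succ) = _
      ring
    show ν.1 1 * (eps (F, N) * s2 F v k.succ) ≤ ε
    rw [e2]
    exact hN.le
  ext x
  have h3 : Tendsto (fun i => (φ i (rV v a') - φ i (lV a' v) - D a' v) x) U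
      (𝓝 (Φ (rV v a') x - Φ (lV a' v) x - D a' v x)) := by
    simp_rw [lp.coeFn_sub, Pi.sub_apply]
    exact ((hΦt _ x).sub (hΦt _ x)).sub_const _
  have h4 : Tendsto (fun i => (φ i (rV v a') - φ i (lV a' v) - D a' v) x) U (𝓝 0) := by
    rw [Metric.tendsto_nhds]
    intro ε hε
    filter_upwards [herr2 (ε / 2) (by positivity)] with i hi
    rw [dist_zero_right]
    have := lp.norm_apply_le_norm (p := ∞) (by norm_num)
      (φ i (rV v a') - φ i (lV a' v) - D a' v) x
    linarith
  have h5 := tendsto_nhds_unique h3 h4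
  rw [lp.coeFn_sub, Pi.sub_apply]
  rw [sub_eq_zero] at h5
  exact h5.symm

end Pool.Agent.Helper832.PN
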