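import Mathlib
import Pool.Agent.Helper832.PNa
import Pool.Agent.Helper832.PNc

/-!
Hahn-Banach tools: embeddings of seminormed spaces into bounded families, extension of maps with
values in bounded families, inducing maps.
-/

set_option autoImplicit false

namespace Pool.Agent.Helper832.PN

open Topology Filter
open scoped ENNReal

universe u v w

instance lpPoly (Lam : Type u) : IsPolynormed (lp (fun _ : Lam => ℂ) (⊤ : ℝ≥0∞)) where
  uniformAddGroup := inferInstance
  continuousSMul := inferInstance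
  polynormable := inferInstance
  t2 := inferInstance
  complete := inferInstance

section HB

variable {T : Type u} [AddCommGroup T] [Module ℂ T]

/-- a functional dominated by a seminorm and attaining it at a point -/
lemma exists_dual_attain (q : Seminorm ℂ T) (x : T) :
    ∃ F : T →ₗ[ℂ] ℂ, F x = (q x : ℂ) ∧ ∀ y, ‖F y‖ ≤ q y := by
  by_cases hx : x = 0
  · subst hx
    exact ⟨0, by simp, fun y => by simp⟩
  · let f : Module.Dual ℂ (Submodule.span ℂ {x}) :=
      (q x : ℂ) • (LinearEquiv.coord ℂ T x hx : (Submodule.span ℂ {x}) →ₗ[ℂ] ℂ)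
    have hf : ∀ y, ‖f y‖ ≤ q y := by
      intro y
      obtain ⟨c, hc⟩ := Submodule.mem_span_singleton.mp y.2
      have h1 : LinearEquiv.coord ℂ T x hx y = c := by
        have : y = c • (⟨x, Submodule.mem_span_singleton_self x⟩ : Submodule.span ℂ {x}) :=
          Subtype.ext hc.symm
        rw [this, map_smul, LinearEquiv.coord_self, smul_eq_mul, mul_one]
      have h2 : f y = (q x : ℂ) * c := by
        show (q x : ℂ) • (LinearEquiv.coord ℂ T x hx y) = _
        rw [h1, smul_eq_mul]
      rw [h2, ← hc, norm_mul, Complex.norm_real, Real.norm_of_nonneg (apply_nonneg q x),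
        map_smul_eq_mul, mul_comm]
    obtain ⟨g, hg, hgq⟩ := f.exists_extension_of_le_seminorm _ hf
    refine ⟨g, ?_, hgq⟩
    have := hg ⟨x, Submodule.mem_span_singleton_self x⟩
    rw [this]
    show (q x : ℂ) • (LinearEquiv.coord ℂ T x hx ⟨x, Submodule.mem_span_singleton_self x⟩) = _
    rw [LinearEquiv.coord_self, smul_eq_mul, mul_one]

end HB

section Emb

variable {T : Type u} [AddCommGroup T] [Module ℂ T] [UniformSpace T] [IsPolynormed T]

/-- a linear map into a normed space whose norm is a continuous seminorm is continuous -/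
lemma cont_of_norm_le {E : Type w} [NormedAddCommGroup E] [NormedSpace ℂ E] {f : T → E}
    (add : ∀ x x', f (x + x') = f x + f x') {q : Seminorm ℂ T} (hq : Continuous q)
    (h : ∀ x, ‖f x‖ ≤ q x) : Continuous f := by
  rw [continuous_iff_continuousAt]
  intro x0
  rw [ContinuousAt, tendsto_iff_norm_sub_tendsto_zero]
  have e : ∀ x, f x - f x0 = f (x - x0) := by
    intro x
    have : f x = f (x - x0) + f x0 := by rw [← add]; simp
    rw [this]; abel
  have hlim : Filter.Tendsto (fun x : T => q (x - x0)) (nhds x0) (nhds 0) := by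
    have hc : Continuous (fun x : T => q (x - x0)) := by fun_prop
    simpa using hc.tendsto x0
  refine squeeze_zero (fun z => norm_nonneg _) (fun z => ?_) hlim
  rw [e]
  exact h _

/-- every continuous seminorm is the norm of a continuous linear map into bounded families -/
lemma exists_emb (q : Seminorm ℂ T) (hq : Continuous q) :
    ∃ (Lam : Type u) (j : T → lp (fun _ : Lam => ℂ) (⊤ : ℝ≥0∞)), IsContLin j ∧
      ∀ t, ‖j t‖ = q t := by
  let Lam : Type u := {F : T →ₗ[ℂ] ℂ // ∀ y, ‖F y‖ ≤ q y}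
  let j : T → lp (fun _ : Lam => ℂ) (⊤ : ℝ≥0∞) := fun t =>
    ⟨fun F => F.1 t, memℓp_infty ⟨q t, by rintro _ ⟨F, rfl⟩; exact F.2 t⟩⟩
  have hn : ∀ t, ‖j t‖ = q t := by
    intro t
    apply le_antisymm
    · exact lp.norm_le_of_forall_le (apply_nonneg q t) (fun F => F.2 t)
    · obtain ⟨F, hF, hFq⟩ := exists_dual_attain q t
      have := lp.norm_apply_le_norm ENNReal.top_ne_zero (j t) ⟨F, hFq⟩
      have h2 : ‖(j t : ∀ _ : Lam, ℂ) ⟨F, hFq⟩‖ = q t := by
        show ‖F t‖ = q t
        rw [hF, Complex.norm_real, Real.norm_of_nonneg (apply_nonneg q t)]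
      rw [h2] at this
      exact this
  have hadd : ∀ x y, j (x + y) = j x + j y := by
    intro x y
    ext F
    exact map_add F.1 x y
  have hsmul : ∀ (c : ℂ) x, j (c • x) = c • j x := by
    intro c x
    ext F
    exact map_smul F.1 c x
  exact ⟨Lam, j, ⟨hadd, hsmul, cont_of_norm_le hadd hq (fun x => (hn x).le)⟩, hn⟩

/-- coordinatewise Hahn-Banach extension -/
lemma exists_lp_extension {T' : Type u} [AddCommGroup T'] [Module ℂ T'] [UniformSpace T']
    [IsPolynormed T'] {φ : T' → T} (hφ : IsContLin φ) {Lam : Type u}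
    {g : T' → lp (fun _ : Lam => ℂ) (⊤ : ℝ≥0∞)} (hg : IsContLin g)
    {q : Seminorm ℂ T} (hq : Continuous q) (h : ∀ x, ‖g x‖ ≤ q (φ x)) :
    ∃ G : T → lp (fun _ : Lam => ℂ) (⊤ : ℝ≥0∞), IsContLin G ∧ ∀ x, G (φ x) = g x := by
  let φl : T' →ₗ[ℂ] T := hφ.toCLM.toLinearMap
  have hφl : ∀ x, φl x = φ x := fun x => rfl
  let gl : Lam → (T' →ₗ[ℂ] ℂ) := fun i =>
    { toFun := fun x => (g x : ∀ _ : Lam, ℂ) i
      map_add' := fun x y => by rw [hg.add]; rfl
      map_smul' := fun c x => by rw [hg.smul]; rfl }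
  have hgl : ∀ i x, ‖gl i x‖ ≤ q (φ x) := fun i x =>
    (lp.norm_apply_le_norm ENNReal.top_ne_zero (g x) i).trans (h x)
  have hsurj : Function.Surjective φl.rangeRestrict := φl.surjective_rangeRestrict
  obtain ⟨s, hs⟩ := φl.rangeRestrict.exists_rightInverse_of_surjective
    (LinearMap.range_eq_top.mpr hsurj)
  have hs' : ∀ y : LinearMap.range φl, φl (s y) = (y : T) := by
    intro y
    have := congrArg (fun f => ((f y : LinearMap.range φl) : T)) hs
    exact this
  have hF : ∀ i, ∃ F : Module.Dual ℂ T,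
      (∀ y : LinearMap.range φl, F y = (gl i ∘ₗ s) y) ∧ ∀ x, ‖F x‖ ≤ q x := by
    intro i
    apply Module.Dual.exists_extension_of_le_seminorm
    intro y
    have h5 : q (φl (s y)) = q (y : T) := by rw [hs']
    exact (hgl i (s y)).trans h5.le
  choose F hF1 hF2 using hF
  let G : T → lp (fun _ : Lam => ℂ) (⊤ : ℝ≥0∞) := fun t =>
    ⟨fun i => F i t, memℓp_infty ⟨q t, by rintro _ ⟨i, rfl⟩; exact hF2 i t⟩⟩
  have hadd : ∀ x y, G (x + y) = G x + G y := by
    intro x y
    ext i
    exact map_add (F i) x y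
  have hsmul : ∀ (c : ℂ) x, G (c • x) = c • G x := by
    intro c x
    ext i
    exact map_smul (F i) c x
  refine ⟨G, ⟨hadd, hsmul, cont_of_norm_le hadd hq
    (fun x => lp.norm_le_of_forall_le (apply_nonneg q x) (fun i => hF2 i x))⟩, ?_⟩
  intro x
  ext i
  show F i (φ x) = gl i x
  let xr : LinearMap.range φl := ⟨φl x, LinearMap.mem_range_self φl x⟩
  have h2 : F i (φ x) = gl i (s xr) := hF1 i xr
  rw [h2]
  have h3 : ‖gl i (s xr - x)‖ ≤ 0 := by
    refine (hgl i _).trans ?_
    have e : φ (s xr - x) = φl (s xr) - φl x := map_sub φl _ _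
    have e2 : φl (s xr) - φl x = 0 := sub_eq_zero.mpr (hs' xr)
    rw [e, e2, map_zero]
  have h4 : gl i (s xr - x) = 0 := norm_le_zero_iff.mp h3
  rw [map_sub, sub_eq_zero] at h4
  exact h4

/-- a continuous seminorm vanishing on a closed subspace and not at a given outside point -/
lemma exists_seminorm_separating {R : Submodule ℂ T} (hR : IsClosed (R : Set T)) {t : T}
    (ht : t ∉ R) : ∃ q : Seminorm ℂ T, Continuous q ∧ (∀ r ∈ R, q r = 0) ∧ q t ≠ 0 := by
  have hU : {x : T | t + x ∉ R} ∈ nhds (0 : T) := by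
    have hc : Continuous (fun x : T => t + x) := by fun_prop
    have ho : IsOpen {x : T | t + x ∉ R} := (hR.preimage hc).isOpen_compl
    exact ho.mem_nhds (by simpa using ht)
  obtain ⟨p, hp, hpU⟩ := exists_seminorm_of_mem_nhds hU
  have hp1 : ∀ r ∈ R, 1 ≤ p (r - t) := by
    intro r hr
    by_contra hlt
    have := hpU (r - t) (not_le.mp hlt)
    apply this
    simpa using hr
  obtain ⟨l, hlt, hRl⟩ := Submodule.exists_le_ker_of_notMem ht
  let f : Module.Dual ℂ (R ⊔ Submodule.span ℂ {t} : Submodule ℂ T) :=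
    ((l t)⁻¹ • l).domRestrict _
  have hf : ∀ y, ‖f y‖ ≤ p y := by
    rintro ⟨y, hy⟩
    obtain ⟨r, hr, s, hs, rfl⟩ := Submodule.mem_sup.mp hy
    obtain ⟨c, rfl⟩ := Submodule.mem_span_singleton.mp hs
    have hlr : l r = 0 := hRl hr
    have h1 : f ⟨r + c • t, hy⟩ = c := by
      show (l t)⁻¹ • l (r + c • t) = c
      rw [map_add, hlr, zero_add, map_smul, smul_eq_mul, smul_eq_mul, mul_comm c, ← mul_assoc,
        inv_mul_cancel₀ hlt, one_mul]
    rw [h1]
    show ‖c‖ ≤ p (r + c • t)
    by_cases hc : c = 0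
    · subst hc; simp
    · have h2 := hp1 (-(c⁻¹ • r)) (R.neg_mem (R.smul_mem _ hr))
      have h3 : r + c • t = (-c) • (-(c⁻¹ • r) - t) := by
        rw [smul_sub, smul_neg, neg_smul, neg_neg, smul_smul, mul_inv_cancel₀ hc, one_smul,
          neg_smul, sub_neg_eq_add]
      rw [h3, map_smul_eq_mul, norm_neg]
      nlinarith [norm_nonneg c]
  obtain ⟨g, hg, hgp⟩ := f.exists_continuous_extension_of_le_seminorm _ hp hf
  refine ⟨(normSeminorm ℂ ℂ).comp g.toLinearMap, ?_, ?_, ?_⟩
  · exact g.continuous.norm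
  · intro r hr
    show ‖g r‖ = 0
    have h1 := hg ⟨r, Submodule.mem_sup_left hr⟩
    have h2 : f ⟨r, Submodule.mem_sup_left hr⟩ = 0 := by
      show (l t)⁻¹ • l r = 0
      have hlr : l r = 0 := hRl hr
      rw [hlr, smul_zero]
    rw [h2] at h1
    have h3 : g r = 0 := h1
    rw [h3, norm_zero]
  · show ‖g t‖ ≠ 0
    have h1 := hg ⟨t, Submodule.mem_sup_right (Submodule.mem_span_singleton_self t)⟩
    have h2 : f ⟨t, Submodule.mem_sup_right (Submodule.mem_span_singleton_self t)⟩ = 1 := by
      show (l t)⁻¹ • l t = 1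
      rw [smul_eq_mul, inv_mul_cancel₀ hlt]
    rw [h2] at h1
    have h3 : g t = 1 := h1
    rw [h3]
    simp

variable {T' : Type u} [AddCommGroup T'] [Module ℂ T'] [UniformSpace T'] [IsPolynormed T']

/-- the algebraic criterion for a topological embedding with closed range -/
lemma isClosedEmbedding_of_seminorms {φ : T' → T} (hφ : IsContLin φ)
    (h : ∀ q' : Seminorm ℂ T', Continuous q' →
      ∃ q : Seminorm ℂ T, Continuous q ∧ ∀ x, q' x ≤ q (φ x)) : IsClosedEmbedding φ := by
  have hind : IsInducing φ := by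
    have : IsInducing hφ.toCLM := by
      rw [IsTopologicalAddGroup.isInducing_iff_nhds_zero]
      apply le_antisymm
      · rw [← tendsto_iff_comap]
        have := hφ.toCLM.continuous.tendsto 0
        rwa [map_zero] at this
      · intro U hU
        obtain ⟨q', hq', hU'⟩ := exists_seminorm_of_mem_nhds hU
        obtain ⟨q, hq, hqq⟩ := h q' hq'
        refine ⟨{y | q y < 1}, ?_, ?_⟩
        · have : {y | q y < 1} = q ⁻¹' (Set.Iio 1) := rfl
          rw [this]
          exact hq.continuousAt.preimage_mem_nhds (by rw [map_zero]; exact Iio_mem_nhds one_pos)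
        · intro x hx
          exact hU' x ((hqq x).trans_lt hx)
    exact this
  have hui : IsUniformInducing hφ.toCLM := AddMonoidHom.isUniformInducing_of_isInducing hind
  have hcl : IsClosed (Set.range φ) := by
    have := hui.isComplete_range
    exact this.isClosed
  exact ⟨⟨hind, hind.injective⟩, hcl⟩

omit [IsPolynormed T'] in
/-- a closed embedding dominates continuous seminorms -/
lemma exists_le_of_isInducing {φ : T' → T} (hφ : IsContLin φ) (hind : IsInducing φ)
    {q' : Seminorm ℂ T'} (hq' : Continuous q') :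
    ∃ q : Seminorm ℂ T, Continuous q ∧ ∀ x, q' x ≤ q (φ x) := by
  obtain ⟨q, hq, hqq⟩ := Seminorm.exists_le_comp_of_isInducing (f := hφ.toCLM.toLinearMap) hq' hind
  exact ⟨q, hq, fun x => hqq x⟩

end Emb

end Pool.Agent.Helper832.PN
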