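import Mathlib
import Pool.Agent.Helper832.PNa
import Pool.Agent.Helper832.PNc
import Pool.Agent.Helper832.PNd
import Pool.Agent.Helper832.PNxa

/-!
Amenability from the extension of traces with values in bounded families.
-/

set_option autoImplicit false

namespace Pool.Agent.Helper832.PN

open Topology Filter
open scoped ENNReal

universe u

/-- the norm of a continuous linear map as a continuous seminorm -/
lemma exists_seminorm_of_lin {T : Type u} [AddCommGroup T] [Module ℂ T] [UniformSpace T]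
    {E : Type u} [NormedAddCommGroup E] [NormedSpace ℂ E] {h : T → E} (hh : IsContLin h) :
    ∃ q : Seminorm ℂ T, Continuous q ∧ ∀ t, q t = ‖h t‖ :=
  ⟨(normSeminorm ℂ E).comp hh.toCLM.toLinearMap, hh.cont.norm, fun _ => rfl⟩

section trace

variable {A : Type u} [NonUnitalRing A] [Module ℂ A] [UniformSpace A]
variable {V : Type u} [AddCommGroup V] [Module ℂ V] [UniformSpace V] [IsPolynormed V]
variable {Z : Type u} [AddCommGroup Z] [Module ℂ Z] [UniformSpace Z] [IsPolynormed Z]

/-- the bilinear form of a trace -/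
def trForm (r : V → A → V) (τ : V → Z) : V → ℂ × A → Z := fun v c => c.1 • τ v + τ (r v c.2)

lemma trForm_bilin {r : V → A → V} {τ : V → Z} (hr : IsContBilin r) (hτ : IsContLin τ) :
    IsContBilin (trForm r τ) where
  add_left x x' c := by
    simp only [trForm]
    rw [hτ.add, hr.add_left, hτ.add, smul_add]
    abel
  smul_left z x c := by
    simp only [trForm]
    rw [hτ.smul, hr.smul_left, hτ.smul, smul_add, smul_comm]
  add_right x c c' := by
    simp only [trForm, Prod.fst_add, Prod.snd_add]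
    rw [hr.add_right, hτ.add, add_smul]
    abel
  smul_right z x c := by
    simp only [trForm, Prod.smul_fst, Prod.smul_snd]
    rw [hr.smul_right, hτ.smul, smul_add, smul_assoc]
  cont := by
    have h1 : Continuous (fun q : V × (ℂ × A) => q.2.1 • τ q.1) :=
      (continuous_fst.comp continuous_snd).smul (hτ.cont.comp continuous_fst)
    have h2 : Continuous (fun q : V × (ℂ × A) => τ (r q.1 q.2.2)) :=
      hτ.cont.comp (hr.cont.comp (continuous_fst.prodMk (continuous_snd.comp continuous_snd)))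
    exact h1.add h2

lemma trForm_bal_right {l : A → V → V} {r : V → A → V} {τ : V → Z} (hV : IsBimod l r)
    (hτ : IsContLin τ) (v : V) (a : A) (c : ℂ × A) :
    trForm r τ (r v a) c = trForm r τ v (plusMul (0, a) c) := by
  simp only [trForm, plusMul]
  rw [zero_mul, zero_smul, zero_smul, zero_add, zero_add, hV.right.bilin.add_right,
    hV.right.bilin.smul_right, hτ.add, hτ.smul, hV.right.mul]

lemma trForm_bal_left {l : A → V → V} {r : V → A → V} {τ : V → Z} (hV : IsBimod l r)
    (hτ : IsContLin τ) (htr : ∀ v a, τ (r v a) = τ (l a v)) (v : V) (a : A) (c : ℂ × A) :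
    trForm r τ (l a v) c = trForm r τ v (plusMul c (0, a)) := by
  simp only [trForm, plusMul]
  rw [mul_zero, zero_smul, zero_smul, zero_add, add_zero, hV.right.bilin.add_right,
    hV.right.bilin.smul_right, hτ.add, hτ.smul, hV.right.mul, htr v a, htr (r v c.2) a, hV.comm]

end trace

lemma plusMul_left_one {A : Type u} [NonUnitalRing A] [Module ℂ A] (a : A) :
    plusMul ((0 : ℂ), a) ((1 : ℂ), (0 : A)) = (0, a) := by
  simp [plusMul]

lemma plusMul_one_left {A : Type u} [NonUnitalRing A] [Module ℂ A] (a : A) :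
    plusMul ((1 : ℂ), (0 : A)) ((0 : ℂ), a) = (0, a) := by
  simp [plusMul]

theorem amenable_of_extend {A : Type u} [NonUnitalRing A] [Module ℂ A] [UniformSpace A]
    [IsPolyAlg A]
    (H : ∀ (V' V : Type u) [AddCommGroup V'] [Module ℂ V'] [UniformSpace V'] [IsPolynormed V']
      [AddCommGroup V] [Module ℂ V] [UniformSpace V] [IsPolynormed V]
      (l' : A → V' → V') (r' : V' → A → V') (l : A → V → V) (r : V → A → V)
      (i : V' → V) (p : V → V'),
      IsBimod l' r' → IsBimod l r → IsContLin i → IsContLin p →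
      (∀ v a, i (r' v a) = r (i v) a) → (∀ a v, i (l' a v) = l a (i v)) → (∀ v, p (i v) = v) →
      ∀ (Lam : Type u) (τ' : V' → lp (fun _ : Lam => ℂ) (⊤ : ℝ≥0∞)), IsContLin τ' →
        (∀ v a, τ' (r' v a) = τ' (l' a v)) →
        ∃ τ : V → lp (fun _ : Lam => ℂ) (⊤ : ℝ≥0∞), IsContLin τ ∧
          (∀ v a, τ (r v a) = τ (l a v)) ∧ ∀ v, τ (i v) = τ' v) : AmenableP A := by
  intro V' V V'' _ _ _ _ _ _ _ _ _ _ _ _ l' r' l r l'' r'' i jV hV' hV hV'' hadm hir hil hjr hjl
    T' T T'' _ _ _ _ _ _ _ _ _ _ _ _ t' t t'' ht' ht ht'' φ ψ hφ hψ hφt hψt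
  obtain ⟨p, s, hp, hs, hpi, hjs, hji, hdec⟩ := hadm.split
  have hi := hadm.lin_i
  have hj := hadm.lin_j
  -- part A
  have hind : IsClosedEmbedding φ := by
    apply isClosedEmbedding_of_seminorms hφ
    intro q' hq'
    obtain ⟨Lam, j, hjlin, hjn⟩ := exists_emb q' hq'
    let τ' : V' → lp (fun _ : Lam => ℂ) (⊤ : ℝ≥0∞) := fun v => j (t' v (1, 0))
    have hτ' : IsContLin τ' := by
      refine ⟨?_, ?_, ?_⟩
      · intro x y
        show j (t' (x + y) (1, 0)) = _
        rw [ht'.bilin.add_left, hjlin.add]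
      · intro c x
        show j (t' (c • x) (1, 0)) = _
        rw [ht'.bilin.smul_left, hjlin.smul]
      · exact hjlin.cont.comp (ht'.bilin.cont_left (1, 0))
    have htr' : ∀ v a, τ' (r' v a) = τ' (l' a v) := by
      intro v a
      show j (t' (r' v a) (1, 0)) = j (t' (l' a v) (1, 0))
      rw [ht'.bal_right, ht'.bal_left, plusMul_left_one, plusMul_one_left]
    obtain ⟨τ, hτ, htr, hτi⟩ := H V' V l' r' l r i p hV' hV hi hp hir hil hpi Lam τ' hτ' htr'
    obtain ⟨h, ⟨hh, hht⟩, -⟩ := ht.univ (lp (fun _ : Lam => ℂ) (⊤ : ℝ≥0∞)) (trForm r τ)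
      (trForm_bilin hV.right.bilin hτ) (trForm_bal_right hV hτ) (trForm_bal_left hV hτ htr)
    have hβ : IsContBilin (fun v c => j (t' v c)) := by
      refine ⟨?_, ?_, ?_, ?_, ?_⟩
      · intro x y c; rw [ht'.bilin.add_left, hjlin.add]
      · intro z x c; rw [ht'.bilin.smul_left, hjlin.smul]
      · intro x c c'; rw [ht'.bilin.add_right, hjlin.add]
      · intro z x c; rw [ht'.bilin.smul_right, hjlin.smul]
      · exact hjlin.cont.comp ht'.bilin.cont
    have huniq := ht'.univ (lp (fun _ : Lam => ℂ) (⊤ : ℝ≥0∞)) (fun v c => j (t' v c)) hβ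
      (fun v a c => by rw [ht'.bal_right]) (fun v a c => by rw [ht'.bal_left])
    have e1 : IsContLin (fun x => h (φ x)) :=
      ⟨fun x y => by rw [hφ.add, hh.add], fun c x => by rw [hφ.smul, hh.smul],
        hh.cont.comp hφ.cont⟩
    have e2 : ∀ v c, h (φ (t' v c)) = j (t' v c) := by
      intro v c
      rw [hφt, hht]
      show c.1 • τ (i v) + τ (r (i v) c.2) = _
      rw [hτi, ← hir, hτi]
      show c.1 • j (t' v (1, 0)) + j (t' (r' v c.2) (1, 0)) = _
      rw [ht'.bal_right, plusMul_left_one, ← hjlin.smul, ← hjlin.add, ← ht'.bilin.smul_right,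
        ← ht'.bilin.add_right]
      congr 2
      ext <;> simp
    have e3 : (fun x => h (φ x)) = j := huniq.unique ⟨e1, e2⟩ ⟨hjlin, fun _ _ => rfl⟩
    obtain ⟨q, hq, hqn⟩ := exists_seminorm_of_lin hh
    refine ⟨q, hq, fun x => ?_⟩
    rw [hqn, ← hjn]
    have : h (φ x) = j x := congrFun e3 x
    rw [this]
  -- composition is zero
  have hψφ : ∀ x, ψ (φ x) = 0 := by
    have huniq := ht'.univ T'' (fun _ _ => (0 : T'')) ⟨fun _ _ _ => by simp, fun _ _ _ => by simp,
      fun _ _ _ => by simp, fun _ _ _ => by simp, continuous_const⟩ (fun _ _ _ => rfl)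
      (fun _ _ _ => rfl)
    have e1 : IsContLin (fun x => ψ (φ x)) :=
      ⟨fun x y => by rw [hφ.add, hψ.add], fun c x => by rw [hφ.smul, hψ.smul],
        hψ.cont.comp hφ.cont⟩
    have e2 : ∀ v c, ψ (φ (t' v c)) = 0 := by
      intro v c
      rw [hφt, hψt, hji, ht''.bilin.zero_left]
    have e3 : (fun x => ψ (φ x)) = (fun _ => (0 : T'')) := huniq.unique ⟨e1, e2⟩
      ⟨⟨fun _ _ => by simp, fun _ _ => by simp, continuous_const⟩, fun _ _ => rfl⟩
    intro x
    exact congrFun e3 x
  -- part B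
  have hstrict : ∀ q : Seminorm ℂ T, Continuous q → (∀ x, q (φ x) = 0) →
      ∃ q'' : Seminorm ℂ T'', Continuous q'' ∧ ∀ t, q t ≤ q'' (ψ t) := by
    intro q hq hqφ
    obtain ⟨Lam, j, hjlin, hjn⟩ := exists_emb q hq
    have hj0 : ∀ w c, j (t (i w) c) = 0 := by
      intro w c
      rw [← norm_le_zero_iff, hjn, ← hφt, hqφ]
    have hsub : ∀ y y' c, j (t (y - y') c) = j (t y c) - j (t y' c) := by
      intro y y' c
      rw [ht.bilin.sub_left]
      exact map_sub hjlin.toCLM _ _
    have hred : ∀ y c, j (t (s (jV y)) c) = j (t y c) := by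
      intro y c
      have e : s (jV y) = y - i (p y) := by
        rw [eq_sub_iff_add_eq, add_comm]
        exact (hdec y).symm
      rw [e, hsub, hj0, sub_zero]
    have hβ : IsContBilin (fun v c => j (t (s v) c)) := by
      refine ⟨?_, ?_, ?_, ?_, ?_⟩
      · intro x y c; rw [hs.add, ht.bilin.add_left, hjlin.add]
      · intro z x c; rw [hs.smul, ht.bilin.smul_left, hjlin.smul]
      · intro x c c'; rw [ht.bilin.add_right, hjlin.add]
      · intro z x c; rw [ht.bilin.smul_right, hjlin.smul]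
      · exact hjlin.cont.comp (ht.bilin.cont.comp
          ((hs.cont.comp continuous_fst).prodMk continuous_snd))
    obtain ⟨ψ'', ⟨hψ'', hψ''t⟩, -⟩ := ht''.univ (lp (fun _ : Lam => ℂ) (⊤ : ℝ≥0∞))
      (fun v c => j (t (s v) c)) hβ
      (by
        intro v a c
        have e : r'' v a = jV (r (s v) a) := by rw [hjr, hjs]
        show j (t (s (r'' v a)) c) = j (t (s v) (plusMul (0, a) c))
        rw [e, hred, ht.bal_right])
      (by
        intro v a c
        have e : l'' a v = jV (l a (s v)) := by rw [hjl, hjs]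
        show j (t (s (l'' a v)) c) = j (t (s v) (plusMul c (0, a)))
        rw [e, hred, ht.bal_left])
    have hβ2 : IsContBilin (fun v c => j (t v c)) := by
      refine ⟨?_, ?_, ?_, ?_, ?_⟩
      · intro x y c; rw [ht.bilin.add_left, hjlin.add]
      · intro z x c; rw [ht.bilin.smul_left, hjlin.smul]
      · intro x c c'; rw [ht.bilin.add_right, hjlin.add]
      · intro z x c; rw [ht.bilin.smul_right, hjlin.smul]
      · exact hjlin.cont.comp ht.bilin.cont
    have huniq := ht.univ (lp (fun _ : Lam => ℂ) (⊤ : ℝ≥0∞)) (fun v c => j (t v c)) hβ2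
      (fun v a c => by rw [ht.bal_right]) (fun v a c => by rw [ht.bal_left])
    have e1 : IsContLin (fun x => ψ'' (ψ x)) :=
      ⟨fun x y => by rw [hψ.add, hψ''.add], fun c x => by rw [hψ.smul, hψ''.smul],
        hψ''.cont.comp hψ.cont⟩
    have e2 : ∀ v c, ψ'' (ψ (t v c)) = j (t v c) := by
      intro v c
      rw [hψt, hψ''t, hred]
    have e3 : (fun x => ψ'' (ψ x)) = j := huniq.unique ⟨e1, e2⟩ ⟨hjlin, fun _ _ => rfl⟩
    obtain ⟨q'', hq'', hqn⟩ := exists_seminorm_of_lin hψ''
    refine ⟨q'', hq'', fun x => ?_⟩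
    rw [hqn, ← hjn]
    have : ψ'' (ψ x) = j x := congrFun e3 x
    rw [this]
  refine ⟨hind, ?_, ?_, ?_⟩
  · apply Set.Subset.antisymm
    · rintro _ ⟨x, rfl⟩
      exact hψφ x
    · intro x hx
      by_contra hxr
      let R : Submodule ℂ T := LinearMap.range hφ.toCLM.toLinearMap
      have hRc : IsClosed (R : Set T) := by
        have : (R : Set T) = Set.range φ := by
          ext y; exact Iff.rfl
        rw [this]
        exact hind.isClosed_range
      have hxR : x ∉ R := hxr
      obtain ⟨q, hq, hqR, hqx⟩ := exists_seminorm_separating hRc hxR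
      obtain ⟨q'', hq'', hle⟩ := hstrict q hq (fun y => hqR _ ⟨y, rfl⟩)
      have h1 := hle x
      have hx' : ψ x = 0 := hx
      rw [hx', map_zero] at h1
      exact hqx (le_antisymm h1 (apply_nonneg q x))
  · let R : Submodule ℂ T'' := (LinearMap.range hψ.toCLM.toLinearMap).topologicalClosure
    have hRc : IsClosed (R : Set T'') := Submodule.isClosed_topologicalClosure _
    intro x
    by_contra hxc
    have hxR : x ∉ R := by
      intro hxR
      apply hxc
      have : (R : Set T'') = closure (Set.range ψ) := by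
        rw [Submodule.topologicalClosure_coe]
        rfl
      rw [← this]
      exact hxR
    obtain ⟨q, hq, hqR, hqx⟩ := exists_seminorm_separating hRc hxR
    obtain ⟨Lam, j, hjlin, hjn⟩ := exists_emb q hq
    have huniq := ht''.univ (lp (fun _ : Lam => ℂ) (⊤ : ℝ≥0∞))
      (fun _ _ => (0 : lp (fun _ : Lam => ℂ) (⊤ : ℝ≥0∞)))
      ⟨fun _ _ _ => by simp, fun _ _ _ => by simp,
      fun _ _ _ => by simp, fun _ _ _ => by simp, continuous_const⟩ (fun _ _ _ => rfl)
      (fun _ _ _ => rfl)
    have e2 : ∀ v c, j (t'' v c) = 0 := by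
      intro v c
      rw [← norm_le_zero_iff, hjn]
      have e : t'' v c = ψ (t (s v) c) := by rw [hψt, hjs]
      rw [e]
      exact (hqR _ (Submodule.le_topologicalClosure _ ⟨t (s v) c, rfl⟩)).le
    have e3 : j = (fun _ => (0 : lp (fun _ : Lam => ℂ) (⊤ : ℝ≥0∞))) := huniq.unique ⟨hjlin, e2⟩
      ⟨⟨fun _ _ => by simp, fun _ _ => by simp, continuous_const⟩, fun _ _ => rfl⟩
    apply hqx
    rw [← hjn, e3]
    simp
  · intro q hq hqk
    exact hstrict q hq (fun x => hqk _ (hψφ x))

end Pool.Agent.Helper832.PN
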