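import Mathlib
import Pool.Agent.Helper832.PNa
import Pool.Agent.Helper832.PNb
import Pool.Agent.Helper832.PNc
import Pool.Agent.Helper832.PNd
import Pool.Agent.Helper832.PNxa
import Pool.Agent.Helper832.PNxb

/-!
Existence of completed tensor products over an algebra, and extension of balanced bilinear maps
from flatness.
-/

set_option autoImplicit false

namespace Pool.Agent.Helper832.PN

open Topology Filter UniformSpace
open scoped ENNReal

universe u

noncomputable section

section Sep

variable {T : Type u} [AddCommGroup T] [Module ℂ T] [UniformSpace T] [IsPolynormed T]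

/-- continuous seminorms separate points -/
lemma eq_zero_of_seminorms {z : T} (h : ∀ p : Seminorm ℂ T, Continuous p → p z = 0) : z = 0 := by
  by_contra hz
  have hU : {x : T | x ≠ z} ∈ 𝓝 (0 : T) := isOpen_ne.mem_nhds (Ne.symm hz)
  obtain ⟨p, hp, hpU⟩ := exists_seminorm_of_mem_nhds hU
  have := hpU z (by rw [h p hp]; exact one_pos)
  exact this rfl

end Sep

section Model

variable {A X Y : Type u}
  [AddCommGroup X] [Module ℂ X] [UniformSpace X] [IsPolynormed X]
  [AddCommGroup Y] [Module ℂ Y] [UniformSpace Y] [IsPolynormed Y]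

/-- continuous seminorms on the algebraic tensor product which kill the balancing relations -/
def BalIdx (r : Y → A → Y) (l : A → X → X) : Type u :=
  {R : Seminorm ℂ (AlgT Y X) // Continuous R ∧ ∀ y a x, R (tm (r y a) x - tm y (l a x)) = 0}

/-- the algebraic tensor product with the topology of the balanced projective seminorms -/
def BalT (_r : Y → A → Y) (_l : A → X → X) : Type u := AlgT Y X

variable (r : Y → A → Y) (l : A → X → X)

instance : AddCommGroup (BalT r l) := inferInstanceAs (AddCommGroup (AlgT Y X))

instance : Module ℂ (BalT r l) := inferInstanceAs (Module ℂ (AlgT Y X))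

/-- the identity map -/
def toBal : AlgT Y X →ₗ[ℂ] BalT r l := LinearMap.id

/-- the balanced family -/
def balFam : SeminormFamily ℂ (BalT r l) (BalIdx r l) := fun i => i.1

instance : Nonempty (BalIdx r l) :=
  ⟨⟨0, show Continuous (fun _ : AlgT Y X => (0 : ℝ)) from continuous_const, fun _ _ _ => rfl⟩⟩

instance : TopologicalSpace (BalT r l) := (balFam r l).moduleFilterBasis.topology

omit [IsPolynormed X] [IsPolynormed Y] in
lemma balT_withSeminorms : WithSeminorms (balFam r l) := ⟨rfl⟩

instance : IsTopologicalAddGroup (BalT r l) := (balT_withSeminorms r l).topologicalAddGroup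

instance : ContinuousSMul ℂ (BalT r l) := (balT_withSeminorms r l).continuousSMul

instance : PolynormableSpace ℂ (BalT r l) := (balT_withSeminorms r l).toPolynormableSpace

instance : UniformSpace (BalT r l) := IsTopologicalAddGroup.rightUniformSpace (BalT r l)

instance : IsUniformAddGroup (BalT r l) := isUniformAddGroup_of_addCommGroup

instance : UniformContinuousConstSMul ℂ (BalT r l) :=
  uniformContinuousConstSMul_of_continuousConstSMul ℂ (BalT r l)

omit [IsPolynormed X] [IsPolynormed Y] in
lemma toBal_continuous : Continuous (toBal r l) := by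
  apply WithSeminorms.continuous_of_continuous_comp (balT_withSeminorms r l)
  intro i
  exact i.2.1

/-- The completed tensor product over the algebra. -/
def PB : Type u := UniformSpace.Completion (BalT r l)

instance : AddCommGroup (PB r l) :=
  inferInstanceAs (AddCommGroup (UniformSpace.Completion (BalT r l)))

instance : Module ℂ (PB r l) :=
  inferInstanceAs (Module ℂ (UniformSpace.Completion (BalT r l)))

instance : UniformSpace (PB r l) :=
  inferInstanceAs (UniformSpace (UniformSpace.Completion (BalT r l)))

instance : IsPolynormed (PB r l) := isPolynormed_completion (E := BalT r l)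

/-- the canonical map -/
def cb : BalT r l →L[ℂ] PB r l where
  toFun := fun z => UniformSpace.Completion.coe' z
  map_add' := fun x y => UniformSpace.Completion.coe_add x y
  map_smul' := fun c x => UniformSpace.Completion.coe_smul c x
  cont := UniformSpace.Completion.continuous_coe (BalT r l)

/-- Elementary tensors -/
def pb (y : Y) (x : X) : PB r l := cb r l (toBal r l (tm y x))

lemma pb_isContBilin : IsContBilin (pb r l) where
  add_left x x' y := by
    unfold pb
    rw [tm_add_left, map_add, map_add]
  smul_left c x y := by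
    unfold pb
    rw [tm_smul_left, map_smul, map_smul]
  add_right x y y' := by
    unfold pb
    rw [tm_add_right, map_add, map_add]
  smul_right c x y := by
    unfold pb
    rw [tm_smul_right, map_smul, map_smul]
  cont := (cb r l).continuous.comp ((toBal_continuous r l).comp tm_isContBilin.cont)

omit [IsPolynormed X] [IsPolynormed Y] in
lemma pb_bal (y : Y) (a : A) (x : X) : pb r l (r y a) x = pb r l y (l a x) := by
  rw [← sub_eq_zero]
  have e : pb r l (r y a) x - pb r l y (l a x) =
      cb r l (toBal r l (tm (r y a) x - tm y (l a x))) := by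
    unfold pb
    rw [map_sub, map_sub]
  rw [e]
  apply eq_zero_of_seminorms
  intro p hp
  have hc : Continuous (p.comp (cb r l).toLinearMap) := hp.comp (cb r l).continuous
  obtain ⟨s, C, hC, hs⟩ := Seminorm.bound_of_continuous (balT_withSeminorms r l) _ hc
  have h1 := hs (toBal r l (tm (r y a) x - tm y (l a x)))
  have h2 : ∀ s : Finset (BalIdx r l),
      s.sup (balFam r l) (toBal r l (tm (r y a) x - tm y (l a x))) = 0 := by
    intro s
    apply le_antisymm _ (apply_nonneg _ _)
    apply Seminorm.finset_sup_apply_le le_rfl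
    intro i _
    exact (i.2.2 y a x).le
  have h3 : (C • s.sup (balFam r l)) (toBal r l (tm (r y a) x - tm y (l a x))) = 0 := by
    show (C : ℝ) * _ = 0
    rw [h2, mul_zero]
  rw [h3] at h1
  exact le_antisymm h1 (apply_nonneg _ _)

variable {r l}
variable {Z : Type u} [AddCommGroup Z] [Module ℂ Z] [UniformSpace Z] [IsPolynormed Z]

lemma balLift_continuous {β : Y → X → Z} (h : IsContBilin β)
    (hb : ∀ y a x, β (r y a) x = β y (l a x)) :
    Continuous (fun z : BalT r l => algLift h.toLin z) := by
  apply continuous_lin_of_bound (X := BalT r l) (Z := Z) (fun x x' => map_add (algLift h.toLin) x x')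
  intro ρ hρ
  have hc : Continuous (ρ.comp (algLift h.toLin)) := hρ.comp (algLift_continuous h)
  have hk : ∀ y a x, ρ.comp (algLift h.toLin) (tm (r y a) x - tm y (l a x)) = 0 := by
    intro y a x
    rw [Seminorm.comp_apply, map_sub, algLift_tm, algLift_tm, h.toLin_apply, h.toLin_apply, hb,
      sub_self, map_zero]
  refine ⟨balFam r l ⟨ρ.comp (algLift h.toLin), hc, hk⟩,
    (balT_withSeminorms r l).continuous_seminorm _, fun x => le_rfl⟩

omit [IsPolynormed X] [IsPolynormed Y] in
lemma pb_closure {P : PB r l → Prop} (hP : IsClosed {z | P z}) (zero : P 0)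
    (hpt : ∀ y x, P (pb r l y x)) (add : ∀ a b, P a → P b → P (a + b)) (z : PB r l) : P z := by
  refine UniformSpace.Completion.induction_on (α := BalT r l) (p := P) z hP ?_
  intro a
  refine algT_induction (P := fun a => P (cb r l (toBal r l a))) a ?_ hpt ?_
  · rwa [map_zero, map_zero]
  · intro a b ha hb
    rw [map_add, map_add]
    exact add _ _ ha hb

theorem isTensorOver_pb {A X Y : Type u} [NonUnitalRing A] [Module ℂ A] [UniformSpace A]
    [AddCommGroup X] [Module ℂ X] [UniformSpace X] [IsPolynormed X]
    [AddCommGroup Y] [Module ℂ Y] [UniformSpace Y] [IsPolynormed Y]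
    (r : Y → A → Y) (l : A → X → X) : IsTensorOver r l (pb r l) := by
  refine ⟨pb_isContBilin r l, pb_bal r l, ?_⟩
  intro Z _ _ _ _ β hβ hbal
  have hu : UniformContinuousConstSMul ℂ Z := uniformContinuousConstSMul_of_continuousConstSMul ℂ Z
  let f : BalT r l →L[ℂ] Z :=
    { toFun := fun z => algLift hβ.toLin z
      map_add' := fun x y => map_add (algLift hβ.toLin) x y
      map_smul' := fun c x => map_smul (algLift hβ.toLin) c x
      cont := balLift_continuous hβ hbal }
  let F : PB r l →L[ℂ] Z := ContinuousLinearMap.fromCompletion f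
  have hF : ∀ y x, F (pb r l y x) = β y x := by
    intro y x
    have h1 : F (pb r l y x) = f (toBal r l (tm y x)) :=
      ContinuousLinearMap.fromCompletion_apply_coe f _
    rw [h1]
    exact algLift_tm _ _ _
  refine ⟨fun z => F z, ⟨isContLin_clm F, hF⟩, ?_⟩
  rintro ψ ⟨hψ, hψ2⟩
  funext z
  refine pb_closure (P := fun z => ψ z = F z) (isClosed_eq hψ.cont F.continuous) ?_ ?_ ?_ z
  · rw [map_zero]; exact map_zero hψ.toCLM
  · intro y x
    rw [hψ2, hF]
  · intro a b ha hb
    rw [hψ.add, map_add, ha, hb]

end Model

section Extend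

variable {Y : Type u} [AddCommGroup Y] [Module ℂ Y] [UniformSpace Y] [IsPolynormed Y]

/-- closed subspaces of polynormed spaces are polynormed -/
lemma isPolynormed_submodule (S : Submodule ℂ Y) (hS : IsClosed (S : Set Y)) :
    IsPolynormed S where
  uniformAddGroup := inferInstanceAs (IsUniformAddGroup S.toAddSubgroup)
  continuousSMul := inferInstance
  polynormable := inferInstance
  t2 := inferInstance
  complete := hS.completeSpace_coe

/-- **Flatness extends balanced maps with values in bounded families.** -/
theorem flat_extend {A X : Type u} [NonUnitalRing A] [Module ℂ A] [UniformSpace A] [IsPolyAlg A]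
    [AddCommGroup X] [Module ℂ X] [UniformSpace X] [IsPolynormed X] {l : A → X → X}
    (hflat : FlatLeft l)
    {Y' Y : Type u} [AddCommGroup Y'] [Module ℂ Y'] [UniformSpace Y'] [IsPolynormed Y']
    [AddCommGroup Y] [Module ℂ Y] [UniformSpace Y] [IsPolynormed Y]
    {r' : Y' → A → Y'} {r : Y → A → Y} (hr' : IsRightMod r') (hr : IsRightMod r)
    {i : Y' → Y} {p : Y → Y'} (hi : IsContLin i) (hp : IsContLin p)
    (hir : ∀ y a, i (r' y a) = r (i y) a) (hpi : ∀ y, p (i y) = y)
    {Lam : Type u} {b' : Y' → X → lp (fun _ : Lam => ℂ) (⊤ : ℝ≥0∞)} (hb' : IsContBilin b')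
    (hbal : ∀ y a x, b' (r' y a) x = b' y (l a x)) :
    ∃ b : Y → X → lp (fun _ : Lam => ℂ) (⊤ : ℝ≥0∞), IsContBilin b ∧
      (∀ y a x, b (r y a) x = b y (l a x)) ∧ ∀ y x, b (i y) x = b' y x := by
  -- the complement
  let S : Submodule ℂ Y := LinearMap.ker hp.toCLM.toLinearMap
  have hS : ∀ y, y ∈ S ↔ p y = 0 := fun y => Iff.rfl
  have hScl : IsClosed (S : Set Y) := isClosed_eq hp.cont continuous_const
  have : IsPolynormed S := isPolynormed_submodule S hScl
  let pi : Y →L[ℂ] Y := ContinuousLinearMap.id ℂ Y - hi.toCLM.comp hp.toCLM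
  have hpi1 : ∀ y, pi y = y - i (p y) := fun y => rfl
  have hpiS : ∀ y, pi y ∈ S := by
    intro y
    rw [hS, hpi1]
    have : p (y - i (p y)) = p y - p (i (p y)) := map_sub hp.toCLM _ _
    rw [this, hpi, sub_self]
  have hpii : ∀ y, pi (i y) = 0 := by
    intro y
    rw [hpi1, hpi, sub_self]
  have hpisub : ∀ x y, pi (x - y) = pi x - pi y := fun x y => map_sub pi x y
  let r'' : S → A → S := fun y a => ⟨pi (r (y : Y) a), hpiS _⟩
  let j : Y → S := fun y => ⟨pi y, hpiS y⟩
  have hrsub : ∀ x y a, r (x - y) a = r x a - r y a := fun x y a => hr.bilin.sub_left x y a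
  have key : ∀ y a, pi (r (pi y) a) = pi (r y a) := by
    intro y a
    rw [hpi1 y, hrsub, hpisub, ← hir, hpii, sub_zero]
  have hr'' : IsRightMod r'' := by
    refine ⟨⟨?_, ?_, ?_, ?_, ?_⟩, ?_⟩
    · intro x x' a
      apply Subtype.ext
      show pi (r ((x : Y) + x') a) = pi (r x a) + pi (r x' a)
      rw [hr.bilin.add_left, map_add]
    · intro c x a
      apply Subtype.ext
      show pi (r (c • (x : Y)) a) = c • pi (r x a)
      rw [hr.bilin.smul_left, map_smul]
    · intro x a a'
      apply Subtype.ext
      show pi (r (x : Y) (a + a')) = pi (r x a) + pi (r x a')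
      rw [hr.bilin.add_right, map_add]
    · intro c x a
      apply Subtype.ext
      show pi (r (x : Y) (c • a)) = c • pi (r x a)
      rw [hr.bilin.smul_right, map_smul]
    · apply Continuous.subtype_mk
      exact pi.continuous.comp (hr.bilin.cont.comp
        ((continuous_subtype_val.comp continuous_fst).prodMk continuous_snd))
    · intro y a b
      apply Subtype.ext
      show pi (r (y : Y) (a * b)) = pi (r (pi (r (y : Y) a)) b)
      rw [key, hr.mul]
  have hjlin : IsContLin j := by
    refine ⟨?_, ?_, ?_⟩
    · intro x y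
      apply Subtype.ext
      exact map_add pi x y
    · intro c x
      apply Subtype.ext
      exact map_smul pi c x
    · exact Continuous.subtype_mk pi.continuous _
  have hadm : IsAdmissible i j := by
    refine ⟨hi, hjlin, p, fun y => (y : Y), hp, ⟨fun _ _ => rfl, fun _ _ => rfl,
      continuous_subtype_val⟩, hpi, ?_, ?_, ?_⟩
    · intro y
      apply Subtype.ext
      show pi (y : Y) = y
      have h0 : p (y : Y) = 0 := y.2
      have h1 : i 0 = 0 := map_zero hi.toCLM
      rw [hpi1, h0, h1, sub_zero]
    · intro y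
      apply Subtype.ext
      exact hpii y
    · intro y
      show y = i (p y) + pi y
      rw [hpi1]
      abel
  have hjr : ∀ y a, j (r y a) = r'' (j y) a := by
    intro y a
    apply Subtype.ext
    show pi (r y a) = pi (r (pi y) a)
    rw [key]
  -- the tensor products
  have ht' := isTensorOver_pb r' l
  have ht := isTensorOver_pb r l
  have ht'' := isTensorOver_pb r'' l
  obtain ⟨φ, ⟨hφ, hφt⟩, -⟩ := ht'.univ (PB r l) (fun y x => pb r l (i y) x)
    ⟨fun x x' y => by rw [hi.add, ht.bilin.add_left], fun c x y => by
      rw [hi.smul, ht.bilin.smul_left], fun x y y' => ht.bilin.add_right _ _ _,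
      fun c x y => ht.bilin.smul_right _ _ _,
      ht.bilin.cont.comp ((hi.cont.comp continuous_fst).prodMk continuous_snd)⟩
    (fun y a x => by rw [hir, ht.bal])
  obtain ⟨ψ, ⟨hψ, hψt⟩, -⟩ := ht.univ (PB r'' l) (fun y x => pb r'' l (j y) x)
    ⟨fun x x' y => by rw [hjlin.add, ht''.bilin.add_left], fun c x y => by
      rw [hjlin.smul, ht''.bilin.smul_left], fun x y y' => ht''.bilin.add_right _ _ _,
      fun c x y => ht''.bilin.smul_right _ _ _,
      ht''.bilin.cont.comp ((hjlin.cont.comp continuous_fst).prodMk continuous_snd)⟩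
    (fun y a x => by rw [hjr, ht''.bal])
  have hex := hflat Y' Y S r' r r'' i j hr' hr hr'' hadm hir hjr (PB r' l) (PB r l) (PB r'' l)
    (pb r' l) (pb r l) (pb r'' l) ht' ht ht'' φ ψ hφ hψ hφt hψt
  obtain ⟨g, ⟨hg, hgt⟩, -⟩ := ht'.univ (lp (fun _ : Lam => ℂ) (⊤ : ℝ≥0∞)) b' hb' hbal
  obtain ⟨q', hq', hqg⟩ := exists_seminorm_of_lin hg
  obtain ⟨q, hq, hqq⟩ := exists_le_of_isInducing hφ hex.closedEmbedding.isInducing hq'
  obtain ⟨G, hG, hGφ⟩ := exists_lp_extension hφ hg hq (fun x => by rw [← hqg]; exact hqq x)
  refine ⟨fun y x => G (pb r l y x), ⟨?_, ?_, ?_, ?_, ?_⟩, ?_, ?_⟩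
  · intro x x' y
    rw [ht.bilin.add_left, hG.add]
  · intro c x y
    rw [ht.bilin.smul_left, hG.smul]
  · intro x y y'
    rw [ht.bilin.add_right, hG.add]
  · intro c x y
    rw [ht.bilin.smul_right, hG.smul]
  · exact hG.cont.comp ht.bilin.cont
  · intro y a x
    show G (pb r l (r y a) x) = G (pb r l y (l a x))
    rw [ht.bal]
  · intro y x
    show G (pb r l (i y) x) = b' y x
    rw [← hφt, hGφ, hgt]

end Extend

end

end Pool.Agent.Helper832.PN
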