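import Mathlib
import Pool.Agent.Helper832.PNi
import Pool.Agent.Helper832.PNxc

/-!
The unitization and the core theorem for polynormed algebras.
-/

set_option autoImplicit false
set_option linter.unusedSectionVars false
set_option linter.unusedVariables false

namespace Pool.Agent.Helper832.PN

open Filter Topology
open scoped ENNReal

universe u

noncomputable section

section Unit

variable (A : Type u) [NonUnitalRing A] [Module ℂ A] [UniformSpace A] [IsPolyAlg A]

lemma isScalarTower_of_poly : IsScalarTower ℂ A A :=
  ⟨fun c a b => (IsPolyAlg.mul_bilin (A := A)).smul_left c a b⟩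

lemma smulCommClass_of_poly : SMulCommClass ℂ A A :=
  ⟨fun c a b => ((IsPolyAlg.mul_bilin (A := A)).smul_right c a b).symm⟩

/-- The unitization. -/
def UA : Type u := ℂ × A

instance : AddCommGroup (UA A) := inferInstanceAs (AddCommGroup (ℂ × A))

instance : Module ℂ (UA A) := inferInstanceAs (Module ℂ (ℂ × A))

instance : UniformSpace (UA A) := inferInstanceAs (UniformSpace (ℂ × A))

instance isPolynormed_C : IsPolynormed ℂ where
  uniformAddGroup := inferInstance
  continuousSMul := inferInstance
  polynormable := inferInstance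
  t2 := inferInstance
  complete := inferInstance

lemma isPolynormed_prod0 {X : Type} {Y : Type u} [AddCommGroup X] [Module ℂ X] [UniformSpace X]
    [IsPolynormed X] [AddCommGroup Y] [Module ℂ Y] [UniformSpace Y] [IsPolynormed Y] :
    IsPolynormed (X × Y) where
  uniformAddGroup := inferInstance
  continuousSMul := inferInstance
  polynormable := inferInstance
  t2 := inferInstance
  complete := inferInstance

instance isPolynormed_UA0 : IsPolynormed (UA A) := isPolynormed_prod0 (X := ℂ) (Y := A)

variable {A}

/-- First coordinate. -/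
def ufst (b : UA A) : ℂ := Prod.fst b

/-- Second coordinate. -/
def usnd (b : UA A) : A := Prod.snd b

/-- The embedding. -/
def uinr (a : A) : UA A := ((0 : ℂ), a)

lemma ufst_lin : IsContLin (ufst : UA A → ℂ) :=
  ⟨fun _ _ => rfl, fun _ _ => rfl, continuous_fst⟩

lemma usnd_lin : IsContLin (usnd : UA A → A) :=
  ⟨fun _ _ => rfl, fun _ _ => rfl, continuous_snd⟩

lemma ext_UA {b c : UA A} (h1 : ufst b = ufst c) (h2 : usnd b = usnd c) : b = c :=
  Prod.ext h1 h2

@[simp] lemma ufst_uinr (a : A) : ufst (uinr a) = 0 := rfl

@[simp] lemma usnd_uinr (a : A) : usnd (uinr a) = a := rfl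

lemma uinr_lin : IsContLin (uinr : A → UA A) := by
  refine ⟨fun a a' => ?_, fun c a => ?_, ?_⟩
  · apply ext_UA
    · rw [ufst_lin.add, ufst_uinr, ufst_uinr, ufst_uinr, add_zero]
    · rw [usnd_lin.add, usnd_uinr, usnd_uinr, usnd_uinr]
  · apply ext_UA
    · rw [ufst_lin.smul, ufst_uinr, ufst_uinr, smul_zero]
    · rw [usnd_lin.smul, usnd_uinr, usnd_uinr]
  · exact continuous_const.prodMk continuous_id

instance : Mul (UA A) :=
  ⟨fun x y => (ufst x * ufst y, ufst x • usnd y + ufst y • usnd x + usnd x * usnd y)⟩

instance : One (UA A) := ⟨((1 : ℂ), (0 : A))⟩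

lemma ufst_mul (b c : UA A) : ufst (b * c) = ufst b * ufst c := rfl

lemma usnd_mul (b c : UA A) : usnd (b * c) = ufst b • usnd c + ufst c • usnd b + usnd b * usnd c :=
  rfl

@[simp] lemma ufst_one : ufst (1 : UA A) = 1 := rfl

@[simp] lemma usnd_one : usnd (1 : UA A) = 0 := rfl

lemma ufst_zero : ufst (0 : UA A) = 0 := rfl

lemma usnd_zero : usnd (0 : UA A) = 0 := rfl

instance : Ring (UA A) :=
  { (inferInstance : AddCommGroup (UA A)), (inferInstance : Mul (UA A)),
    (inferInstance : One (UA A)) with
    left_distrib := by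
      intro a b c
      apply ext_UA
      · rw [ufst_lin.add, ufst_mul, ufst_mul, ufst_mul, ufst_lin.add, mul_add]
      · rw [usnd_lin.add, usnd_mul, usnd_mul, usnd_mul, ufst_lin.add, usnd_lin.add, mul_add,
          add_smul, smul_add]
        abel
    right_distrib := by
      intro a b c
      apply ext_UA
      · rw [ufst_lin.add, ufst_mul, ufst_mul, ufst_mul, ufst_lin.add, add_mul]
      · rw [usnd_lin.add, usnd_mul, usnd_mul, usnd_mul, ufst_lin.add, usnd_lin.add, add_mul,
          add_smul, smul_add]
        abel
    zero_mul := by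
      intro a
      apply ext_UA
      · rw [ufst_mul, ufst_zero, zero_mul]
      · rw [usnd_mul, ufst_zero, usnd_zero, zero_mul, zero_smul, smul_zero, add_zero, add_zero]
    mul_zero := by
      intro a
      apply ext_UA
      · rw [ufst_mul, ufst_zero, mul_zero]
      · rw [usnd_mul, ufst_zero, usnd_zero, mul_zero, zero_smul, smul_zero, add_zero, add_zero]
    one_mul := by
      intro a
      apply ext_UA
      · rw [ufst_mul, ufst_one, one_mul]
      · rw [usnd_mul, ufst_one, usnd_one, zero_mul, one_smul, smul_zero, add_zero, add_zero]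
    mul_one := by
      intro a
      apply ext_UA
      · rw [ufst_mul, ufst_one, mul_one]
      · rw [usnd_mul, ufst_one, usnd_one, mul_zero, one_smul, smul_zero, zero_add, add_zero]
    mul_assoc := by
      intro a b c
      have h1 := isScalarTower_of_poly A
      have h2 := smulCommClass_of_poly A
      apply ext_UA
      · rw [ufst_mul, ufst_mul, ufst_mul, ufst_mul, mul_assoc]
      · rw [usnd_mul, usnd_mul, ufst_mul, usnd_mul, usnd_mul, ufst_mul, mul_add, mul_add,
          add_mul, add_mul, smul_add, smul_add, smul_add, smul_add, smul_mul_assoc,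
          smul_mul_assoc, mul_smul_comm, mul_smul_comm, mul_assoc, smul_smul, smul_smul,
          smul_smul, smul_smul, mul_comm (ufst c) (ufst a), mul_comm (ufst c) (ufst b)]
        abel
    zsmul := fun n x => n • x
    neg_add_cancel := neg_add_cancel }

instance : Algebra ℂ (UA A) := Algebra.ofModule
  (by
    intro c x y
    have h1 := isScalarTower_of_poly A
    apply ext_UA
    · rw [ufst_mul, ufst_lin.smul, ufst_lin.smul, ufst_mul, smul_mul_assoc]
    · rw [usnd_mul, usnd_lin.smul, usnd_lin.smul, usnd_mul, ufst_lin.smul, smul_mul_assoc,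
        smul_add, smul_add, smul_assoc, smul_comm c (ufst y)])
  (by
    intro c x y
    have h1 := smulCommClass_of_poly A
    apply ext_UA
    · rw [ufst_mul, ufst_lin.smul, ufst_lin.smul, ufst_mul, mul_smul_comm]
    · rw [usnd_mul, usnd_lin.smul, usnd_lin.smul, usnd_mul, ufst_lin.smul, mul_smul_comm,
        smul_add, smul_add, smul_assoc, smul_comm c (ufst x)])

instance isPolynormed_UA : IsPolynormed (UA A) := isPolynormed_UA0 A

lemma uinr_mul (a b : A) : uinr (a * b) = uinr a * uinr b := by
  apply ext_UA
  · rw [ufst_mul, ufst_uinr, ufst_uinr, zero_mul]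
  · rw [usnd_mul, ufst_uinr, ufst_uinr, usnd_uinr, usnd_uinr, usnd_uinr, zero_smul, zero_smul,
      zero_add, zero_add]

lemma umul_bilin : IsContBilin (fun b c : UA A => b * c) where
  add_left b b' c := add_mul b b' c
  smul_left c b b' := smul_mul_assoc c b b'
  add_right b c c' := mul_add b c c'
  smul_right c b b' := mul_smul_comm c b b'
  cont := by
    have hm := (IsPolyAlg.mul_bilin (A := A)).cont
    have h1 : Continuous (fun q : UA A × UA A => ufst q.1) := ufst_lin.cont.comp continuous_fst
    have h2 : Continuous (fun q : UA A × UA A => ufst q.2) := ufst_lin.cont.comp continuous_snd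
    have h3 : Continuous (fun q : UA A × UA A => usnd q.1) := usnd_lin.cont.comp continuous_fst
    have h4 : Continuous (fun q : UA A × UA A => usnd q.2) := usnd_lin.cont.comp continuous_snd
    have h5 : Continuous (fun q : UA A × UA A => usnd q.1 * usnd q.2) := hm.comp (h3.prodMk h4)
    show Continuous (fun q : UA A × UA A => ((ufst q.1 * ufst q.2,
      ufst q.1 • usnd q.2 + ufst q.2 • usnd q.1 + usnd q.1 * usnd q.2) : ℂ × A))
    exact (h1.mul h2).prodMk (((h1.smul h4).add (h2.smul h3)).add h5)

end Unit

/-- The core theorem: if all left modules over `A` are flat then all derivations into duals are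
inner, for duals with values in bounded functions. -/
theorem core {A : Type u} [NonUnitalRing A] [Module ℂ A] [UniformSpace A] [IsPolyAlg A]
    (hflat : ∀ (X : Type u) [AddCommGroup X] [Module ℂ X] [UniformSpace X] [IsPolynormed X]
      (l : A → X → X), IsLeftMod l → FlatLeft l)
    (V : Type u) [AddCommGroup V] [Module ℂ V] [UniformSpace V] [IsPolynormed V]
    (l : A → V → V) (r : V → A → V) (hV : IsBimod l r) (Lam : Type u)
    (D : A → V → lp (fun _ : Lam => ℂ) (⊤ : ℝ≥0∞)) (hD : IsContBilin D)
    (hDm : ∀ a b v, D (a * b) v = D b (r v a) + D a (l b v)) :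
    ∃ Φ : V → lp (fun _ : Lam => ℂ) (⊤ : ℝ≥0∞), IsContLin Φ ∧
      ∀ a v, D a v = Φ (r v a) - Φ (l a v) := by
  have hext : ∀ (X : Type u) [AddCommGroup X] [Module ℂ X] [UniformSpace X] [IsPolynormed X]
      (l : A → X → X), IsLeftMod l → ExtProp l Lam := by
    intro X _ _ _ _ l hl Y' Y _ _ _ _ _ _ _ _ r' r i p hr' hr hi hp hir hpi b' hb' hbal
    exact flat_extend (hflat X l hl) hr' hr hi hp hir hpi hb' hbal
  let LB : UA A → V → V := fun b v => ufst b • v + l (usnd b) v
  have hLB : IsContBilin LB := by
    refine isContBilin_add ?_ (hV.left.bilin.comp_lin usnd_lin isContLin_id)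
    refine ⟨?_, ?_, ?_, ?_, ?_⟩
    · intro b b' v
      rw [ufst_lin.add, add_smul]
    · intro c b v
      rw [ufst_lin.smul, smul_assoc]
    · intro b v v'
      rw [smul_add]
    · intro c b v
      rw [smul_comm]
    · exact (ufst_lin.cont.comp continuous_fst).smul continuous_snd
  refine inner_P hext umul_bilin uinr uinr_lin uinr_mul l r hV LB hLB ?_ ?_ ?_ ?_ hD hDm
  · intro v
    show ufst (1 : UA A) • v + l (usnd (1 : UA A)) v = v
    rw [ufst_one, usnd_one, one_smul, hV.left.bilin.zero_left, add_zero]
  · intro b c v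
    show ufst (b * c) • v + l (usnd (b * c)) v =
      ufst b • (ufst c • v + l (usnd c) v) + l (usnd b) (ufst c • v + l (usnd c) v)
    rw [ufst_mul, usnd_mul, hV.left.bilin.add_left, hV.left.bilin.add_left,
      hV.left.bilin.smul_left, hV.left.bilin.smul_left, hV.left.mul, hV.left.bilin.add_right,
      hV.left.bilin.smul_right, smul_add, smul_smul]
    abel
  · intro a v
    show ufst (uinr a) • v + l (usnd (uinr a)) v = l a v
    rw [ufst_uinr, usnd_uinr, zero_smul, zero_add]
  · intro b v a
    show r (ufst b • v + l (usnd b) v) a = ufst b • r v a + l (usnd b) (r v a)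
    rw [hV.right.bilin.add_left, hV.right.bilin.smul_left, hV.comm]

end

end Pool.Agent.Helper832.PN
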