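import Mathlib
import Pool.Agent.Helper832.PNf
import Pool.Agent.Helper832.PNg
import Pool.Agent.Helper832.PNe
import Pool.Agent.Helper832.PNxa
import Pool.Agent.Helper832.PNxb

/-!
Existence of the completed coinvariants, and Johnson's condition from flatness of `A₊`.
-/

set_option autoImplicit false
set_option linter.unusedSectionVars false
set_option linter.unusedVariables false

namespace Pool.Agent.Helper832.PN

open Filter Topology
open scoped ENNReal

universe u

noncomputable section

section Co

variable {A V : Type u} [NonUnitalRing A] [Module ℂ A] [UniformSpace A] [IsPolyAlg A]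
  [AddCommGroup V] [Module ℂ V] [UniformSpace V] [IsPolynormed V]

/-- Continuous seminorms vanishing on commutators. -/
def CoIdx (l : A → V → V) (r : V → A → V) : Type u :=
  {R : Seminorm ℂ V // Continuous R ∧ ∀ v a, R (r v a - l a v) = 0}

instance (l : A → V → V) (r : V → A → V) : Nonempty (CoIdx l r) :=
  ⟨⟨0, show Continuous (fun _ : V => (0 : ℝ)) from continuous_const, fun _ _ => rfl⟩⟩

/-- The family. -/
def coFam (l : A → V → V) (r : V → A → V) : SeminormFamily ℂ V (CoIdx l r) := fun i => i.1

/-- The completed coinvariants. -/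
abbrev CoT (l : A → V → V) (r : V → A → V) : Type u := CP (coFam l r)

/-- The quotient map. -/
def coq (l : A → V → V) (r : V → A → V) (v : V) : CoT l r := cpi (coFam l r) v

lemma coq_lin (l : A → V → V) (r : V → A → V) : IsContLin (coq l r) := by
  refine ⟨fun x y => map_add (cpi (coFam l r)) x y, fun c x => map_smul (cpi (coFam l r)) c x, ?_⟩
  apply continuous_lin_of_bound (φ := fun v : V => coq l r v)
    (fun x y => map_add (cpi (coFam l r)) x y)
  intro q hq
  obtain ⟨s, C, hs⟩ := cp_bound (coFam l r) q hq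
  refine ⟨C • s.sup (coFam l r), ?_, fun x => hs x⟩
  apply Continuous.const_smul
  exact Seminorm.continuous_finsetSup (fun i _ => i.2.1)

lemma coq_trace (l : A → V → V) (r : V → A → V) (v : V) (a : A) :
    coq l r (r v a) = coq l r (l a v) := by
  rw [← sub_eq_zero]
  have : coq l r (r v a) - coq l r (l a v) = cpi (coFam l r) (r v a - l a v : V) :=
    (map_sub (cpi (coFam l r)) _ _).symm
  rw [this]
  exact cpi_eq_zero _ (fun i => i.2.2 v a)

lemma coq_dense (l : A → V → V) (r : V → A → V) : DenseRange (coq l r) :=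
  (cpi_dense (coFam l r)).dense

/-- Extension of a linear map. -/
lemma exists_ext_lin {E Z : Type u} [AddCommGroup E] [Module ℂ E] {κ : Type u} [Nonempty κ]
    (fam : SeminormFamily ℂ E κ) [AddCommGroup Z] [Module ℂ Z] [UniformSpace Z] [IsPolynormed Z]
    (f : WF fam →L[ℂ] Z) : ∃ g : CP fam → Z, IsContLin g ∧ ∀ x, g (cpi fam x) = f x := by
  have : UniformContinuousConstSMul ℂ Z := uniformContinuousConstSMul_of_continuousConstSMul ℂ Z
  let g : CP fam →L[ℂ] Z := ContinuousLinearMap.fromCompletion f
  exact ⟨g, isContLin_clm g, fun x => ContinuousLinearMap.fromCompletion_apply_coe f x⟩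

/-- Traces factor through the completed coinvariants. -/
lemma exists_coLift {l : A → V → V} {r : V → A → V} {Z : Type u} [AddCommGroup Z] [Module ℂ Z]
    [UniformSpace Z] [IsPolynormed Z] {τ : V → Z} (hτ : IsContLin τ)
    (htr : ∀ v a, τ (r v a) = τ (l a v)) :
    ∃ g : CoT l r → Z, IsContLin g ∧ ∀ v, g (coq l r v) = τ v := by
  have hc : Continuous (fun v : WF (coFam l r) => τ v) := by
    apply continuous_lin_of_bound (φ := fun v : WF (coFam l r) => τ v)
      (fun x y => hτ.add x y)
    intro q hq
    let R : Seminorm ℂ V := q.comp hτ.toCLM.toLinearMap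
    have hR : ∀ v, R v = q (τ v) := fun _ => rfl
    have hRc : Continuous R := hq.comp hτ.cont
    have hR0 : ∀ v a, R (r v a - l a v) = 0 := by
      intro v a
      have e : τ (r v a - l a v) = τ (r v a) - τ (l a v) := map_sub hτ.toCLM _ _
      rw [hR, e, htr, sub_self, map_zero]
    let i : CoIdx l r := ⟨R, hRc, hR0⟩
    refine ⟨wfFam (coFam l r) i, (wf_withSeminorms (coFam l r)).continuous_seminorm i,
      fun x => le_rfl⟩
  let f : WF (coFam l r) →L[ℂ] Z :=
    { toFun := fun v => τ v
      map_add' := fun x y => hτ.add x y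
      map_smul' := fun c x => hτ.smul c x
      cont := hc }
  obtain ⟨g, hg, hg2⟩ := exists_ext_lin (coFam l r) f
  exact ⟨g, hg, fun v => hg2 v⟩

/-- Existence of the completed tensor product `V ⊗̂_{A-A} A₊`. -/
theorem isBiTensor_co {l : A → V → V} {r : V → A → V} (hV : IsBimod l r) :
    IsBiTensor l r (trForm r (coq l r)) where
  bilin := trForm_bilin hV.right.bilin (coq_lin l r)
  bal_right := trForm_bal_right hV (coq_lin l r)
  bal_left := trForm_bal_left hV (coq_lin l r) (coq_trace l r)
  univ := by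
    intro Z _ _ _ _ β hβ hβr hβl
    let τ : V → Z := fun v => β v (1, 0)
    have hτ : IsContLin τ := hβ.isContLin_left (1, 0)
    have htr : ∀ v a, τ (r v a) = τ (l a v) := by
      intro v a
      show β (r v a) (1, 0) = β (l a v) (1, 0)
      rw [hβr, hβl, plusMul_left_one, plusMul_one_left]
    obtain ⟨g, hg, hg2⟩ := exists_coLift hτ htr
    have hone : ∀ v, trForm r (coq l r) v (1, 0) = coq l r v := by
      intro v
      simp only [trForm]
      rw [one_smul, hV.right.bilin.zero_right]
      have : coq l r 0 = 0 := map_zero (cpi (coFam l r))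
      rw [this, add_zero]
    refine ⟨g, ⟨hg, ?_⟩, ?_⟩
    · intro v c
      simp only [trForm]
      rw [hg.add, hg.smul, hg2, hg2]
      show c.1 • β v (1, 0) + β (r v c.2) (1, 0) = β v c
      rw [hβr, plusMul_left_one, ← hβ.smul_right, ← hβ.add_right]
      congr 1
      ext <;> simp
    · rintro g' ⟨hg', hg'2⟩
      have h1 : ∀ v, g' (coq l r v) = g (coq l r v) := by
        intro v
        have := hg'2 v (1, 0)
        rw [hone] at this
        rw [this, hg2]
      funext z
      exact congrFun ((coq_dense l r).equalizer hg'.cont hg.cont (funext h1)) z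

end Co

section Flip

lemma IsContBilin.flip' {X Y Z : Type u} [AddCommGroup X] [Module ℂ X] [TopologicalSpace X]
    [AddCommGroup Y] [Module ℂ Y] [TopologicalSpace Y]
    [AddCommGroup Z] [Module ℂ Z] [TopologicalSpace Z] {β : X → Y → Z}
    (h : IsContBilin β) : IsContBilin (fun y x => β x y) where
  add_left x x' y := h.add_right _ _ _
  smul_left c x y := h.smul_right _ _ _
  add_right x y y' := h.add_left _ _ _
  smul_right c x y := h.smul_left _ _ _
  cont := h.cont.comp continuous_swap

end Flip

section Johnson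

variable {A V : Type u} [NonUnitalRing A] [Module ℂ A] [UniformSpace A] [IsPolyAlg A]
  [AddCommGroup V] [Module ℂ V] [UniformSpace V] [IsPolynormed V]

/-- Left multiplication on `A ⊗̂ V`. -/
lemma exists_ptl : ∃ lt : A → PT A V → PT A V, IsContBilin lt ∧
    (∀ a b v, lt a (pt b v) = pt (a * b) v) ∧ ∀ a b z, lt (a * b) z = lt a (lt b z) := by
  have hpt : IsContBilin (pt : A → V → PT A V) := pt_isContBilin
  have hm := (IsPolyAlg.mul_bilin (A := A))
  have hT : ∀ a : A, IsContBilin (fun (b : A) (v : V) => pt (a * b) v) := fun a =>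
    hpt.comp_lin (hm.isContLin_right a) isContLin_id
  have hB := triExt (V := A) (Z := PT A V) hT
    (by intro a a' b v; rw [hm.add_left, hpt.add_left])
    (by intro c a b v; rw [hm.smul_left, hpt.smul_left])
    (by
      intro ρ hρ
      obtain ⟨q1, q2, hq1, hq2, h1⟩ := hpt.exists_bound ρ hρ
      obtain ⟨q3, q4, hq3, hq4, h2⟩ := hm.exists_bound q1 hq1
      refine ⟨q4, q2, q3, hq4, hq2, hq3, fun a b v => (h1 (a * b) v).trans ?_⟩
      calc q1 (a * b) * q2 v ≤ (q3 a * q4 b) * q2 v := by
            gcongr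
            exact h2 a b
        _ = q3 a * (q4 b * q2 v) := by ring)
  obtain ⟨ltf, hltf, hpf⟩ : ∃ ltf : PT A V → A → PT A V, IsContBilin ltf ∧
    (∀ a b v, ltf (pt b v) a = pt (a * b) v) :=
    ⟨fun z a => ptLift (hT a) z, hB, fun a b v => ptLift_pt _ _ _⟩
  obtain ⟨lt, hlt, hp⟩ : ∃ lt : A → PT A V → PT A V, IsContBilin lt ∧
    (∀ a b v, lt a (pt b v) = pt (a * b) v) := ⟨fun a z => ltf z a, hltf.flip', hpf⟩
  refine ⟨lt, hlt, hp, ?_⟩
  intro a b z
  have h := pt_ext (X := A) (Y := V) (f := fun z => lt (a * b) z)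
    (g := fun z => lt a (lt b z)) (hlt.isContLin_right _)
    ((hlt.isContLin_right b).comp' (hlt.isContLin_right a))
    (by
      intro c v
      simp only [hp, mul_assoc])
  exact congrFun h z

/-- Right action on `A ⊗̂ V`. -/
lemma exists_ptr2 {r : V → A → V} (hr : IsRightMod r) : ∃ rt : PT A V → A → PT A V,
    IsContBilin rt ∧
    (∀ b v a, rt (pt b v) a = pt b (r v a)) ∧ ∀ z a b, rt z (a * b) = rt (rt z a) b := by
  have hpt : IsContBilin (pt : A → V → PT A V) := pt_isContBilin
  have hT : ∀ a : A, IsContBilin (fun (b : A) (v : V) => pt b (r v a)) := fun a =>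
    hpt.comp_lin isContLin_id (hr.bilin.isContLin_left a)
  have hB := triExt (V := A) (Z := PT A V) hT
    (by intro a a' b v; rw [hr.bilin.add_right, hpt.add_right])
    (by intro c a b v; rw [hr.bilin.smul_right, hpt.smul_right])
    (by
      intro ρ hρ
      obtain ⟨q1, q2, hq1, hq2, h1⟩ := hpt.exists_bound ρ hρ
      obtain ⟨q3, q4, hq3, hq4, h2⟩ := hr.bilin.exists_bound q2 hq2
      refine ⟨q1, q3, q4, hq1, hq3, hq4, fun a b v => (h1 b (r v a)).trans ?_⟩
      calc q1 b * q2 (r v a) ≤ q1 b * (q3 v * q4 a) := by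
            gcongr
            exact h2 v a
        _ = q4 a * (q1 b * q3 v) := by ring)
  obtain ⟨rt, hrt, hp⟩ : ∃ rt : PT A V → A → PT A V, IsContBilin rt ∧
    (∀ b v a, rt (pt b v) a = pt b (r v a)) :=
    ⟨fun z a => ptLift (hT a) z, hB, fun b v a => ptLift_pt _ _ _⟩
  refine ⟨rt, hrt, hp, ?_⟩
  intro z a b
  have h := pt_ext (X := A) (Y := V) (f := fun z => rt z (a * b))
    (g := fun z => rt (rt z a) b) (hrt.isContLin_left _)
    ((hrt.isContLin_left a).comp' (hrt.isContLin_left b))
    (by
      intro c v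
      simp only [hp, hr.mul])
  exact congrFun h z

/-- Johnson's condition, for forms with values in bounded functions. -/
theorem johnson_of_amenableP (hA : AmenableP A) {l : A → V → V} {r : V → A → V}
    (hV : IsBimod l r) {Λ : Type u} {D : A → V → lp (fun _ : Λ => ℂ) ∞} (hD : IsContBilin D)
    (hDm : ∀ a b v, D (a * b) v = D b (r v a) + D a (l b v)) :
    ∃ Φ : V → lp (fun _ : Λ => ℂ) ∞, IsContLin Φ ∧
      ∀ a v, D a v = Φ (r v a) - Φ (l a v) := by
  have hpt : IsContBilin (pt : A → V → PT A V) := pt_isContBilin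
  obtain ⟨lt, lt_b, lt_p, lt_m⟩ := exists_ptl (A := A) (V := V)
  obtain ⟨rt, rt_b, rt_p, rt_m⟩ := exists_ptr2 hV.right
  obtain ⟨m, hm, hmpt⟩ : ∃ m : PT A V → V, IsContLin m ∧ ∀ a v, m (pt a v) = l a v :=
    ⟨fun z => ptLift hV.left.bilin z, isContLin_clm _, fun y b => ptLift_pt _ _ _⟩
  obtain ⟨σ, hσ, hσpt⟩ : ∃ σ : PT A V → lp (fun _ : Λ => ℂ) ∞, IsContLin σ ∧
      ∀ a v, σ (pt a v) = D a v :=
    ⟨fun z => ptLift hD z, isContLin_clm _, fun y b => ptLift_pt _ _ _⟩
  have ext' : ∀ {Z : Type u} [AddCommGroup Z] [Module ℂ Z] [UniformSpace Z] [IsPolynormed Z]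
      {f g : PT A V → Z}, IsContLin f → IsContLin g → (∀ x y, f (pt x y) = g (pt x y)) →
      ∀ z, f z = g z := fun hf hg h z => congrFun (pt_ext hf hg h) z
  have hml : ∀ a z, m (lt a z) = l a (m z) := by
    intro a z
    exact ext' (f := fun z => m (lt a z)) (g := fun z => l a (m z))
      ((lt_b.isContLin_right a).comp' hm) (hm.comp' (hV.left.bilin.isContLin_right a))
      (by intro b v; simp only [lt_p, hmpt, hV.left.mul]) z
  have hmr : ∀ z a, m (rt z a) = r (m z) a := by
    intro z a
    exact ext' (f := fun z => m (rt z a)) (g := fun z => r (m z) a)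
      ((rt_b.isContLin_left a).comp' hm) (hm.comp' (hV.right.bilin.isContLin_left a))
      (by intro b v; simp only [rt_p, hmpt, hV.comm]) z
  have hcomm : ∀ a z b, rt (lt a z) b = lt a (rt z b) := by
    intro a z b
    exact ext' (f := fun z => rt (lt a z) b) (g := fun z => lt a (rt z b))
      ((lt_b.isContLin_right a).comp' (rt_b.isContLin_left b))
      ((rt_b.isContLin_left b).comp' (lt_b.isContLin_right a))
      (by intro c v; simp only [rt_p, lt_p]) z
  have hmsub : ∀ z z', m (z - z') = m z - m z' := fun z z' => map_sub hm.toCLM z z'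
  -- the bimodule structure on `K = A ⊗̂ V`
  let lK : A → PT A V → PT A V := fun a z => lt a z - pt a (m z)
  have hlK : IsContBilin lK := isContBilin_sub lt_b (hpt.comp_lin isContLin_id hm)
  have hmK : ∀ a z, m (lK a z) = 0 := by
    intro a z
    show m (lt a z - pt a (m z)) = 0
    rw [hmsub, hml, hmpt, sub_self]
  have hK : IsBimod lK rt := by
    refine ⟨⟨hlK, ?_⟩, ⟨rt_b, rt_m⟩, ?_⟩
    · intro a b z
      show lt (a * b) z - pt (a * b) (m z) = lt a (lt b z - pt b (m z)) - pt a (m (lK b z))
      rw [hmK, hpt.zero_right, sub_zero, lt_b.sub_right, lt_m, lt_p]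
    · intro a z b
      show rt (lt a z - pt a (m z)) b = lt a (rt z b) - pt a (m (rt z b))
      rw [rt_b.sub_left, hcomm, rt_p, hmr]
  -- the bimodule `E`
  let lE : A → V × PT A V → V × PT A V := fun a e => (0, pt a e.1 + lt a e.2)
  let rE : V × PT A V → A → V × PT A V := fun e a => (r e.1 a, rt e.2 a)
  have hlE1 : ∀ a e, (lE a e).1 = 0 := fun _ _ => rfl
  have hlE2 : ∀ a e, (lE a e).2 = pt a e.1 + lt a e.2 := fun _ _ => rfl
  have hrE1 : ∀ e a, (rE e a).1 = r e.1 a := fun _ _ => rfl
  have hrE2 : ∀ e a, (rE e a).2 = rt e.2 a := fun _ _ => rfl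
  have hE : IsBimod lE rE := by
    refine ⟨⟨isContBilin_inr (isContBilin_add (hpt.comp_lin isContLin_id isContLin_fst)
      (lt_b.comp_lin isContLin_id isContLin_snd)), ?_⟩, ⟨⟨?_, ?_, ?_, ?_, ?_⟩, ?_⟩, ?_⟩
    · intro a b e
      apply Prod.ext
      · rfl
      · rw [hlE2, hlE2, hlE1, hlE2, hpt.zero_right, zero_add, lt_b.add_right, lt_m, lt_p]
    · intro e e' a
      apply Prod.ext
      · exact hV.right.bilin.add_left _ _ _
      · exact rt_b.add_left _ _ _
    · intro c e a
      apply Prod.ext
      · exact hV.right.bilin.smul_left _ _ _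
      · exact rt_b.smul_left _ _ _
    · intro e a a'
      apply Prod.ext
      · exact hV.right.bilin.add_right _ _ _
      · exact rt_b.add_right _ _ _
    · intro c e a
      apply Prod.ext
      · exact hV.right.bilin.smul_right _ _ _
      · exact rt_b.smul_right _ _ _
    · exact (hV.right.bilin.cont.comp ((continuous_fst.comp continuous_fst).prodMk
        continuous_snd)).prodMk (rt_b.cont.comp ((continuous_snd.comp continuous_fst).prodMk
        continuous_snd))
    · intro e a b
      apply Prod.ext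
      · exact hV.right.mul _ _ _
      · exact rt_m _ _ _
    · intro a e b
      apply Prod.ext
      · exact hV.right.bilin.zero_left b
      · rw [hrE2, hlE2, hlE2, hrE1, hrE2, rt_b.add_left, rt_p, hcomm]
  let i : PT A V → V × PT A V := fun z => (-(m z), z)
  have hi1 : ∀ z, (i z).1 = -(m z) := fun _ => rfl
  have hi2 : ∀ z, (i z).2 = z := fun _ => rfl
  have hi : IsContLin i := by
    refine ⟨?_, ?_, (hm.cont.neg).prodMk continuous_id⟩
    · intro z z'
      apply Prod.ext
      · rw [Prod.fst_add, hi1, hi1, hi1, hm.add, neg_add]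
      · rw [Prod.snd_add, hi2, hi2, hi2]
    · intro c z
      apply Prod.ext
      · rw [Prod.smul_fst, hi1, hi1, hm.smul, smul_neg]
      · rw [Prod.smul_snd, hi2, hi2]
  let j : V × PT A V → V := fun e => e.1 + m e.2
  have hj : IsContLin j := by
    refine ⟨?_, ?_, continuous_fst.add (hm.cont.comp continuous_snd)⟩
    · intro e e'
      show (e.1 + e'.1) + m (e.2 + e'.2) = (e.1 + m e.2) + (e'.1 + m e'.2)
      rw [hm.add]; abel
    · intro c e
      show c • e.1 + m (c • e.2) = c • (e.1 + m e.2)
      rw [hm.smul, smul_add]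
  have hadm : IsAdmissible i j := by
    refine ⟨hi, hj, fun e => e.2, fun v => (v, 0), isContLin_snd, ?_, fun _ => rfl, ?_, ?_, ?_⟩
    · refine ⟨?_, ?_, continuous_id.prodMk continuous_const⟩
      · intro v v'
        exact Prod.ext rfl (add_zero 0).symm
      · intro c v
        exact Prod.ext rfl (smul_zero c).symm
    · intro v
      show v + m 0 = v
      have : m 0 = 0 := map_zero hm.toCLM
      rw [this, add_zero]
    · intro z
      show -(m z) + m z = 0
      abel
    · intro e
      apply Prod.ext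
      · show e.1 = -(m e.2) + (e.1 + m e.2)
        abel
      · show e.2 = e.2 + 0
        abel
  have hir : ∀ z a, i (rt z a) = rE (i z) a := by
    intro z a
    apply Prod.ext
    · rw [hi1, hrE1, hi1, hmr, hV.right.bilin.neg_left]
    · rfl
  have hil : ∀ a z, i (lK a z) = lE a (i z) := by
    intro a z
    apply Prod.ext
    · rw [hi1, hlE1, hmK, neg_zero]
    · rw [hi2, hlE2, hi1, hi2, hpt.neg_right]
      show lt a z - pt a (m z) = _
      abel
  have hjr : ∀ e a, j (rE e a) = r (j e) a := by
    intro e a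
    show r e.1 a + m (rt e.2 a) = r (e.1 + m e.2) a
    rw [hmr, hV.right.bilin.add_left]
  have hjl : ∀ a e, j (lE a e) = l a (j e) := by
    intro a e
    show 0 + m (pt a e.1 + lt a e.2) = l a (e.1 + m e.2)
    rw [hm.add, hmpt, hml, zero_add, hV.left.bilin.add_right]
  -- the trace on `K`
  have hσtr : ∀ z a, σ (rt z a) = σ (lK a z) := by
    intro z a
    exact ext' (f := fun z => σ (rt z a)) (g := fun z => σ (lK a z))
      ((rt_b.isContLin_left a).comp' hσ) ((hlK.isContLin_right a).comp' hσ)
      (by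
        intro b v
        show σ (rt (pt b v) a) = σ (lt a (pt b v) - pt a (m (pt b v)))
        have e : σ (lt a (pt b v) - pt a (m (pt b v))) =
          σ (lt a (pt b v)) - σ (pt a (m (pt b v))) := map_sub hσ.toCLM _ _
        rw [e, rt_p, lt_p, hmpt, hσpt, hσpt, hσpt, hDm]
        abel) z
  -- the induced maps on the completed coinvariants
  have hiq : IsContLin (fun z => coq lE rE (i z)) := hi.comp' (coq_lin lE rE)
  obtain ⟨φ, hφ, hφ2⟩ := exists_coLift (l := lK) (r := rt) hiq (by
    intro z a
    show coq lE rE (i (rt z a)) = coq lE rE (i (lK a z))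
    rw [hir, hil, coq_trace])
  have hjq : IsContLin (fun e => coq l r (j e)) := hj.comp' (coq_lin l r)
  obtain ⟨ψ, hψ, hψ2⟩ := exists_coLift (l := lE) (r := rE) hjq (by
    intro e a
    show coq l r (j (rE e a)) = coq l r (j (lE a e))
    rw [hjr, hjl, coq_trace])
  have hex := hA (PT A V) (V × PT A V) V lK rt lE rE l r i j hK hE hV hadm hir hil hjr
    hjl (CoT lK rt) (CoT lE rE) (CoT l r) _ _ _ (isBiTensor_co hK) (isBiTensor_co hE)
    (isBiTensor_co hV) φ ψ hφ hψ
    (by
      intro z c
      simp only [trForm]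
      rw [hφ.add, hφ.smul, hφ2, hφ2, hir])
    (by
      intro e c
      simp only [trForm]
      rw [hψ.add, hψ.smul, hψ2, hψ2, hjr])
  -- extend the trace
  obtain ⟨σ', hσ', hσ'2⟩ := exists_coLift hσ hσtr
  obtain ⟨q', hq', hq'2⟩ := exists_seminorm_of_lin hσ'
  obtain ⟨q, hq, hqq⟩ := exists_le_of_isInducing hφ hex.closedEmbedding.isInducing hq'
  obtain ⟨τ, hτ, hτ2⟩ := exists_lp_extension hφ hσ' hq (fun x => by
    rw [← hq'2]; exact hqq x)
  let T : V × PT A V → lp (fun _ : Λ => ℂ) ∞ := fun e => τ (coq lE rE e)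
  have hT : IsContLin T := (coq_lin lE rE).comp' hτ
  have hTtr : ∀ e a, T (rE e a) = T (lE a e) := by
    intro e a
    show τ (coq lE rE (rE e a)) = τ (coq lE rE (lE a e))
    rw [coq_trace]
  have hTi : ∀ z, T (i z) = σ z := by
    intro z
    show τ (coq lE rE (i z)) = σ z
    rw [← hφ2, hτ2, hσ'2]
  have hin : IsContLin (fun v : V => ((v, 0) : V × PT A V)) := by
    refine ⟨?_, ?_, continuous_id.prodMk continuous_const⟩
    · intro v v'
      exact Prod.ext rfl (add_zero 0).symm
    · intro c v
      exact Prod.ext rfl (smul_zero c).symm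
  refine ⟨fun v => T (v, 0), hin.comp' hT, ?_⟩
  intro a v
  have e1 : i (pt a v) = lE a (v, 0) - (l a v, 0) := by
    apply Prod.ext
    · show -(m (pt a v)) = 0 - l a v
      rw [hmpt, zero_sub]
    · show pt a v = (pt a v + lt a 0) - 0
      rw [lt_b.zero_right, add_zero, sub_zero]
  have e2 : T (lE a (v, 0) - (l a v, 0)) = T (lE a (v, 0)) - T (l a v, 0) :=
    map_sub hT.toCLM _ _
  have e3 : rE (v, 0) a = (r v a, 0) := by
    apply Prod.ext
    · rfl
    · exact rt_b.zero_left a
  rw [← hσpt, ← hTi, e1, e2, ← hTtr, e3]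

end Johnson

end

end Pool.Agent.Helper832.PN
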