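import Mathlib
import Pool.Agent.Helper832.FLg
import Pool.Agent.Helper832.PNk

/-!
Banach algebras as polynormed algebras; flatness of `A₊` implies Johnson's amenability.
-/

set_option autoImplicit false
set_option linter.unusedSectionVars false
set_option linter.unusedVariables false

namespace Pool.Agent.Helper832.PN

open Filter Topology
open scoped ENNReal

universe u

lemma isPolynormed_of_banach (V : Type u) [NormedAddCommGroup V] [NormedSpace ℂ V]
    [CompleteSpace V] : IsPolynormed V where
  uniformAddGroup := inferInstance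
  continuousSMul := inferInstance
  polynormable := inferInstance
  t2 := inferInstance
  complete := inferInstance

lemma isPolyAlg_of_banach (A : Type u) [NonUnitalNormedRing A] [NormedSpace ℂ A]
    [IsScalarTower ℂ A A] [SMulCommClass ℂ A A] [CompleteSpace A] : IsPolyAlg A where
  toIsPolynormed := isPolynormed_of_banach A
  mul_bilin := ⟨fun a a' b => add_mul a a' b, fun c a b => smul_mul_assoc c a b,
    fun a b b' => mul_add a b b', fun c a b => mul_smul_comm c a b, continuous_mul⟩

/-- The one-point bounded family. -/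
noncomputable def toPt (c : ℂ) : lp (fun _ : PUnit.{u + 1} => ℂ) ∞ :=
  ⟨fun _ => c, memℓp_infty ⟨‖c‖, by rintro _ ⟨_, rfl⟩; exact le_rfl⟩⟩

lemma toPt_lin : IsContLin (toPt.{u}) := by
  refine ⟨fun x y => by ext; rfl, fun c x => by ext; rfl, ?_⟩
  have h1 : ∀ c, ‖toPt.{u} c‖ ≤ ‖c‖ := fun c =>
    lp.norm_le_of_forall_le (norm_nonneg c) (fun _ => le_rfl)
  let f : ℂ →ₗ[ℂ] lp (fun _ : PUnit.{u + 1} => ℂ) ∞ :=
    { toFun := toPt.{u}
      map_add' := fun x y => by ext; rfl
      map_smul' := fun c x => by ext; rfl }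
  exact (LinearMap.mkContinuous f 1 (fun c => by rw [one_mul]; exact h1 c)).continuous

/-- Evaluation at the point. -/
noncomputable def ofPt (x : lp (fun _ : PUnit.{u + 1} => ℂ) ∞) : ℂ := x PUnit.unit

lemma ofPt_lin : IsContLin (ofPt.{u}) := by
  refine ⟨fun x y => rfl, fun c x => rfl, ?_⟩
  let f : lp (fun _ : PUnit.{u + 1} => ℂ) ∞ →ₗ[ℂ] ℂ :=
    { toFun := ofPt.{u}
      map_add' := fun x y => rfl
      map_smul' := fun c x => rfl }
  exact (LinearMap.mkContinuous f 1 (fun x => by
    rw [one_mul]; exact lp.norm_apply_le_norm (by norm_num) x PUnit.unit)).continuous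

lemma ofPt_toPt (c : ℂ) : ofPt.{u} (toPt c) = c := rfl

/-- For a Banach algebra, flatness of the bimodule `A₊` in the category of polynormed bimodules
implies Johnson's amenability. -/
theorem amenableBanach_of_amenableP (A : Type u) [NonUnitalNormedRing A] [NormedSpace ℂ A]
    [IsScalarTower ℂ A A] [SMulCommClass ℂ A A] [CompleteSpace A] [IsPolyAlg A]
    (h : AmenableP A) : AmenableBanach A := by
  intro V _ _ _ l r hV D hD hder
  have : IsPolynormed V := isPolynormed_of_banach V
  have hD1 : IsContBilin (fun (a : A) (v : V) => D a v) :=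
    ⟨fun a a' v => by rw [hD.add, ContinuousLinearMap.add_apply],
      fun c a v => by rw [hD.smul, ContinuousLinearMap.smul_apply],
      fun a v v' => map_add _ _ _, fun c a v => map_smul _ _ _, hD.toCLM.continuous₂⟩
  have hD2 : IsContBilin (fun (a : A) (v : V) => toPt.{u} (D a v)) :=
    ⟨fun a a' v => by rw [hD1.add_left, toPt_lin.add],
      fun c a v => by rw [hD1.smul_left, toPt_lin.smul],
      fun a v v' => by rw [hD1.add_right, toPt_lin.add],
      fun c a v => by rw [hD1.smul_right, toPt_lin.smul], toPt_lin.cont.comp hD1.cont⟩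
  obtain ⟨Φ, hΦ, hΦ2⟩ := johnson_of_amenableP h hV hD2
    (fun a b v => by rw [hder, toPt_lin.add])
  have hφ : IsContLin (fun v => ofPt.{u} (Φ v)) :=
    ⟨fun x y => by rw [hΦ.add, ofPt_lin.add], fun c x => by rw [hΦ.smul, ofPt_lin.smul],
      ofPt_lin.cont.comp hΦ.cont⟩
  refine ⟨hφ.toCLM, fun a v => ?_⟩
  show D a v = ofPt.{u} (Φ (r v a)) - ofPt.{u} (Φ (l a v))
  have e := congrArg ofPt.{u} (hΦ2 a v)
  rw [ofPt_toPt] at e
  rw [e]
  exact map_sub ofPt_lin.toCLM _ _

end Pool.Agent.Helper832.PN
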