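import Mathlib
import Pool.Agent.Helper832.PNa
import Pool.Agent.Helper832.PNb
import Pool.Agent.Helper832.PNc
import Pool.Agent.Helper832.PNd
import Pool.Agent.Helper832.PNxa
import Pool.Agent.Helper832.PNxb
import Pool.Agent.Helper832.PNxc

/-!
Amenability from the vanishing of derivations with values in duals of bimodules (with bounded
families of functionals).
-/

set_option autoImplicit false

namespace Pool.Agent.Helper832.PN

open Topology Filter
open scoped ENNReal

universe u

/-- **Amenability from inner derivations.** -/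
theorem extend_of_core {A : Type u} [NonUnitalRing A] [Module ℂ A] [UniformSpace A] [IsPolyAlg A]
    (hcore : ∀ (V : Type u) [AddCommGroup V] [Module ℂ V] [UniformSpace V] [IsPolynormed V]
      (l : A → V → V) (r : V → A → V), IsBimod l r →
      ∀ (Lam : Type u) (D : A → V → lp (fun _ : Lam => ℂ) (⊤ : ℝ≥0∞)), IsContBilin D →
        (∀ a b v, D (a * b) v = D b (r v a) + D a (l b v)) →
        ∃ Phi : V → lp (fun _ : Lam => ℂ) (⊤ : ℝ≥0∞), IsContLin Phi ∧
          ∀ a v, D a v = Phi (r v a) - Phi (l a v)) : AmenableP A := by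
  apply amenable_of_extend
  intro V' V _ _ _ _ _ _ _ _ l' r' l r i p hV' hV hi hp hir hil hpi Lam τ' hτ' htr
  -- the complement
  let S : Submodule ℂ V := LinearMap.ker hp.toCLM.toLinearMap
  have hS : ∀ y, y ∈ S ↔ p y = 0 := fun y => Iff.rfl
  have hScl : IsClosed (S : Set V) := isClosed_eq hp.cont continuous_const
  have : IsPolynormed S := isPolynormed_submodule S hScl
  let pi : V →L[ℂ] V := ContinuousLinearMap.id ℂ V - hi.toCLM.comp hp.toCLM
  have hpi1 : ∀ y, pi y = y - i (p y) := fun y => rfl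
  have hpiS : ∀ y, pi y ∈ S := by
    intro y
    rw [hS, hpi1]
    have : p (y - i (p y)) = p y - p (i (p y)) := map_sub hp.toCLM _ _
    rw [this, hpi, sub_self]
  have hpii : ∀ y, pi (i y) = 0 := by
    intro y
    rw [hpi1, hpi, sub_self]
  have hpisub : ∀ x y, pi (x - y) = pi x - pi y := fun x y => map_sub pi x y
  have hr := hV.right
  have hl := hV.left
  have hrsub : ∀ x y a, r (x - y) a = r x a - r y a := fun x y a => hr.bilin.sub_left x y a
  have hlsub : ∀ a x y, l a (x - y) = l a x - l a y := fun a x y => hl.bilin.sub_right a x y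
  have keyr : ∀ y a, pi (r (pi y) a) = pi (r y a) := by
    intro y a
    rw [hpi1 y, hrsub, hpisub, ← hir, hpii, sub_zero]
  have keyl : ∀ a y, pi (l a (pi y)) = pi (l a y) := by
    intro a y
    rw [hpi1 y, hlsub, hpisub, ← hil, hpii, sub_zero]
  let r'' : S → A → S := fun y a => ⟨pi (r (y : V) a), hpiS _⟩
  let l'' : A → S → S := fun a y => ⟨pi (l a (y : V)), hpiS _⟩
  have hr'' : IsRightMod r'' := by
    refine ⟨⟨?_, ?_, ?_, ?_, ?_⟩, ?_⟩
    · intro x x' a
      apply Subtype.ext
      show pi (r ((x : V) + x') a) = pi (r x a) + pi (r x' a)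
      rw [hr.bilin.add_left, map_add]
    · intro c x a
      apply Subtype.ext
      show pi (r (c • (x : V)) a) = c • pi (r x a)
      rw [hr.bilin.smul_left, map_smul]
    · intro x a a'
      apply Subtype.ext
      show pi (r (x : V) (a + a')) = pi (r x a) + pi (r x a')
      rw [hr.bilin.add_right, map_add]
    · intro c x a
      apply Subtype.ext
      show pi (r (x : V) (c • a)) = c • pi (r x a)
      rw [hr.bilin.smul_right, map_smul]
    · apply Continuous.subtype_mk
      exact pi.continuous.comp (hr.bilin.cont.comp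
        ((continuous_subtype_val.comp continuous_fst).prodMk continuous_snd))
    · intro y a b
      apply Subtype.ext
      show pi (r (y : V) (a * b)) = pi (r (pi (r (y : V) a)) b)
      rw [keyr, hr.mul]
  have hl'' : IsLeftMod l'' := by
    refine ⟨⟨?_, ?_, ?_, ?_, ?_⟩, ?_⟩
    · intro a a' x
      apply Subtype.ext
      show pi (l (a + a') (x : V)) = pi (l a x) + pi (l a' x)
      rw [hl.bilin.add_left, map_add]
    · intro c a x
      apply Subtype.ext
      show pi (l (c • a) (x : V)) = c • pi (l a x)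
      rw [hl.bilin.smul_left, map_smul]
    · intro a x x'
      apply Subtype.ext
      show pi (l a ((x : V) + x')) = pi (l a x) + pi (l a x')
      rw [hl.bilin.add_right, map_add]
    · intro c a x
      apply Subtype.ext
      show pi (l a (c • (x : V))) = c • pi (l a x)
      rw [hl.bilin.smul_right, map_smul]
    · apply Continuous.subtype_mk
      exact pi.continuous.comp (hl.bilin.cont.comp
        (continuous_fst.prodMk (continuous_subtype_val.comp continuous_snd)))
    · intro a b y
      apply Subtype.ext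
      show pi (l (a * b) (y : V)) = pi (l a (pi (l b (y : V))))
      rw [keyl, hl.mul]
  have hbi : IsBimod l'' r'' := by
    refine ⟨hl'', hr'', ?_⟩
    intro a v b
    apply Subtype.ext
    show pi (r (pi (l a (v : V))) b) = pi (l a (pi (r (v : V) b)))
    rw [keyr, keyl, hV.comm]
  -- the derivation
  let D0 : A → V → lp (fun _ : Lam => ℂ) (⊤ : ℝ≥0∞) := fun a v => τ' (p (r v a)) - τ' (p (l a v))
  have hD0 : ∀ a v, D0 a v = τ' (p (r v a)) - τ' (p (l a v)) := fun a v => rfl
  have hD0i : ∀ a v, D0 a (i v) = 0 := by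
    intro a v
    rw [hD0, ← hir, ← hil, hpi, hpi, htr, sub_self]
  have hD0bil : IsContBilin D0 := by
    refine ⟨?_, ?_, ?_, ?_, ?_⟩
    · intro a a' v
      rw [hD0, hD0, hD0, hr.bilin.add_right, hl.bilin.add_left, hp.add, hp.add, hτ'.add, hτ'.add]
      abel
    · intro c a v
      rw [hD0, hD0, hr.bilin.smul_right, hl.bilin.smul_left, hp.smul, hp.smul, hτ'.smul,
        hτ'.smul, smul_sub]
    · intro a v v'
      rw [hD0, hD0, hD0, hr.bilin.add_left, hl.bilin.add_right, hp.add, hp.add, hτ'.add, hτ'.add]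
      abel
    · intro c a v
      rw [hD0, hD0, hr.bilin.smul_left, hl.bilin.smul_right, hp.smul, hp.smul, hτ'.smul,
        hτ'.smul, smul_sub]
    · have h1 : Continuous fun q : A × V => τ' (p (r q.2 q.1)) :=
        hτ'.cont.comp (hp.cont.comp (hr.bilin.cont.comp (continuous_snd.prodMk continuous_fst)))
      have h2 : Continuous fun q : A × V => τ' (p (l q.1 q.2)) :=
        hτ'.cont.comp (hp.cont.comp hl.bilin.cont)
      exact h1.sub h2
  have hD0der : ∀ a b v, D0 (a * b) v = D0 b (r v a) + D0 a (l b v) := by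
    intro a b v
    rw [hD0, hD0, hD0, hr.mul, hl.mul, hV.comm b v a]
    abel
  have hD0pi : ∀ a v, D0 a (pi v) = D0 a v := by
    intro a v
    rw [hpi1, hD0bil.sub_right, hD0i, sub_zero]
  obtain ⟨Phi, hPhi, hPhi2⟩ := hcore S l'' r'' hbi Lam (fun a v => D0 a (v : V))
    ⟨fun a a' v => hD0bil.add_left _ _ _, fun c a v => hD0bil.smul_left _ _ _,
      fun a v v' => hD0bil.add_right _ _ _, fun c a v => hD0bil.smul_right _ _ _,
      hD0bil.cont.comp (continuous_fst.prodMk (continuous_subtype_val.comp continuous_snd))⟩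
    (by
      intro a b v
      show D0 (a * b) (v : V) = D0 b (pi (r (v : V) a)) + D0 a (pi (l b (v : V)))
      rw [hD0pi, hD0pi, hD0der])
  refine ⟨fun v => τ' (p v) - Phi ⟨pi v, hpiS v⟩, ⟨?_, ?_, ?_⟩, ?_, ?_⟩
  · intro x y
    have e : (⟨pi (x + y), hpiS (x + y)⟩ : S) = ⟨pi x, hpiS x⟩ + ⟨pi y, hpiS y⟩ :=
      Subtype.ext (map_add pi x y)
    rw [e, hp.add, hτ'.add, hPhi.add]
    abel
  · intro c x
    have e : (⟨pi (c • x), hpiS (c • x)⟩ : S) = c • ⟨pi x, hpiS x⟩ :=
      Subtype.ext (map_smul pi c x)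
    rw [e, hp.smul, hτ'.smul, hPhi.smul, smul_sub]
  · exact (hτ'.cont.comp hp.cont).sub (hPhi.cont.comp (Continuous.subtype_mk pi.continuous _))
  · intro v a
    show τ' (p (r v a)) - Phi ⟨pi (r v a), _⟩ = τ' (p (l a v)) - Phi ⟨pi (l a v), _⟩
    have e1 : (⟨pi (r v a), hpiS (r v a)⟩ : S) = r'' ⟨pi v, hpiS v⟩ a :=
      Subtype.ext (keyr v a).symm
    have e2 : (⟨pi (l a v), hpiS (l a v)⟩ : S) = l'' a ⟨pi v, hpiS v⟩ :=
      Subtype.ext (keyl a v).symm
    have h1 := hPhi2 a ⟨pi v, hpiS v⟩
    have h2 : D0 a v = Phi (r'' ⟨pi v, hpiS v⟩ a) - Phi (l'' a ⟨pi v, hpiS v⟩) := by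
      rw [← h1]
      exact (hD0pi a v).symm
    rw [e1, e2]
    rw [hD0, sub_eq_sub_iff_add_eq_add] at h2
    rw [sub_eq_sub_iff_add_eq_add]
    rw [add_comm (τ' (p (l a v)))]
    rw [← h2]
  · intro v
    show τ' (p (i v)) - Phi ⟨pi (i v), _⟩ = τ' v
    have e : (⟨pi (i v), hpiS (i v)⟩ : S) = 0 := Subtype.ext (hpii v)
    have h0 : Phi 0 = 0 := map_zero hPhi.toCLM
    rw [e, h0, hpi, sub_zero]

end Pool.Agent.Helper832.PN
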