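import Mathlib
import Pool.Agent.Helper832.PNa
import Pool.Agent.Helper832.PNb
import Pool.Agent.Helper832.PNc
import Pool.Agent.Helper832.PNd
import Pool.Agent.Helper832.PNxa

/-!
Sanity checks for the definitions: topological exactness for Banach spaces is exactness, split
sequences are topologically exact, every left module over `ℂ` is flat.
-/

set_option autoImplicit false

namespace Pool.Agent.Helper832.PN

open Topology Filter
open scoped ENNReal

universe u

section Banach

variable {T' T T'' : Type u} [NormedAddCommGroup T'] [NormedSpace ℂ T'] [CompleteSpace T']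
  [NormedAddCommGroup T] [NormedSpace ℂ T] [CompleteSpace T]
  [NormedAddCommGroup T''] [NormedSpace ℂ T''] [CompleteSpace T'']

/-- a continuous seminorm on a normed space is bounded by a multiple of the norm -/
lemma exists_bound_norm {E : Type u} [NormedAddCommGroup E] [NormedSpace ℂ E] (q : Seminorm ℂ E)
    (hq : Continuous q) : ∃ C : ℝ, 0 < C ∧ ∀ x, q x ≤ C * ‖x‖ :=
  Seminorm.bound_of_continuous_normedSpace q hq

/-- **For Banach spaces topological exactness is exactness.** -/
theorem topExact_iff_of_banach {φ : T' → T} {ψ : T → T''} (hφ : IsContLin φ) (hψ : IsContLin ψ) :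
    IsTopExact φ ψ ↔ Function.Injective φ ∧ Set.range φ = {t | ψ t = 0} ∧
      Function.Surjective ψ := by
  constructor
  · intro h
    refine ⟨h.closedEmbedding.injective, h.exact_mid, ?_⟩
    let N : Submodule ℂ T := LinearMap.ker hψ.toCLM.toLinearMap
    have hNcl : IsClosed (N : Set T) := isClosed_eq hψ.cont continuous_const
    have hN : ∀ t, t ∈ N ↔ ψ t = 0 := fun t => Iff.rfl
    haveI : IsClosed (N : Set T) := hNcl
    let q : Seminorm ℂ T := (normSeminorm ℂ (T ⧸ N)).comp N.mkQ
    have hq : Continuous q := continuous_norm.comp N.continuous_mkQ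
    obtain ⟨q'', hq'', hqq⟩ := h.strict q hq (by
      intro t ht
      show ‖N.mkQ t‖ = 0
      rw [norm_eq_zero, Submodule.mkQ_apply, Submodule.Quotient.mk_eq_zero]
      exact ht)
    obtain ⟨C, hC, hCb⟩ := exists_bound_norm q'' hq''
    let L : T ⧸ N →L[ℂ] T'' := N.liftQL hψ.toCLM le_rfl
    have hL : ∀ t, L (N.mkQ t) = ψ t := fun t => rfl
    have hanti : AntilipschitzWith (Real.toNNReal C) L := by
      apply L.antilipschitz_of_bound
      intro x
      obtain ⟨t, rfl⟩ := N.mkQ_surjective x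
      rw [Real.coe_toNNReal _ hC.le, hL]
      exact (hqq t).trans (hCb _)
    have hcl : IsClosed (Set.range L) := hanti.isClosed_range L.uniformContinuous
    have hr : Set.range ψ ⊆ Set.range L := by
      rintro _ ⟨t, rfl⟩
      exact ⟨N.mkQ t, hL t⟩
    have hd : Dense (Set.range L) := h.dense.mono hr
    intro y
    have : y ∈ Set.range L := by
      rw [← hcl.closure_eq, hd.closure_eq]
      trivial
    obtain ⟨x, hx⟩ := this
    obtain ⟨t, rfl⟩ := N.mkQ_surjective x
    exact ⟨t, hx⟩
  · rintro ⟨hinj, hex, hsurj⟩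
    have hcl : IsClosed (Set.range φ) := by
      rw [hex]
      exact isClosed_eq hψ.cont continuous_const
    refine ⟨?_, hex, hsurj.denseRange, ?_⟩
    · obtain ⟨K, hK⟩ := hφ.toCLM.antilipschitz_of_injective_of_isClosed_range hinj hcl
      exact hK.isClosedEmbedding hφ.toCLM.uniformContinuous
    · intro q hq hq0
      obtain ⟨C, hC, hCb⟩ := exists_bound_norm q hq
      obtain ⟨K, hK, hKb⟩ := hψ.toCLM.exists_preimage_norm_le hsurj
      refine ⟨(Real.toNNReal (C * K)) • normSeminorm ℂ T'', ?_, ?_⟩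
      · exact Continuous.const_smul (continuous_norm (E := T'')) _
      · intro t
        obtain ⟨x, hx, hxb⟩ := hKb (ψ t)
        have hx' : ψ x = ψ t := hx
        have h1 : ψ (t - x) = 0 := by
          have : ψ (t - x) = ψ t - ψ x := map_sub hψ.toCLM t x
          rw [this, hx', sub_self]
        have h2 : q t ≤ q x := by
          have : t = (t - x) + x := by abel
          calc q t = q ((t - x) + x) := by rw [← this]
            _ ≤ q (t - x) + q x := map_add_le_add q _ _
            _ = q x := by rw [hq0 _ h1, zero_add]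
        have h3 : ((Real.toNNReal (C * K)) • normSeminorm ℂ T'') (ψ t) = (C * K) * ‖ψ t‖ := by
          rw [smul_apply, NNReal.smul_def, Real.coe_toNNReal _ (mul_pos hC hK).le]
          rfl
        rw [h3]
        calc q t ≤ q x := h2
          _ ≤ C * ‖x‖ := hCb x
          _ ≤ C * (K * ‖ψ t‖) := mul_le_mul_of_nonneg_left hxb hC.le
          _ = (C * K) * ‖ψ t‖ := by ring

end Banach

section Split

variable {T' T T'' : Type u} [AddCommGroup T'] [Module ℂ T'] [UniformSpace T'] [IsPolynormed T']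
  [AddCommGroup T] [Module ℂ T] [UniformSpace T] [IsPolynormed T]
  [AddCommGroup T''] [Module ℂ T''] [UniformSpace T''] [IsPolynormed T'']

/-- split sequences are topologically exact -/
lemma isTopExact_of_split {φ : T' → T} {ψ : T → T''} (hφ : IsContLin φ) (hψ : IsContLin ψ)
    {P : T → T'} {S : T'' → T} (hP : IsContLin P) (hS : IsContLin S) (h1 : ∀ x, P (φ x) = x)
    (h2 : ∀ x, ψ (φ x) = 0) (h3 : ∀ x, ψ (S x) = x) (h4 : ∀ t, t = φ (P t) + S (ψ t)) :
    IsTopExact φ ψ := by
  have hS0 : S 0 = 0 := map_zero hS.toCLM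
  refine ⟨Function.LeftInverse.isClosedEmbedding h1 hP.cont hφ.cont, ?_,
    (Function.RightInverse.surjective h3).denseRange, ?_⟩
  · ext t
    constructor
    · rintro ⟨x, rfl⟩
      exact h2 x
    · intro ht
      refine ⟨P t, ?_⟩
      have := h4 t
      have ht' : ψ t = 0 := ht
      rw [ht', hS0, add_zero] at this
      exact this.symm
  · intro q hq hq0
    refine ⟨q.comp hS.toCLM.toLinearMap, hq.comp hS.cont, ?_⟩
    intro t
    show q t ≤ q (S (ψ t))
    calc q t = q (φ (P t) + S (ψ t)) := by rw [← h4 t]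
      _ ≤ q (φ (P t)) + q (S (ψ t)) := map_add_le_add q _ _
      _ = q (S (ψ t)) := by rw [hq0 _ (h2 _), zero_add]

end Split

section Functor

variable {A X : Type u} [NonUnitalRing A] [Module ℂ A] [UniformSpace A]
  [AddCommGroup X] [Module ℂ X] [UniformSpace X]
  {Y₁ Y₂ T₁ T₂ : Type u} [AddCommGroup Y₁] [Module ℂ Y₁] [UniformSpace Y₁]
  [AddCommGroup Y₂] [Module ℂ Y₂] [UniformSpace Y₂]
  [AddCommGroup T₁] [Module ℂ T₁] [UniformSpace T₁] [IsPolynormed T₁]
  [AddCommGroup T₂] [Module ℂ T₂] [UniformSpace T₂] [IsPolynormed T₂]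
  {r₁ : Y₁ → A → Y₁} {r₂ : Y₂ → A → Y₂} {l : A → X → X} {t₁ : Y₁ → X → T₁} {t₂ : Y₂ → X → T₂}

omit [IsPolynormed T₁] in
/-- maps out of a tensor product are determined by their values on elementary tensors -/
lemma IsTensorOver.ext (h : IsTensorOver r₁ l t₁) {f g : T₁ → T₂} (hf : IsContLin f)
    (hg : IsContLin g) (hfg : ∀ y x, f (t₁ y x) = g (t₁ y x)) : f = g := by
  have hb : IsContBilin (fun y x => f (t₁ y x)) :=
    ⟨fun x x' y => by rw [h.bilin.add_left, hf.add], fun c x y => by
      rw [h.bilin.smul_left, hf.smul], fun x y y' => by rw [h.bilin.add_right, hf.add],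
      fun c x y => by rw [h.bilin.smul_right, hf.smul], hf.cont.comp h.bilin.cont⟩
  obtain ⟨φ, -, hu⟩ := h.univ T₂ (fun y x => f (t₁ y x)) hb (fun y a x => by
    show f (t₁ (r₁ y a) x) = f (t₁ y (l a x))
    rw [h.bal])
  rw [hu f ⟨hf, fun _ _ => rfl⟩, hu g ⟨hg, fun y x => (hfg y x).symm⟩]

omit [IsPolynormed T₁] in
/-- functoriality of the tensor product -/
lemma IsTensorOver.exists_map (h₁ : IsTensorOver r₁ l t₁) (h₂ : IsTensorOver r₂ l t₂)
    {m : Y₁ → Y₂} (hm : IsContLin m) (hmr : ∀ y a, m (r₁ y a) = r₂ (m y) a) :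
    ∃ M : T₁ → T₂, IsContLin M ∧ ∀ y x, M (t₁ y x) = t₂ (m y) x := by
  obtain ⟨M, ⟨hM, hMt⟩, -⟩ := h₁.univ T₂ (fun y x => t₂ (m y) x)
    ⟨fun x x' y => by rw [hm.add, h₂.bilin.add_left], fun c x y => by
      rw [hm.smul, h₂.bilin.smul_left], fun x y y' => h₂.bilin.add_right _ _ _,
      fun c x y => h₂.bilin.smul_right _ _ _,
      h₂.bilin.cont.comp ((hm.cont.comp continuous_fst).prodMk continuous_snd)⟩
    (fun y a x => by rw [hmr, h₂.bal])
  exact ⟨M, hM, hMt⟩

end Functor

/-- the complex numbers are a polynormed algebra -/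
instance complexPoly : IsPolynormed ℂ where
  uniformAddGroup := inferInstance
  continuousSMul := inferInstance
  polynormable := inferInstance
  t2 := inferInstance
  complete := inferInstance

instance complexPolyAlg : IsPolyAlg ℂ where
  mul_bilin := ⟨fun a b c => add_mul a b c, fun a b c => by simp [mul_assoc],
    fun a b c => mul_add a b c, fun a b c => by simp [mul_left_comm],
    continuous_fst.mul continuous_snd⟩

/-- **Every left module over `ℂ` is flat.** -/
theorem flatLeft_complex {X : Type} [AddCommGroup X] [Module ℂ X] [UniformSpace X]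
    [IsPolynormed X] (l : ℂ → X → X) : FlatLeft l := by
  intro Y' Y Y'' _ _ _ _ _ _ _ _ _ _ _ _ r' r r'' i j hr' hr hr'' hadm hir hjr T' T T''
    _ _ _ _ _ _ _ _ _ _ _ _ t' t t'' ht' ht ht'' φ ψ hφ hψ hφt hψt
  obtain ⟨p, s, hp, hs, hpi, hjs, hji, hdec⟩ := hadm.split
  -- the idempotents
  let I : Y' →L[ℂ] Y := hadm.lin_i.toCLM
  let J : Y →L[ℂ] Y'' := hadm.lin_j.toCLM
  let P : Y →L[ℂ] Y' := hp.toCLM
  let S : Y'' →L[ℂ] Y := hs.toCLM
  let F' : Y' →L[ℂ] Y' := (hr'.bilin.isContLin_left 1).toCLM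
  let F : Y →L[ℂ] Y := (hr.bilin.isContLin_left 1).toCLM
  let F'' : Y'' →L[ℂ] Y'' := (hr''.bilin.isContLin_left 1).toCLM
  have hF' : ∀ y, F' y = r' y 1 := fun _ => rfl
  have hF : ∀ y, F y = r y 1 := fun _ => rfl
  have hF'' : ∀ y, F'' y = r'' y 1 := fun _ => rfl
  have hrF' : ∀ y (a : ℂ), r' y a = a • F' y := by
    intro y a
    have := hr'.bilin.smul_right a y 1
    rwa [smul_eq_mul, mul_one] at this
  have hrF : ∀ y (a : ℂ), r y a = a • F y := by
    intro y a
    have := hr.bilin.smul_right a y 1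
    rwa [smul_eq_mul, mul_one] at this
  have hrF'' : ∀ y (a : ℂ), r'' y a = a • F'' y := by
    intro y a
    have := hr''.bilin.smul_right a y 1
    rwa [smul_eq_mul, mul_one] at this
  have hFF' : ∀ y, F' (F' y) = F' y := by
    intro y
    rw [hF', hF', ← hr'.mul, one_mul]
  have hFF : ∀ y, F (F y) = F y := by
    intro y
    rw [hF, hF, ← hr.mul, one_mul]
  have hFF'' : ∀ y, F'' (F'' y) = F'' y := by
    intro y
    rw [hF'', hF'', ← hr''.mul, one_mul]
  have hIF : ∀ y, I (F' y) = F (I y) := fun y => hir y 1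
  have hJF : ∀ y, J (F y) = F'' (J y) := fun y => hjr y 1
  have hPI : ∀ y, P (I y) = y := hpi
  have hJS : ∀ y, J (S y) = y := hjs
  have hJI : ∀ y, J (I y) = 0 := hji
  have hIP : ∀ y, I (P y) + S (J y) = y := fun y => (hdec y).symm
  let P1 : Y →L[ℂ] Y' := F'.comp (P.comp F) +
    (ContinuousLinearMap.id ℂ Y' - F').comp (P.comp (ContinuousLinearMap.id ℂ Y - F))
  let S1 : Y'' →L[ℂ] Y := F.comp (S.comp F'') +
    (ContinuousLinearMap.id ℂ Y - F).comp (S.comp (ContinuousLinearMap.id ℂ Y'' - F''))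
  have hP1 : ∀ y, P1 y = F' (P (F y)) + (P (y - F y) - F' (P (y - F y))) := fun _ => rfl
  have hS1 : ∀ y, S1 y = F (S (F'' y)) + (S (y - F'' y) - F (S (y - F'' y))) := fun _ => rfl
  have hP1F : ∀ y, P1 (F y) = F' (P1 y) := by
    intro y
    simp only [hP1, map_add, map_sub, hFF, hFF', sub_self, map_zero, sub_zero, add_zero]
  have hS1F : ∀ y, S1 (F'' y) = F (S1 y) := by
    intro y
    simp only [hS1, map_add, map_sub, hFF, hFF'', sub_self, map_zero, sub_zero, add_zero]
  have hP1I : ∀ y, P1 (I y) = y := by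
    intro y
    simp only [hP1, map_add, map_sub, hFF', ← hIF, hPI]
    abel
  have hJS1 : ∀ y, J (S1 y) = y := by
    intro y
    simp only [hS1, map_add, map_sub, hFF'', hJF, hJS]
    abel
  have hIP1 : ∀ y, I (P1 y) + S1 (J y) = y := by
    intro y
    have e1 : ∀ z, I (P z) = z - S (J z) := by
      intro z
      rw [eq_sub_iff_add_eq]
      exact hIP z
    simp only [hP1, hS1, map_add, map_sub, hIF, e1, hFF, hJF]
    abel
  obtain ⟨MP, hMP, hMPt⟩ := ht.exists_map ht' (isContLin_clm P1) (m := fun y => P1 y) (by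
    intro y a
    rw [hrF, hrF', map_smul, hP1F])
  obtain ⟨MS, hMS, hMSt⟩ := ht''.exists_map ht (isContLin_clm S1) (m := fun y => S1 y) (by
    intro y a
    rw [hrF, hrF'', map_smul, hS1F])
  have comp : ∀ {U V W : Type} [AddCommGroup U] [Module ℂ U] [UniformSpace U]
      [AddCommGroup V] [Module ℂ V] [UniformSpace V] [AddCommGroup W] [Module ℂ W]
      [UniformSpace W] {f : U → V} {g : V → W}, IsContLin f → IsContLin g →
      IsContLin (fun x => g (f x)) := by
    intro U V W _ _ _ _ _ _ _ _ _ f g hf hg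
    exact ⟨fun x y => by rw [hf.add, hg.add], fun c x => by rw [hf.smul, hg.smul],
      hg.cont.comp hf.cont⟩
  have idl : ∀ {U : Type} [AddCommGroup U] [Module ℂ U] [UniformSpace U],
      IsContLin (fun x : U => x) := by
    intro U _ _ _
    exact ⟨fun _ _ => rfl, fun _ _ => rfl, continuous_id⟩
  refine isTopExact_of_split hφ hψ hMP hMS ?_ ?_ ?_ ?_
  · have := ht'.ext (comp hφ hMP) (idl (U := T')) (by
      intro y x
      rw [hφt, hMPt]
      show t' (P1 (I y)) x = _
      rw [hP1I])
    exact fun x => congrFun this x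
  · have h0 : IsContLin (fun _ : T' => (0 : T'')) :=
      ⟨fun _ _ => (add_zero _).symm, fun _ _ => (smul_zero _).symm, continuous_const⟩
    have := ht'.ext (comp hφ hψ) h0 (by
      intro y x
      rw [hφt, hψt]
      show t'' (J (I y)) x = 0
      rw [hJI, ht''.bilin.zero_left])
    exact fun x => congrFun this x
  · have := ht''.ext (comp hMS hψ) (idl (U := T'')) (by
      intro y x
      rw [hMSt, hψt]
      show t'' (J (S1 y)) x = _
      rw [hJS1])
    exact fun x => congrFun this x
  · have hsum : IsContLin (fun x => φ (MP x) + MS (ψ x)) := by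
      refine ⟨fun x y => ?_, fun c x => ?_, ?_⟩
      · rw [hMP.add, hψ.add, hφ.add, hMS.add]
        abel
      · rw [hMP.smul, hψ.smul, hφ.smul, hMS.smul, smul_add]
      · exact (hφ.cont.comp hMP.cont).add (hMS.cont.comp hψ.cont)
    have := ht.ext (idl (U := T)) hsum (by
      intro y x
      show t y x = φ (MP (t y x)) + MS (ψ (t y x))
      rw [hMPt, hφt, hψt, hMSt, ← ht.bilin.add_left]
      show t y x = t (I (P1 y) + S1 (J y)) x
      rw [hIP1])
    exact fun x => congrFun this x

end Pool.Agent.Helper832.PN
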