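import Mathlib
import Pool.Agent.Helper832.PNa
import Pool.Agent.Helper832.PNb
import Pool.Agent.Helper832.PNc
import Pool.Agent.Helper832.PNd
import Pool.Agent.Helper832.PNxa
import Pool.Agent.Helper832.PNxc

/-!
The open mapping theorem for Frechet spaces; for Frechet spaces topological exactness is
exactness.
-/

set_option autoImplicit false

namespace Pool.Agent.Helper832.PN

open Topology Filter Uniformity

universe u

section Basis

variable {E : Type u} [AddCommGroup E] [Module ℂ E] [UniformSpace E] [IsPolynormed E]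
  [FirstCountableTopology E]

/-- an increasing sequence of continuous seminorms defining the topology -/
lemma exists_seq_seminorm : ∃ P : ℕ → Seminorm ℂ E, (∀ n, Continuous (P n)) ∧
    (∀ m n, m ≤ n → ∀ x, P m x ≤ P n x) ∧
    ∀ U ∈ 𝓝 (0 : E), ∃ n, ∀ x, P n x < (1 / 2) ^ n → x ∈ U := by
  obtain ⟨U, hU⟩ := (𝓝 (0 : E)).exists_antitone_basis
  have h1 : ∀ n, ∃ p : Seminorm ℂ E, Continuous p ∧ ∀ x, p x < 1 → x ∈ U n :=
    fun n => exists_seminorm_of_mem_nhds (hU.mem n)
  choose p hp hpU using h1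
  refine ⟨fun n => (Finset.range (n + 1)).sup p, fun n =>
    Seminorm.continuous_finsetSup (fun i _ => hp i), ?_, ?_⟩
  · intro m n hmn x
    have : (Finset.range (m + 1)).sup p ≤ (Finset.range (n + 1)).sup p :=
      Finset.sup_mono (Finset.range_mono (by omega))
    exact this x
  · intro V hV
    obtain ⟨n, hn⟩ := hU.mem_iff.mp hV
    refine ⟨n, fun x hx => hn (hpU n x ?_)⟩
    have h2 : p n ≤ (Finset.range (n + 1)).sup p :=
      Finset.le_sup (f := p) (Finset.mem_range.mpr (Nat.lt_succ_self n))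
    refine (h2 x).trans_lt (hx.trans_le ?_)
    exact pow_le_one₀ (by norm_num) (by norm_num)

omit [FirstCountableTopology E] in
/-- partial sums of a rapidly decreasing sequence converge -/
lemma exists_sum {P : ℕ → Seminorm ℂ E} (hP : ∀ n, Continuous (P n))
    (hmono : ∀ m n, m ≤ n → ∀ x, P m x ≤ P n x)
    (hbas : ∀ U ∈ 𝓝 (0 : E), ∃ n, ∀ x, P n x < (1 / 2) ^ n → x ∈ U) {m : ℕ} {x : ℕ → E}
    (hx : ∀ k, P (m + k) (x k) < (1 / 2) ^ (m + k)) :
    ∃ s, Tendsto (fun K => ∑ k ∈ Finset.range K, x k) atTop (𝓝 s) ∧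
      P m s ≤ 2 * (1 / 2) ^ m := by
  have key : ∀ j a b, a ≤ b → j ≤ m + a →
      P j (∑ k ∈ Finset.Ico a b, x k) ≤ 2 * (1 / 2) ^ (m + a) - 2 * (1 / 2) ^ (m + b) := by
    intro j a b hab hj
    induction b, hab using Nat.le_induction with
    | base => simp
    | succ b hab ih =>
      rw [Finset.sum_Ico_succ_top hab]
      have h1 : P j (x b) ≤ (1 / 2) ^ (m + b) :=
        (hmono j (m + b) (by omega) _).trans (hx b).le
      have h2 : (1 / 2 : ℝ) ^ (m + (b + 1)) = (1 / 2) ^ (m + b) * (1 / 2) := by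
        rw [← add_assoc, pow_succ]
      have h3 := map_add_le_add (P j) (∑ k ∈ Finset.Ico a b, x k) (x b)
      rw [h2]
      linarith
  have key2 : ∀ j a b, a ≤ b → j ≤ m + a →
      P j (∑ k ∈ Finset.Ico a b, x k) ≤ 2 * (1 / 2) ^ (m + a) := by
    intro j a b hab hj
    have := key j a b hab hj
    have h2 : (0 : ℝ) ≤ 2 * (1 / 2) ^ (m + b) := by positivity
    linarith
  have hC : CauchySeq (fun K => ∑ k ∈ Finset.range K, x k) := by
    rw [cauchySeq_iff_tendsto, uniformity_eq_comap_nhds_zero E, tendsto_comap_iff]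
    intro U hU
    obtain ⟨n, hn⟩ := hbas U hU
    rw [mem_map, ← prod_atTop_atTop_eq, mem_prod_iff]
    refine ⟨Set.Ici (n + 2), Ici_mem_atTop _, Set.Ici (n + 2), Ici_mem_atTop _, ?_⟩
    rintro ⟨a, b⟩ ⟨ha, hb⟩
    have ha' : n + 2 ≤ a := ha
    have hb' : n + 2 ≤ b := hb
    apply hn
    show P n ((∑ k ∈ Finset.range b, x k) - ∑ k ∈ Finset.range a, x k) < (1 / 2) ^ n
    have hpow : ∀ c, n + 2 ≤ c → (2 : ℝ) * (1 / 2) ^ (m + c) < (1 / 2) ^ n := by
      intro c hc
      have h1 : (1 / 2 : ℝ) ^ (m + c) ≤ (1 / 2) ^ (n + 2) :=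
        pow_le_pow_of_le_one (by norm_num) (by norm_num) (by omega)
      have h2 : (1 / 2 : ℝ) ^ (n + 2) = (1 / 2) ^ n * (1 / 4) := by
        rw [pow_add]; norm_num
      have h3 : (0 : ℝ) < (1 / 2) ^ n := by positivity
      rw [h2] at h1
      linarith
    rcases le_total a b with hab | hab
    · have e : (∑ k ∈ Finset.range b, x k) - ∑ k ∈ Finset.range a, x k =
          ∑ k ∈ Finset.Ico a b, x k := by
        rw [Finset.sum_Ico_eq_sub _ hab]
      rw [e]
      exact (key2 n a b hab (by omega)).trans_lt (hpow a ha')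
    · have e : (∑ k ∈ Finset.range b, x k) - ∑ k ∈ Finset.range a, x k =
          - ∑ k ∈ Finset.Ico b a, x k := by
        rw [Finset.sum_Ico_eq_sub _ hab]
        abel
      rw [e, map_neg_eq_map]
      exact (key2 n b a hab (by omega)).trans_lt (hpow b hb')
  obtain ⟨s, hs⟩ := cauchySeq_tendsto_of_complete hC
  refine ⟨s, hs, ?_⟩
  have h1 : Tendsto (fun K => P m (∑ k ∈ Finset.range K, x k)) atTop (𝓝 (P m s)) :=
    ((hP m).tendsto s).comp hs
  refine le_of_tendsto h1 (Eventually.of_forall fun K => ?_)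
  have := key2 m 0 K (Nat.zero_le _) (by omega)
  rwa [Nat.Ico_zero_eq_range, add_zero] at this

end Basis

section OMT

variable {E F : Type u} [AddCommGroup E] [Module ℂ E] [UniformSpace E] [IsPolynormed E]
  [FirstCountableTopology E] [AddCommGroup F] [Module ℂ F] [UniformSpace F] [IsPolynormed F]
  [FirstCountableTopology F]

omit [FirstCountableTopology E] in
/-- the closure of the image of a neighbourhood of zero is a neighbourhood of zero -/
lemma closure_image_mem {ψ : E →L[ℂ] F} (hsurj : Function.Surjective ψ) {U : Set E}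
    (hU : U ∈ 𝓝 (0 : E)) : closure (ψ '' U) ∈ 𝓝 (0 : F) := by
  have : (𝓤 F).IsCountablyGenerated := IsUniformAddGroup.uniformity_countably_generated
  obtain ⟨p, hp, hpU⟩ := exists_seminorm_of_mem_nhds hU
  let V : Set E := {x | p x < 1 / 2}
  have hcov : ⋃ n : ℕ, closure ((fun y : F => ((n : ℂ) + 1) • y) '' (ψ '' V)) = Set.univ := by
    apply Set.eq_univ_of_forall
    intro y
    obtain ⟨x, rfl⟩ := hsurj y
    obtain ⟨n, hn⟩ := exists_nat_gt (2 * p x)
    rw [Set.mem_iUnion]
    refine ⟨n, subset_closure ⟨ψ (((n : ℂ) + 1)⁻¹ • x), ⟨_, ?_, rfl⟩, ?_⟩⟩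
    · show p (((n : ℂ) + 1)⁻¹ • x) < 1 / 2
      have h1 : ‖((n : ℂ) + 1)‖ = (n : ℝ) + 1 := by
        have : ((n : ℂ) + 1) = ((n + 1 : ℕ) : ℂ) := by push_cast; ring
        rw [this, Complex.norm_natCast]
        push_cast; ring
      rw [map_smul_eq_mul, norm_inv, h1, inv_mul_lt_iff₀ (by positivity)]
      linarith
    · have h0 : ((n : ℂ) + 1) ≠ 0 := Nat.cast_add_one_ne_zero n
      show ((n : ℂ) + 1) • ψ (((n : ℂ) + 1)⁻¹ • x) = ψ x
      rw [map_smul, smul_smul, mul_inv_cancel₀ h0, one_smul]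
  obtain ⟨n, y0, hy0⟩ := nonempty_interior_of_iUnion_of_closed (fun n => isClosed_closure) hcov
  have h0 : ((n : ℂ) + 1) ≠ 0 := Nat.cast_add_one_ne_zero n
  -- the closure of ψ V has interior
  have hcl : closure ((fun y : F => ((n : ℂ) + 1) • y) '' (ψ '' V)) =
      (fun y : F => ((n : ℂ) + 1) • y) '' closure (ψ '' V) :=
    ((Homeomorph.smulOfNeZero ((n : ℂ) + 1) h0).image_closure _).symm
  rw [hcl] at hy0
  have hint : ((n : ℂ) + 1)⁻¹ • y0 ∈ interior (closure (ψ '' V)) := by
    rw [mem_interior_iff_mem_nhds] at hy0 ⊢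
    have h1 : ContinuousAt (fun y : F => ((n : ℂ) + 1) • y) (((n : ℂ) + 1)⁻¹ • y0) :=
      (continuous_const_smul _).continuousAt
    have h2 : ((n : ℂ) + 1) • (((n : ℂ) + 1)⁻¹ • y0) = y0 := by
      rw [smul_smul, mul_inv_cancel₀ h0, one_smul]
    have h3 := h1.preimage_mem_nhds (by
      show _ ∈ 𝓝 (((n : ℂ) + 1) • (((n : ℂ) + 1)⁻¹ • y0))
      rw [h2]; exact hy0)
    refine mem_of_superset h3 ?_
    rintro y ⟨z, hz, hzy⟩
    have : z = y := smul_right_injective F h0 hzy
    rwa [← this]
  obtain ⟨y1, hy1⟩ : ∃ y1, y1 ∈ interior (closure (ψ '' V)) := ⟨_, hint⟩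
  have hcont : ContinuousAt (fun w : F => y1 + w) 0 := by fun_prop
  have hW : {w : F | y1 + w ∈ closure (ψ '' V)} ∈ 𝓝 (0 : F) := by
    apply hcont.preimage_mem_nhds
    show _ ∈ 𝓝 (y1 + 0)
    rw [add_zero]
    exact mem_interior_iff_mem_nhds.mp hy1
  refine mem_of_superset hW ?_
  intro w hw
  have hw' : y1 + w ∈ closure (ψ '' V) := hw
  have hy1' : y1 ∈ closure (ψ '' V) := interior_subset hy1
  have h5 : (y1 + w) - y1 ∈ closure (ψ '' U) := by
    have hmap := map_mem_closure₂ (f := fun a b : F => a - b) continuous_sub hw' hy1'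
      (u := ψ '' U) (by
        rintro _ ⟨a, ha, rfl⟩ _ ⟨b, hb, rfl⟩
        refine ⟨a - b, hpU _ ?_, map_sub ψ a b⟩
        have h6 := map_sub_le_add p a b
        have ha' : p a < 1 / 2 := ha
        have hb' : p b < 1 / 2 := hb
        linarith)
    exact hmap
  simpa using h5

/-- **Open mapping theorem for Frechet spaces.** -/
theorem image_mem_nhds {ψ : E →L[ℂ] F} (hsurj : Function.Surjective ψ) {U : Set E}
    (hU : U ∈ 𝓝 (0 : E)) : ψ '' U ∈ 𝓝 (0 : F) := by
  obtain ⟨P, hP, hmono, hbas⟩ := exists_seq_seminorm (E := E)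
  obtain ⟨n, hn⟩ := hbas U hU
  obtain ⟨O, hO⟩ := (𝓝 (0 : F)).exists_antitone_basis
  let m := n + 2
  let V : ℕ → Set E := fun k => {x | P k x < (1 / 2) ^ k}
  have hV : ∀ k, V k ∈ 𝓝 (0 : E) := by
    intro k
    have : V k = P k ⁻¹' (Set.Iio ((1 / 2) ^ k)) := rfl
    rw [this]
    exact (hP k).continuousAt.preimage_mem_nhds (by
      rw [map_zero]; exact Iio_mem_nhds (by positivity))
  let W : ℕ → Set F := fun k => closure (ψ '' V k)
  have hW : ∀ k, W k ∈ 𝓝 (0 : F) := fun k => closure_image_mem hsurj (hV k)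
  refine mem_of_superset (hW m) ?_
  intro y hy
  have step : ∀ k (z : F), ∃ x : E, z ∈ W (m + k) →
      x ∈ V (m + k) ∧ z - ψ x ∈ W (m + (k + 1)) ∧ z - ψ x ∈ O k := by
    intro k z
    by_cases hz : z ∈ W (m + k)
    · have hN : {w : F | z - w ∈ W (m + (k + 1)) ∩ O k} ∈ 𝓝 z := by
        have hc : ContinuousAt (fun w : F => z - w) z := by fun_prop
        apply hc.preimage_mem_nhds
        rw [sub_self]
        exact inter_mem (hW _) (hO.mem k)
      obtain ⟨w, hw, x, hx, rfl⟩ := mem_closure_iff_nhds.mp hz _ hN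
      exact ⟨x, fun _ => ⟨hx, hw.1, hw.2⟩⟩
    · exact ⟨0, fun h => absurd h hz⟩
  choose f hf using step
  let z : ℕ → F := fun k => Nat.rec y (fun k z => z - ψ (f k z)) k
  have hz0 : z 0 = y := rfl
  have hzs : ∀ k, z (k + 1) = z k - ψ (f k (z k)) := fun k => rfl
  have hzW : ∀ k, z k ∈ W (m + k) := by
    intro k
    induction k with
    | zero => exact hy
    | succ k ih => exact ((hf k (z k) ih).2).1
  let x : ℕ → E := fun k => f k (z k)
  have hx : ∀ k, P (m + k) (x k) < (1 / 2) ^ (m + k) := fun k => (hf k (z k) (hzW k)).1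
  obtain ⟨s, hs, hPs⟩ := exists_sum hP hmono hbas hx
  have hsum : ∀ K, ψ (∑ k ∈ Finset.range K, x k) = y - z K := by
    intro K
    induction K with
    | zero => simp [hz0]
    | succ K ih =>
      rw [Finset.sum_range_succ, map_add, ih, hzs]
      show y - z K + ψ (f K (z K)) = y - (z K - ψ (f K (z K)))
      abel
  have hz0' : Tendsto z atTop (𝓝 0) := by
    rw [← tendsto_add_atTop_iff_nat 1]
    rw [hO.tendsto_right_iff]
    intro i _
    filter_upwards [eventually_ge_atTop i] with k hk
    exact hO.antitone hk ((hf k (z k) (hzW k)).2).2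
  have hlim1 : Tendsto (fun K => ψ (∑ k ∈ Finset.range K, x k)) atTop (𝓝 (ψ s)) :=
    (ψ.continuous.tendsto s).comp hs
  have hlim2 : Tendsto (fun K => ψ (∑ k ∈ Finset.range K, x k)) atTop (𝓝 (y - 0)) := by
    have : (fun K => ψ (∑ k ∈ Finset.range K, x k)) = fun K => y - z K := funext hsum
    rw [this]
    exact tendsto_const_nhds.sub hz0'
  have hψs : ψ s = y := by
    have := tendsto_nhds_unique hlim1 hlim2
    rwa [sub_zero] at this
  refine ⟨s, hn s ?_, hψs⟩
  have h1 : P n s ≤ P m s := hmono n m (by omega) s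
  have h2 : (1 / 2 : ℝ) ^ m = (1 / 2) ^ n * (1 / 4) := by
    show (1 / 2 : ℝ) ^ (n + 2) = _
    rw [pow_add]; norm_num
  have h3 : (0 : ℝ) < (1 / 2) ^ n := by positivity
  rw [h2] at hPs
  linarith

end OMT

section Exact

variable {T' T T'' : Type u} [AddCommGroup T'] [Module ℂ T'] [UniformSpace T'] [IsPolynormed T']
  [FirstCountableTopology T'] [AddCommGroup T] [Module ℂ T] [UniformSpace T] [IsPolynormed T]
  [FirstCountableTopology T] [AddCommGroup T''] [Module ℂ T''] [UniformSpace T'']
  [IsPolynormed T''] [FirstCountableTopology T'']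

/-- the quotient seminorm -/
noncomputable def quotSemi (P : Seminorm ℂ T) (N : Submodule ℂ T) : Seminorm ℂ T :=
  have hb : ∀ x : T, BddBelow (Set.range fun n : N => P (x + n)) :=
    fun x => ⟨0, by rintro _ ⟨n, rfl⟩; exact apply_nonneg P _⟩
  Seminorm.ofSMulLE (fun x => ⨅ n : N, P (x + n))
    (by
      apply le_antisymm
      · refine (ciInf_le (hb 0) 0).trans ?_
        simp
      · exact le_ciInf fun n => apply_nonneg P _)
    (by
      intro x y
      apply le_ciInf_add_ciInf
      intro n m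
      refine (ciInf_le (hb (x + y)) (n + m)).trans ?_
      have e : x + y + ((n + m : N) : T) = (x + n) + (y + m) := by
        rw [Submodule.coe_add]; abel
      rw [e]
      exact map_add_le_add P _ _)
    (by
      intro c x
      rw [Real.mul_iInf_of_nonneg (norm_nonneg c)]
      apply le_ciInf
      intro n
      refine (ciInf_le (hb (c • x)) (c • n)).trans ?_
      have e : c • x + ((c • n : N) : T) = c • (x + n) := by
        rw [Submodule.coe_smul, smul_add]
      rw [e, map_smul_eq_mul])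

omit [UniformSpace T] [IsPolynormed T] [FirstCountableTopology T] in
lemma quotSemi_apply (P : Seminorm ℂ T) (N : Submodule ℂ T) (x : T) :
    quotSemi P N x = ⨅ n : N, P (x + n) := rfl

omit [UniformSpace T] [IsPolynormed T] [FirstCountableTopology T] in
lemma quotSemi_le (P : Seminorm ℂ T) (N : Submodule ℂ T) (x : T) (n : N) :
    quotSemi P N x ≤ P (x + n) :=
  ciInf_le (f := fun n : N => P (x + n)) ⟨0, by rintro _ ⟨n, rfl⟩; exact apply_nonneg P _⟩ n

omit [UniformSpace T] [IsPolynormed T] [FirstCountableTopology T] in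
lemma exists_of_quotSemi_lt {P : Seminorm ℂ T} {N : Submodule ℂ T} {x : T} {c : ℝ}
    (h : quotSemi P N x < c) : ∃ n : N, P (x + n) < c :=
  exists_lt_of_ciInf_lt h

/-- **For Frechet spaces topological exactness is exactness.** -/
theorem topExact_iff_of_frechet {φ : T' → T} {ψ : T → T''} (hφ : IsContLin φ)
    (hψ : IsContLin ψ) : IsTopExact φ ψ ↔ Function.Injective φ ∧ Set.range φ = {t | ψ t = 0} ∧
      Function.Surjective ψ := by
  constructor
  · intro h
    refine ⟨h.closedEmbedding.injective, h.exact_mid, ?_⟩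
    intro y
    let N : Submodule ℂ T := LinearMap.ker hψ.toCLM.toLinearMap
    have hN : ∀ t, t ∈ N ↔ ψ t = 0 := fun t => Iff.rfl
    obtain ⟨P, hP, hmono, hbas⟩ := exists_seq_seminorm (E := T)
    obtain ⟨O, hO⟩ := (𝓝 (0 : T'')).exists_antitone_basis
    have hq : ∀ n, ∃ q'' : Seminorm ℂ T'', Continuous q'' ∧
        ∀ t, quotSemi (P n) N t ≤ q'' (ψ t) := by
      intro n
      apply h.strict
      · refine Seminorm.continuous_of_le (hP n) ?_
        intro x
        have := quotSemi_le (P n) N x 0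
        rwa [Submodule.coe_zero, add_zero] at this
      · intro t ht
        apply le_antisymm _ (apply_nonneg _ _)
        have := quotSemi_le (P n) N t ⟨-t, by
          rw [hN]
          have : ψ (-t) = - ψ t := map_neg hψ.toCLM t
          rw [this, ht, neg_zero]⟩
        simpa using this
    choose q'' hq''c hq'' using hq
    -- approximations
    have happ : ∀ n, ∃ t, (∀ j ≤ n + 1, q'' j (y - ψ t) < (1 / 2) ^ (n + 2)) ∧
        y - ψ t ∈ O n := by
      intro n
      have hnb : {w : T'' | (∀ j ≤ n + 1, q'' j (y - w) < (1 / 2) ^ (n + 2)) ∧ y - w ∈ O n} ∈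
          𝓝 y := by
        have hc : ContinuousAt (fun w : T'' => y - w) y := by fun_prop
        apply hc.preimage_mem_nhds (t := {v : T'' | (∀ j ≤ n + 1, q'' j v < (1 / 2) ^ (n + 2)) ∧
          v ∈ O n})
        rw [sub_self]
        apply inter_mem _ (hO.mem n)
        have : {v : T'' | ∀ j ≤ n + 1, q'' j v < (1 / 2) ^ (n + 2)} =
            ⋂ j ∈ Finset.range (n + 2), q'' j ⁻¹' (Set.Iio ((1 / 2) ^ (n + 2))) := by
          ext v
          simp only [Set.mem_ofPred_eq, Finset.mem_range, Set.mem_iInter, Set.mem_preimage,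
            Set.mem_Iio, Nat.lt_succ_iff]
        show {v : T'' | ∀ j ≤ n + 1, q'' j v < (1 / 2) ^ (n + 2)} ∈ _
        rw [this, Finset.iInter_mem_sets]
        intro j _
        exact (hq''c j).continuousAt.preimage_mem_nhds (by
          rw [map_zero]; exact Iio_mem_nhds (by positivity))
      obtain ⟨w, hw, t, rfl⟩ := mem_closure_iff_nhds.mp (h.dense y) _ hnb
      exact ⟨t, hw⟩
    choose t ht htO using happ
    have hdiff : ∀ k, ∃ n : N, P k ((t (k + 1) - t k) + n) < (1 / 2) ^ k := by
      intro k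
      apply exists_of_quotSemi_lt
      refine (hq'' k _).trans_lt ?_
      have e : ψ (t (k + 1) - t k) = (y - ψ (t k)) - (y - ψ (t (k + 1))) := by
        have : ψ (t (k + 1) - t k) = ψ (t (k + 1)) - ψ (t k) := map_sub hψ.toCLM _ _
        rw [this]; abel
      rw [e]
      have h1 := map_sub_le_add (q'' k) (y - ψ (t k)) (y - ψ (t (k + 1)))
      have h2 := ht k k (by omega)
      have h3 := ht (k + 1) k (by omega)
      have h4 : (1 / 2 : ℝ) ^ (k + 2) = (1 / 2) ^ k * (1 / 4) := by rw [pow_add]; norm_num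
      have h5 : (1 / 2 : ℝ) ^ (k + 1 + 2) = (1 / 2) ^ k * (1 / 8) := by
        rw [add_assoc, pow_add]; norm_num
      have h6 : (0 : ℝ) < (1 / 2) ^ k := by positivity
      rw [h4] at h2
      rw [h5] at h3
      linarith
    choose nn hnn using hdiff
    obtain ⟨s, hs, -⟩ := exists_sum (m := 0) hP hmono hbas
      (x := fun k => (t (k + 1) - t k) + nn k) (by
        intro k
        rw [Nat.zero_add]
        exact hnn k)
    have hsum : ∀ K, ψ (∑ k ∈ Finset.range K, ((t (k + 1) - t k) + (nn k : T))) =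
        ψ (t K) - ψ (t 0) := by
      intro K
      induction K with
      | zero =>
        have : ψ 0 = 0 := map_zero hψ.toCLM
        simp [this]
      | succ K ih =>
        have hn0 : ψ (nn K : T) = 0 := (nn K).2
        have hsub : ψ (t (K + 1) - t K) = ψ (t (K + 1)) - ψ (t K) := map_sub hψ.toCLM _ _
        rw [Finset.sum_range_succ, hψ.add, ih, hψ.add, hn0, hsub]
        abel
    have hlim1 : Tendsto (fun K => ψ (∑ k ∈ Finset.range K, ((t (k + 1) - t k) + (nn k : T))))
        atTop (𝓝 (ψ s)) := (hψ.cont.tendsto s).comp hs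
    have hlim0 : Tendsto (fun K => y - ψ (t K)) atTop (𝓝 0) := by
      rw [hO.tendsto_right_iff]
      intro i _
      filter_upwards [eventually_ge_atTop i] with k hk
      exact hO.antitone hk (htO k)
    have hlim2 : Tendsto (fun K => ψ (∑ k ∈ Finset.range K, ((t (k + 1) - t k) + (nn k : T))))
        atTop (𝓝 (y - 0 - ψ (t 0))) := by
      have e : (fun K => ψ (∑ k ∈ Finset.range K, ((t (k + 1) - t k) + (nn k : T)))) =
          fun K => y - (y - ψ (t K)) - ψ (t 0) := by
        funext K
        rw [hsum]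
        abel
      rw [e]
      exact (tendsto_const_nhds.sub hlim0).sub tendsto_const_nhds
    have hfin := tendsto_nhds_unique hlim1 hlim2
    refine ⟨s + t 0, ?_⟩
    rw [hψ.add, hfin]
    abel
  · rintro ⟨hinj, hex, hsurj⟩
    let S : Submodule ℂ T := LinearMap.ker hψ.toCLM.toLinearMap
    have hS : ∀ y, y ∈ S ↔ ψ y = 0 := fun y => Iff.rfl
    have hScl : IsClosed (S : Set T) := isClosed_eq hψ.cont continuous_const
    have : IsPolynormed S := isPolynormed_submodule S hScl
    have : FirstCountableTopology S :=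
      IsInducing.firstCountableTopology (f := (Subtype.val : S → T)) IsInducing.subtypeVal
    have hφS : ∀ x, φ x ∈ S := by
      intro x
      have : φ x ∈ {t | ψ t = 0} := by rw [← hex]; exact ⟨x, rfl⟩
      exact this
    let φS : T' →L[ℂ] S := hφ.toCLM.codRestrict S hφS
    have hφSv : ∀ x, ((φS x : S) : T) = φ x := fun x => rfl
    have hφSsurj : Function.Surjective φS := by
      rintro ⟨y, hy⟩
      have : y ∈ Set.range φ := by rw [hex]; exact hy
      obtain ⟨x, hx⟩ := this
      exact ⟨x, Subtype.ext hx⟩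
    have hind : IsInducing φS := by
      rw [IsTopologicalAddGroup.isInducing_iff_nhds_zero]
      apply le_antisymm
      · rw [← tendsto_iff_comap]
        have := φS.continuous.tendsto 0
        rwa [map_zero] at this
      · intro U hU
        refine ⟨φS '' U, image_mem_nhds hφSsurj hU, ?_⟩
        rintro x ⟨x', hx', hxx⟩
        have h1 : φ x' = φ x := congrArg Subtype.val hxx
        rwa [← hinj h1]
    have hemb : IsEmbedding φS := ⟨hind, fun a b hab => hinj (congrArg Subtype.val hab)⟩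
    have hcl : IsClosedEmbedding φ := by
      have h1 : IsClosedEmbedding (Subtype.val : S → T) := hScl.isClosedEmbedding_subtypeVal
      have h2 : IsClosedEmbedding φS :=
        ⟨hemb, by rw [hφSsurj.range_eq]; exact isClosed_univ⟩
      exact h1.comp h2
    refine ⟨hcl, hex, hsurj.denseRange, ?_⟩
    intro q hq hq0
    obtain ⟨σ, hσ⟩ := hψ.toCLM.toLinearMap.exists_rightInverse_of_surjective
      (LinearMap.range_eq_top.mpr hsurj)
    have hσ' : ∀ y, ψ (σ y) = y := fun y => congrArg (fun f => f y) hσ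
    have hqσ : ∀ t, q (σ (ψ t)) = q t := by
      intro t
      have h1 : ψ (σ (ψ t) - t) = 0 := by
        have : ψ (σ (ψ t) - t) = ψ (σ (ψ t)) - ψ t := map_sub hψ.toCLM _ _
        rw [this, hσ', sub_self]
      have h2 : ψ (t - σ (ψ t)) = 0 := by
        have : ψ (t - σ (ψ t)) = ψ t - ψ (σ (ψ t)) := map_sub hψ.toCLM _ _
        rw [this, hσ', sub_self]
      apply le_antisymm
      · have := map_add_le_add q (σ (ψ t) - t) t
        rw [sub_add_cancel, hq0 _ h1, zero_add] at this
        exact this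
      · have := map_add_le_add q (t - σ (ψ t)) (σ (ψ t))
        rw [sub_add_cancel, hq0 _ h2, zero_add] at this
        exact this
    refine ⟨q.comp σ, ?_, fun t => (hqσ t).ge⟩
    apply Seminorm.continuous (r := 1)
    have hU : {t : T | q t < 1} ∈ 𝓝 (0 : T) := by
      have : {t : T | q t < 1} = q ⁻¹' (Set.Iio 1) := rfl
      rw [this]
      exact hq.continuousAt.preimage_mem_nhds (by rw [map_zero]; exact Iio_mem_nhds one_pos)
    have himg := image_mem_nhds (ψ := hψ.toCLM) hsurj hU
    refine mem_of_superset himg ?_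
    rintro _ ⟨t, ht, rfl⟩
    rw [Seminorm.mem_ball_zero]
    show q (σ (ψ t)) < 1
    rw [hqσ]
    exact ht

end Exact

end Pool.Agent.Helper832.PN
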