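import Mathlib

/-!
Approximate eigenpairs of the dual module of a radical commutative Banach algebra.
-/

set_option autoImplicit false
set_option maxHeartbeats 4000000
set_option synthInstance.maxHeartbeats 400000

namespace Pool.Agent.Helper832.RD

open ContinuousLinearMap

section Job22007

theorem qn_of_radical {A : Type} [NonUnitalNormedCommRing A] [NormedSpace ℂ A]
    [IsScalarTower ℂ A A] [SMulCommClass ℂ A A] [CompleteSpace A]
    (hrad : ∀ a : A, ∃ b : A, a + b + a * b = 0) (a : A) (ε : ℝ) (hε : 0 < ε) :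
    ∃ n : ℕ, ‖(ContinuousLinearMap.mul ℂ A a) ^ n‖ < ε ^ n := by
  rcases subsingleton_or_nontrivial A with hA | hA
  · refine ⟨0, ?_⟩
    have : (ContinuousLinearMap.mul ℂ A a) ^ 0 = 0 := by
      ext x
      exact Subsingleton.elim _ _
    rw [this]
    simp
  set L : A →L[ℂ] A := ContinuousLinearMap.mul ℂ A a with hL
  have hspec : ∀ z ∈ spectrum ℂ L, z = 0 := by
    intro z hz
    by_contra hz0
    apply hz
    obtain ⟨b, hb⟩ := hrad (-(z⁻¹ • a))
    have h1 : IsUnit (1 - z⁻¹ • L) := by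
      have hb' : ∀ x : A, b * x - z⁻¹ • (a * x) - z⁻¹ • (b * (a * x)) = 0 := by
        intro x
        have h2 : (-(z⁻¹ • a) + b + -(z⁻¹ • a) * b) * x = 0 := by rw [hb, zero_mul]
        have h3 : (-(z⁻¹ • a) + b + -(z⁻¹ • a) * b) * x =
            b * x - z⁻¹ • (a * x) - z⁻¹ • (b * (a * x)) := by
          simp only [add_mul, neg_mul, smul_mul_assoc]
          rw [← mul_assoc b a x, mul_comm b a]
          abel
        rw [← h3, h2]
      refine ⟨⟨1 - z⁻¹ • L, 1 + ContinuousLinearMap.mul ℂ A b, ?_, ?_⟩, rfl⟩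
      · ext x
        change (x + b * x) - z⁻¹ • (a * (x + b * x)) = x
        rw [mul_add, smul_add]
        have h4 := hb' x
        have h5 : a * (b * x) = b * (a * x) := mul_left_comm a b x
        rw [h5]
        have : x + b * x - (z⁻¹ • (a * x) + z⁻¹ • (b * (a * x))) =
          x + (b * x - z⁻¹ • (a * x) - z⁻¹ • (b * (a * x))) := by abel
        rw [this, h4, add_zero]
      · ext x
        change (x - z⁻¹ • (a * x)) + b * (x - z⁻¹ • (a * x)) = x
        rw [mul_sub, mul_smul_comm]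
        have h4 := hb' x
        have : x - z⁻¹ • (a * x) + (b * x - z⁻¹ • (b * (a * x))) =
          x + (b * x - z⁻¹ • (a * x) - z⁻¹ • (b * (a * x))) := by abel
        rw [this, h4, add_zero]
    have h2 : algebraMap ℂ (A →L[ℂ] A) z - L = algebraMap ℂ (A →L[ℂ] A) z * (1 - z⁻¹ • L) := by
      rw [mul_sub, mul_one, Algebra.algebraMap_eq_smul_one, smul_mul_smul_comm, one_mul,
        mul_inv_cancel₀ hz0, one_smul]
    change IsUnit (algebraMap ℂ (A →L[ℂ] A) z - L)
    rw [h2]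
    exact ((IsUnit.mk0 z hz0).map (algebraMap ℂ (A →L[ℂ] A))).mul h1
  have hr : spectralRadius ℂ L = 0 := by
    unfold spectralRadius
    refine le_antisymm (iSup₂_le (fun z hz => ?_)) zero_le
    rw [hspec z hz]; simp
  have hG := spectrum.pow_norm_pow_one_div_tendsto_nhds_spectralRadius L
  rw [hr] at hG
  have h3 := hG.eventually (gt_mem_nhds (show (0 : ENNReal) < ENNReal.ofReal ε by
    rw [ENNReal.ofReal_pos]; exact hε))
  obtain ⟨n, hn, hn1⟩ := (h3.and (Filter.eventually_ge_atTop 1)).exists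
  refine ⟨n, ?_⟩
  rw [ENNReal.ofReal_lt_ofReal_iff hε] at hn
  have hn0 : (0 : ℝ) < n := by exact_mod_cast hn1
  have h4 : (‖L ^ n‖ ^ (1 / (n : ℝ))) ^ n < ε ^ n := by
    refine pow_lt_pow_left₀ hn (by positivity) (by omega)
  have h5 : (‖L ^ n‖ ^ (1 / (n : ℝ))) ^ n = ‖L ^ n‖ := by
    rw [← Real.rpow_natCast, ← Real.rpow_mul (norm_nonneg _), one_div, inv_mul_cancel₀ hn0.ne', Real.rpow_one]
  rw [h5] at h4
  exact h4

end Job22007

section Job22008

theorem exists_deep {A : Type} [NonUnitalNormedCommRing A] [NormedSpace ℂ A]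
    [IsScalarTower ℂ A A] [SMulCommClass ℂ A A] [Nontrivial A]
    (hqn : ∀ (a : A) (ε : ℝ), 0 < ε → ∃ n : ℕ, ‖(ContinuousLinearMap.mul ℂ A a) ^ n‖ < ε ^ n)
    (S : Finset A) (δ : ℝ) (hδ : 0 < δ) :
    ∃ f : A →L[ℂ] ℂ, f ≠ 0 ∧ ∀ y ∈ S, ‖f.comp (ContinuousLinearMap.mul ℂ A y)‖ ≤ δ * ‖f‖ := by
  classical
  induction S using Finset.induction_on generalizing δ with
  | empty =>
    obtain ⟨x, hx⟩ := exists_ne (0 : A)
    obtain ⟨g, hg1, hg2⟩ := exists_dual_vector ℂ x (norm_ne_zero_iff.2 hx)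
    refine ⟨g, ?_, by simp⟩
    rintro rfl
    simp at hg1
  | insert z S hzS ih =>
    set d : ℝ := min δ 1 with hd
    have hd0 : 0 < d := lt_min hδ one_pos
    have hd1 : d ≤ 1 := min_le_right _ _
    have hdδ : d ≤ δ := min_le_left _ _
    obtain ⟨M, hM⟩ := hqn z d hd0
    set L : A →L[ℂ] A := ContinuousLinearMap.mul ℂ A z with hL
    have hz1 : (0 : ℝ) < 1 + ‖z‖ := by positivity
    have hLp : ∀ m : ℕ, ‖L ^ m‖ ≤ (1 + ‖z‖) ^ m := by
      intro m
      induction m with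
      | zero =>
        rw [pow_zero, pow_zero]
        exact ContinuousLinearMap.norm_id_le
      | succ m ihm =>
        rw [pow_succ, pow_succ]
        calc ‖L ^ m * L‖ ≤ ‖L ^ m‖ * ‖L‖ := norm_mul_le _ _
          _ ≤ (1 + ‖z‖) ^ m * (1 + ‖z‖) := by
              apply mul_le_mul ihm _ (norm_nonneg _) (by positivity)
              have : ‖L‖ ≤ ‖z‖ := ContinuousLinearMap.opNorm_mul_apply_le ℂ A z
              linarith
    set δ1 : ℝ := d * d ^ M / (1 + ‖z‖) ^ M with hδ1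
    have hδ1p : 0 < δ1 := by positivity
    obtain ⟨f1, hf1, hf1S⟩ := ih δ1 hδ1p
    have hf1n : 0 < ‖f1‖ := norm_pos_iff.2 hf1
    have hex : ∃ m, m < M ∧ d ^ m * ‖f1‖ ≤ ‖f1.comp (L ^ m)‖ ∧
        ‖f1.comp (L ^ (m + 1))‖ ≤ d * ‖f1.comp (L ^ m)‖ := by
      by_contra hcon
      push Not at hcon
      have hall : ∀ m, m ≤ M → d ^ m * ‖f1‖ ≤ ‖f1.comp (L ^ m)‖ := by
        intro m
        induction m with
        | zero =>
          intro _
          rw [pow_zero, pow_zero, one_mul]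
          exact le_of_eq rfl
        | succ m ihm =>
          intro hm
          have h1 := ihm (by omega)
          have h2 := hcon m (by omega) h1
          calc d ^ (m + 1) * ‖f1‖ = d * (d ^ m * ‖f1‖) := by ring
            _ ≤ d * ‖f1.comp (L ^ m)‖ := mul_le_mul_of_nonneg_left h1 hd0.le
            _ ≤ _ := h2.le
      have h1 := hall M le_rfl
      have h2 : ‖f1.comp (L ^ M)‖ ≤ ‖f1‖ * ‖L ^ M‖ := ContinuousLinearMap.opNorm_comp_le _ _
      have h3 : ‖f1‖ * ‖L ^ M‖ < ‖f1‖ * d ^ M := mul_lt_mul_of_pos_left hM hf1n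
      linarith [mul_comm ‖f1‖ (d ^ M)]
    obtain ⟨m, hmM, hm1, hm2⟩ := hex
    have hpos : 0 < ‖f1.comp (L ^ m)‖ := lt_of_lt_of_le (by positivity) hm1
    refine ⟨f1.comp (L ^ m), norm_pos_iff.1 hpos, ?_⟩
    intro y hy
    rcases Finset.mem_insert.1 hy with rfl | hyS
    · have e : (f1.comp (L ^ m)).comp (ContinuousLinearMap.mul ℂ A y) = f1.comp (L ^ (m + 1)) := by
        rw [pow_succ, ContinuousLinearMap.comp_assoc]
        rfl
      rw [e]
      exact hm2.trans (mul_le_mul_of_nonneg_right hdδ hpos.le)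
    · have hcomm : Commute L (ContinuousLinearMap.mul ℂ A y) := by
        ext a
        show z * (y * a) = y * (z * a)
        exact mul_left_comm _ _ _
      have hcm : (L ^ m) * (ContinuousLinearMap.mul ℂ A y) =
          (ContinuousLinearMap.mul ℂ A y) * (L ^ m) := (hcomm.pow_left m).eq
      have e : (f1.comp (L ^ m)).comp (ContinuousLinearMap.mul ℂ A y) =
          (f1.comp (ContinuousLinearMap.mul ℂ A y)).comp (L ^ m) := by
        rw [ContinuousLinearMap.comp_assoc, ContinuousLinearMap.comp_assoc]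
        exact congrArg f1.comp hcm
      rw [e]
      have hb1 : ‖f1.comp (ContinuousLinearMap.mul ℂ A y)‖ ≤ δ1 * ‖f1‖ := hf1S y hyS
      have hb2 : ‖L ^ m‖ ≤ (1 + ‖z‖) ^ M :=
        (hLp m).trans (pow_le_pow_right₀ (by linarith [norm_nonneg z]) hmM.le)
      have hdm : d ^ M ≤ d ^ m := pow_le_pow_of_le_one hd0.le hd1 hmM.le
      calc ‖(f1.comp (ContinuousLinearMap.mul ℂ A y)).comp (L ^ m)‖
          ≤ ‖f1.comp (ContinuousLinearMap.mul ℂ A y)‖ * ‖L ^ m‖ :=
            ContinuousLinearMap.opNorm_comp_le _ _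
        _ ≤ (δ1 * ‖f1‖) * (1 + ‖z‖) ^ M :=
            mul_le_mul hb1 hb2 (norm_nonneg _) (by positivity)
        _ = d * (d ^ M * ‖f1‖) := by
            rw [hδ1]
            field_simp
        _ ≤ d * (d ^ m * ‖f1‖) := by gcongr
        _ ≤ d * ‖f1.comp (L ^ m)‖ := by gcongr
        _ ≤ δ * ‖f1.comp (L ^ m)‖ := by gcongr

end Job22008

section Job22009

theorem polar (R : Type) [CommRing R] (N : ℕ) (c : Fin N → R) :
    ∑ s : Fin N → Bool, (∏ i, (if s i then (1 : R) else -1)) *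
      (∑ i, (if s i then (1 : R) else -1) * c i) ^ N = 2 ^ N * (N.factorial : R) * ∏ i, c i := by
  classical
  have hcard : (Finset.univ.filter (fun k : Fin N → Fin N => Function.Bijective k)).card
      = N.factorial := by
    have : (Finset.univ.filter (fun k : Fin N → Fin N => Function.Bijective k)) =
        Finset.univ.image (fun σ : Equiv.Perm (Fin N) => (σ : Fin N → Fin N)) := by
      ext k
      simp only [Finset.mem_filter, Finset.mem_univ, true_and, Finset.mem_image]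
      constructor
      · intro h
        exact ⟨Equiv.ofBijective k h, rfl⟩
      · rintro ⟨σ, rfl⟩
        exact σ.bijective
    rw [this, Finset.card_image_of_injective _ Equiv.coe_fn_injective, Finset.card_univ,
      Fintype.card_perm, Fintype.card_fin]
  have hsgn : ∀ b : Bool, (if b then (1 : R) else -1) * (if b then (1 : R) else -1) = 1 := by
    intro b
    cases b <;> simp
  have hexp : ∀ s : Fin N → Bool,
      (∏ i, (if s i then (1 : R) else -1)) * (∑ i, (if s i then (1 : R) else -1) * c i) ^ N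
      = ∑ k : Fin N → Fin N, (∏ j, c (k j)) *
        ((∏ i, (if s i then (1 : R) else -1)) * ∏ j, (if s (k j) then (1 : R) else -1)) := by
    intro s
    rw [Fintype.sum_pow, Finset.mul_sum]
    refine Finset.sum_congr rfl fun k _ => ?_
    rw [Finset.prod_mul_distrib]
    ring
  rw [Finset.sum_congr rfl (fun s _ => hexp s), Finset.sum_comm]
  have hk : ∀ k : Fin N → Fin N,
      ∑ s : Fin N → Bool, (∏ j, c (k j)) *
        ((∏ i, (if s i then (1 : R) else -1)) * ∏ j, (if s (k j) then (1 : R) else -1))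
      = if Function.Bijective k then 2 ^ N * ∏ i, c i else 0 := by
    intro k
    rw [← Finset.mul_sum]
    split_ifs with hb
    · have h1 : ∏ j, c (k j) = ∏ i, c i := hb.prod_comp c
      have h2 : ∀ s : Fin N → Bool, (∏ i, (if s i then (1 : R) else -1)) *
          ∏ j, (if s (k j) then (1 : R) else -1) = 1 := by
        intro s
        rw [hb.prod_comp (fun i => (if s i then (1 : R) else -1)), ← Finset.prod_mul_distrib]
        exact Finset.prod_eq_one fun i _ => hsgn (s i)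
      rw [h1, Finset.sum_congr rfl (fun s _ => h2 s), Finset.sum_const, Finset.card_univ]
      simp only [Fintype.card_fun, Fintype.card_bool, Fintype.card_fin, nsmul_eq_mul, mul_one]
      push_cast
      ring
    · have hns : ¬ Function.Surjective k := by
        intro hs
        exact hb (Finite.injective_iff_surjective.mpr hs |> fun hi => ⟨hi, hs⟩)
      rw [Function.Surjective] at hns
      push Not at hns
      obtain ⟨i0, hi0⟩ := hns
      have hz : ∑ s : Fin N → Bool, ((∏ i, (if s i then (1 : R) else -1)) *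
          ∏ j, (if s (k j) then (1 : R) else -1)) = 0 := by
        refine Finset.sum_involution (fun s _ => Function.update s i0 (!s i0)) ?_ ?_ ?_ ?_
        · intro s _
          have e1 : ∏ j, (if (Function.update s i0 (!s i0)) (k j) then (1 : R) else -1)
              = ∏ j, (if s (k j) then (1 : R) else -1) := by
            refine Finset.prod_congr rfl fun j _ => ?_
            rw [Function.update_of_ne (hi0 j)]
          have e2 : ∏ i, (if (Function.update s i0 (!s i0)) i then (1 : R) else -1)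
              = - ∏ i, (if s i then (1 : R) else -1) := by
            rw [← Finset.mul_prod_erase Finset.univ _ (Finset.mem_univ i0),
              ← Finset.mul_prod_erase Finset.univ (fun i => (if s i then (1 : R) else -1))
                (Finset.mem_univ i0)]
            have e3 : ∏ x ∈ Finset.univ.erase i0,
                (if (Function.update s i0 (!s i0)) x then (1 : R) else -1)
                = ∏ x ∈ Finset.univ.erase i0, (if s x then (1 : R) else -1) := by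
              refine Finset.prod_congr rfl fun x hx => ?_
              rw [Function.update_of_ne (Finset.ne_of_mem_erase hx)]
            rw [e3, Function.update_self]
            cases s i0 <;> simp
          rw [e1, e2]
          ring
        · intro s _ _ h
          have := congrFun h i0
          rw [Function.update_self] at this
          cases hs : s i0 <;> simp [hs] at this
        · intro s _
          exact Finset.mem_univ _
        · intro s _
          funext x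
          by_cases hx : x = i0
          · subst hx
            simp
          · simp [Function.update_of_ne hx]
      rw [hz, mul_zero]
  rw [Finset.sum_congr rfl (fun k _ => hk k), ← Finset.sum_filter, Finset.sum_const, hcard,
    nsmul_eq_mul]
  ring

end Job22009

section Job22011

/-- the representation of the unitization by multiplication operators -/
noncomputable def growth_rho (A : Type) [NonUnitalNormedCommRing A] [NormedSpace ℂ A]
    [IsScalarTower ℂ A A] [SMulCommClass ℂ A A] : Unitization ℂ A →ₐ[ℂ] (A →L[ℂ] A) :=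
  Unitization.lift (NonUnitalAlgHom.Lmul ℂ A)

theorem growth_rho_inr {A : Type} [NonUnitalNormedCommRing A] [NormedSpace ℂ A]
    [IsScalarTower ℂ A A] [SMulCommClass ℂ A A] (a : A) :
    growth_rho A (a : Unitization ℂ A) = ContinuousLinearMap.mul ℂ A a := by
  unfold growth_rho
  show (NonUnitalAlgHom.Lmul ℂ A).toAlgHom (a : Unitization ℂ A) = _
  simp

theorem growth_iter {A : Type} [NonUnitalNormedCommRing A] [NormedSpace ℂ A]
    [IsScalarTower ℂ A A] [SMulCommClass ℂ A A] (C : ℝ) (hC : 1 ≤ C)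
    (hopen : ∀ f : A →L[ℂ] ℂ, ∃ c : A, ‖c‖ ≤ 1 ∧
      ‖f‖ ≤ C * ‖f.comp (ContinuousLinearMap.mul ℂ A c)‖) (N : ℕ) : ∀ (f : A →L[ℂ] ℂ),
    ∃ c : Fin N → A, (∀ i, ‖c i‖ ≤ 1) ∧
      ‖f‖ ≤ C ^ N * ‖f.comp (growth_rho A (∏ i, (c i : Unitization ℂ A)))‖ := by
  induction N with
  | zero =>
    intro f
    refine ⟨fun i => i.elim0, fun i => i.elim0, ?_⟩
    have : f.comp (growth_rho A (∏ i : Fin 0, ((i.elim0 : A) : Unitization ℂ A))) = f := by
      rw [Fin.prod_univ_zero, map_one]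
      rfl
    rw [this]
    simp
  | succ N ih =>
    intro f
    obtain ⟨c0, hc0, hf⟩ := hopen f
    obtain ⟨c, hc, hg⟩ := ih (f.comp (ContinuousLinearMap.mul ℂ A c0))
    refine ⟨Fin.cons c0 c, ?_, ?_⟩
    · intro i
      refine Fin.cases ?_ (fun i => ?_) i
      · simpa using hc0
      · simpa using hc i
    · have h1 : f.comp (growth_rho A (∏ i, ((Fin.cons c0 c : Fin (N + 1) → A) i : Unitization ℂ A))) =
          (f.comp (ContinuousLinearMap.mul ℂ A c0)).comp
            (growth_rho A (∏ i, (c i : Unitization ℂ A))) := by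
        rw [Fin.prod_univ_succ]
        simp only [Fin.cons_zero, Fin.cons_succ]
        rw [map_mul, growth_rho_inr]
        rfl
      rw [h1]
      calc ‖f‖ ≤ C * ‖f.comp (ContinuousLinearMap.mul ℂ A c0)‖ := hf
        _ ≤ C * (C ^ N * ‖(f.comp (ContinuousLinearMap.mul ℂ A c0)).comp
            (growth_rho A (∏ i, (c i : Unitization ℂ A)))‖) :=
          mul_le_mul_of_nonneg_left hg (by linarith)
        _ = _ := by ring

theorem growth {A : Type} [NonUnitalNormedCommRing A] [NormedSpace ℂ A]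
    [IsScalarTower ℂ A A] [SMulCommClass ℂ A A] (C : ℝ) (hC : 1 ≤ C)
    (hopen : ∀ f : A →L[ℂ] ℂ, ∃ c : A, ‖c‖ ≤ 1 ∧
      ‖f‖ ≤ C * ‖f.comp (ContinuousLinearMap.mul ℂ A c)‖) (N : ℕ) (f : A →L[ℂ] ℂ) :
    ∃ c : A, ‖c‖ ≤ 1 ∧ ‖f‖ ≤ (3 * C) ^ N * ‖f.comp ((ContinuousLinearMap.mul ℂ A c) ^ N)‖ := by
  obtain ⟨c, hc, hf⟩ := growth_iter C hC hopen N f
  rcases Nat.eq_zero_or_pos N with hN | hN
  · subst hN
    refine ⟨0, by simp, ?_⟩
    have : f.comp ((ContinuousLinearMap.mul ℂ A 0) ^ 0) = f := by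
      rw [pow_zero]
      rfl
    rw [this]
    simp
  -- signed sums
  let d : (Fin N → Bool) → A := fun s => ∑ i, if s i then c i else - c i
  have hd : ∀ s, (∑ i, (if s i then (1 : Unitization ℂ A) else -1) * (c i : Unitization ℂ A)) =
      ((d s : A) : Unitization ℂ A) := by
    intro s
    show _ = ((∑ i, if s i then c i else - c i : A) : Unitization ℂ A)
    have h0 : ((∑ i, if s i then c i else - c i : A) : Unitization ℂ A) =
        ∑ i, ((if s i then c i else - c i : A) : Unitization ℂ A) :=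
      map_sum (Unitization.inrHom ℂ ℂ A) _ _
    rw [h0]
    refine Finset.sum_congr rfl fun i _ => ?_
    split_ifs
    · rw [one_mul]
    · rw [Unitization.inr_neg]
      exact neg_one_mul ((c i : A) : Unitization ℂ A)
  have hdn : ∀ s, ‖d s‖ ≤ N := by
    intro s
    show ‖∑ i, if s i then c i else - c i‖ ≤ N
    refine (norm_sum_le _ _).trans ?_
    have : ∀ i ∈ (Finset.univ : Finset (Fin N)), ‖if s i then c i else - c i‖ ≤ 1 := by
      intro i _
      split_ifs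
      · exact hc i
      · rw [norm_neg]; exact hc i
    refine (Finset.sum_le_sum this).trans ?_
    simp
  have hpol := polar (Unitization ℂ A) N (fun i => (c i : Unitization ℂ A))
  simp only [hd] at hpol
  set P : Unitization ℂ A := ∏ i, (c i : Unitization ℂ A) with hP
  -- apply `f ∘ ρ`
  have h1 : ∑ s : Fin N → Bool, f.comp (growth_rho A ((∏ i, (if s i then (1 : Unitization ℂ A) else -1)) *
      ((d s : A) : Unitization ℂ A) ^ N)) = ((2 : ℂ) ^ N * (N.factorial : ℂ)) • f.comp (growth_rho A P) := by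
    have h2 := congrArg (fun z => f.comp (growth_rho A z)) hpol
    have h3 : f.comp (growth_rho A (∑ s : Fin N → Bool, (∏ i, (if s i then (1 : Unitization ℂ A) else -1)) *
      ((d s : A) : Unitization ℂ A) ^ N)) = ∑ s : Fin N → Bool, f.comp (growth_rho A
        ((∏ i, (if s i then (1 : Unitization ℂ A) else -1)) * ((d s : A) : Unitization ℂ A) ^ N)) := by
      rw [map_sum]
      ext a
      simp
    rw [← h3]
    refine Eq.trans h2 ?_
    show f.comp (growth_rho A (2 ^ N * (N.factorial : Unitization ℂ A) * P)) = _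
    have h4 : (2 ^ N * (N.factorial : Unitization ℂ A) * P) =
        ((2 : ℂ) ^ N * (N.factorial : ℂ)) • P := by
      refine Eq.trans ?_ (Algebra.smul_def ((2 : ℂ) ^ N * (N.factorial : ℂ)) P).symm
      rw [map_mul, map_pow, map_natCast, map_ofNat]
    rw [h4, map_smul]
    ext a
    simp
  have hsgn : ∀ s : Fin N → Bool, ∀ z : Unitization ℂ A,
      ‖f.comp (growth_rho A ((∏ i, (if s i then (1 : Unitization ℂ A) else -1)) * z))‖ =
        ‖f.comp (growth_rho A z)‖ := by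
    intro s z
    have h2 : (∏ i, (if s i then (1 : Unitization ℂ A) else -1)) = 1 ∨
        (∏ i, (if s i then (1 : Unitization ℂ A) else -1)) = -1 := by
      refine Finset.prod_induction _ (fun x => x = 1 ∨ x = -1) ?_ (Or.inl rfl) ?_
      · rintro a b (rfl | rfl) (rfl | rfl)
        · exact Or.inl (one_mul _)
        · exact Or.inr (one_mul _)
        · exact Or.inr (mul_one _)
        · exact Or.inl (neg_one_mul (-1 : Unitization ℂ A) |>.trans (neg_neg _))
      · intro i _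
        split_ifs
        · exact Or.inl rfl
        · exact Or.inr rfl
    rcases h2 with h2 | h2
    · rw [h2, one_mul]
    · have h22 : (-1 : Unitization ℂ A) * z = -z := neg_one_mul z
      rw [h2, h22, map_neg]
      have : f.comp (-(growth_rho A z)) = -(f.comp (growth_rho A z)) := by
        ext a
        simp
      rw [this, norm_neg]
  have h5 : ((2 : ℝ) ^ N * (N.factorial : ℝ)) * ‖f.comp (growth_rho A P)‖ ≤
      ∑ s : Fin N → Bool, ‖f.comp ((ContinuousLinearMap.mul ℂ A (d s)) ^ N)‖ := by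
    have h6 : ‖((2 : ℂ) ^ N * (N.factorial : ℂ)) • f.comp (growth_rho A P)‖ =
        ((2 : ℝ) ^ N * (N.factorial : ℝ)) * ‖f.comp (growth_rho A P)‖ := by
      rw [norm_smul]
      congr 1
      simp
    rw [← h6, ← h1]
    refine (norm_sum_le _ _).trans (le_of_eq ?_)
    refine Finset.sum_congr rfl fun s _ => ?_
    rw [hsgn, map_pow, growth_rho_inr]
  have h7 : ∃ s : Fin N → Bool, (N.factorial : ℝ) * ‖f.comp (growth_rho A P)‖ ≤
      ‖f.comp ((ContinuousLinearMap.mul ℂ A (d s)) ^ N)‖ := by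
    by_contra hcon
    simp only [not_exists, not_le] at hcon
    have h8 : ∑ s : Fin N → Bool, ‖f.comp ((ContinuousLinearMap.mul ℂ A (d s)) ^ N)‖ <
        ∑ s : Fin N → Bool, (N.factorial : ℝ) * ‖f.comp (growth_rho A P)‖ :=
      Finset.sum_lt_sum_of_nonempty ⟨fun _ => true, Finset.mem_univ _⟩ fun s _ => hcon s
    rw [Finset.sum_const, Finset.card_univ, Fintype.card_fun, Fintype.card_bool, Fintype.card_fin,
      nsmul_eq_mul] at h8
    push_cast at h8
    linarith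
  obtain ⟨s, hs⟩ := h7
  have hN' : (0 : ℝ) < N := by exact_mod_cast hN
  refine ⟨((N : ℂ)⁻¹) • d s, ?_, ?_⟩
  · rw [norm_smul, norm_inv, Complex.norm_natCast, inv_mul_le_iff₀ hN', mul_one]
    exact hdn s
  · have h9 : f.comp ((ContinuousLinearMap.mul ℂ A (((N : ℂ)⁻¹) • d s)) ^ N) =
        ((N : ℂ)⁻¹ ^ N) • f.comp ((ContinuousLinearMap.mul ℂ A (d s)) ^ N) := by
      rw [map_smul, smul_pow]
      ext a
      simp
    rw [h9, norm_smul, norm_pow, norm_inv, Complex.norm_natCast]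
    have hfac : (0 : ℝ) < N.factorial := by exact_mod_cast Nat.factorial_pos N
    have h10 : (N : ℝ) ^ N ≤ 3 ^ N * N.factorial := by
      have h11 := Real.pow_div_factorial_le_exp (N : ℝ) hN'.le N
      rw [div_le_iff₀ hfac] at h11
      refine h11.trans (mul_le_mul_of_nonneg_right ?_ hfac.le)
      have h12 : Real.exp (N : ℝ) = Real.exp 1 ^ N := by
        rw [← Real.exp_nat_mul, mul_one]
      rw [h12]
      exact pow_le_pow_left₀ (Real.exp_pos 1).le Real.exp_one_lt_three.le N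
    set u := ‖f.comp (growth_rho A P)‖ with hu
    set v := ‖f.comp ((ContinuousLinearMap.mul ℂ A (d s)) ^ N)‖ with hv
    have hu0 : 0 ≤ u := norm_nonneg _
    have hv0 : 0 ≤ v := norm_nonneg _
    have hNN : (0 : ℝ) < (N : ℝ) ^ N := pow_pos hN' N
    have hCN : (0 : ℝ) ≤ C ^ N := pow_nonneg (by linarith) N
    have h13 : u ≤ 3 ^ N * ((N : ℝ)⁻¹ ^ N * v) := by
      rw [inv_pow, ← mul_assoc, mul_comm (3 ^ N : ℝ) _, mul_assoc, ← div_eq_inv_mul, le_div_iff₀ hNN]
      calc u * (N : ℝ) ^ N ≤ u * (3 ^ N * N.factorial) := mul_le_mul_of_nonneg_left h10 hu0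
        _ = 3 ^ N * (N.factorial * u) := by ring
        _ ≤ 3 ^ N * v := mul_le_mul_of_nonneg_left hs (by positivity)
    calc ‖f‖ ≤ C ^ N * u := hf
      _ ≤ C ^ N * (3 ^ N * ((N : ℝ)⁻¹ ^ N * v)) := mul_le_mul_of_nonneg_left h13 hCN
      _ = _ := by rw [mul_pow]; ring

end Job22011

section Job22013

theorem seq_lemma (κ : ℝ) (h0 : 0 < κ) (h1 : κ ≤ 1) (L : ℕ) (hL : 0 < L) :
    ∃ R : ℕ, ∀ p : ℕ → ℝ, (∀ n, 0 ≤ p n) → (∀ n, p (n + 1) ≤ p n) → 0 < p 0 →
      κ ^ (L * R) * p 0 ≤ p (L * R) →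
      ∃ i : ℕ, i + 2 ≤ R ∧ (κ / 2) ^ L * p (L * i) ≤ p (L * (i + 1)) ∧
        p (L * (i + 2)) * p (L * i) ≤ 3 * p (L * (i + 1)) ^ 2 := by
  have hθ0 : 0 < (κ / 2) ^ L := by positivity
  have hκL : 0 < κ ^ L := by positivity
  obtain ⟨B, hB⟩ := pow_unbounded_of_one_lt (((κ / 2) ^ L)⁻¹) (by norm_num : (1 : ℝ) < 3)
  have hB' : 1 < 3 ^ B * (κ / 2) ^ L := by
    have := mul_lt_mul_of_pos_right hB hθ0
    rwa [inv_mul_cancel₀ hθ0.ne'] at this
  obtain ⟨m, hm⟩ := pow_unbounded_of_one_lt ((κ ^ (L * B))⁻¹)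
    (one_lt_pow₀ (by norm_num : (1 : ℝ) < 2) hL.ne')
  have hm' : 1 < (2 ^ L) ^ m * κ ^ (L * B) := by
    have hp : 0 < κ ^ (L * B) := by positivity
    have := mul_lt_mul_of_pos_right hm hp
    rwa [inv_mul_cancel₀ hp.ne'] at this
  have hθm : ((κ / 2) ^ L) ^ m < κ ^ (L * (m + B)) := by
    have e1 : ((κ / 2) ^ L) ^ m * (2 ^ L) ^ m = κ ^ (L * m) := by
      rw [← mul_pow, ← mul_pow, div_mul_cancel₀ κ (by norm_num : (2 : ℝ) ≠ 0), ← pow_mul]
    have e2 : κ ^ (L * (m + B)) = ((κ / 2) ^ L) ^ m * ((2 ^ L) ^ m * κ ^ (L * B)) := by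
      rw [← mul_assoc, e1, ← pow_add, mul_add]
    rw [e2]
    exact lt_mul_of_one_lt_right (pow_pos hθ0 m) hm'
  refine ⟨m + B, fun p hp hanti hp0 hlow => ?_⟩
  by_contra hcon
  push Not at hcon
  have hmono : Antitone p := antitone_nat_of_succ_le hanti
  have hPmono : ∀ i j, i ≤ j → p (L * j) ≤ p (L * i) := fun i j hij =>
    hmono (Nat.mul_le_mul_left L hij)
  have hlow0 : 0 < κ ^ (L * (m + B)) * p 0 := by positivity
  have hpos : ∀ i, i ≤ m + B → 0 < p (L * i) := fun i hi =>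
    lt_of_lt_of_le (lt_of_lt_of_le hlow0 hlow) (hPmono i _ hi)
  have key : ∀ i, (κ / 2) ^ L * p (L * i) ≤ p (L * (i + 1)) → ∀ j, i + j + 1 ≤ m + B →
      3 ^ j * (κ / 2) ^ L * p (L * (i + j)) ≤ p (L * (i + j + 1)) := by
    intro i hi j
    induction j with
    | zero =>
      intro _
      simpa using hi
    | succ j ih =>
      intro hj
      have h2 := ih (by omega)
      have hPpos : 0 < p (L * (i + j)) := hpos (i + j) (by omega)
      have hP1 : 0 < p (L * (i + j + 1)) := hpos (i + j + 1) (by omega)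
      have h3 : (κ / 2) ^ L * p (L * (i + j)) ≤ p (L * (i + j + 1)) := by
        refine le_trans ?_ h2
        rw [mul_assoc]
        exact le_mul_of_one_le_left (by positivity) (one_le_pow₀ (by norm_num))
      have h4 := hcon (i + j) (by omega) h3
      have h5 : 3 * (3 ^ j * (κ / 2) ^ L) * p (L * (i + j + 1)) * p (L * (i + j))
          < p (L * (i + j + 2)) * p (L * (i + j)) := by
        refine lt_of_le_of_lt ?_ h4
        nlinarith [mul_le_mul_of_nonneg_right h2 hP1.le]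
      have h6 := lt_of_mul_lt_mul_right h5 hPpos.le
      have e3 : i + (j + 1) = i + j + 1 := by ring
      rw [e3, pow_succ]
      have e4 : i + j + 1 + 1 = i + j + 2 := by ring
      rw [e4]
      nlinarith [h6]
  have hdec : ∀ i, i + B + 1 ≤ m + B → p (L * (i + 1)) < (κ / 2) ^ L * p (L * i) := by
    intro i hi
    by_contra hn
    push Not at hn
    have h2 := key i hn B (by omega)
    have h3 : p (L * (i + B + 1)) ≤ p (L * (i + B)) := hPmono _ _ (by omega)
    have h4 : 0 < p (L * (i + B)) := hpos _ (by omega)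
    nlinarith [mul_lt_mul_of_pos_right hB' h4]
  have hfin : ∀ i, i ≤ m → p (L * i) ≤ ((κ / 2) ^ L) ^ i * p 0 := by
    intro i
    induction i with
    | zero => intro _; simp
    | succ i ih =>
      intro hi
      have h2 := ih (by omega)
      have h3 := hdec i (by omega)
      rw [pow_succ]
      nlinarith [mul_le_mul_of_nonneg_left h2 hθ0.le]
  have h2 := hfin m le_rfl
  have h3 := hPmono m (m + B) (by omega)
  have h4 := mul_lt_mul_of_pos_right hθm hp0
  linarith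

end Job22013

section Job22015

/-- number of pairs `(i, j)` with `i, j < L` and `i + j + 1 = m` -/
def wvN (L m : ℕ) : ℕ :=
  ((Finset.range L ×ˢ Finset.range L).filter (fun p : ℕ × ℕ => p.1 + p.2 + 1 = m)).card

theorem wvN_le (L m : ℕ) : wvN L m ≤ L := by
  unfold wvN
  calc ((Finset.range L ×ˢ Finset.range L).filter (fun p : ℕ × ℕ => p.1 + p.2 + 1 = m)).card
      ≤ (Finset.range L).card := by
        apply Finset.card_le_card_of_injOn (fun p => p.1)
        · intro p hp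
          simp only [Finset.coe_filter, Finset.mem_product, Set.mem_ofPred_eq] at hp
          exact Finset.mem_coe.mpr hp.1.1
        · intro p hp q hq hpq
          simp only [Finset.coe_filter, Finset.mem_product, Set.mem_ofPred_eq] at hp hq
          have h1 : p.1 = q.1 := hpq
          apply Prod.ext h1
          omega
    _ = L := Finset.card_range L

theorem wvN_L (L : ℕ) : wvN L L = L := by
  apply le_antisymm (wvN_le L L)
  unfold wvN
  calc L = (Finset.range L).card := (Finset.card_range L).symm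
    _ ≤ ((Finset.range L ×ˢ Finset.range L).filter (fun p : ℕ × ℕ => p.1 + p.2 + 1 = L)).card := by
        apply Finset.card_le_card_of_injOn (fun i => ((i, L - 1 - i) : ℕ × ℕ))
        · intro i hi
          have hi' : i < L := Finset.mem_range.mp (Finset.mem_coe.mp hi)
          apply Finset.mem_coe.mpr
          rw [Finset.mem_filter, Finset.mem_product, Finset.mem_range, Finset.mem_range]
          refine ⟨⟨hi', ?_⟩, ?_⟩
          · show L - 1 - i < L
            omega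
          · show i + (L - 1 - i) + 1 = L
            omega
        · intro i _ j _ hij
          exact congrArg Prod.fst hij

theorem wv_ring {R : Type} [Ring R] (S : R) (L : ℕ) :
    (1 - S) * (1 - S) * (S * ((∑ i ∈ Finset.range L, S ^ i) * (∑ i ∈ Finset.range L, S ^ i)))
      = S - 2 * S ^ (L + 1) + S ^ (2 * L + 1) := by
  set B : R := ∑ i ∈ Finset.range L, S ^ i with hB
  have e1 : (1 - S) * B = 1 - S ^ L := mul_neg_geom_sum S L
  have e2 : B * (1 - S) = 1 - S ^ L := geom_sum_mul_neg S L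
  have e3 : (1 - S) * S = S * (1 - S) := by noncomm_ring
  calc (1 - S) * (1 - S) * (S * (B * B)) = (1 - S) * ((1 - S) * S) * (B * B) := by noncomm_ring
    _ = ((1 - S) * S) * (1 - S) * (B * B) := by rw [e3]; noncomm_ring
    _ = S * ((1 - S) * ((1 - S) * B) * B) := by rw [e3]; noncomm_ring
    _ = S * ((1 - S) * (B * (1 - S)) * B) := by rw [e1, e2]
    _ = S * (((1 - S) * B) * ((1 - S) * B)) := by noncomm_ring
    _ = S * ((1 - S ^ L) * (1 - S ^ L)) := by rw [e1]
    _ = S - 2 * S ^ (L + 1) + S ^ (2 * L + 1) := by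
        rw [show 2 * L + 1 = 1 + (L + L) by ring, show L + 1 = 1 + L by ring, pow_add S 1 (L + L),
          pow_add S 1 L, pow_add S L L, pow_one]
        noncomm_ring

theorem wv_sum {R : Type} [Ring R] (S : R) (L : ℕ) :
    S * ((∑ i ∈ Finset.range L, S ^ i) * (∑ i ∈ Finset.range L, S ^ i))
      = ∑ m ∈ Finset.range (2 * L), (wvN L m) • S ^ m := by
  have h1 : S * ((∑ i ∈ Finset.range L, S ^ i) * (∑ i ∈ Finset.range L, S ^ i))
      = ∑ p ∈ Finset.range L ×ˢ Finset.range L, S ^ (p.1 + p.2 + 1) := by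
    rw [Finset.sum_mul_sum, ← Finset.sum_product', Finset.mul_sum]
    apply Finset.sum_congr rfl
    intro p _
    rw [← pow_add, ← pow_succ']
  rw [h1, ← Finset.sum_fiberwise_of_maps_to (g := fun p : ℕ × ℕ => p.1 + p.2 + 1)
    (t := Finset.range (2 * L))]
  · apply Finset.sum_congr rfl
    intro m _
    unfold wvN
    rw [← Finset.sum_const]
    apply Finset.sum_congr rfl
    intro p hp
    rw [Finset.mem_filter] at hp
    rw [hp.2]
  · intro p hp
    rw [Finset.mem_product, Finset.mem_range, Finset.mem_range] at hp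
    rw [Finset.mem_range]
    omega

/-- the window vector -/
noncomputable def wvw {X : Type} [NormedAddCommGroup X] [NormedSpace ℂ X] (T : X →L[ℂ] X)
    (L : ℕ) (g : X) (z : ℂ) : X :=
  ∑ m ∈ Finset.range (2 * L), (((wvN L m : ℂ) / L) * (z⁻¹) ^ m) • (T ^ m) g

theorem wvw_eq {X : Type} [NormedAddCommGroup X] [NormedSpace ℂ X] (T : X →L[ℂ] X)
    (L : ℕ) (g : X) (z : ℂ) :
    wvw T L g z = (1 / (L : ℂ)) • (((z⁻¹ • T) * ((∑ i ∈ Finset.range L, (z⁻¹ • T) ^ i) *
      (∑ i ∈ Finset.range L, (z⁻¹ • T) ^ i))) g) := by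
  rw [wv_sum]
  unfold wvw
  rw [sum_apply, Finset.smul_sum]
  apply Finset.sum_congr rfl
  intro m _
  rw [smul_pow, smul_apply, smul_apply, ← Nat.cast_smul_eq_nsmul ℂ, smul_smul, smul_smul]
  congr 1
  ring

theorem wvw_diff {X : Type} [NormedAddCommGroup X] [NormedSpace ℂ X] (T : X →L[ℂ] X)
    (L : ℕ) (g : X) (z : ℂ) :
    wvw T L g z - (2 / z) • T (wvw T L g z) + (1 / z ^ 2) • T (T (wvw T L g z))
      = (1 / (L : ℂ)) • ((z⁻¹) • T g - (2 * z⁻¹ ^ (L + 1)) • (T ^ (L + 1)) g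
        + (z⁻¹ ^ (2 * L + 1)) • (T ^ (2 * L + 1)) g) := by
  have h1 : wvw T L g z - (2 / z) • T (wvw T L g z) + (1 / z ^ 2) • T (T (wvw T L g z))
      = ((1 - z⁻¹ • T) * (1 - z⁻¹ • T)) (wvw T L g z) := by
    generalize wvw T L g z = w
    show _ = (w - z⁻¹ • T w) - z⁻¹ • T (w - z⁻¹ • T w)
    rw [map_sub, map_smul, smul_sub, smul_smul]
    have h2 : (2 / z) • T w = z⁻¹ • T w + z⁻¹ • T w := by
      rw [← add_smul]
      congr 1
      ring
    have h3 : 1 / z ^ 2 = z⁻¹ * z⁻¹ := by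
      rw [one_div, ← inv_pow, pow_two]
    rw [h2, h3]
    abel
  rw [h1, wvw_eq, map_smul]
  congr 1
  have h4 := congrArg (fun A : X →L[ℂ] X => A g) (wv_ring (z⁻¹ • T) L)
  have h5 : ((1 - z⁻¹ • T) * (1 - z⁻¹ • T)) (((z⁻¹ • T) *
      ((∑ i ∈ Finset.range L, (z⁻¹ • T) ^ i) * (∑ i ∈ Finset.range L, (z⁻¹ • T) ^ i))) g)
      = ((1 - z⁻¹ • T) * (1 - z⁻¹ • T) * ((z⁻¹ • T) *
      ((∑ i ∈ Finset.range L, (z⁻¹ • T) ^ i) * (∑ i ∈ Finset.range L, (z⁻¹ • T) ^ i)))) g := rfl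
  rw [h5]
  refine h4.trans ?_
  show (z⁻¹ • T - 2 * (z⁻¹ • T) ^ (L + 1) + (z⁻¹ • T) ^ (2 * L + 1)) g = _
  rw [smul_pow, smul_pow, two_mul, mul_smul, two_smul]
  rfl

theorem wv_avg {X : Type} [NormedAddCommGroup X] [NormedSpace ℂ X] (T : X →L[ℂ] X)
    (L : ℕ) (hL : 0 < L) (ρ : ℝ) (g : X) (ω : ℂ) (hω : IsPrimitiveRoot ω (2 * L)) :
    ∑ k ∈ Finset.range (2 * L), ((ω ^ L) ^ k) • wvw T L g ((ρ : ℂ) * ω ^ k)
      = ((2 * L : ℕ) : ℂ) • (((ρ : ℂ)⁻¹ ^ L) • (T ^ L) g) := by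
  have hω0 : ω ≠ 0 := hω.ne_zero (by omega)
  unfold wvw
  simp only [Finset.smul_sum, smul_smul]
  rw [Finset.sum_comm]
  have h1 : ∀ m ∈ Finset.range (2 * L), ∑ k ∈ Finset.range (2 * L),
      ((ω ^ L) ^ k * ((wvN L m : ℂ) / L * ((ρ : ℂ) * ω ^ k)⁻¹ ^ m)) • (T ^ m) g
      = if m = L then (((2 * L : ℕ) : ℂ) * (ρ : ℂ)⁻¹ ^ L) • (T ^ L) g else 0 := by
    intro m hm
    rw [← Finset.sum_smul]
    have h2 : ∀ k ∈ Finset.range (2 * L),
        (ω ^ L) ^ k * ((wvN L m : ℂ) / L * ((ρ : ℂ) * ω ^ k)⁻¹ ^ m)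
        = ((wvN L m : ℂ) / L * (ρ : ℂ)⁻¹ ^ m) * ((ω ^ L) * (ω ^ m)⁻¹) ^ k := by
      intro k _
      rw [mul_inv, mul_pow, mul_pow, inv_pow (ω ^ k), inv_pow (ω ^ m), ← pow_mul ω k m,
        ← pow_mul ω m k, mul_comm k m]
      ring
    rw [Finset.sum_congr rfl h2, ← Finset.mul_sum]
    by_cases hmL : m = L
    · rw [if_pos hmL, hmL, mul_inv_cancel₀ (pow_ne_zero _ hω0)]
      simp only [one_pow, Finset.sum_const, Finset.card_range, nsmul_eq_mul, mul_one]
      rw [wvN_L]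
      congr 1
      have : (L : ℂ) ≠ 0 := by exact_mod_cast hL.ne'
      field_simp
    · rw [if_neg hmL]
      have hq1 : (ω ^ L) * (ω ^ m)⁻¹ ≠ 1 := by
        intro h
        rw [mul_inv_eq_one₀ (pow_ne_zero _ hω0)] at h
        exact hmL (hω.pow_inj (Finset.mem_range.mp hm) (by omega) h.symm)
      have hqn : ((ω ^ L) * (ω ^ m)⁻¹) ^ (2 * L) = 1 := by
        rw [mul_pow, inv_pow, ← pow_mul, ← pow_mul, mul_comm L (2 * L), mul_comm m (2 * L),
          pow_mul ω (2 * L) L, pow_mul ω (2 * L) m,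
          hω.pow_eq_one, one_pow, one_pow, inv_one, mul_one]
      have h3 : ∑ k ∈ Finset.range (2 * L), ((ω ^ L) * (ω ^ m)⁻¹) ^ k = 0 := by
        have h4 := mul_neg_geom_sum ((ω ^ L) * (ω ^ m)⁻¹) (2 * L)
        rw [hqn, sub_self] at h4
        rcases mul_eq_zero.mp h4 with h | h
        · exact absurd (sub_eq_zero.mp h).symm hq1
        · exact h
      rw [h3, mul_zero, zero_smul]
  rw [Finset.sum_congr rfl h1, Finset.sum_ite_eq' (Finset.range (2 * L)) L,
    if_pos (Finset.mem_range.mpr (by omega))]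

theorem window_vec {X : Type} [NormedAddCommGroup X] [NormedSpace ℂ X] (T : X →L[ℂ] X)
    (L : ℕ) (hL : 0 < L) (ρ : ℝ) (hρ : 0 < ρ) (g : X) :
    ∃ (z : ℂ) (a : ℕ → ℂ) (w : X), ‖z‖ = ρ ∧ (∀ m, ‖a m‖ ≤ ρ⁻¹ ^ m) ∧
      w = ∑ m ∈ Finset.range (2 * L), a m • (T ^ m) g ∧
      ρ⁻¹ ^ L * ‖(T ^ L) g‖ ≤ ‖w‖ ∧
      ‖w - (2 / z) • T w + (1 / z ^ 2) • T (T w)‖ ≤
        (1 / (L * ρ)) * (‖T g‖ + 2 * ρ⁻¹ ^ L * ‖(T ^ (L + 1)) g‖ +
          ρ⁻¹ ^ (2 * L) * ‖(T ^ (2 * L + 1)) g‖) := by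
  have hL' : (0 : ℝ) < L := by exact_mod_cast hL
  obtain ⟨ω, hω⟩ : ∃ ω : ℂ, IsPrimitiveRoot ω (2 * L) :=
    ⟨_, Complex.isPrimitiveRoot_exp (2 * L) (by omega)⟩
  have hω1 : ‖ω‖ = 1 := hω.norm'_eq_one (by omega)
  have hnz : ∀ k : ℕ, ‖(ρ : ℂ) * ω ^ k‖ = ρ := by
    intro k
    rw [norm_mul, norm_pow, hω1, one_pow, mul_one, Complex.norm_real, Real.norm_eq_abs,
      abs_of_pos hρ]
  -- choice of the point
  obtain ⟨k, _, hk⟩ : ∃ k ∈ Finset.range (2 * L),
      ρ⁻¹ ^ L * ‖(T ^ L) g‖ ≤ ‖wvw T L g ((ρ : ℂ) * ω ^ k)‖ := by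
    apply Finset.exists_le_of_sum_le (Finset.nonempty_range_iff.mpr (by omega))
    rw [Finset.sum_const, Finset.card_range, nsmul_eq_mul]
    have h1 : ((2 * L : ℕ) : ℝ) * (ρ⁻¹ ^ L * ‖(T ^ L) g‖)
        = ‖((2 * L : ℕ) : ℂ) • (((ρ : ℂ)⁻¹ ^ L) • (T ^ L) g)‖ := by
      rw [norm_smul, norm_smul, norm_pow, norm_inv, Complex.norm_real, Real.norm_eq_abs,
        abs_of_pos hρ, Complex.norm_natCast]
    rw [h1, ← wv_avg T L hL ρ g ω hω]
    refine (norm_sum_le _ _).trans ?_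
    apply Finset.sum_le_sum
    intro k _
    rw [norm_smul, norm_pow, norm_pow, hω1, one_pow, one_pow, one_mul]
  refine ⟨(ρ : ℂ) * ω ^ k, fun m => ((wvN L m : ℂ) / L) * (((ρ : ℂ) * ω ^ k)⁻¹) ^ m,
    wvw T L g ((ρ : ℂ) * ω ^ k), hnz k, ?_, rfl, hk, ?_⟩
  · intro m
    rw [norm_mul, norm_pow, norm_inv, hnz k, norm_div, Complex.norm_natCast, Complex.norm_natCast]
    have h1 : (wvN L m : ℝ) / L ≤ 1 := by
      rw [div_le_one hL']
      exact_mod_cast wvN_le L m
    have h2 : 0 ≤ ρ⁻¹ ^ m := by positivity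
    calc (wvN L m : ℝ) / L * ρ⁻¹ ^ m ≤ 1 * ρ⁻¹ ^ m := mul_le_mul_of_nonneg_right h1 h2
      _ = ρ⁻¹ ^ m := one_mul _
  · rw [wvw_diff]
    set z : ℂ := (ρ : ℂ) * ω ^ k with hz
    have hz1 : ‖z‖ = ρ := hnz k
    rw [norm_smul, norm_div, norm_one, Complex.norm_natCast]
    have h1 : ‖(z⁻¹) • T g - (2 * z⁻¹ ^ (L + 1)) • (T ^ (L + 1)) g
        + (z⁻¹ ^ (2 * L + 1)) • (T ^ (2 * L + 1)) g‖
        ≤ ρ⁻¹ * (‖T g‖ + 2 * ρ⁻¹ ^ L * ‖(T ^ (L + 1)) g‖ +
          ρ⁻¹ ^ (2 * L) * ‖(T ^ (2 * L + 1)) g‖) := by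
      refine (norm_add_le _ _).trans ?_
      have h2 := norm_sub_le ((z⁻¹) • T g) ((2 * z⁻¹ ^ (L + 1)) • (T ^ (L + 1)) g)
      rw [norm_smul, norm_smul, norm_mul, norm_pow, norm_inv, hz1, Complex.norm_ofNat] at h2
      rw [norm_smul (z⁻¹ ^ (2 * L + 1)), norm_pow, norm_inv, hz1]
      rw [pow_succ ρ⁻¹ L] at h2
      rw [pow_succ ρ⁻¹ (2 * L)]
      linarith
    calc 1 / (L : ℝ) * _ ≤ 1 / (L : ℝ) * (ρ⁻¹ * (‖T g‖ + 2 * ρ⁻¹ ^ L * ‖(T ^ (L + 1)) g‖ +
          ρ⁻¹ ^ (2 * L) * ‖(T ^ (2 * L + 1)) g‖)) :=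
          mul_le_mul_of_nonneg_left h1 (by positivity)
      _ = (1 / (L * ρ)) * (‖T g‖ + 2 * ρ⁻¹ ^ L * ‖(T ^ (L + 1)) g‖ +
          ρ⁻¹ ^ (2 * L) * ‖(T ^ (2 * L + 1)) g‖) := by
          rw [one_div, one_div, mul_inv]
          ring

end Job22015

section Job22016

theorem window_sum {β : Type*} [AddCommMonoid β] (G : ℕ → β) (s q M : ℕ) (h : s + q ≤ M) :
    ∑ m ∈ Finset.range M, (if s ≤ m ∧ m < s + q then G m else 0) =
      ∑ x ∈ Finset.range q, G (s + x) := by
  obtain ⟨r, rfl⟩ := Nat.exists_eq_add_of_le h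
  rw [add_assoc, Finset.sum_range_add, Finset.sum_range_add]
  have e1 : ∑ x ∈ Finset.range s, (if s ≤ x ∧ x < s + q then G x else 0) = 0 := by
    apply Finset.sum_eq_zero
    intro x hx
    rw [Finset.mem_range] at hx
    rw [if_neg (by omega)]
  have e2 : ∑ x ∈ Finset.range q, (if s ≤ s + x ∧ s + x < s + q then G (s + x) else 0) =
      ∑ x ∈ Finset.range q, G (s + x) := by
    apply Finset.sum_congr rfl
    intro x hx
    rw [Finset.mem_range] at hx
    rw [if_pos (by omega)]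
  have e3 : ∑ x ∈ Finset.range r, (if s ≤ s + (q + x) ∧ s + (q + x) < s + q then G (s + (q + x)) else 0)
      = 0 := by
    apply Finset.sum_eq_zero
    intro x hx
    rw [if_neg (by omega)]
  rw [e1, e2, e3, zero_add, add_zero]


theorem window (κ η : ℝ) (h0 : 0 < κ) (h1 : κ ≤ 1) (hη : 0 < η) :
    ∃ (N M : ℕ) (K : ℝ), 0 < K ∧ ∀ (X : Type) [NormedAddCommGroup X] [NormedSpace ℂ X]
      (T : X →L[ℂ] X), ‖T‖ ≤ 1 → ∀ f : X, f ≠ 0 → κ ^ N * ‖f‖ ≤ ‖(T ^ N) f‖ →
      ∃ (z : ℂ) (a : ℕ → ℂ) (w : X), κ / 2 ≤ ‖z‖ ∧ (∑ m ∈ Finset.range M, ‖a m‖) ≤ K ∧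
        w = ∑ m ∈ Finset.range M, a m • (T ^ m) f ∧ ‖f‖ ≤ K * ‖w‖ ∧
        ‖w - (2 / z) • T w + (1 / z ^ 2) • T (T w)‖ ≤ η * ‖w‖ := by
  obtain ⟨L, hL⟩ := exists_nat_gt (12 / (κ * η))
  have hLpos' : (0 : ℝ) < L := lt_trans (by positivity) hL
  have hLpos : 0 < L := by exact_mod_cast hLpos'
  obtain ⟨R, hR⟩ := seq_lemma κ h0 h1 L hLpos
  have hk2 : 1 ≤ 2 / κ := by
    rw [le_div_iff₀ h0]; linarith
  refine ⟨L * R, L * R, 2 * L * (2 / κ) ^ (2 * L) + (1 / κ) ^ (L * R), by positivity, ?_⟩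
  intro X _ _ T hT f hf hfN
  have hfpos : 0 < ‖f‖ := norm_pos_iff.mpr hf
  obtain ⟨p, hp⟩ : ∃ p : ℕ → ℝ, p = fun n => ‖(T ^ n) f‖ := ⟨_, rfl⟩
  have hpn : ∀ n, p n = ‖(T ^ n) f‖ := fun n => by rw [hp]
  have hpnn : ∀ n, 0 ≤ p n := fun n => by rw [hpn]; exact norm_nonneg _
  have hpdec : ∀ n, p (n + 1) ≤ p n := by
    intro n
    rw [hpn, hpn, pow_succ']
    change ‖T ((T ^ n) f)‖ ≤ _
    calc ‖T ((T ^ n) f)‖ ≤ ‖T‖ * ‖(T ^ n) f‖ := T.le_opNorm _
      _ ≤ 1 * ‖(T ^ n) f‖ := mul_le_mul_of_nonneg_right hT (norm_nonneg _)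
      _ = _ := one_mul _
  have hanti : Antitone p := antitone_nat_of_succ_le hpdec
  have hp0 : p 0 = ‖f‖ := by rw [hpn]; simp
  have hpN : κ ^ (L * R) * p 0 ≤ p (L * R) := by rw [hp0, hpn]; exact hfN
  obtain ⟨i, hiR, hi1, hi2⟩ := hR p hpnn hpdec (by rw [hp0]; exact hfpos) hpN
  have hMle : L * i + 2 * L ≤ L * R := by
    calc L * i + 2 * L = L * (i + 2) := by ring
      _ ≤ L * R := Nat.mul_le_mul_left _ hiR
  have hpNpos : 0 < p (L * R) := lt_of_lt_of_le (by rw [hp0]; positivity) hpN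
  obtain ⟨P0, hP0⟩ : ∃ P0, P0 = p (L * i) := ⟨_, rfl⟩
  obtain ⟨P1, hP1⟩ : ∃ P1, P1 = p (L * (i + 1)) := ⟨_, rfl⟩
  obtain ⟨P2, hP2⟩ : ∃ P2, P2 = p (L * (i + 2)) := ⟨_, rfl⟩
  have hP0ge : p (L * R) ≤ P0 := by rw [hP0]; exact hanti (by omega)
  have hP1ge : p (L * R) ≤ P1 := by
    rw [hP1]; apply hanti
    exact Nat.mul_le_mul_left _ (by omega)
  have hP0pos : 0 < P0 := lt_of_lt_of_le hpNpos hP0ge
  have hP1pos : 0 < P1 := lt_of_lt_of_le hpNpos hP1ge
  have hP2nn : 0 ≤ P2 := by rw [hP2]; exact hpnn _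
  rw [← hP0, ← hP1] at hi1
  rw [← hP0, ← hP1, ← hP2] at hi2
  obtain ⟨ρ, hρdef⟩ : ∃ ρ : ℝ, ρ = (P1 / P0) ^ ((L : ℝ)⁻¹) := ⟨_, rfl⟩
  have hρpos : 0 < ρ := by rw [hρdef]; positivity
  have hρL : ρ ^ L = P1 / P0 := by
    rw [hρdef]
    exact Real.rpow_inv_natCast_pow (by positivity) hLpos.ne'
  have hρge : κ / 2 ≤ ρ := by
    have : (κ / 2) ^ L ≤ ρ ^ L := by
      rw [hρL, le_div_iff₀ hP0pos]; exact hi1
    exact (pow_le_pow_iff_left₀ (by positivity) hρpos.le hLpos.ne').mp this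
  have hρinvL : ρ⁻¹ ^ L = P0 / P1 := by
    rw [inv_pow, hρL, inv_div]
  have hρinv : ρ⁻¹ ≤ 2 / κ := by
    rw [inv_le_comm₀ hρpos (by positivity), inv_div]; exact hρge
  obtain ⟨z, a, w, hz, ha, hw, hwlow, hwbd⟩ := window_vec T L hLpos ρ hρpos ((T ^ (L * i)) f)
  have hTT : ∀ m n, (T ^ m) ((T ^ n) f) = (T ^ (n + m)) f := by
    intro m n
    rw [add_comm, pow_add]
    rfl
  have e0 : ‖T ((T ^ (L * i)) f)‖ ≤ P0 := by
    have : T ((T ^ (L * i)) f) = (T ^ (L * i + 1)) f := by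
      rw [pow_succ']; rfl
    rw [this, ← hpn, hP0]
    exact hanti (by omega)
  have e1 : ‖(T ^ L) ((T ^ (L * i)) f)‖ = P1 := by
    rw [hTT, ← hpn, hP1]
    congr 1
  have e1' : ‖(T ^ (L + 1)) ((T ^ (L * i)) f)‖ ≤ P1 := by
    rw [hTT, ← hpn, hP1]
    apply hanti
    have : L * (i + 1) = L * i + L := by ring
    omega
  have e2 : ‖(T ^ (2 * L + 1)) ((T ^ (L * i)) f)‖ ≤ P2 := by
    rw [hTT, ← hpn, hP2]
    apply hanti
    have : L * (i + 2) = L * i + 2 * L := by ring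
    omega
  have hwP0 : P0 ≤ ‖w‖ := by
    rw [e1, hρinvL, div_mul_cancel₀ _ hP1pos.ne'] at hwlow
    exact hwlow
  refine ⟨z, fun m => if L * i ≤ m ∧ m < L * i + 2 * L then a (m - L * i) else 0, w, ?_, ?_, ?_, ?_, ?_⟩
  · rw [hz]; exact hρge
  · have hs : ∑ m ∈ Finset.range (L * R), ‖(if L * i ≤ m ∧ m < L * i + 2 * L then a (m - L * i) else 0 : ℂ)‖ =
        ∑ m ∈ Finset.range (L * R), (if L * i ≤ m ∧ m < L * i + 2 * L then ‖a (m - L * i)‖ else 0) := by
      apply Finset.sum_congr rfl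
      intro m _
      split_ifs <;> simp
    rw [hs, window_sum (fun m => ‖a (m - L * i)‖) (L * i) (2 * L) (L * R) hMle]
    have hb : ∀ x ∈ Finset.range (2 * L), ‖a (L * i + x - L * i)‖ ≤ (2 / κ) ^ (2 * L) := by
      intro x hx
      rw [Finset.mem_range] at hx
      rw [Nat.add_sub_cancel_left]
      calc ‖a x‖ ≤ ρ⁻¹ ^ x := ha x
        _ ≤ (2 / κ) ^ x := pow_le_pow_left₀ (by positivity) hρinv x
        _ ≤ (2 / κ) ^ (2 * L) := pow_le_pow_right₀ hk2 hx.le
    have hsum := Finset.sum_le_sum hb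
    rw [Finset.sum_const, Finset.card_range, nsmul_eq_mul] at hsum
    push_cast at hsum
    have : 0 ≤ (1 / κ) ^ (L * R) := by positivity
    linarith
  · have hs : ∑ m ∈ Finset.range (L * R), (if L * i ≤ m ∧ m < L * i + 2 * L then a (m - L * i) else 0 : ℂ) • (T ^ m) f =
        ∑ m ∈ Finset.range (L * R), (if L * i ≤ m ∧ m < L * i + 2 * L then a (m - L * i) • (T ^ m) f else 0) := by
      apply Finset.sum_congr rfl
      intro m _
      split_ifs <;> simp
    rw [hs, window_sum (fun m => a (m - L * i) • (T ^ m) f) (L * i) (2 * L) (L * R) hMle, hw]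
    apply Finset.sum_congr rfl
    intro x _
    rw [Nat.add_sub_cancel_left, hTT]
  · have h3 : κ ^ (L * R) * ‖f‖ ≤ ‖w‖ := by
      rw [hp0] at hpN
      exact hpN.trans (hP0ge.trans hwP0)
    have h4 : ‖f‖ ≤ (1 / κ) ^ (L * R) * ‖w‖ := by
      rw [one_div, inv_pow, inv_mul_eq_div, le_div_iff₀ (by positivity)]
      linarith
    have h5 : 0 ≤ 2 * (L : ℝ) * (2 / κ) ^ (2 * L) * ‖w‖ := by positivity
    calc ‖f‖ ≤ (1 / κ) ^ (L * R) * ‖w‖ := h4
      _ ≤ (2 * L * (2 / κ) ^ (2 * L) + (1 / κ) ^ (L * R)) * ‖w‖ := by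
        rw [add_mul]; linarith
  · refine hwbd.trans ?_
    have hρ2 : ρ⁻¹ ^ (2 * L) = (P0 / P1) ^ 2 := by
      rw [mul_comm, pow_mul, hρinvL]
    rw [hρinvL, hρ2]
    have hb1 : ‖T ((T ^ (L * i)) f)‖ + 2 * (P0 / P1) * ‖(T ^ (L + 1)) ((T ^ (L * i)) f)‖ +
        (P0 / P1) ^ 2 * ‖(T ^ (2 * L + 1)) ((T ^ (L * i)) f)‖ ≤ 6 * P0 := by
      have t1 : 2 * (P0 / P1) * ‖(T ^ (L + 1)) ((T ^ (L * i)) f)‖ ≤ 2 * P0 := by
        calc 2 * (P0 / P1) * ‖(T ^ (L + 1)) ((T ^ (L * i)) f)‖ ≤ 2 * (P0 / P1) * P1 :=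
              mul_le_mul_of_nonneg_left e1' (by positivity)
          _ = 2 * P0 := by field_simp
      have t2 : (P0 / P1) ^ 2 * ‖(T ^ (2 * L + 1)) ((T ^ (L * i)) f)‖ ≤ 3 * P0 := by
        calc (P0 / P1) ^ 2 * ‖(T ^ (2 * L + 1)) ((T ^ (L * i)) f)‖ ≤ (P0 / P1) ^ 2 * P2 :=
              mul_le_mul_of_nonneg_left e2 (by positivity)
          _ = P0 * (P2 * P0) / P1 ^ 2 := by field_simp
          _ ≤ P0 * (3 * P1 ^ 2) / P1 ^ 2 := by
              apply div_le_div_of_nonneg_right _ (by positivity)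
              exact mul_le_mul_of_nonneg_left hi2 hP0pos.le
          _ = 3 * P0 := by field_simp
      linarith
    have hρL' : (1 / ((L : ℝ) * ρ)) ≤ 2 / (L * κ) := by
      rw [div_le_div_iff₀ (by positivity) (by positivity)]
      nlinarith
    have hη2 : 2 / ((L : ℝ) * κ) * 6 ≤ η := by
      rw [div_mul_eq_mul_div, div_le_iff₀ (by positivity)]
      rw [div_lt_iff₀ (by positivity)] at hL
      nlinarith
    calc (1 / ((L : ℝ) * ρ)) * (‖T ((T ^ (L * i)) f)‖ + 2 * (P0 / P1) * ‖(T ^ (L + 1)) ((T ^ (L * i)) f)‖ +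
        (P0 / P1) ^ 2 * ‖(T ^ (2 * L + 1)) ((T ^ (L * i)) f)‖)
        ≤ (1 / ((L : ℝ) * ρ)) * (6 * P0) := mul_le_mul_of_nonneg_left hb1 (by positivity)
      _ ≤ (2 / (L * κ)) * (6 * P0) := mul_le_mul_of_nonneg_right hρL' (by positivity)
      _ = (2 / (L * κ) * 6) * P0 := by ring
      _ ≤ η * P0 := mul_le_mul_of_nonneg_right hη2 hP0pos.le
      _ ≤ η * ‖w‖ := mul_le_mul_of_nonneg_left hwP0 hη.le

end Job22016

section Job22017

set_option synthInstance.maxHeartbeats 400000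
set_option maxHeartbeats 4000000
set_option linter.deprecated false
set_option linter.unusedSimpArgs false

theorem exists_pair {A : Type} [NonUnitalNormedCommRing A] [NormedSpace ℂ A]
    [IsScalarTower ℂ A A] [SMulCommClass ℂ A A] [Nontrivial A]
    (hqn : ∀ (a : A) (ε : ℝ), 0 < ε → ∃ n : ℕ, ‖(ContinuousLinearMap.mul ℂ A a) ^ n‖ < ε ^ n)
    (C : ℝ) (hC : 1 ≤ C)
    (hopen : ∀ f : A →L[ℂ] ℂ, ∃ c : A, ‖c‖ ≤ 1 ∧
      ‖f‖ ≤ C * ‖f.comp (ContinuousLinearMap.mul ℂ A c)‖) :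
    ∃ C' : ℝ, 0 < C' ∧ ∀ (η : ℝ), 0 < η → ∀ S : Finset A,
      ∃ (f : A →L[ℂ] ℂ) (x : A), ‖f‖ ≤ 2 ∧ ‖x‖ ≤ C' ∧
        ‖f.comp (ContinuousLinearMap.mul ℂ A x) - f‖ ≤ η ∧ ‖f x - 1‖ ≤ η ∧
        ∀ y ∈ S, ‖f.comp (ContinuousLinearMap.mul ℂ A y)‖ ≤ η ∧ ‖f y‖ ≤ η := by
  have hC0 : 0 < C := by linarith
  obtain ⟨κ, hκ⟩ : ∃ κ : ℝ, κ = 1 / (3 * C) := ⟨_, rfl⟩
  have hκ0 : 0 < κ := by rw [hκ]; positivity
  have hκ1 : κ ≤ 1 := by
    rw [hκ, div_le_one (by positivity)]
    linarith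
  refine ⟨4 / κ + 4 / κ ^ 2, by positivity, fun η hη S => ?_⟩
  obtain ⟨N, M, K, hK, hwin⟩ := window κ (η / 2) hκ0 hκ1 (by positivity)
  obtain ⟨f0, hf0, hdeep⟩ := exists_deep hqn S (η / 2 / K ^ 2) (by positivity)
  obtain ⟨c, hc1, hc2⟩ := growth C hC hopen N f0
  have hcomm : ∀ a b : A, (ContinuousLinearMap.mul ℂ A a).comp (ContinuousLinearMap.mul ℂ A b)
      = (ContinuousLinearMap.mul ℂ A b).comp (ContinuousLinearMap.mul ℂ A a) := by
    intro a b
    ext v
    simp only [ContinuousLinearMap.comp_apply, ContinuousLinearMap.mul_apply']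
    rw [mul_left_comm]
  obtain ⟨m, hm⟩ : ∃ m : A →L[ℂ] A, m = ContinuousLinearMap.mul ℂ A c := ⟨_, rfl⟩
  have hm1 : ‖m‖ ≤ 1 := by
    rw [hm]
    exact (ContinuousLinearMap.opNorm_mul_apply_le ℂ A c).trans hc1
  obtain ⟨T, hT⟩ : ∃ T : (A →L[ℂ] ℂ) →L[ℂ] (A →L[ℂ] ℂ), ∀ g, T g = g.comp m :=
    ⟨(ContinuousLinearMap.compL ℂ A A ℂ).flip m, fun g => rfl⟩
  have hT1 : ‖T‖ ≤ 1 := by
    refine ContinuousLinearMap.opNorm_le_bound T zero_le_one fun g => ?_
    rw [hT, one_mul]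
    calc ‖g.comp m‖ ≤ ‖g‖ * ‖m‖ := ContinuousLinearMap.opNorm_comp_le _ _
      _ ≤ ‖g‖ * 1 := mul_le_mul_of_nonneg_left hm1 (norm_nonneg _)
      _ = ‖g‖ := mul_one _
  have hTn : ∀ (n : ℕ) (g : A →L[ℂ] ℂ), (T ^ n) g = g.comp (m ^ n) := by
    intro n g
    induction n with
    | zero => 
      rw [pow_zero, pow_zero]; rfl
    | succ n ih =>
      rw [pow_succ', pow_succ]
      show T ((T ^ n) g) = _
      rw [ih, hT]
      rfl
  have hf0n : 0 < ‖f0‖ := norm_pos_iff.mpr hf0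
  obtain ⟨z, a, w, hz, hsum, hw, hf0w, hwT⟩ := hwin (A →L[ℂ] ℂ) T hT1 f0 hf0 (by
    rw [hTn, hm, hκ, div_pow, one_pow, one_div, inv_mul_le_iff₀ (by positivity)]
    exact hc2)
  have hw0 : 0 < ‖w‖ := by
    by_contra hcon
    have : ‖w‖ = 0 := le_antisymm (not_lt.mp hcon) (norm_nonneg _)
    rw [this, mul_zero] at hf0w
    linarith
  have hz0 : 0 < ‖z‖ := lt_of_lt_of_le (by positivity) hz
  obtain ⟨x, hx⟩ : ∃ x : A, x = (2 / z) • c - (1 / z ^ 2) • (c * c) := ⟨_, rfl⟩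
  have hxn : ‖x‖ ≤ 4 / κ + 4 / κ ^ 2 := by
    have h1 : ‖(2 / z) • c‖ ≤ 4 / κ := by
      rw [norm_smul, norm_div]
      have h2 : ‖(2:ℂ)‖ = 2 := by simp
      rw [h2]
      calc 2 / ‖z‖ * ‖c‖ ≤ 2 / ‖z‖ * 1 := mul_le_mul_of_nonneg_left hc1 (by positivity)
        _ = 2 / ‖z‖ := mul_one _
        _ ≤ 2 / (κ / 2) := div_le_div_of_nonneg_left (by norm_num) (by positivity) hz
        _ = 4 / κ := by field_simp; norm_num
    have h3 : ‖(1 / z ^ 2) • (c * c)‖ ≤ 4 / κ ^ 2 := by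
      rw [norm_smul, norm_div, norm_pow, norm_one]
      have h4 : ‖c * c‖ ≤ 1 := (norm_mul_le c c).trans (by nlinarith [norm_nonneg c])
      calc 1 / ‖z‖ ^ 2 * ‖c * c‖ ≤ 1 / ‖z‖ ^ 2 * 1 := mul_le_mul_of_nonneg_left h4 (by positivity)
        _ = 1 / ‖z‖ ^ 2 := mul_one _
        _ ≤ 1 / (κ / 2) ^ 2 := div_le_div_of_nonneg_left (by norm_num) (by positivity)
            (pow_le_pow_left₀ (by positivity) hz 2)
        _ = 4 / κ ^ 2 := by field_simp; norm_num
    rw [hx]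
    exact (norm_sub_le _ _).trans (add_le_add h1 h3)
  have hwx : w - w.comp (ContinuousLinearMap.mul ℂ A x) =
      w - (2 / z) • T w + (1 / z ^ 2) • T (T w) := by
    have h1 : w.comp (ContinuousLinearMap.mul ℂ A x) = (2 / z) • T w - (1 / z ^ 2) • T (T w) := by
      rw [hT (T w), hT w, hm, hx]
      ext v
      simp only [ContinuousLinearMap.comp_apply, ContinuousLinearMap.mul_apply', map_sub,
        map_smul, ContinuousLinearMap.sub_apply, ContinuousLinearMap.smul_apply, sub_mul,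
        smul_mul_assoc, mul_assoc]
    rw [h1]
    abel
  rw [← hwx] at hwT
  have hwy : ∀ y ∈ S, ‖w.comp (ContinuousLinearMap.mul ℂ A y)‖ ≤ η / 2 * ‖w‖ := by
    intro y hy
    have hmn : ∀ n : ℕ, (m ^ n).comp (ContinuousLinearMap.mul ℂ A y)
        = (ContinuousLinearMap.mul ℂ A y).comp (m ^ n) := by
      intro n
      have h1 : Commute m (ContinuousLinearMap.mul ℂ A y) := by
        rw [hm]; exact hcomm c y
      exact h1.pow_left n
    have hmn1 : ∀ n : ℕ, ‖m ^ n‖ ≤ 1 := by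
      intro n
      induction n with
      | zero =>
        rw [pow_zero]
        exact ContinuousLinearMap.norm_id_le
      | succ n ih =>
        rw [pow_succ]
        calc ‖m ^ n * m‖ ≤ ‖m ^ n‖ * ‖m‖ := norm_mul_le _ _
          _ ≤ 1 * 1 := mul_le_mul ih hm1 (norm_nonneg _) zero_le_one
          _ = 1 := one_mul _
    have h1 : w.comp (ContinuousLinearMap.mul ℂ A y) = ∑ n ∈ Finset.range M,
        a n • (f0.comp (ContinuousLinearMap.mul ℂ A y)).comp (m ^ n) := by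
      rw [hw]
      ext v
      rw [ContinuousLinearMap.comp_apply, ContinuousLinearMap.sum_apply,
        ContinuousLinearMap.sum_apply]
      refine Finset.sum_congr rfl fun n _ => ?_
      rw [hTn]
      have h2 := congrArg (fun L : A →L[ℂ] A => L v) (hmn n)
      simp only [ContinuousLinearMap.comp_apply] at h2
      simp only [ContinuousLinearMap.smul_apply, ContinuousLinearMap.comp_apply]
      rw [h2]
    rw [h1]
    calc ‖∑ n ∈ Finset.range M, a n • (f0.comp (ContinuousLinearMap.mul ℂ A y)).comp (m ^ n)‖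
        ≤ ∑ n ∈ Finset.range M, ‖a n‖ * ‖f0.comp (ContinuousLinearMap.mul ℂ A y)‖ := by
          refine (norm_sum_le _ _).trans (Finset.sum_le_sum fun n _ => ?_)
          rw [norm_smul]
          refine mul_le_mul_of_nonneg_left ?_ (norm_nonneg _)
          refine (ContinuousLinearMap.opNorm_comp_le _ _).trans ?_
          exact mul_le_of_le_one_right (norm_nonneg _) (hmn1 n)
      _ = (∑ n ∈ Finset.range M, ‖a n‖) * ‖f0.comp (ContinuousLinearMap.mul ℂ A y)‖ := by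
          rw [Finset.sum_mul]
      _ ≤ K * (η / 2 / K ^ 2 * ‖f0‖) := by
          exact mul_le_mul hsum (hdeep y hy) (norm_nonneg _) hK.le
      _ ≤ K * (η / 2 / K ^ 2 * (K * ‖w‖)) := by
          refine mul_le_mul_of_nonneg_left (mul_le_mul_of_nonneg_left hf0w ?_) hK.le
          positivity
      _ = η / 2 * ‖w‖ := by
          field_simp
  obtain ⟨u, hu1, hu2⟩ := ContinuousLinearMap.exists_lt_apply_of_lt_opNorm w
    (by linarith : ‖w‖ / 2 < ‖w‖)
  have hwu0 : 0 < ‖w u‖ := by linarith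
  have hwu : w u ≠ 0 := norm_pos_iff.mp hwu0
  have hinv : ‖(w u)⁻¹‖ * ‖w‖ ≤ 2 := by
    rw [norm_inv, inv_mul_le_iff₀ hwu0]
    linarith
  have hmu : ‖ContinuousLinearMap.mul ℂ A u‖ ≤ 1 :=
    (ContinuousLinearMap.opNorm_mul_apply_le ℂ A u).trans hu1.le
  have hgen : ∀ g : A →L[ℂ] ℂ, ‖g‖ ≤ η / 2 * ‖w‖ →
      ‖(w u)⁻¹ • g.comp (ContinuousLinearMap.mul ℂ A u)‖ ≤ η ∧ ‖(w u)⁻¹ * g u‖ ≤ η := by
    intro g hg
    have h1 : ‖(w u)⁻¹‖ * ‖g‖ ≤ η := by
      calc ‖(w u)⁻¹‖ * ‖g‖ ≤ ‖(w u)⁻¹‖ * (η / 2 * ‖w‖) :=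
            mul_le_mul_of_nonneg_left hg (norm_nonneg _)
        _ = η / 2 * (‖(w u)⁻¹‖ * ‖w‖) := by ring
        _ ≤ η / 2 * 2 := mul_le_mul_of_nonneg_left hinv (by positivity)
        _ = η := by ring
    constructor
    · rw [norm_smul]
      refine le_trans (mul_le_mul_of_nonneg_left ?_ (norm_nonneg _)) h1
      exact (ContinuousLinearMap.opNorm_comp_le _ _).trans
        (mul_le_of_le_one_right (norm_nonneg _) hmu)
    · rw [norm_mul]
      refine le_trans (mul_le_mul_of_nonneg_left ?_ (norm_nonneg _)) h1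
      exact (g.le_opNorm u).trans (mul_le_of_le_one_right (norm_nonneg _) hu1.le)
  refine ⟨(w u)⁻¹ • w.comp (ContinuousLinearMap.mul ℂ A u), x, ?_, hxn, ?_, ?_, ?_⟩
  · rw [norm_smul]
    refine le_trans (mul_le_mul_of_nonneg_left ?_ (norm_nonneg _)) hinv
    exact (ContinuousLinearMap.opNorm_comp_le _ _).trans
      (mul_le_of_le_one_right (norm_nonneg _) hmu)
  · have h1 := (hgen (w - w.comp (ContinuousLinearMap.mul ℂ A x)) hwT).1
    rw [norm_sub_rev]
    refine le_trans (le_of_eq ?_) h1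
    congr 1
    ext v
    simp only [ContinuousLinearMap.comp_apply, ContinuousLinearMap.mul_apply',
      ContinuousLinearMap.sub_apply, ContinuousLinearMap.smul_apply, smul_eq_mul, mul_sub]
    rw [mul_left_comm x u v]
  · have h1 := (hgen (w - w.comp (ContinuousLinearMap.mul ℂ A x)) hwT).2
    rw [norm_sub_rev]
    refine le_trans (le_of_eq ?_) h1
    congr 1
    simp only [ContinuousLinearMap.comp_apply, ContinuousLinearMap.mul_apply',
      ContinuousLinearMap.sub_apply, ContinuousLinearMap.smul_apply, smul_eq_mul, mul_sub]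
    rw [mul_comm x u, inv_mul_cancel₀ hwu]
  · intro y hy
    have h1 := hgen (w.comp (ContinuousLinearMap.mul ℂ A y)) (hwy y hy)
    constructor
    · refine le_trans (le_of_eq ?_) h1.1
      congr 1
      ext v
      simp only [ContinuousLinearMap.comp_apply, ContinuousLinearMap.mul_apply',
        ContinuousLinearMap.smul_apply, smul_eq_mul]
      rw [mul_left_comm y u v]
    · refine le_trans (le_of_eq ?_) h1.2
      congr 1
      simp only [ContinuousLinearMap.comp_apply, ContinuousLinearMap.mul_apply',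
        ContinuousLinearMap.smul_apply, smul_eq_mul]
      rw [mul_comm y u]

end Job22017

end Pool.Agent.Helper832.RD
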