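import Mathlib
import Pool.Agent.Helper832.GDA

/-!
Functionals on the projective tensor square of a commutative Banach algebra.
-/

set_option autoImplicit false
set_option linter.unusedSectionVars false
set_option linter.unusedVariables false

namespace Pool.Agent.Helper832.RD

open ContinuousLinearMap
open Pool.Agent.Helper832.GD (Tens tens lift lift_tens tens_ext)

variable {A : Type} [NonUnitalNormedCommRing A] [NormedSpace ℂ A] [IsScalarTower ℂ A A]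
  [SMulCommClass ℂ A A]

/-- the product as an operator -/
noncomputable def ml : A →L[ℂ] A →L[ℂ] A := ContinuousLinearMap.mul ℂ A

lemma ml_apply (a b : A) : ml a b = a * b := rfl

lemma norm_ml_le (a : A) : ‖ml a‖ ≤ ‖a‖ := ContinuousLinearMap.opNorm_mul_apply_le ℂ A a

/-- `(a f)(y) = f (a y)` -/
noncomputable def ac (a : A) (f : A →L[ℂ] ℂ) : A →L[ℂ] ℂ := f.comp (ml a)

lemma ac_apply (a y : A) (f : A →L[ℂ] ℂ) : ac a f y = f (a * y) := rfl

lemma norm_ac_le (a : A) (f : A →L[ℂ] ℂ) : ‖ac a f‖ ≤ ‖a‖ * ‖f‖ := by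
  refine (ContinuousLinearMap.opNorm_comp_le _ _).trans ?_
  rw [mul_comm]
  exact mul_le_mul_of_nonneg_right (norm_ml_le a) (norm_nonneg _)

lemma ac_ac (a b : A) (f : A →L[ℂ] ℂ) : ac a (ac b f) = ac (a * b) f :=
  ContinuousLinearMap.ext (fun y => by
    rw [ac_apply, ac_apply, ac_apply, ← mul_assoc, mul_comm b a])

lemma ac_comm (a b : A) (f : A →L[ℂ] ℂ) : ac a (ac b f) = ac b (ac a f) := by
  rw [ac_ac, ac_ac, mul_comm]

lemma ac_sub (a : A) (f g : A →L[ℂ] ℂ) : ac a (f - g) = ac a f - ac a g :=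
  ContinuousLinearMap.ext (fun y => rfl)

/-- the functional `a ⊗ b ↦ h a * k b` -/
noncomputable def pr (h k : A →L[ℂ] ℂ) : Tens A A →L[ℂ] ℂ := lift (h.smulRight k)

@[simp] lemma pr_tens (h k : A →L[ℂ] ℂ) (a b : A) : pr h k (tens a b) = h a * k b := by
  unfold pr
  rw [lift_tens]
  rfl

/-- norm estimate for a linearised bilinear map -/
lemma norm_lift_apply_le {Z : Type} [NormedAddCommGroup Z] [NormedSpace ℂ Z] [CompleteSpace Z]
    (m : A →L[ℂ] A →L[ℂ] Z) (K : ℝ) (hK : 0 ≤ K) (hm : ∀ a b, ‖m a b‖ ≤ K * ‖a‖ * ‖b‖)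
    (z : Tens A A) : ‖lift m z‖ ≤ K * ‖z‖ := by
  have h1 : ‖lift m z‖ ≤ 1 * ‖m‖ * ‖z‖ := Pool.Agent.Helper832.GD.norm_lift0_le m z
  have h2 : ‖m‖ ≤ K := by
    refine ContinuousLinearMap.opNorm_le_bound _ hK (fun a => ?_)
    exact ContinuousLinearMap.opNorm_le_bound _ (by positivity) (fun b => hm a b)
  rw [one_mul] at h1
  exact h1.trans (mul_le_mul_of_nonneg_right h2 (norm_nonneg _))

/-- a functional on the tensor square is bounded by its values on elementary tensors -/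
lemma norm_fun_le (F : Tens A A →L[ℂ] ℂ) (K : ℝ) (hK : 0 ≤ K)
    (hF : ∀ a b, ‖F (tens a b)‖ ≤ K * ‖a‖ * ‖b‖) (z : Tens A A) : ‖F z‖ ≤ K * ‖z‖ := by
  have h1 : F = lift (Pool.Agent.Helper832.GD.unlift F) := tens_ext (fun p q => by
    rw [lift_tens, Pool.Agent.Helper832.GD.unlift_apply])
  rw [h1]
  exact norm_lift_apply_le _ K hK (fun a b => hF a b) z

lemma norm_pr_le (h k : A →L[ℂ] ℂ) (z : Tens A A) : ‖pr h k z‖ ≤ ‖h‖ * ‖k‖ * ‖z‖ := by
  refine norm_fun_le (pr h k) (‖h‖ * ‖k‖) (by positivity) (fun a b => ?_) z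
  rw [pr_tens, norm_mul]
  calc ‖h a‖ * ‖k b‖ ≤ (‖h‖ * ‖a‖) * (‖k‖ * ‖b‖) :=
        mul_le_mul (h.le_opNorm a) (k.le_opNorm b) (norm_nonneg _) (by positivity)
    _ = ‖h‖ * ‖k‖ * ‖a‖ * ‖b‖ := by ring

lemma pr_sub_left (h h' k : A →L[ℂ] ℂ) (z : Tens A A) :
    pr (h - h') k z = pr h k z - pr h' k z := by
  have : pr (h - h') k = pr h k - pr h' k := tens_ext (fun a b => by
    rw [sub_apply, pr_tens, pr_tens, pr_tens, sub_apply, sub_mul])
  rw [this, sub_apply]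

lemma pr_sub_right (h k k' : A →L[ℂ] ℂ) (z : Tens A A) :
    pr h (k - k') z = pr h k z - pr h k' z := by
  have : pr h (k - k') = pr h k - pr h k' := tens_ext (fun a b => by
    rw [sub_apply, pr_tens, pr_tens, pr_tens, sub_apply, mul_sub])
  rw [this, sub_apply]

/-- `a (b ⊗ c) = a b ⊗ c` -/
noncomputable def lt (a : A) : Tens A A →L[ℂ] Tens A A := lift (tens.comp (ml a))

@[simp] lemma lt_tens (a b c : A) : lt a (tens b c) = (tens (a * b) c : Tens A A) := by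
  unfold lt
  rw [lift_tens]
  rfl

/-- `(b ⊗ c) a = b ⊗ c a` -/
noncomputable def rt (a : A) : Tens A A →L[ℂ] Tens A A :=
  lift (((compL ℂ A A (Tens A A)).flip (ml a)).comp tens)

@[simp] lemma rt_tens (a b c : A) : rt a (tens b c) = (tens b (a * c) : Tens A A) := by
  unfold rt
  rw [lift_tens]
  rfl


/-- the product map of the tensor square -/
noncomputable def pm [CompleteSpace A] : Tens A A →L[ℂ] A := lift ml

@[simp] lemma pm_tens [CompleteSpace A] (a b : A) : pm (tens a b : Tens A A) = a * b := by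
  unfold pm
  rw [lift_tens]
  rfl

/-- the slice map `b ⊗ c ↦ k(c) b` -/
noncomputable def sl [CompleteSpace A] (k : A →L[ℂ] ℂ) : Tens A A →L[ℂ] A :=
  lift ((smulRightL ℂ A A k).flip.flip.comp (ContinuousLinearMap.id ℂ A))

@[simp] lemma sl_tens [CompleteSpace A] (k : A →L[ℂ] ℂ) (a b : A) :
    sl k (tens a b : Tens A A) = k b • a := by
  unfold sl
  rw [lift_tens]
  rfl

/-- `b ⊗ c ↦ b G(c)` -/
noncomputable def mg (G : A →L[ℂ] Tens A A) : Tens A A →L[ℂ] Tens A A :=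
  lift ((((compL ℂ A (Tens A A) (Tens A A)).flip G).comp
    (LinearMap.mkContinuous₂ (LinearMap.mk₂ ℂ (fun (a : A) (z : Tens A A) => lt a z)
      (fun a b z => by
        have : (lt (a + b) : Tens A A →L[ℂ] Tens A A) = lt a + lt b := tens_ext (fun p q => by
          rw [add_apply, lt_tens, lt_tens, lt_tens, add_mul, map_add, add_apply])
        rw [this, add_apply])
      (fun c a z => by
        have : (lt (c • a) : Tens A A →L[ℂ] Tens A A) = c • lt a := tens_ext (fun p q => by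
          rw [smul_apply, lt_tens, lt_tens, smul_mul_assoc, map_smul, smul_apply])
        rw [this, smul_apply])
      (fun a z w => map_add _ _ _) (fun c a z => map_smul _ _ _)) 1
      (fun a z => by
        show ‖lt a z‖ ≤ _
        rw [one_mul]
        exact norm_lift_apply_le _ ‖a‖ (norm_nonneg _) (fun b c => by
          show ‖(tens (a * b) c : Tens A A)‖ ≤ _
          have h1 := (tens : A →L[ℂ] A →L[ℂ] Tens A A).le_opNorm₂ (a * b) c
          have h2 : ‖(tens : A →L[ℂ] A →L[ℂ] Tens A A)‖ ≤ 1 :=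
            LinearMap.mkContinuous₂_norm_le _ zero_le_one _
          have h3 := norm_mul_le a b
          calc ‖(tens (a * b) c : Tens A A)‖ ≤ 1 * (‖a‖ * ‖b‖) * ‖c‖ := by
                refine h1.trans ?_
                gcongr
            _ = _ := by ring) z))))

@[simp] lemma mg_tens (G : A →L[ℂ] Tens A A) (b c : A) : mg G (tens b c) = lt b (G c) := by
  unfold mg
  rw [lift_tens]
  rfl

lemma norm_tens_le (a b : A) : ‖(tens a b : Tens A A)‖ ≤ ‖a‖ * ‖b‖ := by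
  have h1 := (tens : A →L[ℂ] A →L[ℂ] Tens A A).le_opNorm₂ a b
  have h2 : ‖(tens : A →L[ℂ] A →L[ℂ] Tens A A)‖ ≤ 1 :=
    LinearMap.mkContinuous₂_norm_le _ zero_le_one _
  calc ‖(tens a b : Tens A A)‖ ≤ 1 * ‖a‖ * ‖b‖ := by
        refine h1.trans ?_
        gcongr
    _ = _ := by ring

lemma norm_lt_le (a : A) (z : Tens A A) : ‖lt a z‖ ≤ ‖a‖ * ‖z‖ := by
  refine norm_lift_apply_le _ ‖a‖ (norm_nonneg _) (fun b c => ?_) z
  show ‖(tens (a * b) c : Tens A A)‖ ≤ _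
  refine (norm_tens_le _ _).trans ?_
  have := norm_mul_le a b
  gcongr

lemma norm_mg_le (G : A →L[ℂ] Tens A A) (z : Tens A A) : ‖mg G z‖ ≤ ‖G‖ * ‖z‖ := by
  refine norm_lift_apply_le _ ‖G‖ (norm_nonneg _) (fun b c => ?_) z
  show ‖lt b (G c)‖ ≤ _
  refine (norm_lt_le _ _).trans ?_
  have := G.le_opNorm c
  calc ‖b‖ * ‖G c‖ ≤ ‖b‖ * (‖G‖ * ‖c‖) := by gcongr
    _ = _ := by ring

lemma norm_sl_le [CompleteSpace A] (k : A →L[ℂ] ℂ) (z : Tens A A) : ‖sl k z‖ ≤ ‖k‖ * ‖z‖ := by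
  refine norm_lift_apply_le _ ‖k‖ (norm_nonneg _) (fun b c => ?_) z
  show ‖k c • b‖ ≤ _
  rw [norm_smul]
  have := k.le_opNorm c
  calc ‖k c‖ * ‖b‖ ≤ (‖k‖ * ‖c‖) * ‖b‖ := by gcongr
    _ = _ := by ring

lemma pr_lt (h k : A →L[ℂ] ℂ) (a : A) (z : Tens A A) : pr h k (lt a z) = pr (ac a h) k z := by
  have : (pr h k).comp (lt a) = pr (ac a h) k := tens_ext (fun b c => by
    rw [comp_apply, lt_tens, pr_tens, pr_tens, ac_apply])
  exact congrArg (fun F : Tens A A →L[ℂ] ℂ => F z) this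

lemma pr_rt (h k : A →L[ℂ] ℂ) (a : A) (z : Tens A A) : pr h k (rt a z) = pr h (ac a k) z := by
  have : (pr h k).comp (rt a) = pr h (ac a k) := tens_ext (fun b c => by
    rw [comp_apply, rt_tens, pr_tens, pr_tens, ac_apply])
  exact congrArg (fun F : Tens A A →L[ℂ] ℂ => F z) this

lemma apply_sl [CompleteSpace A] (h k : A →L[ℂ] ℂ) (z : Tens A A) : h (sl k z) = pr h k z := by
  have : h.comp (sl k) = pr h k := tens_ext (fun b c => by
    rw [comp_apply, sl_tens, pr_tens, map_smul, smul_eq_mul, mul_comm])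
  exact congrArg (fun F : Tens A A →L[ℂ] ℂ => F z) this

lemma pm_lt [CompleteSpace A] (a : A) (z : Tens A A) : pm (lt a z) = a * pm z := by
  have : (pm : Tens A A →L[ℂ] A).comp (lt a) = (ml a).comp pm := tens_ext (fun b c => by
    rw [comp_apply, comp_apply, lt_tens, pm_tens, pm_tens, ml_apply, mul_assoc])
  exact congrArg (fun F : Tens A A →L[ℂ] A => F z) this

lemma sl_lt [CompleteSpace A] (k : A →L[ℂ] ℂ) (a : A) (z : Tens A A) :
    sl k (lt a z) = a * sl k z := by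
  have : (sl k).comp (lt a) = (ml a).comp (sl k) := tens_ext (fun b c => by
    rw [comp_apply, comp_apply, lt_tens, sl_tens, sl_tens, ml_apply, mul_smul_comm])
  exact congrArg (fun F : Tens A A →L[ℂ] A => F z) this

/-- `f (b c)` as a functional of `b ⊗ c` -/
lemma apply_pm_tens [CompleteSpace A] (f : A →L[ℂ] ℂ) (b c : A) :
    f (pm (tens b c : Tens A A)) = ac c f b := by
  rw [pm_tens, ac_apply, mul_comm]

/-- approximate eigenpairs -/
def Good (C η : ℝ) (p : (A →L[ℂ] ℂ) × A) : Prop :=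
  ‖p.1‖ ≤ 2 ∧ ‖p.2‖ ≤ C ∧ ‖ac p.2 p.1 - p.1‖ ≤ η ∧ ‖p.1 p.2 - 1‖ ≤ η

/-- `q` is deep relative to `p` -/
def Deep (G S : A →L[ℂ] Tens A A) (η : ℝ) (p q : (A →L[ℂ] ℂ) × A) : Prop :=
  ‖ac p.2 q.1‖ ≤ η ∧ ‖q.1 p.2‖ ≤ η ∧ (∀ h : A →L[ℂ] ℂ, ‖pr h q.1 (G p.2)‖ ≤ η * ‖h‖) ∧
    (∀ (h : A →L[ℂ] ℂ) (c : A), ‖pr h (ac c q.1) (G p.2)‖ ≤ η * ‖h‖ * ‖c‖) ∧
    (∀ h : A →L[ℂ] ℂ, ‖pr q.1 h (G p.2)‖ ≤ η * ‖h‖) ∧
    (∀ (h : A →L[ℂ] ℂ) (c : A), ‖pr (ac c q.1) h (G p.2)‖ ≤ η * ‖h‖ * ‖c‖) ∧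
    (∀ h : A →L[ℂ] ℂ, ‖pr h q.1 (S p.2)‖ ≤ η * ‖h‖)

end Pool.Agent.Helper832.RD
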