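import Mathlib
import Pool.Agent.Helper832.RDBase
import Pool.Agent.Helper832.Dyad

/-!
The triangular contradiction in the tensor square.
-/

set_option autoImplicit false
set_option linter.unusedSectionVars false
set_option linter.unusedVariables false
set_option maxHeartbeats 4000000
set_option synthInstance.maxHeartbeats 400000

namespace Pool.Agent.Helper832.RD

open ContinuousLinearMap
open Pool.Agent.Helper832.GD (Tens tens lift lift_tens tens_ext)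

variable {A : Type} [NonUnitalNormedCommRing A] [NormedSpace ℂ A] [IsScalarTower ℂ A A]
  [SMulCommClass ℂ A A]

section Job22670

theorem dense_squares [CompleteSpace A]
    (hrad : ∀ a : A, ∃ b : A, a + b + a * b = 0)
    (hqn : ∀ (a : A) (ε : ℝ), 0 < ε → ∃ n : ℕ, ‖(ContinuousLinearMap.mul ℂ A a) ^ n‖ < ε ^ n)
    (T : A →L[ℂ] Tens A A)
    (hT : ∀ a x, (tens a x : Tens A A) = lt a (T x) - tens a (pm (T x)) - T (a * x))
    (f : A →L[ℂ] ℂ) (hf : ∀ a b, f (a * b) = 0) : f = 0 := by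
  by_contra hne
  obtain ⟨a0, ha0⟩ : ∃ a0, f a0 ≠ 0 := by
    by_contra hcon
    push Not at hcon
    exact hne (ContinuousLinearMap.ext hcon)
  have hpm : ∀ z : Tens A A, f (pm z) = 0 := by
    intro z
    have h1 : f.comp (pm : Tens A A →L[ℂ] A) = 0 := tens_ext (fun p q => by
      rw [comp_apply, pm_tens, hf, zero_apply])
    exact congrArg (fun F : Tens A A →L[ℂ] ℂ => F z) h1
  have hE : ∀ a x : A, f x • a = a * sl f (T x) - sl f (T (a * x)) := by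
    intro a x
    have h1 := congrArg (sl f) (hT a x)
    rw [map_sub, map_sub, sl_tens, sl_tens, sl_lt, hpm, zero_smul, sub_zero] at h1
    exact h1
  obtain ⟨a, hfa⟩ : ∃ a, f a = 1 := ⟨(f a0)⁻¹ • a0, by
    rw [map_smul, smul_eq_mul, inv_mul_cancel₀ ha0]⟩
  obtain ⟨r, hr⟩ := hrad (-(sl f (T a)))
  have hx : ∀ x : A, x = -(sl f (T (a * x))) - sl f (T (a * x)) * r := by
    intro x
    have h1 := hE x a
    rw [hfa, one_smul] at h1
    have h0 : x * a = a * x := mul_comm x a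
    rw [h0] at h1
    have h2 : sl f (T (a * x)) = x * sl f (T a) - x := by
      nth_rewrite 3 [h1]
      abel
    rw [h2]
    generalize sl f (T a) = u at hr
    have h5 : x * (-u + r + -u * r) = 0 := by rw [hr, mul_zero]
    rw [mul_add, mul_add, mul_neg, neg_mul, mul_neg] at h5
    rw [sub_mul, mul_assoc]
    have h6 : -(x * u - x) - (x * (u * r) - x * r) =
      x + (-(x * u) + x * r + -(x * (u * r))) := by abel
    rw [h6, h5, add_zero]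
  set K : ℝ := ‖f‖ * ‖T‖ * (1 + ‖r‖) + 1 with hK
  have hKpos : 0 < K := by positivity
  have hbd : ∀ x : A, ‖x‖ ≤ K * ‖a * x‖ := by
    intro x
    have h1 : ‖sl f (T (a * x))‖ ≤ ‖f‖ * ‖T‖ * ‖a * x‖ := by
      refine (norm_sl_le _ _).trans ?_
      rw [mul_assoc]
      exact mul_le_mul_of_nonneg_left (T.le_opNorm _) (norm_nonneg _)
    calc ‖x‖ = ‖-(sl f (T (a * x))) - sl f (T (a * x)) * r‖ := by rw [← hx x]
      _ ≤ ‖-(sl f (T (a * x)))‖ + ‖sl f (T (a * x)) * r‖ := norm_sub_le _ _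
      _ ≤ ‖sl f (T (a * x))‖ + ‖sl f (T (a * x))‖ * ‖r‖ := by
          rw [norm_neg]; gcongr; exact norm_mul_le _ _
      _ = ‖sl f (T (a * x))‖ * (1 + ‖r‖) := by ring
      _ ≤ ‖f‖ * ‖T‖ * ‖a * x‖ * (1 + ‖r‖) := by gcongr
      _ ≤ K * ‖a * x‖ := by rw [hK]; nlinarith [norm_nonneg (a * x)]
  have hpow : ∀ (n : ℕ) (x : A), ‖x‖ ≤ K ^ n * ‖((ContinuousLinearMap.mul ℂ A a) ^ n) x‖ := by
    intro n
    induction n with
    | zero => intro x; simp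
    | succ n ih =>
      intro x
      have h1 := ih x
      have h2 := hbd (((ContinuousLinearMap.mul ℂ A a) ^ n) x)
      have h3 : ((ContinuousLinearMap.mul ℂ A a) ^ (n + 1)) x =
          a * ((ContinuousLinearMap.mul ℂ A a) ^ n) x := by
        rw [pow_succ']
        rfl
      rw [h3]
      calc ‖x‖ ≤ K ^ n * ‖((ContinuousLinearMap.mul ℂ A a) ^ n) x‖ := h1
        _ ≤ K ^ n * (K * ‖a * ((ContinuousLinearMap.mul ℂ A a) ^ n) x‖) := by gcongr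
        _ = _ := by ring
  have hane : a ≠ 0 := by
    rintro rfl
    rw [map_zero] at hfa
    exact zero_ne_one hfa
  have hna : 0 < ‖a‖ := norm_pos_iff.mpr hane
  obtain ⟨n, hn⟩ := hqn a K⁻¹ (inv_pos.mpr hKpos)
  have h1 := hpow n a
  have h2 := ((ContinuousLinearMap.mul ℂ A a) ^ n).le_opNorm a
  have h3 : K ^ n * ‖(ContinuousLinearMap.mul ℂ A a) ^ n‖ < 1 := by
    calc K ^ n * ‖(ContinuousLinearMap.mul ℂ A a) ^ n‖ < K ^ n * (K⁻¹) ^ n :=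
          mul_lt_mul_of_pos_left hn (by positivity)
      _ = 1 := by rw [← mul_pow, mul_inv_cancel₀ hKpos.ne', one_pow]
  have h4 : ‖a‖ < ‖a‖ := by
    calc ‖a‖ ≤ K ^ n * ‖((ContinuousLinearMap.mul ℂ A a) ^ n) a‖ := h1
      _ ≤ K ^ n * (‖(ContinuousLinearMap.mul ℂ A a) ^ n‖ * ‖a‖) := by gcongr
      _ = (K ^ n * ‖(ContinuousLinearMap.mul ℂ A a) ^ n‖) * ‖a‖ := by ring
      _ < 1 * ‖a‖ := mul_lt_mul_of_pos_right h3 hna
      _ = ‖a‖ := one_mul _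
  exact lt_irrefl _ h4

end Job22670

section Job22671

theorem exists_section [CompleteSpace A]
    (hdense : ∀ f : A →L[ℂ] ℂ, (∀ a b, f (a * b) = 0) → f = 0)
    (T : A →L[ℂ] Tens A A)
    (hT : ∀ a x, (tens a x : Tens A A) = lt a (T x) - tens a (pm (T x)) - T (a * x)) :
    ∃ S : A →L[ℂ] Tens A A, (∀ a, pm (S a) = a) ∧ ∀ a b, S (a * b) = lt a (S b) := by
  have h1 : ∀ a x : A, pm (T (a * x)) + a * x = 0 := by
    intro a x
    have h := congrArg (pm : Tens A A →L[ℂ] A) (hT a x)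
    rw [map_sub, map_sub, pm_tens, pm_tens, pm_lt, sub_self, zero_sub] at h
    rw [add_comm]
    exact eq_neg_iff_add_eq_zero.mp h
  have h2 : ∀ x : A, pm (T x) = -x := by
    intro x
    apply Pool.Agent.Helper832.GD.eq_of_dual
    intro φ
    have h3 := hdense (φ.comp ((pm : Tens A A →L[ℂ] A).comp T + ContinuousLinearMap.id ℂ A))
      (fun a b => by
        rw [comp_apply, add_apply, comp_apply, id_apply, h1, map_zero])
    have h4 : φ (pm (T x) + x) = 0 := by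
      have := congrArg (fun F : A →L[ℂ] ℂ => F x) h3
      exact this
    rw [map_add] at h4
    rw [map_neg]
    exact eq_neg_of_add_eq_zero_left h4
  refine ⟨-T, fun a => ?_, fun a b => ?_⟩
  · rw [neg_apply, map_neg, h2, neg_neg]
  · have h := hT a b
    rw [h2, map_neg, sub_neg_eq_add] at h
    have h5 : lt a (T b) - T (a * b) = 0 := by
      have h6 : lt a (T b) + (tens a b : Tens A A) - T (a * b) - tens a b = 0 := by
        rw [← h, sub_self]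
      rw [← h6]
      abel
    rw [neg_apply, neg_apply, map_neg, sub_eq_zero.mp h5]

end Job22671

section Job22673

theorem hopen_of_section [CompleteSpace A] (S : A →L[ℂ] Tens A A) (hS : ∀ a, pm (S a) = a) :
    ∃ C : ℝ, 1 ≤ C ∧ ∀ f : A →L[ℂ] ℂ, ∃ c : A, ‖c‖ ≤ 1 ∧ ‖f‖ ≤ C * ‖ac c f‖ := by
  have hC : 0 < ‖S‖ + 1 := by positivity
  refine ⟨‖S‖ + 1, by linarith [norm_nonneg S], fun f => ?_⟩
  by_cases hf : f = 0
  · refine ⟨0, by simp, ?_⟩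
    rw [hf, norm_zero]
    positivity
  by_contra hcon
  push Not at hcon
  have hf0 : 0 < ‖f‖ := norm_pos_iff.2 hf
  have hsm : ∀ (t : ℂ) (c : A), ac (t • c) f = t • ac c f := by
    intro t c
    refine ContinuousLinearMap.ext (fun y => ?_)
    rw [ac_apply, smul_apply, ac_apply, smul_mul_assoc, map_smul]
  have h1 : ∀ c : A, ‖ac c f‖ ≤ ‖f‖ / (‖S‖ + 1) * ‖c‖ := by
    intro c
    by_cases hc : c = 0
    · have : ac c f = 0 := by
        refine ContinuousLinearMap.ext (fun y => ?_)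
        rw [ac_apply, hc, zero_mul, map_zero]
        rfl
      rw [this, norm_zero]
      positivity
    · have hc0 : 0 < ‖c‖ := norm_pos_iff.2 hc
      have hn : ‖((‖c‖ : ℂ)⁻¹ • c)‖ = 1 := by
        rw [norm_smul, norm_inv, Complex.norm_real, norm_norm, inv_mul_cancel₀ hc0.ne']
      have h2 := hcon ((‖c‖ : ℂ)⁻¹ • c) hn.le
      rw [hsm, norm_smul, norm_inv, Complex.norm_real, norm_norm] at h2
      rw [div_mul_eq_mul_div, le_div_iff₀ hC]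
      have h3 : (‖S‖ + 1) * (‖c‖⁻¹ * ‖ac c f‖) * ‖c‖ < ‖f‖ * ‖c‖ :=
        mul_lt_mul_of_pos_right h2 hc0
      have h4 : (‖S‖ + 1) * (‖c‖⁻¹ * ‖ac c f‖) * ‖c‖ = ‖ac c f‖ * (‖S‖ + 1) := by
        field_simp
      linarith
  have h2 : ∀ z : Tens A A, ‖(f.comp pm) z‖ ≤ ‖f‖ / (‖S‖ + 1) * ‖z‖ := by
    refine norm_fun_le (f.comp pm) _ (by positivity) (fun b c => ?_)
    rw [comp_apply, apply_pm_tens]
    refine ((ac c f).le_opNorm b).trans ?_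
    have := mul_le_mul_of_nonneg_right (h1 c) (norm_nonneg b)
    refine this.trans_eq ?_
    ring
  have h3 : ‖f‖ ≤ ‖f‖ / (‖S‖ + 1) * ‖S‖ := by
    refine ContinuousLinearMap.opNorm_le_bound _ (by positivity) (fun a => ?_)
    have h4 := h2 (S a)
    rw [comp_apply, hS] at h4
    refine h4.trans ?_
    rw [mul_assoc]
    exact mul_le_mul_of_nonneg_left (S.le_opNorm a) (by positivity)
  rw [div_mul_eq_mul_div, le_div_iff₀ hC] at h3
  nlinarith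

end Job22673

section Job22674

theorem tens_ind (N : Submodule ℂ (Tens A A)) (hN : IsClosed (N : Set (Tens A A)))
    (h : ∀ a b : A, tens a b ∈ N) (z : Tens A A) : z ∈ N := by
  haveI := hN
  have h1 : N.mkQL = (0 : Tens A A →L[ℂ] (Tens A A ⧸ N)) := tens_ext (fun a b => by
    rw [ContinuousLinearMap.zero_apply]
    exact (Submodule.Quotient.mk_eq_zero N).mpr (h a b))
  have h2 : N.mkQL z = 0 := by rw [h1, ContinuousLinearMap.zero_apply]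
  exact (Submodule.Quotient.mk_eq_zero N).mp h2

/-- the estimates of `small_tens` for one functional -/
def Bd (z : Tens A A) (k : A →L[ℂ] ℂ) (ε : ℝ) : Prop :=
  ∀ h : A →L[ℂ] ℂ,
    ‖pr h k z‖ ≤ ε * ‖h‖ ∧ (∀ c, ‖pr h (ac c k) z‖ ≤ ε * ‖h‖ * ‖c‖) ∧
    ‖pr k h z‖ ≤ ε * ‖h‖ ∧ ∀ c, ‖pr (ac c k) h z‖ ≤ ε * ‖h‖ * ‖c‖

theorem Bd.add {z w : Tens A A} {k : A →L[ℂ] ℂ} {ε ε' : ℝ} (h1 : Bd z k ε) (h2 : Bd w k ε') :
    Bd (z + w) k (ε + ε') := by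
  intro h
  obtain ⟨a1, a2, a3, a4⟩ := h1 h
  obtain ⟨b1, b2, b3, b4⟩ := h2 h
  refine ⟨?_, fun c => ?_, ?_, fun c => ?_⟩
  · rw [map_add]
    refine (norm_add_le _ _).trans ?_
    linarith
  · rw [map_add]
    refine (norm_add_le _ _).trans ?_
    have := a2 c
    have := b2 c
    linarith
  · rw [map_add]
    refine (norm_add_le _ _).trans ?_
    linarith
  · rw [map_add]
    refine (norm_add_le _ _).trans ?_
    have := a4 c
    have := b4 c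
    linarith

theorem Bd.smul {z : Tens A A} {k : A →L[ℂ] ℂ} {ε : ℝ} (h1 : Bd z k ε) (a : ℂ) :
    Bd (a • z) k (‖a‖ * ε) := by
  intro h
  obtain ⟨a1, a2, a3, a4⟩ := h1 h
  refine ⟨?_, fun c => ?_, ?_, fun c => ?_⟩
  · rw [map_smul, norm_smul, mul_assoc]
    exact mul_le_mul_of_nonneg_left a1 (norm_nonneg _)
  · rw [map_smul, norm_smul, mul_assoc, mul_assoc, ← mul_assoc ε]
    exact mul_le_mul_of_nonneg_left (a2 c) (norm_nonneg _)
  · rw [map_smul, norm_smul, mul_assoc]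
    exact mul_le_mul_of_nonneg_left a3 (norm_nonneg _)
  · rw [map_smul, norm_smul, mul_assoc, mul_assoc, ← mul_assoc ε]
    exact mul_le_mul_of_nonneg_left (a4 c) (norm_nonneg _)

theorem Bd.mono {z : Tens A A} {k : A →L[ℂ] ℂ} {ε ε' : ℝ} (h1 : Bd z k ε) (hε : ε ≤ ε') :
    Bd z k ε' := by
  intro h
  obtain ⟨a1, a2, a3, a4⟩ := h1 h
  have e1 : ε * ‖h‖ ≤ ε' * ‖h‖ := mul_le_mul_of_nonneg_right hε (norm_nonneg _)
  have e2 : ∀ c : A, ε * ‖h‖ * ‖c‖ ≤ ε' * ‖h‖ * ‖c‖ := fun c =>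
    mul_le_mul_of_nonneg_right e1 (norm_nonneg _)
  exact ⟨a1.trans e1, fun c => (a2 c).trans (e2 c), a3.trans e1, fun c => (a4 c).trans (e2 c)⟩

theorem Bd.triv (z : Tens A A) (k : A →L[ℂ] ℂ) (hk : ‖k‖ ≤ 2) : Bd z k (2 * ‖z‖) := by
  intro h
  have hac : ∀ c : A, ‖ac c k‖ ≤ 2 * ‖c‖ := fun c => by
    refine (norm_ac_le c k).trans ?_
    rw [mul_comm]
    exact mul_le_mul_of_nonneg_right hk (norm_nonneg _)
  refine ⟨?_, fun c => ?_, ?_, fun c => ?_⟩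
  · refine (norm_pr_le h k z).trans ?_
    calc ‖h‖ * ‖k‖ * ‖z‖ ≤ ‖h‖ * 2 * ‖z‖ := by gcongr
      _ = 2 * ‖z‖ * ‖h‖ := by ring
  · refine (norm_pr_le h (ac c k) z).trans ?_
    calc ‖h‖ * ‖ac c k‖ * ‖z‖ ≤ ‖h‖ * (2 * ‖c‖) * ‖z‖ := by
          have := hac c
          gcongr
      _ = 2 * ‖z‖ * ‖h‖ * ‖c‖ := by ring
  · refine (norm_pr_le k h z).trans ?_
    calc ‖k‖ * ‖h‖ * ‖z‖ ≤ 2 * ‖h‖ * ‖z‖ := by gcongr
      _ = 2 * ‖z‖ * ‖h‖ := by ring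
  · refine (norm_pr_le (ac c k) h z).trans ?_
    calc ‖ac c k‖ * ‖h‖ * ‖z‖ ≤ (2 * ‖c‖) * ‖h‖ * ‖z‖ := by
          have := hac c
          gcongr
      _ = 2 * ‖z‖ * ‖h‖ * ‖c‖ := by ring

theorem Bd.tens (b c : A) (k : A →L[ℂ] ℂ) (δ : ℝ) (h1 : ‖ac b k‖ ≤ δ) (h2 : ‖k b‖ ≤ δ)
    (h3 : ‖ac c k‖ ≤ δ) (h4 : ‖k c‖ ≤ δ) :
    Bd (Pool.Agent.Helper832.GD.tens b c) k (δ * (‖b‖ + ‖c‖ + 1)) := by
  have hδ : 0 ≤ δ := (norm_nonneg _).trans h1
  intro h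
  have hb := h.le_opNorm b
  have hc := h.le_opNorm c
  have hk1 : ∀ d : A, ‖k (d * b)‖ ≤ δ * ‖d‖ := fun d => by
    rw [mul_comm d b, ← ac_apply]
    exact ((ac b k).le_opNorm d).trans (mul_le_mul_of_nonneg_right h1 (norm_nonneg _))
  have hk2 : ∀ d : A, ‖k (d * c)‖ ≤ δ * ‖d‖ := fun d => by
    rw [mul_comm d c, ← ac_apply]
    exact ((ac c k).le_opNorm d).trans (mul_le_mul_of_nonneg_right h3 (norm_nonneg _))
  have hn1 := norm_nonneg b
  have hn2 := norm_nonneg c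
  have hn3 := norm_nonneg h
  refine ⟨?_, fun d => ?_, ?_, fun d => ?_⟩
  · rw [pr_tens, norm_mul]
    calc ‖h b‖ * ‖k c‖ ≤ (‖h‖ * ‖b‖) * δ := mul_le_mul hb h4 (norm_nonneg _) (by positivity)
      _ = δ * ‖b‖ * ‖h‖ := by ring
      _ ≤ δ * (‖b‖ + ‖c‖ + 1) * ‖h‖ := by gcongr; linarith
  · rw [pr_tens, norm_mul, ac_apply]
    calc ‖h b‖ * ‖k (d * c)‖ ≤ (‖h‖ * ‖b‖) * (δ * ‖d‖) :=
          mul_le_mul hb (hk2 d) (norm_nonneg _) (by positivity)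
      _ = δ * ‖b‖ * ‖h‖ * ‖d‖ := by ring
      _ ≤ δ * (‖b‖ + ‖c‖ + 1) * ‖h‖ * ‖d‖ := by gcongr; linarith
  · rw [pr_tens, norm_mul]
    calc ‖k b‖ * ‖h c‖ ≤ δ * (‖h‖ * ‖c‖) := mul_le_mul h2 hc (norm_nonneg _) hδ
      _ = δ * ‖c‖ * ‖h‖ := by ring
      _ ≤ δ * (‖b‖ + ‖c‖ + 1) * ‖h‖ := by gcongr; linarith
  · rw [pr_tens, norm_mul, ac_apply]
    calc ‖k (d * b)‖ * ‖h c‖ ≤ (δ * ‖d‖) * (‖h‖ * ‖c‖) :=
          mul_le_mul (hk1 d) hc (norm_nonneg _) (by positivity)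
      _ = δ * ‖c‖ * ‖h‖ * ‖d‖ := by ring
      _ ≤ δ * (‖b‖ + ‖c‖ + 1) * ‖h‖ * ‖d‖ := by gcongr; linarith

/-- the property of `small_tens` -/
def Sm (z : Tens A A) : Prop := ∀ ε : ℝ, 0 < ε → ∃ (Φ : Finset A) (δ : ℝ), 0 < δ ∧
  ∀ k : A →L[ℂ] ℂ, ‖k‖ ≤ 2 → (∀ y ∈ Φ, ‖ac y k‖ ≤ δ ∧ ‖k y‖ ≤ δ) → Bd z k ε

theorem Sm.zero : Sm (0 : Tens A A) := by
  intro ε hε
  refine ⟨∅, 1, one_pos, fun k hk _ => ?_⟩
  have h := Bd.triv (0 : Tens A A) k hk
  rw [norm_zero, mul_zero] at h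
  exact h.mono hε.le

theorem Sm.add {z w : Tens A A} (hz : Sm z) (hw : Sm w) : Sm (z + w) := by
  classical
  intro ε hε
  obtain ⟨Φ, δ, hδ, h1⟩ := hz (ε / 2) (by positivity)
  obtain ⟨Φ', δ', hδ', h2⟩ := hw (ε / 2) (by positivity)
  refine ⟨Φ ∪ Φ', min δ δ', lt_min hδ hδ', fun k hk hy => ?_⟩
  have a := h1 k hk (fun y hy' => ⟨((hy y (Finset.mem_union_left _ hy')).1).trans (min_le_left _ _),
    ((hy y (Finset.mem_union_left _ hy')).2).trans (min_le_left _ _)⟩)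
  have b := h2 k hk (fun y hy' =>
    ⟨((hy y (Finset.mem_union_right _ hy')).1).trans (min_le_right _ _),
    ((hy y (Finset.mem_union_right _ hy')).2).trans (min_le_right _ _)⟩)
  exact (a.add b).mono (by linarith)

theorem Sm.smul {z : Tens A A} (hz : Sm z) (a : ℂ) : Sm (a • z) := by
  intro ε hε
  have hp : 0 < ‖a‖ + 1 := by positivity
  obtain ⟨Φ, δ, hδ, h1⟩ := hz (ε / (‖a‖ + 1)) (by positivity)
  refine ⟨Φ, δ, hδ, fun k hk hy => ?_⟩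
  refine ((h1 k hk hy).smul a).mono ?_
  rw [mul_div_assoc', div_le_iff₀ hp]
  nlinarith [norm_nonneg a]

theorem Sm.tens (b c : A) : Sm (Pool.Agent.Helper832.GD.tens b c : Tens A A) := by
  classical
  intro ε hε
  have hp : 0 < ‖b‖ + ‖c‖ + 1 := by positivity
  refine ⟨{b, c}, ε / (‖b‖ + ‖c‖ + 1), by positivity, fun k hk hy => ?_⟩
  have hb := hy b (by simp)
  have hc := hy c (by simp)
  refine (Bd.tens b c k _ hb.1 hb.2 hc.1 hc.2).mono ?_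
  rw [div_mul_cancel₀ _ hp.ne']

/-- the submodule -/
def SmS : Submodule ℂ (Tens A A) where
  carrier := {z | Sm z}
  add_mem' := fun hz hw => Sm.add hz hw
  zero_mem' := Sm.zero
  smul_mem' := fun a _ hz => Sm.smul hz a

theorem SmS_closed : IsClosed ((SmS : Submodule ℂ (Tens A A)) : Set (Tens A A)) := by
  refine isClosed_of_closure_subset (fun z hz => ?_)
  show Sm z
  intro ε hε
  obtain ⟨w, hw, hzw⟩ := Metric.mem_closure_iff.mp hz (ε / 4) (by positivity)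
  have hw' : Sm w := hw
  obtain ⟨Φ, δ, hδ, h1⟩ := hw' (ε / 2) (by positivity)
  refine ⟨Φ, δ, hδ, fun k hk hy => ?_⟩
  have h2 := (h1 k hk hy).add (Bd.triv (z - w) k hk)
  rw [add_sub_cancel] at h2
  refine h2.mono ?_
  rw [dist_eq_norm] at hzw
  linarith

theorem small_tens (z : Tens A A) (ε : ℝ) (hε : 0 < ε) :
    ∃ (Φ : Finset A) (δ : ℝ), 0 < δ ∧ ∀ k : A →L[ℂ] ℂ, ‖k‖ ≤ 2 →
      (∀ y ∈ Φ, ‖ac y k‖ ≤ δ ∧ ‖k y‖ ≤ δ) → ∀ h : A →L[ℂ] ℂ,
        ‖pr h k z‖ ≤ ε * ‖h‖ ∧ (∀ c, ‖pr h (ac c k) z‖ ≤ ε * ‖h‖ * ‖c‖) ∧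
        ‖pr k h z‖ ≤ ε * ‖h‖ ∧ ∀ c, ‖pr (ac c k) h z‖ ≤ ε * ‖h‖ * ‖c‖ := by
  have h : z ∈ (SmS : Submodule ℂ (Tens A A)) :=
    tens_ind SmS SmS_closed (fun a b => Sm.tens a b) z
  exact h ε hε

end Job22674

section Job22675

theorem antisym (G : A →L[ℂ] Tens A A)
    (hG : ∀ b c, (tens b c : Tens A A) = lt b (G c) - G (b * c) + rt c (G b))
    (h k : A →L[ℂ] ℂ) (x c : A) :
    pr (ac x h) k (G c) - pr h (ac x k) (G c) =
      h x * k c - h c * k x - pr h (ac c k) (G x) + pr (ac c h) k (G x) := by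
  have h1 := congrArg (fun z : Tens A A => pr h k z) (hG x c)
  have h2 := congrArg (fun z : Tens A A => pr h k z) (hG c x)
  simp only [map_add, map_sub, pr_tens, pr_lt, pr_rt] at h1 h2
  rw [mul_comm c x] at h2
  linear_combination h2 - h1

end Job22675

section Job22676

theorem keyA (G : A →L[ℂ] Tens A A) (h k : A →L[ℂ] ℂ) (x c : A)
    (hanti : pr (ac x h) k (G c) - pr h (ac x k) (G c) =
      h x * k c - h c * k x - pr h (ac c k) (G x) + pr (ac c h) k (G x))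
    (B η : ℝ) (hB : 0 ≤ B) (hη : 0 ≤ η) (h1 : ‖ac x h - h‖ ≤ η * B) (h2 : ‖h‖ ≤ 2 * B)
    (h3 : ‖k‖ ≤ 2) (h4 : ‖ac x k‖ ≤ η) (h5 : ‖k x‖ ≤ η)
    (h6 : ∀ h' : A →L[ℂ] ℂ, ‖pr h' k (G x)‖ ≤ η * ‖h'‖)
    (h7 : ∀ (h' : A →L[ℂ] ℂ) (c : A), ‖pr h' (ac c k) (G x)‖ ≤ η * ‖h'‖ * ‖c‖) :
    ‖pr h k (G c) - h x * k c‖ ≤ η * (4 * ‖G‖ + 6) * B * ‖c‖ := by
  have e1 : pr h k (G c) - h x * k c = pr h (ac x k) (G c) - h c * k x - pr h (ac c k) (G x) +
      pr (ac c h) k (G x) - pr (ac x h - h) k (G c) := by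
    rw [pr_sub_left]
    linear_combination hanti
  have hGc : ‖G c‖ ≤ ‖G‖ * ‖c‖ := G.le_opNorm c
  have b1 : ‖pr h (ac x k) (G c)‖ ≤ (2 * B) * η * (‖G‖ * ‖c‖) := by
    refine (norm_pr_le _ _ _).trans ?_
    gcongr
  have b2 : ‖h c * k x‖ ≤ (2 * B * ‖c‖) * η := by
    rw [norm_mul]
    have h8 : ‖h c‖ ≤ 2 * B * ‖c‖ := (h.le_opNorm c).trans (by gcongr)
    gcongr
  have b3 : ‖pr h (ac c k) (G x)‖ ≤ η * (2 * B) * ‖c‖ := by
    refine (h7 h c).trans ?_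
    gcongr
  have b4 : ‖pr (ac c h) k (G x)‖ ≤ η * (‖c‖ * (2 * B)) := by
    refine (h6 _).trans ?_
    have h9 : ‖ac c h‖ ≤ ‖c‖ * (2 * B) := (norm_ac_le c h).trans (by gcongr)
    gcongr
  have b5 : ‖pr (ac x h - h) k (G c)‖ ≤ (η * B) * 2 * (‖G‖ * ‖c‖) := by
    refine (norm_pr_le _ _ _).trans ?_
    gcongr
  rw [e1]
  have t1 := norm_sub_le (pr h (ac x k) (G c) - h c * k x - pr h (ac c k) (G x) +
      pr (ac c h) k (G x)) (pr (ac x h - h) k (G c))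
  have t2 := norm_add_le (pr h (ac x k) (G c) - h c * k x - pr h (ac c k) (G x))
      (pr (ac c h) k (G x))
  have t3 := norm_sub_le (pr h (ac x k) (G c) - h c * k x) (pr h (ac c k) (G x))
  have t4 := norm_sub_le (pr h (ac x k) (G c)) (h c * k x)
  have e2 : η * (4 * ‖G‖ + 6) * B * ‖c‖ = (2 * B) * η * (‖G‖ * ‖c‖) + (2 * B * ‖c‖) * η +
      η * (2 * B) * ‖c‖ + η * (‖c‖ * (2 * B)) + (η * B) * 2 * (‖G‖ * ‖c‖) := by ring
  rw [e2]
  linarith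

end Job22676

section Job22677

theorem keyB (G : A →L[ℂ] Tens A A) (h k : A →L[ℂ] ℂ) (x c : A)
    (hanti : pr (ac x h) k (G c) - pr h (ac x k) (G c) =
      h x * k c - h c * k x - pr h (ac c k) (G x) + pr (ac c h) k (G x))
    (B η : ℝ) (hB : 0 ≤ B) (hη : 0 ≤ η) (h1 : ‖ac x k - k‖ ≤ η) (h2 : ‖h‖ ≤ 2 * B)
    (h3 : ‖k‖ ≤ 2) (h4 : ‖ac x h‖ ≤ η * B) (h5 : ‖h x‖ ≤ η * B)
    (h6 : ∀ k' : A →L[ℂ] ℂ, ‖pr h k' (G x)‖ ≤ η * B * ‖k'‖)
    (h7 : ∀ (k' : A →L[ℂ] ℂ) (c : A), ‖pr (ac c h) k' (G x)‖ ≤ η * B * ‖k'‖ * ‖c‖) :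
    ‖pr h k (G c) - h c * k x‖ ≤ η * (4 * ‖G‖ + 6) * B * ‖c‖ := by
  have e1 : pr h k (G c) - h c * k x = pr (ac x h) k (G c) - h x * k c + pr h (ac c k) (G x) -
      pr (ac c h) k (G x) - pr h (ac x k - k) (G c) := by
    rw [pr_sub_right]
    linear_combination -hanti
  have hGc : ‖G c‖ ≤ ‖G‖ * ‖c‖ := G.le_opNorm c
  have b1 : ‖pr (ac x h) k (G c)‖ ≤ (η * B) * 2 * (‖G‖ * ‖c‖) := by
    refine (norm_pr_le _ _ _).trans ?_
    gcongr
  have b2 : ‖h x * k c‖ ≤ (η * B) * (2 * ‖c‖) := by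
    rw [norm_mul]
    have h8 : ‖k c‖ ≤ 2 * ‖c‖ := (k.le_opNorm c).trans (by gcongr)
    gcongr
  have b3 : ‖pr h (ac c k) (G x)‖ ≤ η * B * (‖c‖ * 2) := by
    refine (h6 _).trans ?_
    have h9 : ‖ac c k‖ ≤ ‖c‖ * 2 := (norm_ac_le c k).trans (by gcongr)
    gcongr
  have b4 : ‖pr (ac c h) k (G x)‖ ≤ η * B * 2 * ‖c‖ := by
    refine (h7 _ _).trans ?_
    gcongr
  have b5 : ‖pr h (ac x k - k) (G c)‖ ≤ (2 * B) * η * (‖G‖ * ‖c‖) := by
    refine (norm_pr_le _ _ _).trans ?_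
    gcongr
  rw [e1]
  have t1 := norm_sub_le (pr (ac x h) k (G c) - h x * k c + pr h (ac c k) (G x) -
      pr (ac c h) k (G x)) (pr h (ac x k - k) (G c))
  have t2 := norm_sub_le (pr (ac x h) k (G c) - h x * k c + pr h (ac c k) (G x))
      (pr (ac c h) k (G x))
  have t3 := norm_add_le (pr (ac x h) k (G c) - h x * k c) (pr h (ac c k) (G x))
  have t4 := norm_sub_le (pr (ac x h) k (G c)) (h x * k c)
  have e2 : η * (4 * ‖G‖ + 6) * B * ‖c‖ = (η * B) * 2 * (‖G‖ * ‖c‖) + (η * B) * (2 * ‖c‖) +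
      η * B * (‖c‖ * 2) + η * B * 2 * ‖c‖ + (2 * B) * η * (‖G‖ * ‖c‖) := by ring
  rw [e2]
  linarith

end Job22677

section Job22678

theorem upper_entry (G S : A →L[ℂ] Tens A A)
    (hG : ∀ b c, (tens b c : Tens A A) = lt b (G c) - G (b * c) + rt c (G b))
    (hS : ∀ a b, S (a * b) = lt a (S b)) (C η : ℝ) (hη : 0 ≤ η) (p q : (A →L[ℂ] ℂ) × A)
    (hp : Good C η p) (hq : Good C η q) (hd : Deep G S η p q) (a : A) :
    ‖pr p.1 q.1 (mg G (S a))‖ ≤ (η * (4 * ‖G‖ + 6) * ‖S‖ + 2 * η) * ‖a‖ := by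
  obtain ⟨f, x⟩ := p
  obtain ⟨k, y⟩ := q
  obtain ⟨hp1, hp2, hp3, hp4⟩ := hp
  obtain ⟨hq1, hq2, hq3, hq4⟩ := hq
  obtain ⟨hd1, hd2, hd3, hd4, hd5, hd6, hd7⟩ := hd
  simp only at hp1 hp2 hp3 hp4 hq1 hq2 hq3 hq4 hd1 hd2 hd3 hd4 hd5 hd6 hd7 ⊢
  have hG0 : 0 ≤ η * (4 * ‖G‖ + 6) := by positivity
  have hacn : ∀ b : A, ‖ac b f‖ ≤ 2 * ‖b‖ := by
    intro b
    calc ‖ac b f‖ ≤ ‖b‖ * ‖f‖ := norm_ac_le b f
      _ ≤ ‖b‖ * 2 := by gcongr
      _ = 2 * ‖b‖ := by ring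
  have h1 : ∀ b c : A, ‖((pr f k).comp (mg G) - pr (ac x f) k) (tens b c)‖
      ≤ η * (4 * ‖G‖ + 6) * ‖b‖ * ‖c‖ := by
    intro b c
    have h2 := keyA G (ac b f) k x c (antisym G hG (ac b f) k x c) ‖b‖ η (norm_nonneg _) hη
      (by
        have : ac x (ac b f) - ac b f = ac b (ac x f - f) := by
          rw [ac_sub, ac_comm]
        rw [this]
        refine (norm_ac_le _ _).trans ?_
        rw [mul_comm]
        gcongr)
      (hacn b) hq1 hd1 hd2 hd3 hd4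
    have h3 : ((pr f k).comp (mg G) - pr (ac x f) k) (tens b c)
        = pr (ac b f) k (G c) - (ac b f) x * k c := by
      rw [sub_apply, comp_apply, mg_tens, pr_lt, pr_tens, ac_apply, ac_apply, mul_comm x b]
    rw [h3]
    exact h2
  have h4 := norm_fun_le ((pr f k).comp (mg G) - pr (ac x f) k) _ hG0 h1 (S a)
  have h5 : pr (ac x f) k (S a) = pr (ac a f) k (S x) := by
    rw [← pr_lt, ← hS, mul_comm x a, hS, pr_lt]
  have h6 : ‖pr (ac x f) k (S a)‖ ≤ 2 * η * ‖a‖ := by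
    rw [h5]
    calc ‖pr (ac a f) k (S x)‖ ≤ η * ‖ac a f‖ := hd7 _
      _ ≤ η * (2 * ‖a‖) := by gcongr; exact hacn a
      _ = 2 * η * ‖a‖ := by ring
  have h7 : pr f k (mg G (S a)) = ((pr f k).comp (mg G) - pr (ac x f) k) (S a)
      + pr (ac x f) k (S a) := by
    rw [sub_apply, comp_apply]
    ring
  rw [h7]
  calc ‖((pr f k).comp (mg G) - pr (ac x f) k) (S a) + pr (ac x f) k (S a)‖
      ≤ ‖((pr f k).comp (mg G) - pr (ac x f) k) (S a)‖ + ‖pr (ac x f) k (S a)‖ := norm_add_le _ _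
    _ ≤ η * (4 * ‖G‖ + 6) * ‖S a‖ + 2 * η * ‖a‖ := add_le_add h4 h6
    _ ≤ η * (4 * ‖G‖ + 6) * (‖S‖ * ‖a‖) + 2 * η * ‖a‖ := by
        gcongr
        exact S.le_opNorm a
    _ = _ := by ring

end Job22678

section Job22679

theorem lower_entry [CompleteSpace A] (G S : A →L[ℂ] Tens A A)
    (hG : ∀ b c, (tens b c : Tens A A) = lt b (G c) - G (b * c) + rt c (G b))
    (hS' : ∀ a, pm (S a) = a) (C η : ℝ) (hη : 0 ≤ η) (p q : (A →L[ℂ] ℂ) × A)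
    (hp : Good C η p) (hq : Good C η q) (hd : Deep G S η p q) (a : A) :
    ‖pr q.1 p.1 (mg G (S a)) - q.1 a * p.1 p.2‖ ≤ η * (4 * ‖G‖ + 6) * ‖S‖ * ‖a‖ := by
  obtain ⟨d1, d2, d3, d4, d5, d6, d7⟩ := hd
  obtain ⟨p1, p2, p3, p4⟩ := hp
  obtain ⟨q1, q2, q3, q4⟩ := hq
  have key : ∀ b c, ‖pr (ac b q.1) p.1 (G c) - (ac b q.1) c * p.1 p.2‖ ≤
      η * (4 * ‖G‖ + 6) * ‖b‖ * ‖c‖ := by
    intro b c
    refine keyB G (ac b q.1) p.1 p.2 c (antisym G hG (ac b q.1) p.1 p.2 c) ‖b‖ η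
      (norm_nonneg _) hη p3 ?_ p1 ?_ ?_ ?_ ?_
    · refine (norm_ac_le b q.1).trans ?_
      rw [mul_comm]
      exact mul_le_mul_of_nonneg_right q1 (norm_nonneg _)
    · rw [ac_comm]
      refine (norm_ac_le b _).trans ?_
      rw [mul_comm]
      exact mul_le_mul_of_nonneg_right d1 (norm_nonneg _)
    · have h1 : (ac b q.1) p.2 = (ac p.2 q.1) b := by
        rw [ac_apply, ac_apply, mul_comm]
      rw [h1]
      refine ((ac p.2 q.1).le_opNorm b).trans ?_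
      exact mul_le_mul_of_nonneg_right d1 (norm_nonneg _)
    · intro k'
      refine (d6 k' b).trans (le_of_eq ?_)
      ring
    · intro k' c'
      rw [ac_ac]
      refine (d6 k' (c' * b)).trans ?_
      calc η * ‖k'‖ * ‖c' * b‖ ≤ η * ‖k'‖ * (‖c'‖ * ‖b‖) :=
            mul_le_mul_of_nonneg_left (norm_mul_le _ _) (by positivity)
        _ = η * ‖b‖ * ‖k'‖ * ‖c'‖ := by ring
  have hK : 0 ≤ η * (4 * ‖G‖ + 6) := by positivity
  have hF := norm_fun_le ((pr q.1 p.1).comp (mg G) - (p.1 p.2) • (q.1.comp pm))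
    (η * (4 * ‖G‖ + 6)) hK (fun b c => by
      rw [sub_apply, smul_apply, comp_apply, comp_apply, mg_tens, pr_lt, pm_tens, smul_eq_mul]
      have := key b c
      rw [ac_apply] at this
      rw [mul_comm (p.1 p.2)]
      exact this) (S a)
  rw [sub_apply, smul_apply, comp_apply, comp_apply, hS', smul_eq_mul, mul_comm (p.1 p.2)] at hF
  refine hF.trans ?_
  rw [mul_assoc (η * (4 * ‖G‖ + 6))]
  exact mul_le_mul_of_nonneg_left (S.le_opNorm a) hK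

end Job22679

section Job22680

theorem unit_entry [CompleteSpace A] (G S : A →L[ℂ] Tens A A)
    (hG : ∀ b c, (tens b c : Tens A A) = lt b (G c) - G (b * c) + rt c (G b))
    (C η : ℝ) (hη : 0 ≤ η) (hη1 : η ≤ 1) (p q : (A →L[ℂ] ℂ) × A)
    (hp : Good C η p) (hq : Good C η q) (hd : Deep G S η p q) :
    ‖p.1 (sl q.1 (G q.2)) - 1‖ ≤ η * (4 * ‖G‖ + 6) * C + 3 * η := by
  obtain ⟨hp1, hp2, hp3, hp4⟩ := hp
  obtain ⟨hq1, hq2, hq3, hq4⟩ := hq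
  obtain ⟨hd1, hd2, hd3, hd4, _⟩ := hd
  rw [apply_sl]
  have hk := keyA G p.1 q.1 p.2 q.2 (antisym G hG p.1 q.1 p.2 q.2) 1 η zero_le_one hη
    (by rw [mul_one]; exact hp3) (by rw [mul_one]; exact hp1) hq1 hd1 hd2 hd3 hd4
  have h1 : η * (4 * ‖G‖ + 6) * 1 * ‖q.2‖ ≤ η * (4 * ‖G‖ + 6) * C := by
    rw [mul_one]
    exact mul_le_mul_of_nonneg_left hq2 (by positivity)
  have h2 : ‖p.1 p.2 * q.1 q.2 - 1‖ ≤ 3 * η := by
    have e : p.1 p.2 * q.1 q.2 - 1 = (p.1 p.2 - 1) * (q.1 q.2 - 1) +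
        ((p.1 p.2 - 1) + (q.1 q.2 - 1)) := by ring
    rw [e]
    calc ‖(p.1 p.2 - 1) * (q.1 q.2 - 1) + ((p.1 p.2 - 1) + (q.1 q.2 - 1))‖
        ≤ ‖(p.1 p.2 - 1) * (q.1 q.2 - 1)‖ + ‖(p.1 p.2 - 1) + (q.1 q.2 - 1)‖ := norm_add_le _ _
      _ ≤ ‖p.1 p.2 - 1‖ * ‖q.1 q.2 - 1‖ + (‖p.1 p.2 - 1‖ + ‖q.1 q.2 - 1‖) :=
          add_le_add (norm_mul_le _ _) (norm_add_le _ _)
      _ ≤ η * 1 + (η + η) := by
          refine add_le_add ?_ (add_le_add hp4 hq4)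
          exact mul_le_mul hp4 (hq4.trans hη1) (norm_nonneg _) hη
      _ = 3 * η := by ring
  have e2 : pr p.1 q.1 (G q.2) - 1 = (pr p.1 q.1 (G q.2) - p.1 p.2 * q.1 q.2) +
      (p.1 p.2 * q.1 q.2 - 1) := by ring
  rw [e2]
  exact (norm_add_le _ _).trans (add_le_add (hk.trans h1) h2)

end Job22680

section Job22681

theorem exists_sequence (G S : A →L[ℂ] Tens A A) (C : ℝ)
    (hpair : ∀ (η : ℝ), 0 < η → ∀ Φ : Finset A, ∃ (f : A →L[ℂ] ℂ) (x : A), ‖f‖ ≤ 2 ∧ ‖x‖ ≤ C ∧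
      ‖ac x f - f‖ ≤ η ∧ ‖f x - 1‖ ≤ η ∧ ∀ y ∈ Φ, ‖ac y f‖ ≤ η ∧ ‖f y‖ ≤ η)
    (hsmall : ∀ (z : Tens A A) (ε : ℝ) (hε : 0 < ε), ∃ (Φ : Finset A) (δ : ℝ), 0 < δ ∧
      ∀ k : A →L[ℂ] ℂ, ‖k‖ ≤ 2 → (∀ y ∈ Φ, ‖ac y k‖ ≤ δ ∧ ‖k y‖ ≤ δ) → ∀ h : A →L[ℂ] ℂ,
        ‖pr h k z‖ ≤ ε * ‖h‖ ∧ (∀ c, ‖pr h (ac c k) z‖ ≤ ε * ‖h‖ * ‖c‖) ∧
        ‖pr k h z‖ ≤ ε * ‖h‖ ∧ ∀ c, ‖pr (ac c k) h z‖ ≤ ε * ‖h‖ * ‖c‖)
    (η : ℝ) (hη : 0 < η) :
    ∃ p : ℕ → (A →L[ℂ] ℂ) × A, (∀ n, Good C η (p n)) ∧ ∀ m n, m < n → Deep G S η (p m) (p n) := by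
  classical
  choose Φ δ hδ hk using fun z : Tens A A => hsmall z η hη
  have hmin : ∀ T : Finset ((A →L[ℂ] ℂ) × A), ∃ e : ℝ, 0 < e ∧ e ≤ η ∧
      ∀ p ∈ T, e ≤ δ (G p.2) ∧ e ≤ δ (S p.2) := by
    intro T
    induction T using Finset.induction_on with
    | empty => exact ⟨η, hη, le_rfl, by simp⟩
    | insert a T ha ih =>
      obtain ⟨e, he, heη, h⟩ := ih
      refine ⟨min e (min (δ (G a.2)) (δ (S a.2))), lt_min he (lt_min (hδ _) (hδ _)),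
        (min_le_left _ _).trans heη, ?_⟩
      intro p hp
      rw [Finset.mem_insert] at hp
      rcases hp with rfl | hp
      · exact ⟨(min_le_right _ _).trans (min_le_left _ _),
          (min_le_right _ _).trans (min_le_right _ _)⟩
      · exact ⟨(min_le_left _ _).trans (h p hp).1, (min_le_left _ _).trans (h p hp).2⟩
  refine exists_seq_of_forall_finset_exists (Good C η) (Deep G S η) (fun F _ => ?_)
  obtain ⟨e, he, heη, hF⟩ := hmin F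
  obtain ⟨f, x, hf, hx, h1, h2, h3⟩ := hpair e he
    (F.biUnion (fun p => {p.2} ∪ (Φ (G p.2) ∪ Φ (S p.2))))
  refine ⟨(f, x), ⟨hf, hx, h1.trans heη, h2.trans heη⟩, fun p hp => ?_⟩
  have hmem : ∀ y ∈ ({p.2} ∪ (Φ (G p.2) ∪ Φ (S p.2)) : Finset A), ‖ac y f‖ ≤ e ∧ ‖f y‖ ≤ e := by
    intro y hy
    exact h3 y (Finset.mem_biUnion.2 ⟨p, hp, hy⟩)
  have hG := hk (G p.2) f hf (fun y hy => by
    have h4 := hmem y (by simp only [Finset.mem_union]; exact Or.inr (Or.inl hy))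
    exact ⟨h4.1.trans (hF p hp).1, h4.2.trans (hF p hp).1⟩)
  have hS := hk (S p.2) f hf (fun y hy => by
    have h4 := hmem y (by simp only [Finset.mem_union]; exact Or.inr (Or.inr hy))
    exact ⟨h4.1.trans (hF p hp).2, h4.2.trans (hF p hp).2⟩)
  have hp2 := hmem p.2 (by simp)
  exact ⟨hp2.1.trans heη, hp2.2.trans heη, fun h => (hG h).1, fun h => (hG h).2.1,
    fun h => (hG h).2.2.1, fun h => (hG h).2.2.2, fun h => (hS h).1⟩

end Job22681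

section Job22682

theorem tri_contra (K : ℝ) : ∃ N : ℕ, ∀ (z : Tens A A) (f : ℕ → (A →L[ℂ] ℂ)), ‖z‖ ≤ K →
    (∀ n, ‖f n‖ ≤ 2) → (∀ i j, j < i → i < N → ‖pr (f i) (f j) z - 1‖ ≤ 1 / 4) →
    (∀ i j, i < j → j < N → ‖pr (f i) (f j) z‖ ≤ 1 / 4) → False := by
  classical
  obtain ⟨r, hr⟩ := exists_nat_gt ((32 * |K|) ^ 2 + 1)
  obtain ⟨h, H1, H2⟩ := Pool.Agent.Helper832.Dyad.exists_dyadic.{0} r
  refine ⟨2 * 2 ^ r + 3, ?_⟩
  intro z f hz hf hlo hup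
  have hr0 : (0 : ℝ) < r := by nlinarith [sq_nonneg (32 * |K|)]
  have hsq : 32 * |K| < √(r : ℝ) := by
    rw [Real.lt_sqrt (by positivity)]
    linarith
  have hsqr : √(r : ℝ) * √(r : ℝ) = r := Real.mul_self_sqrt hr0.le
  have hs0 : 0 < √(r : ℝ) := Real.sqrt_pos.2 hr0
  set P : ℕ → ℕ → ℂ := fun i k => if i < 2 ^ r ∧ k < 2 ^ r then pr (f (2 * i + 1)) (f (2 * k + 2)) z
    else if k < i then 1 else 0 with hP
  have e1 := H1 P (1/4) (by
    intro i k hki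
    simp only [hP]
    by_cases hc : i < 2 ^ r ∧ k < 2 ^ r
    · rw [if_pos hc]
      exact hlo (2 * i + 1) (2 * k + 2) (by omega) (by omega)
    · rw [if_neg hc, if_pos hki]; norm_num) (by
    intro i k hik
    simp only [hP]
    by_cases hc : i < 2 ^ r ∧ k < 2 ^ r
    · rw [if_pos hc]
      exact hup (2 * i + 1) (2 * k + 2) (by omega) (by omega)
    · rw [if_neg hc, if_neg (by omega)]; norm_num)
  let F : Tens A A →L[ℂ] ℂ := ∑ i ∈ Finset.range (2 ^ r), ∑ k ∈ Finset.range (2 ^ r),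
    (h i k : ℂ) • pr (f (2 * i + 1)) (f (2 * k + 2))
  have hFz : ∀ x : Tens A A, F x = ∑ i ∈ Finset.range (2 ^ r), ∑ k ∈ Finset.range (2 ^ r),
      (h i k : ℂ) * pr (f (2 * i + 1)) (f (2 * k + 2)) x := by
    intro x
    simp only [F, ContinuousLinearMap.sum_apply, ContinuousLinearMap.smul_apply, smul_eq_mul]
  have e2 : F z = ∑ i ∈ Finset.range (2 ^ r), ∑ k ∈ Finset.range (2 ^ r), (h i k : ℂ) * P i k := by
    rw [hFz]
    apply Finset.sum_congr rfl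
    intro i hi
    apply Finset.sum_congr rfl
    intro k hk
    simp only [hP]
    rw [if_pos ⟨Finset.mem_range.1 hi, Finset.mem_range.1 hk⟩]
  have e3 : ‖F z‖ ≤ (16 * √(r : ℝ)) * ‖z‖ := by
    apply norm_fun_le F (16 * √(r : ℝ)) (by positivity)
    intro a b
    rw [hFz]
    have h1 := H2 ℂ (fun i => (starRingEnd ℂ) (f (2 * i + 1) a)) (fun k => f (2 * k + 2) b) (2 * ‖a‖) (2 * ‖b‖)
      (by
        intro i
        rw [RCLike.norm_conj]
        refine ((f (2 * i + 1)).le_opNorm a).trans ?_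
        exact mul_le_mul_of_nonneg_right (hf _) (norm_nonneg _))
      (by
        intro k
        refine ((f (2 * k + 2)).le_opNorm b).trans ?_
        exact mul_le_mul_of_nonneg_right (hf _) (norm_nonneg _))
    have h2 : ∑ i ∈ Finset.range (2 ^ r), ∑ k ∈ Finset.range (2 ^ r),
        (h i k : ℂ) * pr (f (2 * i + 1)) (f (2 * k + 2)) (tens a b) =
        ∑ i ∈ Finset.range (2 ^ r), ∑ k ∈ Finset.range (2 ^ r),
        (h i k : ℂ) * inner ℂ ((starRingEnd ℂ) (f (2 * i + 1) a)) (f (2 * k + 2) b) := by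
      apply Finset.sum_congr rfl
      intro i hi
      apply Finset.sum_congr rfl
      intro k hk
      rw [pr_tens, RCLike.inner_apply, RCLike.conj_conj]
      ring
    rw [h2]
    refine h1.trans (le_of_eq ?_)
    ring
  have hK : 0 ≤ K := (norm_nonneg _).trans hz
  have e4 : (16 * √(r : ℝ)) * ‖z‖ ≤ (16 * √(r : ℝ)) * K := mul_le_mul_of_nonneg_left hz (by positivity)
  rw [← e2] at e1
  have e5 : (r : ℝ) ≤ ‖F z - r‖ + ‖F z‖ := by
    have h3 : ‖((r : ℝ) : ℂ)‖ = r := by rw [Complex.norm_real, Real.norm_eq_abs, abs_of_pos hr0]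
    have h4 : ‖(F z) - (F z - (r : ℂ))‖ ≤ ‖F z‖ + ‖F z - (r : ℂ)‖ := norm_sub_le _ _
    rw [sub_sub_cancel] at h4
    have h5 : ‖((r : ℕ) : ℂ)‖ = (r : ℝ) := by
      rw [Complex.norm_natCast]
    rw [h5] at h4
    linarith
  rw [abs_of_nonneg hK] at hsq
  nlinarith

end Job22682

section Job22683

theorem main_contra [CompleteSpace A] (G S : A →L[ℂ] Tens A A)
    (hG : ∀ b c, (tens b c : Tens A A) = lt b (G c) - G (b * c) + rt c (G b))
    (hS : ∀ a b, S (a * b) = lt a (S b)) (hS' : ∀ a, pm (S a) = a) (C : ℝ) (hC : 0 < C)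
    (hseq : ∀ η : ℝ, 0 < η → ∃ p : ℕ → (A →L[ℂ] ℂ) × A, (∀ n, Good C η (p n)) ∧
      ∀ m n, m < n → Deep G S η (p m) (p n)) : False := by
  set g : ℝ := ‖G‖ with hg
  set s : ℝ := ‖S‖ with hs
  have hg0 : 0 ≤ g := norm_nonneg _
  have hs0 : 0 ≤ s := norm_nonneg _
  obtain ⟨N, hN⟩ := tri_contra (A := A) (g * (s * (2 * g * C)))
  set a1 : ℝ := (4 * g + 6) * C + 3 with ha1
  set a2 : ℝ := (4 * g + 6) * s * (2 * g * C) with ha2
  set a3 : ℝ := ((4 * g + 6) * s + 2) * (2 * g * C) with ha3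
  have h10 : 0 ≤ a1 := by positivity
  have h20 : 0 ≤ a2 := by positivity
  have h30 : 0 ≤ a3 := by positivity
  set T : ℝ := a2 + 2 * a1 + 1 + a3 + 1 with hT
  have hT0 : 0 < T := by positivity
  obtain ⟨η, hη0, hη1, hηT⟩ : ∃ η : ℝ, 0 < η ∧ η ≤ 1 ∧ η * T ≤ 1 / 4 := by
    refine ⟨min 1 (1 / (4 * T)), lt_min one_pos (by positivity), min_le_left _ _, ?_⟩
    calc min 1 (1 / (4 * T)) * T ≤ 1 / (4 * T) * T :=
          mul_le_mul_of_nonneg_right (min_le_right _ _) hT0.le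
      _ = 1 / 4 := by field_simp
  obtain ⟨p, hgood, hdeep⟩ := hseq η hη0
  have hy : ‖sl (p N).1 (G (p N).2)‖ ≤ 2 * g * C := by
    obtain ⟨q1, q2, q3, q4⟩ := hgood N
    calc ‖sl (p N).1 (G (p N).2)‖ ≤ ‖(p N).1‖ * ‖G (p N).2‖ := norm_sl_le _ _
      _ ≤ 2 * (g * C) := by
          apply mul_le_mul q1 _ (norm_nonneg _) (by norm_num)
          exact (G.le_opNorm _).trans (mul_le_mul_of_nonneg_left q2 hg0)
      _ = 2 * g * C := by ring
  generalize hydef : sl (p N).1 (G (p N).2) = y at hy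
  refine hN (mg G (S y)) (fun n => (p n).1) ?_ ?_ ?_ ?_
  · calc ‖mg G (S y)‖ ≤ g * ‖S y‖ := norm_mg_le _ _
      _ ≤ g * (s * (2 * g * C)) := by
          apply mul_le_mul_of_nonneg_left _ hg0
          exact (S.le_opNorm _).trans (mul_le_mul_of_nonneg_left hy hs0)
  · intro n
    exact (hgood n).1
  · intro i j hji hiN
    have u1 := unit_entry G S hG C η hη0.le hη1 (p i) (p N) (hgood i) (hgood N) (hdeep i N hiN)
    rw [hydef] at u1
    have u2 := lower_entry G S hG hS' C η hη0.le (p j) (p i) (hgood j) (hgood i)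
      (hdeep j i hji) y
    have u3 := (hgood j).2.2.2
    have u1' : ‖(p i).1 y - 1‖ ≤ η * a1 := by
      calc ‖(p i).1 y - 1‖ ≤ η * (4 * ‖G‖ + 6) * C + 3 * η := u1
        _ = η * a1 := by rw [ha1]; ring
    have u2' : ‖pr (p i).1 (p j).1 (mg G (S y)) - (p i).1 y * (p j).1 (p j).2‖ ≤ η * a2 := by
      calc _ ≤ η * (4 * ‖G‖ + 6) * ‖S‖ * ‖y‖ := u2
        _ ≤ η * (4 * ‖G‖ + 6) * ‖S‖ * (2 * g * C) := by
            apply mul_le_mul_of_nonneg_left hy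
            positivity
        _ = η * a2 := by rw [ha2]; ring
    have u4 : ‖(p j).1 (p j).2‖ ≤ 2 := by
      have h1 : (p j).1 (p j).2 = ((p j).1 (p j).2 - 1) + 1 := by ring
      rw [h1]
      refine (norm_add_le _ _).trans ?_
      rw [norm_one]
      linarith
    have e : pr (p i).1 (p j).1 (mg G (S y)) - 1 =
        (pr (p i).1 (p j).1 (mg G (S y)) - (p i).1 y * (p j).1 (p j).2) +
        (((p i).1 y - 1) * (p j).1 (p j).2 + ((p j).1 (p j).2 - 1)) := by ring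
    show ‖pr (p i).1 (p j).1 (mg G (S y)) - 1‖ ≤ 1 / 4
    rw [e]
    calc _ ≤ ‖pr (p i).1 (p j).1 (mg G (S y)) - (p i).1 y * (p j).1 (p j).2‖ +
          ‖((p i).1 y - 1) * (p j).1 (p j).2 + ((p j).1 (p j).2 - 1)‖ := norm_add_le _ _
      _ ≤ η * a2 + (η * a1 * 2 + η) := by
          refine add_le_add u2' ((norm_add_le _ _).trans (add_le_add ?_ u3))
          rw [norm_mul]
          exact mul_le_mul u1' u4 (norm_nonneg _) (by positivity)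
      _ ≤ η * T := by
          have h1 : 0 ≤ η * a3 := by positivity
          rw [hT]
          nlinarith
      _ ≤ 1 / 4 := hηT
  · intro i j hij hjN
    have u2 := upper_entry G S hG hS C η hη0.le (p i) (p j) (hgood i) (hgood j)
      (hdeep i j hij) y
    show ‖pr (p i).1 (p j).1 (mg G (S y))‖ ≤ 1 / 4
    calc _ ≤ (η * (4 * ‖G‖ + 6) * ‖S‖ + 2 * η) * ‖y‖ := u2
      _ ≤ (η * (4 * ‖G‖ + 6) * ‖S‖ + 2 * η) * (2 * g * C) := by
          apply mul_le_mul_of_nonneg_left hy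
          positivity
      _ = η * a3 := by rw [ha3]; ring
      _ ≤ η * T := by
          apply mul_le_mul_of_nonneg_left _ hη0.le
          rw [hT]
          linarith
      _ ≤ 1 / 4 := hηT

end Job22683

end Pool.Agent.Helper832.RD
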