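import Mathlib
import Pool.Agent.Helper832.GDR
import Pool.Agent.Helper832.RDBase

/-!
Dimension at most one and the vanishing of two-dimensional cohomology.
-/

set_option autoImplicit false
set_option maxSynthPendingDepth 3
set_option linter.unusedSectionVars false
set_option linter.unusedVariables false

namespace Pool.Agent.Helper832.RD

open ContinuousLinearMap
open Pool.Agent.Helper832.GD
open Pool.Agent.Helper832.GD.Bim

section General

variable {A : Type} [NonUnitalNormedRing A] [NormedSpace ℂ A] [IsScalarTower ℂ A A]
  [SMulCommClass ℂ A A] [CompleteSpace A]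

/-- central elements of the cosyzygy are inner -/
lemma vanY_key (H : Bim A A) (h : VanY H (plusBim A)) (w : H.N.carrier)
    (hcen : ∀ a, H.N.left a w = H.N.right a w) :
    ∃ g : H.carrier, ∀ c, H.left c g - H.right c g = H.ev c w := by
  have hL : IsHom (X := plusBim A) (Y := H.N) (H.N.Lam w) := by
    refine ⟨fun a x => ?_, fun a x => Lam_right _ _ a x⟩
    have e1 : H.N.Lam w ((plusBim A).left a x) = H.N.Lam (H.N.right a w) x :=
      Lam_left _ _ a x
    refine e1.trans ?_
    rw [← hcen]
    exact (left_Lam _ _ a x).symm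
  obtain ⟨g, hg, hg'⟩ := h _ hL
  refine ⟨g (pone A), fun c => ?_⟩
  have e1 := congrArg (H.ev c) (hg' (pone A))
  have e2 : H.ev c (delta (plusBim A) H g (pone A))
      = H.left c (g (pone A)) - g ((plusBim A).left c (pone A)) :=
    ev_delta (P := plusBim A) (Z := H) g c (pone A)
  have e3 : (plusBim A).left c (pone A) = (plusBim A).right c (pone A) := plusLeft_pone c
  have e4 : g ((plusBim A).right c (pone A)) = H.right c (g (pone A)) :=
    hg c (pone A)
  have e5 : H.N.Lam w (pone A) = w := Lam_one _ _
  rw [e2, e3, e4] at e1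
  rw [e1]
  exact congrArg (H.ev c) e5

/-- dimension at most one: two-dimensional cocycles are coboundaries -/
theorem cob_of_hasResolution (h : (plusBim A).HasResolution 1) (W : Bim A A)
    (F : A →L[ℂ] A →L[ℂ] W.carrier)
    (hF : ∀ b c a, F b (c * a) - F (b * c) a + W.left b (F c a) = W.right a (F b c)) :
    ∃ G : A →L[ℂ] W.carrier, ∀ b c, F b c = W.left b (G c) - G (b * c) + W.right c (G b) := by
  have hv : VanY W.N (plusBim A) := van_of_hasResolution 1 plusBim_rproj h W
  let w : W.N.N.carrier := F.flip
  have hw : ∀ b c, W.ev b (W.N.ev c w) = F b c := fun b c => rfl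
  obtain ⟨g, hg⟩ := vanY_key W.N hv w (by
    intro a
    refine N_ext (fun c => N_ext (fun b => ?_))
    have e1 : W.N.ev c (W.N.N.left a w) = W.N.ev (c * a) w - W.N.left c (W.N.ev a w) := rfl
    have e2 : W.N.ev c (W.N.N.right a w) = W.N.right a (W.N.ev c w) := rfl
    rw [e1, e2, map_sub, ev_left, ev_right, hw, hw, hw, hw, ← hF b c a]
    abel)
  let G : A →L[ℂ] W.carrier := g
  have hG : ∀ b, W.ev b g = G b := fun b => rfl
  refine ⟨-G, fun b c => ?_⟩
  have e := congrArg (W.ev b) (hg c)
  rw [map_sub, ev_left, ev_right, hw, hG, hG, hG] at e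
  rw [← e, neg_apply, neg_apply, neg_apply, map_neg, map_neg]
  abel

end General

section Comm

variable {A : Type} [NonUnitalNormedCommRing A] [NormedSpace ℂ A] [IsScalarTower ℂ A A]
  [SMulCommClass ℂ A A] [CompleteSpace A]

/-- `A` with zero left action -/
noncomputable def XR (A : Type) [NonUnitalNormedCommRing A] [NormedSpace ℂ A] [IsScalarTower ℂ A A]
    [SMulCommClass ℂ A A] [CompleteSpace A] : Bim A A where
  carrier := A
  left := 0
  right := ml
  left_mul := fun a b x => by simp
  right_mul := fun a b x => by
    show (a * b) * x = b * (a * x)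
    rw [mul_comm a b, mul_assoc]
  left_right := fun a b x => by simp

/-- `A` with zero right action -/
noncomputable def XL (A : Type) [NonUnitalNormedCommRing A] [NormedSpace ℂ A] [IsScalarTower ℂ A A]
    [SMulCommClass ℂ A A] [CompleteSpace A] : Bim A A where
  carrier := A
  left := ml
  right := 0
  left_mul := fun a b x => mul_assoc a b x
  right_mul := fun a b x => by simp
  left_right := fun a b x => by simp

lemma XR_left (a : A) (z : Tens A A) : (XR A).K.left a z = lt a z := by
  have h1 : ∀ b c : A, (show Tens A A →L[ℂ] Tens A A from (XR A).K.left a) (tens b c)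
      = (tens (a * b) c - tens a (0 : A) : Tens A A) := fun b c => (XR A).K_left_tens a b c
  have : (show Tens A A →L[ℂ] Tens A A from (XR A).K.left a) = lt a :=
    tens_ext (P := A) (Q := A) (fun b c => by
      rw [h1, lt_tens, map_zero, sub_zero])
  exact congrArg (fun F : Tens A A →L[ℂ] Tens A A => F z) this

lemma XR_right (a : A) (z : Tens A A) : (XR A).K.right a z = rt a z := by
  have h1 : ∀ b c : A, (show Tens A A →L[ℂ] Tens A A from (XR A).K.right a) (tens b c)
      = (tens b (a * c) : Tens A A) := fun b c => (XR A).K_right_tens a b c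
  have : (show Tens A A →L[ℂ] Tens A A from (XR A).K.right a) = rt a :=
    tens_ext (P := A) (Q := A) (fun b c => by rw [h1, rt_tens])
  exact congrArg (fun F : Tens A A →L[ℂ] Tens A A => F z) this

lemma XL_left (a : A) (z : Tens A A) : (XL A).K.left a z = lt a z - tens a (pm z) := by
  have h1 : ∀ b c : A, (show Tens A A →L[ℂ] Tens A A from (XL A).K.left a) (tens b c)
      = (tens (a * b) c - tens a (b * c) : Tens A A) := fun b c => (XL A).K_left_tens a b c
  have : (show Tens A A →L[ℂ] Tens A A from (XL A).K.left a) = lt a - (tens a).comp pm :=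
    tens_ext (P := A) (Q := A) (fun b c => by
      rw [h1, sub_apply, comp_apply, lt_tens, pm_tens])
  exact congrArg (fun F : Tens A A →L[ℂ] Tens A A => F z) this

lemma XL_right (a : A) (z : Tens A A) : (XL A).K.right a z = 0 := by
  have h1 : ∀ b c : A, (show Tens A A →L[ℂ] Tens A A from (XL A).K.right a) (tens b c)
      = (tens b (0 : A) : Tens A A) := fun b c => (XL A).K_right_tens a b c
  have : (show Tens A A →L[ℂ] Tens A A from (XL A).K.right a) = 0 :=
    tens_ext (P := A) (Q := A) (fun b c => by rw [h1, map_zero, zero_apply])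
  exact congrArg (fun F : Tens A A →L[ℂ] Tens A A => F z) this

/-- the cochain `G` -/
theorem exists_G (h : (plusBim A).HasResolution 1) :
    ∃ G : A →L[ℂ] Tens A A,
      ∀ b c, (tens b c : Tens A A) = lt b (G c) - G (b * c) + rt c (G b) := by
  obtain ⟨G, hG⟩ := cob_of_hasResolution h (XR A).K
    (show A →L[ℂ] A →L[ℂ] Tens A A from tens) (by
      intro b c a
      have e1 : (XR A).K.left b (tens c a : Tens A A) = lt b (tens c a) := XR_left b _
      have e2 : (XR A).K.right a (tens b c : Tens A A) = rt a (tens b c) := XR_right a _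
      refine Eq.trans ?_ e2.symm
      rw [rt_tens, mul_comm a c]
      refine Eq.trans (congrArg (fun t : Tens A A => tens b (c * a) - tens (b * c) a + t) e1) ?_
      rw [lt_tens]
      exact sub_add_cancel _ _)
  refine ⟨G, fun b c => ?_⟩
  have e0 := hG b c
  have e1 : (XR A).K.left b (G c) = lt b (G c) := XR_left b _
  have e2 : (XR A).K.right c (G b) = rt c (G b) := XR_right c _
  rw [e1, e2] at e0
  exact e0

/-- the cochain `T` -/
theorem exists_T (h : (plusBim A).HasResolution 1) :
    ∃ T : A →L[ℂ] Tens A A,
      ∀ a x, (tens a x : Tens A A) = lt a (T x) - tens a (pm (T x)) - T (a * x) := by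
  obtain ⟨G, hG⟩ := cob_of_hasResolution h (XL A).K
    (show A →L[ℂ] A →L[ℂ] Tens A A from tens) (by
      intro b c a
      have e1 : (XL A).K.left b (tens c a : Tens A A) = lt b (tens c a) - tens b (pm (tens c a)) :=
        XL_left b _
      have e2 : (XL A).K.right a (tens b c : Tens A A) = 0 := XL_right a _
      refine Eq.trans ?_ e2.symm
      refine Eq.trans (congrArg (fun t : Tens A A => tens b (c * a) - tens (b * c) a + t) e1) ?_
      rw [lt_tens, pm_tens]
      abel)
  refine ⟨G, fun b c => ?_⟩
  have e0 := hG b c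
  have e1 : (XL A).K.left b (G c) = lt b (G c) - tens b (pm (G c)) := XL_left b _
  have e2 : (XL A).K.right c (G b) = 0 := XL_right c _
  rw [e1, e2, add_zero] at e0
  exact e0

end Comm

end Pool.Agent.Helper832.RD
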