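import Mathlib
import Pool.Agent.Helper832.RDA
import Pool.Agent.Helper832.RDB
import Pool.Agent.Helper832.RDH

/-!
A commutative radical Banach algebra has bidimension at least two.
-/

set_option autoImplicit false

namespace Pool.Agent.Helper832.RD

open ContinuousLinearMap
open Pool.Agent.Helper832.GD (Tens tens lift lift_tens tens_ext plusBim)

variable {A : Type} [NonUnitalNormedCommRing A] [NormedSpace ℂ A] [IsScalarTower ℂ A A]
  [SMulCommClass ℂ A A] [CompleteSpace A]

theorem not_hasResolution_one [Nontrivial A] (hrad : ∀ a : A, ∃ b : A, a + b + a * b = 0) :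
    ¬ (plusBim A).HasResolution 1 := by
  intro h
  obtain ⟨G, hG⟩ := exists_G h
  obtain ⟨T, hT⟩ := exists_T h
  have hqn := fun (a : A) (ε : ℝ) (hε : 0 < ε) => qn_of_radical hrad a ε hε
  have hd := dense_squares hrad hqn T hT
  obtain ⟨S, hS', hS⟩ := exists_section hd T hT
  obtain ⟨C, hC, hopen⟩ := hopen_of_section S hS'
  obtain ⟨C', hC', hpair⟩ := exists_pair hqn C hC hopen
  exact main_contra G S hG hS hS' C' hC' (fun η hη =>
    exists_sequence G S C' (fun η hη Φ => hpair η hη Φ) (fun z ε hε => small_tens z ε hε) η hη)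

end Pool.Agent.Helper832.RD
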