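import Mathlib
import Pool.Agent.Helper832.RDC
import Pool.Agent.Helper832.GDStmt
import Pool.Agent.Helper832.GDV
import Pool.Agent.Helper832.GDU

/-!
Commutative radical Banach algebras: both dimensions are greater than one.
-/

set_option autoImplicit false

namespace Pool.Agent.Helper832.RD

open Pool.Agent.Helper832.GS

theorem dims_radical (A : Type) [NonUnitalNormedCommRing A] [NormedSpace ℂ A]
    [IsScalarTower ℂ A A] [SMulCommClass ℂ A A] [CompleteSpace A] [Nontrivial A]
    (hA : ∀ a : A, ∃ b : A, a + b + a * b = 0) : 1 < dg A ∧ 1 < db A := by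
  have hret : Pool.Agent.Helper832.GD.RetractStatement :=
    fun _ _ _ _ _ _ _ _ l r h1 h2 h3 h4 h5 =>
      Pool.Agent.Helper832.RT.retract l r ⟨h1, h2, h3, h4, h5⟩
  have h1 : dg A = db A := dg_eq_db hret
  have h2 : ¬ (plusBMod A).HasResolution 1 := by
    intro h
    exact not_hasResolution_one hA (BMod.of_ofC_hasResolution
      (X := Pool.Agent.Helper832.GD.plusBim A) (by rw [BMod.ofC_plusBim]; exact h))
  have h3 : 1 < db A := by
    have h4 := BMod.le_dh h2
    refine lt_of_lt_of_le ?_ h4
    norm_num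
  exact ⟨h1 ▸ h3, h3⟩

end Pool.Agent.Helper832.RD
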